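import Pool.Agent.Work.MP_7d0410_sv.Interface

/-! # Block VAN -/

set_option autoImplicit false

namespace Pool.Agent.Work.MP_7d0410_sp

open Finset Filter MeasureTheory ProbabilityTheory
open Pool.Agent.Work.MP_7d0410_cr
open scoped Classical Topology

theorem VAN_sm (x : ℕ) (f : ℝ → ℝ) (y : ℝ) (hy : 0 < y) :
    SM x f y = BS (8 * x) (fun t => f (Real.exp t)) (Real.log y) := by
  unfold SM BS
  congr 1
  apply intervalIntegral.integral_congr
  intro s _
  show f (y * Real.exp (-s)) = f (Real.exp (Real.log y - s))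
  rw [sub_eq_add_neg, Real.exp_add, Real.exp_log hy]

theorem VAN_gc (x R R' : ℕ) (f : ℝ → ℝ) (hR : 1 ≤ R) (hRR : R < R') (ν : ℝ) (hν : 0 < ν) :
    ∑ r ∈ Finset.Ioc R R', SM x f (ν / r) - ∫ u in (R : ℝ)..R', SM x f (ν / u) =
      GC (BS (8 * x) (fun t => f (Real.exp t))) R R' (Real.log ν) := by
  unfold GC
  have hR0 : (0 : ℝ) < R := by exact_mod_cast hR
  have hRR' : (R : ℝ) ≤ R' := by exact_mod_cast hRR.le
  congr 1
  · apply Finset.sum_congr rfl
    intro r hr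
    have hr0 : (0 : ℝ) < r := by
      have := (Finset.mem_Ioc.1 hr).1
      exact_mod_cast (by omega : 0 < r)
    rw [VAN_sm x f _ (div_pos hν hr0), Real.log_div hν.ne' hr0.ne']
  · apply intervalIntegral.integral_congr
    intro u hu
    rw [Set.uIcc_of_le hRR'] at hu
    have hu0 : 0 < u := lt_of_lt_of_le hR0 hu.1
    show SM x f (ν / u) = _
    rw [VAN_sm x f _ (div_pos hν hu0), Real.log_div hν.ne' hu0.ne']

/-- The estimate for a continuous function `G`. -/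
theorem VAN_main (G : ℝ → ℝ) (hG : Continuous G) (hGi : Integrable (fun t => (G t) ^ 2))
    (A l I : ℝ) (hA : 1 ≤ A) (hl : 0 < l) (hI : ∫ t, (G t) ^ 2 ≤ I) :
    IntervalIntegrable (fun ν : ℝ => |G (Real.log ν)|) volume 1 A ∧
    ∫ ν in (1 : ℝ)..A, |G (Real.log ν)| ≤ l / 2 * I + A ^ 2 / (4 * l) := by
  have hsub : ∀ ν ∈ Set.uIcc 1 A, 0 < ν := by
    intro ν hν
    rw [Set.uIcc_of_le hA] at hν
    exact lt_of_lt_of_le one_pos hν.1
  have hlog : ContinuousOn Real.log (Set.uIcc 1 A) :=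
    Real.continuousOn_log.mono (fun ν hν => (hsub ν hν).ne')
  have hc1 : ContinuousOn (fun ν : ℝ => |G (Real.log ν)|) (Set.uIcc 1 A) :=
    (hG.comp_continuousOn hlog).abs
  have hinv : ContinuousOn (fun ν : ℝ => ν⁻¹) (Set.uIcc 1 A) :=
    continuousOn_id.inv₀ (fun ν hν => (hsub ν hν).ne')
  have hc2 : ContinuousOn (fun ν : ℝ => (G (Real.log ν)) ^ 2 * ν⁻¹) (Set.uIcc 1 A) :=
    ((hG.comp_continuousOn hlog).pow 2).mul hinv
  have hc3 : Continuous (fun ν : ℝ => ν) := continuous_id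
  refine ⟨hc1.intervalIntegrable, ?_⟩
  have hsubst : ∫ ν in (1 : ℝ)..A, (G (Real.log ν)) ^ 2 * ν⁻¹ =
      ∫ t in (Real.log 1)..(Real.log A), (G t) ^ 2 := by
    have h := intervalIntegral.integral_comp_mul_deriv (a := 1) (b := A) (f := Real.log)
      (f' := fun ν => ν⁻¹) (g := fun t => (G t) ^ 2)
      (fun ν hν => Real.hasDerivAt_log (hsub ν hν).ne') hinv (hG.pow 2)
    exact h
  have hle : ∫ t in (Real.log 1)..(Real.log A), (G t) ^ 2 ≤ I := by
    rw [Real.log_one, intervalIntegral.integral_of_le (Real.log_nonneg hA)]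
    refine le_trans ?_ hI
    exact setIntegral_le_integral hGi (Filter.Eventually.of_forall fun t => sq_nonneg _)
  have hid : ∫ ν in (1 : ℝ)..A, ν = (A ^ 2 - 1 ^ 2) / 2 := integral_id
  have hmono : ∫ ν in (1 : ℝ)..A, |G (Real.log ν)| ≤
      ∫ ν in (1 : ℝ)..A, (l / 2 * ((G (Real.log ν)) ^ 2 * ν⁻¹) + 1 / (2 * l) * ν) := by
    apply intervalIntegral.integral_mono_on hA hc1.intervalIntegrable
    · exact ((hc2.intervalIntegrable.const_mul _).add
        ((hc3.intervalIntegrable 1 A).const_mul _))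
    · intro ν hν
      have hν0 : 0 < ν := lt_of_lt_of_le one_pos hν.1
      have hsq : 0 ≤ (l * |G (Real.log ν)| - ν) ^ 2 := sq_nonneg _
      have habs : |G (Real.log ν)| ^ 2 = (G (Real.log ν)) ^ 2 := sq_abs _
      have hkey : |G (Real.log ν)| * (2 * l * ν) ≤
          (l / 2 * ((G (Real.log ν)) ^ 2 * ν⁻¹) + 1 / (2 * l) * ν) * (2 * l * ν) := by
        have he : (l / 2 * ((G (Real.log ν)) ^ 2 * ν⁻¹) + 1 / (2 * l) * ν) * (2 * l * ν) =
            l ^ 2 * (G (Real.log ν)) ^ 2 + ν ^ 2 := by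
          field_simp
        rw [he, ← habs]
        nlinarith [hsq]
      exact le_of_mul_le_mul_right hkey (by positivity)
  have hsum : ∫ ν in (1 : ℝ)..A, (l / 2 * ((G (Real.log ν)) ^ 2 * ν⁻¹) + 1 / (2 * l) * ν) =
      l / 2 * (∫ ν in (1 : ℝ)..A, (G (Real.log ν)) ^ 2 * ν⁻¹) +
        1 / (2 * l) * ∫ ν in (1 : ℝ)..A, ν := by
    rw [intervalIntegral.integral_add (hc2.intervalIntegrable.const_mul _)
      ((hc3.intervalIntegrable 1 A).const_mul _), intervalIntegral.integral_const_mul,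
      intervalIntegral.integral_const_mul]
  rw [hsum, hsubst, hid] at hmono
  refine hmono.trans ?_
  have h1 : l / 2 * ∫ t in (Real.log 1)..(Real.log A), (G t) ^ 2 ≤ l / 2 * I :=
    mul_le_mul_of_nonneg_left hle (by positivity)
  have h2 : 1 / (2 * l) * ((A ^ 2 - 1 ^ 2) / 2) ≤ A ^ 2 / (4 * l) := by
    have h3 : 1 / (2 * l) * ((A ^ 2 - 1 ^ 2) / 2) = (A ^ 2 - 1) / (4 * l) := by
      field_simp
      ring
    rw [h3]
    apply div_le_div_of_nonneg_right _ (by positivity)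
    linarith
  linarith

theorem p_VAN (h1 : Stmt_VG3) : Stmt_VAN := by
  intro ε hε
  obtain ⟨κ, hκ, hev⟩ := h1 ε hε
  refine ⟨κ / 3, by positivity, ?_⟩
  have hbig : ∀ᶠ x : ℕ in atTop, (5 : ℝ) ≤ (x : ℝ) ^ (ε * (κ / 6)) := by
    have ht : Tendsto (fun x : ℕ => (x : ℝ) ^ (ε * (κ / 6))) atTop atTop :=
      (tendsto_rpow_atTop (by positivity)).comp tendsto_natCast_atTop_atTop
    exact ht.eventually_ge_atTop 5
  filter_upwards [hev, hbig, eventually_ge_atTop 1] with x hx hx5 hx1 R R' f hR hRR hR2 hRx hf hf01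
    hf0
  have hx0 : (0 : ℝ) < x := by exact_mod_cast hx1
  have hx1' : (1 : ℝ) ≤ x := by exact_mod_cast hx1
  have hRpos : (0 : ℝ) < R := lt_of_lt_of_le (Real.rpow_pos_of_pos hx0 _) hR
  have hR1 : 1 ≤ R := by
    have : 0 < R := by exact_mod_cast hRpos
    exact this
  obtain ⟨hGc, hGi, hGI⟩ := hx R R' (fun t => f (Real.exp t)) hR hRR hR2 hRx
    (hf.comp Real.measurable_exp) (fun y => hf01 _) (by
      intro y hy
      apply hf0
      rcases hy with hy | hy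
      · left
        calc Real.exp y < Real.exp 0 := Real.exp_lt_exp.2 hy
          _ = 1 := Real.exp_zero
      · right
        calc (4 : ℝ) * x = Real.exp (Real.log (4 * x)) := (Real.exp_log (by positivity)).symm
          _ < Real.exp y := Real.exp_lt_exp.2 hy)
  set G := GC (BS (8 * x) (fun t => f (Real.exp t))) R R' with hGdef
  have hA : (1 : ℝ) ≤ 4 * x := by linarith
  set l : ℝ := x * (R : ℝ) ^ (κ / 2 - 1) with hl
  have hlpos : 0 < l := mul_pos hx0 (Real.rpow_pos_of_pos hRpos _)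
  obtain ⟨hi1, hi2⟩ := VAN_main G hGc hGi (4 * x) l ((R : ℝ) ^ (2 - κ)) hA hlpos hGI
  have hcongr : ∀ ν ∈ Set.uIcc (1 : ℝ) (4 * x), |∑ r ∈ Finset.Ioc R R', SM x f (ν / r) -
      ∫ u in (R : ℝ)..R', SM x f (ν / u)| = |G (Real.log ν)| := by
    intro ν hν
    rw [Set.uIcc_of_le hA] at hν
    rw [VAN_gc x R R' f hR1 hRR ν (lt_of_lt_of_le one_pos hν.1)]
  constructor
  · refine hi1.congr ?_
    intro ν hν
    exact (hcongr ν (Set.uIoc_subset_uIcc hν)).symm
  · rw [intervalIntegral.integral_congr hcongr]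
    refine hi2.trans ?_
    have e1 : l / 2 * (R : ℝ) ^ (2 - κ) = x * (R : ℝ) ^ (1 - κ / 2) / 2 := by
      rw [hl]
      have : (R : ℝ) ^ (κ / 2 - 1) * (R : ℝ) ^ (2 - κ) = (R : ℝ) ^ (1 - κ / 2) := by
        rw [← Real.rpow_add hRpos]
        congr 1
        ring
      rw [← this]
      ring
    have e2 : (4 * (x : ℝ)) ^ 2 / (4 * l) = 4 * x * (R : ℝ) ^ (1 - κ / 2) := by
      rw [hl]
      have h3 : (R : ℝ) ^ (1 - κ / 2) * (R : ℝ) ^ (κ / 2 - 1) = 1 := by
        rw [← Real.rpow_add hRpos]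
        have : (1 - κ / 2 + (κ / 2 - 1) : ℝ) = 0 := by ring
        rw [this, Real.rpow_zero]
      have h4 : (R : ℝ) ^ (κ / 2 - 1) ≠ 0 := (Real.rpow_pos_of_pos hRpos _).ne'
      rw [div_eq_iff (by positivity)]
      calc (4 * (x : ℝ)) ^ 2 = 16 * x ^ 2 * 1 := by ring
        _ = 16 * x ^ 2 * ((R : ℝ) ^ (1 - κ / 2) * (R : ℝ) ^ (κ / 2 - 1)) := by rw [h3]
        _ = _ := by ring
    rw [e1, e2]
    have e3 : (5 : ℝ) ≤ (R : ℝ) ^ (κ / 6) := by
      refine hx5.trans ?_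
      rw [Real.rpow_mul hx0.le]
      exact Real.rpow_le_rpow (Real.rpow_nonneg hx0.le _) hR (by positivity)
    have e4 : (R : ℝ) ^ (1 - κ / 3) = (R : ℝ) ^ (κ / 6) * (R : ℝ) ^ (1 - κ / 2) := by
      rw [← Real.rpow_add hRpos]
      congr 1
      ring
    rw [e4]
    have e5 : 0 < (R : ℝ) ^ (1 - κ / 2) := Real.rpow_pos_of_pos hRpos _
    have e6 : 5 * (R : ℝ) ^ (1 - κ / 2) ≤ (R : ℝ) ^ (κ / 6) * (R : ℝ) ^ (1 - κ / 2) :=
      mul_le_mul_of_nonneg_right e3 e5.le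
    nlinarith [mul_le_mul_of_nonneg_left e6 hx0.le, mul_pos hx0 e5]

end Pool.Agent.Work.MP_7d0410_sp
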