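import Pool.Agent.Work.MP_7d0410_sv.Interface

/-! # VNC: few runs with large mean gap -/

set_option autoImplicit false

namespace Pool.Agent.Work.MP_7d0410_sp

open Finset Filter MeasureTheory ProbabilityTheory
open Pool.Agent.Work.MP_7d0410_cr
open scoped Classical Topology

lemma VNC_harm (x : ℕ) : ∑ r ∈ Finset.Icc 1 x, (1 : ℝ) / r ≤ 1 + Real.log x := by
  have h := harmonic_le_one_add_log x
  rw [harmonic_eq_sum_Icc] at h
  push_cast at h
  simpa [one_div] using h

/-- the number of runs with sum at most `x` and large mean gap -/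
lemma VNC_count (hNCR : Stmt_NCR) (S : Finset ℕ) (G x : ℕ) (hS : ∀ m ∈ S, 1 ≤ m) (hG : 1 ≤ G) :
    (((runs S).filter (fun q => sm S q ≤ x ∧ q.1 + G * len S q < q.2)).card : ℝ) ≤
      x * (1 + Real.log x) / G := by
  set T3 := (runs S).filter (fun q => sm S q ≤ x ∧ q.1 + G * len S q < q.2) with hT3
  have hmaps : ∀ q ∈ T3, len S q ∈ Finset.Icc 1 x := by
    intro q hq
    rw [hT3, Finset.mem_filter] at hq
    rw [Finset.mem_Icc]
    refine ⟨len_pos hq.1, ?_⟩
    have h2 : len S q * 1 ≤ sm S q := by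
      unfold len sm
      rw [← smul_eq_mul]
      exact Finset.card_nsmul_le_sum _ _ _ fun m hm => hS m (mem_seg.1 hm).1
    omega
  rw [Finset.card_eq_sum_card_fiberwise hmaps]
  push_cast
  have hG' : (0 : ℝ) < G := by exact_mod_cast hG
  have hr : ∀ r ∈ Finset.Icc 1 x, (((T3.filter fun q => len S q = r).card : ℕ) : ℝ) ≤
      x / G * (1 / r) := by
    intro r hr
    rw [Finset.mem_Icc] at hr
    have hr' : (0 : ℝ) < r := by exact_mod_cast hr.1
    have h2 : (T3.filter fun q => len S q = r).card * (G * r) ≤ x := by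
      calc (T3.filter fun q => len S q = r).card * (G * r)
          = (T3.filter fun q => len S q = r).card • (G * r) := by rw [smul_eq_mul]
        _ ≤ ∑ q ∈ T3.filter (fun q => len S q = r), (q.2 - q.1) := by
            apply Finset.card_nsmul_le_sum
            intro q hq
            rw [Finset.mem_filter, hT3, Finset.mem_filter] at hq
            obtain ⟨⟨_, _, h3⟩, h4⟩ := hq
            rw [h4] at h3
            omega
        _ ≤ ∑ q ∈ (runs S).filter (fun q => len S q = r ∧ sm S q ≤ x), (q.2 - q.1) := by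
            apply Finset.sum_le_sum_of_subset
            intro q hq
            rw [Finset.mem_filter, hT3, Finset.mem_filter] at hq
            exact Finset.mem_filter.2 ⟨hq.1.1, hq.2, hq.1.2.1⟩
        _ ≤ x := hNCR S r x
    have h3 : (((T3.filter fun q => len S q = r).card : ℕ) : ℝ) * (G * r) ≤ x := by
      exact_mod_cast h2
    rw [div_mul_div_comm, mul_one, le_div_iff₀ (by positivity)]
    exact h3
  calc ∑ r ∈ Finset.Icc 1 x, (((T3.filter fun q => len S q = r).card : ℕ) : ℝ)
      ≤ ∑ r ∈ Finset.Icc 1 x, x / G * ((1 : ℝ) / r) := Finset.sum_le_sum hr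
    _ = x / G * ∑ r ∈ Finset.Icc 1 x, (1 : ℝ) / r := by rw [Finset.mul_sum]
    _ ≤ x / G * (1 + Real.log x) :=
        mul_le_mul_of_nonneg_left (VNC_harm x) (by positivity)
    _ = x * (1 + Real.log x) / G := by ring

theorem p_VNC (hNCR : Stmt_NCR) : Stmt_VNC := by
  intro p hp U G x hU hG hx
  unfold NG
  rw [← Ex_sum]
  refine Ex_le_const hp fun S hS => ?_
  have hS1 : ∀ m ∈ S, 1 ≤ m := fun m hm => hU m (hS hm)
  refine le_trans ?_ (VNC_count hNCR S G x hS1 hG)
  set T := (runs S).filter (fun q => sm S q ≤ x ∧ q.1 + G * len S q < q.2) with hT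
  have hmaps : ∀ q ∈ T, sm S q ∈ Finset.Icc 1 x := by
    intro q hq
    rw [hT, Finset.mem_filter] at hq
    rw [Finset.mem_Icc]
    refine ⟨?_, hq.2.1⟩
    have h1 := mem_runs.1 hq.1
    have h2 : q.1 ∈ seg S q := mem_seg.2 ⟨h1.1, le_rfl, h1.2.2⟩
    exact (hS1 _ h1.1).trans (le_sm_of_mem h2)
  have h1 : ∑ n ∈ Finset.Icc 1 x,
      ((runs S).filter (fun q => sm S q = n ∧ q.1 + G * len S q < q.2)).card = T.card := by
    rw [Finset.card_eq_sum_card_fiberwise hmaps]
    refine Finset.sum_congr rfl fun n hn => ?_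
    congr 1
    ext q
    rw [hT, Finset.mem_filter, Finset.mem_filter, Finset.mem_filter]
    constructor
    · rintro ⟨h2, h3, h4⟩
      exact ⟨⟨h2, by rw [h3]; exact (Finset.mem_Icc.1 hn).2, h4⟩, h3⟩
    · rintro ⟨⟨h2, h3, h4⟩, h5⟩
      exact ⟨h2, h5, h4⟩
  have h2 : ∑ n ∈ Finset.Icc 1 x,
      (((runs S).filter (fun q => sm S q = n ∧ q.1 + G * len S q < q.2)).card : ℝ) = T.card := by
    rw [← h1]
    push_cast
    rfl
  exact h2.le

end Pool.Agent.Work.MP_7d0410_sp
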