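import Pool.Agent.Work.MP_7d0410_sv.Interface
import Pool.Agent.Work.MP_7d0410_sv.B_VNC
import Pool.Agent.Work.MP_7d0410_cr.B_BD1
import Pool.Agent.Work.MP_7d0410_cr.B_BD2
import Pool.Agent.Work.MP_7d0410_cr.B_BD3

/-! # VBA: few bad values -/

set_option autoImplicit false

namespace Pool.Agent.Work.MP_7d0410_sp

open Finset Filter MeasureTheory ProbabilityTheory
open Pool.Agent.Work.MP_7d0410_cr
open scoped Classical Topology

theorem p_VBA (hNCR : Stmt_NCR) : Stmt_VBA := by
  intro P hP hc ε hε hε4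
  have hlim : ∀ᶠ x : ℕ in atTop, (1 + Real.log x) / GG x ≤ ε ∧ 1 ≤ GG x := by
    have h1 : Tendsto (fun x : ℕ => Real.log (x : ℝ)) atTop atTop :=
      Real.tendsto_log_atTop.comp tendsto_natCast_atTop_atTop
    filter_upwards [h1.eventually_ge_atTop (max 1 (1 / ε))] with x hx
    have hx1 : 1 ≤ Real.log x := (le_max_left _ _).trans hx
    have hx2 : 1 ≤ ε * Real.log x := by
      have := (le_max_right _ _).trans hx
      rwa [div_le_iff₀ hε, mul_comm] at this
    have hG : 40 * (Real.log x) ^ 2 ≤ GG x := Nat.le_ceil _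
    have hG0 : (0 : ℝ) < GG x := lt_of_lt_of_le (by positivity) hG
    refine ⟨?_, by exact_mod_cast hG0⟩
    rw [div_le_iff₀ hG0]
    have h2 : 1 * Real.log x ≤ ε * Real.log x * Real.log x :=
      mul_le_mul_of_nonneg_right hx2 (by linarith)
    have h3 : ε * (40 * Real.log x ^ 2) ≤ ε * GG x := mul_le_mul_of_nonneg_left hG hε.le
    nlinarith
  filter_upwards [p_BD2 P hc ε hε hε4, p_BD3 P hc ε hε hε4, hlim] with x e2 e3 e4
  have hsub : ((runs (PP P x)).filter (fun q => sm (PP P x) q ≤ x ∧ (len (PP P x) q < R0 ε x ∨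
      q.1 < a0 ε x ∨ (a0 ε x ≤ q.1 ∧ q.1 + GG x * len (PP P x) q < q.2)))) ⊆
      (((runs (PP P x)).filter (fun q => sm (PP P x) q ≤ x ∧ len (PP P x) q < R0 ε x)) ∪
      ((runs (PP P x)).filter (fun q => sm (PP P x) q ≤ x ∧ q.1 < a0 ε x))) ∪
      ((runs (PP P x)).filter (fun q => sm (PP P x) q ≤ x ∧
        q.1 + GG x * len (PP P x) q < q.2)) := by
    intro q hq
    obtain ⟨hq1, hq2, hq3⟩ := mem_filter.1 hq
    rcases hq3 with h | h | h
    · exact mem_union_left _ (mem_union_left _ (mem_filter.2 ⟨hq1, hq2, h⟩))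
    · exact mem_union_left _ (mem_union_right _ (mem_filter.2 ⟨hq1, hq2, h⟩))
    · exact mem_union_right _ (mem_filter.2 ⟨hq1, hq2, h.2⟩)
  have hcard := (p_BD1 P ε x hP).trans ((card_le_card hsub).trans ((card_union_le _ _).trans
    (Nat.add_le_add_right (card_union_le _ _) _)))
  have hcast : (((Finset.Icc 1 x).filter
      (fun n => repCount P n ≠ cnt (R0 ε x) (GG x) (SS ε x P) n)).card : ℝ) ≤
      (((runs (PP P x)).filter (fun q => sm (PP P x) q ≤ x ∧ len (PP P x) q < R0 ε x)).card : ℝ) +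
      (((runs (PP P x)).filter (fun q => sm (PP P x) q ≤ x ∧ q.1 < a0 ε x)).card : ℝ) +
      (((runs (PP P x)).filter (fun q => sm (PP P x) q ≤ x ∧
        q.1 + GG x * len (PP P x) q < q.2)).card : ℝ) := by
    exact_mod_cast hcard
  have h3 := VNC_count hNCR (PP P x) (GG x) x (by
    intro m hm
    exact (BD1_mem_PP.1 hm).1.1) e4.2
  have h4 : (x : ℝ) * (1 + Real.log x) / GG x ≤ ε * x := by
    rw [mul_div_assoc, mul_comm]
    exact mul_le_mul_of_nonneg_right e4.1 (Nat.cast_nonneg x)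
  have hx : 0 ≤ ε * x := by positivity
  linarith

end Pool.Agent.Work.MP_7d0410_sp
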