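import Pool.Agent.Work.MP_7d0410_sv.Interface

/-! # Block VCD: Chernoff bound, upper tail -/

set_option autoImplicit false

namespace Pool.Agent.Work.MP_7d0410_sp

open Finset Filter MeasureTheory ProbabilityTheory
open Pool.Agent.Work.MP_7d0410_cr
open scoped Classical Topology

lemma VCD_gen {p : ℕ → ℝ} (hp : Prob p) (I : Finset ℕ) (c : ℝ) (hc : 0 ≤ c) :
    Ex p I (fun S => c ^ S.card) ≤ Real.exp ((c - 1) * ∑ m ∈ I, p m) := by
  have h1 : Ex p I (fun S => c ^ S.card) = Ex p I (fun S => ∏ m ∈ S, (fun _ => c) m) := by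
    refine Ex_congr fun S _ => ?_
    rw [Finset.prod_const]
  rw [h1, Ex_prod, Finset.mul_sum, Real.exp_sum]
  apply Finset.prod_le_prod
  · intro m _
    have h2 := (hp m).2
    have h3 := (hp m).1
    have h4 : 0 ≤ 1 - p m := by linarith
    positivity
  · intro m _
    have h2 := Real.add_one_le_exp ((c - 1) * p m)
    linarith

theorem p_VCD : Stmt_VCD := by
  intro p hp U I M δ hI hδ hδ1 hM
  have hM0 : 0 ≤ M := le_trans (Finset.sum_nonneg fun m _ => (hp m).1) hM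
  have h1 : Pb p U (fun S => (1 + δ) * M ≤ ((S ∩ I).card : ℝ)) =
      Pb p I (fun S => (1 + δ) * M ≤ (S.card : ℝ)) :=
    Pb_inter hI (fun S => (1 + δ) * M ≤ (S.card : ℝ))
  rw [h1]
  set θ := Real.log (1 + δ) with hθ
  have hθ0 : 0 ≤ θ := Real.log_nonneg (by linarith)
  have hexp : Real.exp θ = 1 + δ := Real.exp_log (by linarith)
  have h2 : Pb p I (fun S => (1 + δ) * M ≤ (S.card : ℝ)) ≤
      Ex p I (fun S => Real.exp (-(θ * ((1 + δ) * M))) * (1 + δ) ^ S.card) := by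
    apply Pb_le_Ex hp
    · intro S _
      have : 0 ≤ 1 + δ := by linarith
      positivity
    · intro S _ hS
      rw [← hexp, ← Real.exp_nat_mul, ← Real.exp_add]
      apply Real.one_le_exp
      rw [hexp]
      nlinarith
  rw [Ex_const_mul] at h2
  have h3 := VCD_gen hp I (1 + δ) (by linarith)
  have h4 : Real.exp (-(θ * ((1 + δ) * M))) * Ex p I (fun S => (1 + δ) ^ S.card) ≤
      Real.exp (-(θ * ((1 + δ) * M))) * Real.exp ((1 + δ - 1) * ∑ m ∈ I, p m) :=
    mul_le_mul_of_nonneg_left h3 (Real.exp_pos _).le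
  rw [← Real.exp_add] at h4
  refine (h2.trans h4).trans (Real.exp_le_exp.2 ?_)
  have h5 : 2 * δ / (δ + 2) ≤ θ := Real.le_log_one_add_of_nonneg hδ.le
  have h6 : (1 + δ - 1) * ∑ m ∈ I, p m ≤ δ * M := by
    rw [add_sub_cancel_left]
    exact mul_le_mul_of_nonneg_left hM hδ.le
  have h7 : δ + δ ^ 2 / 4 ≤ θ * (1 + δ) := by
    have h8 : δ + δ ^ 2 / 4 ≤ 2 * δ / (δ + 2) * (1 + δ) := by
      rw [div_mul_eq_mul_div, le_div_iff₀ (by linarith)]
      nlinarith [sq_nonneg δ, mul_nonneg (sq_nonneg δ) (by linarith : (0 : ℝ) ≤ 1 - δ),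
        mul_nonneg hδ.le hδ.le]
    exact h8.trans (mul_le_mul_of_nonneg_right h5 (by linarith))
  have h9 : (δ + δ ^ 2 / 4) * M ≤ θ * (1 + δ) * M := mul_le_mul_of_nonneg_right h7 hM0
  nlinarith

end Pool.Agent.Work.MP_7d0410_sp
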