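import Pool.Agent.Work.MP_7d0410_sv.Interface
import Pool.Agent.Work.MP_7d0410_cr.B_BCL
import Mathlib.NumberTheory.Chebyshev

set_option autoImplicit false

/-! Block VCG (helper38, after the block CRG of helper40): the counting function. -/

namespace Pool.Agent.Work.MP_7d0410_sp

open Finset Filter MeasureTheory ProbabilityTheory
open Pool.Agent.Work.MP_7d0410_cr
open scoped Classical Topology

theorem VCG_log : ∀ᶠ y : ℕ in atTop, Real.log y ≤ √(y : ℝ) / 8 := by
  have h1 := (isLittleO_log_rpow_atTop (by norm_num : (0 : ℝ) < 1 / 2)).bound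
    (by norm_num : (0 : ℝ) < 1 / 8)
  have h2 := tendsto_natCast_atTop_atTop (R := ℝ)
  filter_upwards [h2.eventually h1] with y hy
  rw [Real.norm_eq_abs, Real.norm_eq_abs, abs_of_nonneg (Real.rpow_nonneg (Nat.cast_nonneg _) _),
    ← Real.sqrt_eq_rpow] at hy
  have h3 := le_abs_self (Real.log (y : ℝ))
  linarith

theorem VCG_sum {w : ℕ → ℝ} (hw : SVW w) : ∀ᶠ y : ℕ in atTop,
    ∑ m ∈ (Finset.Icc 2 y).filter (fun m => ¬ m.Prime), pw w m ≤
      √(y : ℝ) + (y : ℝ) * (1 / (16 * Real.log y)) := by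
  have hsm := hw.small.eventually (eventually_le_nhds (by norm_num : (0 : ℝ) < 1 / 32))
  obtain ⟨M, hM⟩ := eventually_atTop.1 hsm
  filter_upwards [eventually_ge_atTop (M * M), eventually_ge_atTop 3] with y hyM hy3
  have hyr : (3 : ℝ) ≤ y := by exact_mod_cast hy3
  have hy0 : (0 : ℝ) < y := by linarith
  have hs0 : 0 < √(y : ℝ) := Real.sqrt_pos.2 hy0
  have hlog : 0 < Real.log y := Real.log_pos (by linarith)
  have hMs : (M : ℝ) ≤ √(y : ℝ) := by
    refine Real.le_sqrt_of_sq_le ?_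
    have : ((M * M : ℕ) : ℝ) ≤ y := by exact_mod_cast hyM
    push_cast at this
    rw [sq]
    exact this
  have h1 : ∀ m ∈ (Finset.Icc 2 y).filter (fun m => ¬ m.Prime), pw w m ≤
      (if (m : ℝ) ≤ √(y : ℝ) then 1 else 0) + 1 / (16 * Real.log y) := by
    intro m hm
    rw [Finset.mem_filter, Finset.mem_Icc] at hm
    have hpos : 0 < 1 / (16 * Real.log (y : ℝ)) := by positivity
    by_cases h2 : (m : ℝ) ≤ √(y : ℝ)
    · rw [if_pos h2]
      have h3 := pw_le_one hw m
      linarith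
    · rw [if_neg h2, zero_add, pw_not_prime hm.2]
      push Not at h2
      have h4 : M ≤ m := by
        have : (M : ℝ) ≤ m := hMs.trans h2.le
        exact_mod_cast this
      have h5 := hM m h4
      have h6 : Real.log y / 2 ≤ Real.log m := by
        have h7 := Real.log_le_log hs0 h2.le
        rwa [Real.log_sqrt hy0.le] at h7
      have h8 : w m * (Real.log y / 2) ≤ 1 / 32 :=
        (mul_le_mul_of_nonneg_left h6 (hw.pos m).le).trans h5
      rw [le_div_iff₀ (by positivity)]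
      linarith
  have h2 : ∑ m ∈ (Finset.Icc 2 y).filter (fun m => ¬ m.Prime),
      (if (m : ℝ) ≤ √(y : ℝ) then (1 : ℝ) else 0) ≤ √(y : ℝ) := by
    rw [← Finset.sum_filter, Finset.sum_const, nsmul_eq_mul, mul_one]
    have h3 : (((Finset.Icc 2 y).filter (fun m => ¬ m.Prime)).filter
        (fun m : ℕ => (m : ℝ) ≤ √(y : ℝ))) ⊆ Finset.Icc 1 ⌊√(y : ℝ)⌋₊ := by
      intro m hm
      rw [Finset.mem_filter, Finset.mem_filter, Finset.mem_Icc] at hm
      rw [Finset.mem_Icc]
      exact ⟨by omega, Nat.le_floor hm.2⟩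
    have h4 := Finset.card_le_card h3
    rw [Nat.card_Icc, Nat.add_sub_cancel] at h4
    calc ((((Finset.Icc 2 y).filter (fun m => ¬ m.Prime)).filter
          (fun m : ℕ => (m : ℝ) ≤ √(y : ℝ))).card : ℝ)
        ≤ (⌊√(y : ℝ)⌋₊ : ℝ) := by exact_mod_cast h4
      _ ≤ √(y : ℝ) := Nat.floor_le hs0.le
  have h5 : ∑ _m ∈ (Finset.Icc 2 y).filter (fun m => ¬ m.Prime), 1 / (16 * Real.log (y : ℝ)) ≤
      (y : ℝ) * (1 / (16 * Real.log y)) := by
    rw [Finset.sum_const, nsmul_eq_mul]
    have h6 : (((Finset.Icc 2 y).filter (fun m => ¬ m.Prime)).card : ℝ) ≤ y := by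
      have h7 := Finset.card_filter_le (Finset.Icc 2 y) (fun m => ¬ m.Prime)
      rw [Nat.card_Icc] at h7
      have : ((Finset.Icc 2 y).filter (fun m => ¬ m.Prime)).card ≤ y := by omega
      exact_mod_cast this
    exact mul_le_mul_of_nonneg_right h6 (by positivity)
  calc ∑ m ∈ (Finset.Icc 2 y).filter (fun m => ¬ m.Prime), pw w m
      ≤ ∑ m ∈ (Finset.Icc 2 y).filter (fun m => ¬ m.Prime),
        ((if (m : ℝ) ≤ √(y : ℝ) then (1 : ℝ) else 0) + 1 / (16 * Real.log y)) :=
        Finset.sum_le_sum h1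
    _ = ∑ m ∈ (Finset.Icc 2 y).filter (fun m => ¬ m.Prime),
          (if (m : ℝ) ≤ √(y : ℝ) then (1 : ℝ) else 0) +
        ∑ _m ∈ (Finset.Icc 2 y).filter (fun m => ¬ m.Prime), 1 / (16 * Real.log (y : ℝ)) :=
        Finset.sum_add_distrib
    _ ≤ _ := by linarith

/-- the exponent is large -/
theorem VCG_num {w : ℕ → ℝ} (hw : SVW w) : ∀ᶠ y : ℕ in atTop,
    2 * ∑ m ∈ (Finset.Icc 2 y).filter (fun m => ¬ m.Prime), pw w m - (y : ℝ) / Real.log y ≤
      -(2 * Real.log y) := by
  filter_upwards [VCG_log, VCG_sum hw, eventually_ge_atTop 3] with y hL hs hy3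
  have hyr : (3 : ℝ) ≤ y := by exact_mod_cast hy3
  have hy0 : (0 : ℝ) < y := by linarith
  have hlog : 0 < Real.log y := Real.log_pos (by linarith)
  set s : ℝ := √(y : ℝ) with hsd
  set L : ℝ := Real.log y with hLd
  have hs0 : 0 < s := Real.sqrt_pos.2 hy0
  have hss : s * s = y := Real.mul_self_sqrt hy0.le
  have k1 : L * (2 * s) ≤ y / 4 := by
    have : L * (2 * s) ≤ (s / 8) * (2 * s) :=
      mul_le_mul_of_nonneg_right hL (by positivity)
    nlinarith
  have k3 : L * (2 * L) ≤ y / 4 := by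
    have : L * (2 * L) ≤ (s / 8) * (2 * (s / 8)) :=
      mul_le_mul hL (by linarith) (by positivity) (by positivity)
    nlinarith
  have k2 : (y : ℝ) * (1 / (16 * L)) = (y / 16) / L := by
    field_simp
  have k4 : 2 * s + 2 * ((y : ℝ) * (1 / (16 * L))) + 2 * L ≤ y / L := by
    rw [k2]
    have k5 : 2 * s ≤ (y / 4) / L := by
      rw [le_div_iff₀ hlog]; linarith
    have k6 : 2 * L ≤ (y / 4) / L := by
      rw [le_div_iff₀ hlog]; linarith
    have k7 : (y : ℝ) / L = (y / 4) / L + (y / 4) / L + 8 * ((y / 16) / L) := by ring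
    have k8 : 0 < (y / 16 : ℝ) / L := by positivity
    linarith
  linarith

theorem p_VCG.{u} (hL : Stmt_VLW.{u}) (hC : Stmt_CHU) : Stmt_VCG.{u} := by
  intro Ω _ μ _ E w hw hE
  set V : ℕ → Finset ℕ := fun y => (Finset.Icc 2 y).filter (fun m => ¬ m.Prime) with hV
  have hbc : ∀ᵐ ω ∂μ, ∀ᶠ y : ℕ in atTop, ω ∉ {ω | (y : ℝ) / Real.log y ≤
      (((((Finset.Icc 2 y).filter (fun m => m ∈ primesPlus E ω)) ∩ V y).card : ℕ) : ℝ)} := by
    refine BCL_bc μ _ (fun y => 1 / (y : ℝ) ^ 2) (Real.summable_one_div_nat_pow.mpr (by norm_num)) ?_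
    filter_upwards [VCG_num hw, eventually_ge_atTop 3] with y hy hy3
    have hlaw := (hL μ E w hw hE (Finset.Icc 2 y) (fun m hm => (Finset.mem_Icc.1 hm).1)
      (fun S => (y : ℝ) / Real.log y ≤ ((S ∩ V y).card : ℝ))).2
    have hset : {ω | (y : ℝ) / Real.log y ≤
      (((((Finset.Icc 2 y).filter (fun m => m ∈ primesPlus E ω)) ∩ V y).card : ℕ) : ℝ)} =
      {ω | (fun S : Finset ℕ => (y : ℝ) / Real.log y ≤ ((S ∩ V y).card : ℝ))
        ((Finset.Icc 2 y).filter (fun m => m ∈ primesPlus E ω))} := rfl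
    rw [hset, hlaw]
    have hpi : Pb (pw w) (Finset.Icc 2 y) (fun S => (y : ℝ) / Real.log y ≤ ((S ∩ V y).card : ℝ)) =
        Pb (pw w) (V y) (fun S => (y : ℝ) / Real.log y ≤ (S.card : ℝ)) :=
      Pb_inter (p := pw w) (Finset.filter_subset _ _)
        (fun S : Finset ℕ => (y : ℝ) / Real.log y ≤ (S.card : ℝ))
    rw [hpi]
    refine (hC (pw w) (prob_pw hw) (V y) _).trans ((Real.exp_le_exp.2 hy).trans (le_of_eq ?_))
    have hy0 : (0 : ℝ) < y := by
      have : 0 < y := by omega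
      exact_mod_cast this
    rw [Real.exp_neg, two_mul, Real.exp_add, Real.exp_log hy0, one_div, sq]
  have hpr : ∀ᶠ y : ℕ in atTop, (((Finset.Icc 1 y).filter Nat.Prime).card : ℝ) ≤
      3 * ((y : ℝ) / Real.log y) := by
    have h1 := Chebyshev.eventually_primeCounting_le (by norm_num : (0 : ℝ) < 1)
    have h2 := tendsto_natCast_atTop_atTop (R := ℝ)
    filter_upwards [h2.eventually h1, eventually_ge_atTop 3] with y hy hy3
    have hyr : (3 : ℝ) ≤ y := by exact_mod_cast hy3
    have hlog : 0 < Real.log y := Real.log_pos (by linarith)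
    rw [Nat.floor_natCast] at hy
    have h3 : ((Finset.Icc 1 y).filter Nat.Prime).card ≤ Nat.primeCounting y := by
      rw [Nat.primeCounting, Nat.primeCounting', Nat.count_eq_card_filter_range]
      refine Finset.card_le_card ?_
      intro m hm
      rw [Finset.mem_filter, Finset.mem_Icc] at hm
      rw [Finset.mem_filter, Finset.mem_range]
      exact ⟨by omega, hm.2⟩
    have h4 : Real.log 4 ≤ 2 := by
      have h5 : Real.log 4 = 2 * Real.log 2 := by
        rw [show (4 : ℝ) = 2 ^ 2 by norm_num, Real.log_pow]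
        norm_num
      have := Real.log_two_lt_d9
      linarith
    calc (((Finset.Icc 1 y).filter Nat.Prime).card : ℝ) ≤ (Nat.primeCounting y : ℝ) := by
          exact_mod_cast h3
      _ ≤ (Real.log 4 + 1) * y / Real.log y := hy
      _ = (Real.log 4 + 1) * (y / Real.log y) := by ring
      _ ≤ 3 * ((y : ℝ) / Real.log y) :=
          mul_le_mul_of_nonneg_right (by linarith) (by positivity)
  filter_upwards [hbc] with ω hω
  unfold CountReg
  filter_upwards [hω, hpr, eventually_ge_atTop 3] with y h1 h2 hy3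
  have hyr : (3 : ℝ) ≤ y := by exact_mod_cast hy3
  have hlog : 0 < Real.log y := Real.log_pos (by linarith)
  have h0 : 0 < (y : ℝ) / Real.log y := by positivity
  have h3 : (((((Finset.Icc 2 y).filter (fun m => m ∈ primesPlus E ω)) ∩ V y).card : ℕ) : ℝ) <
      (y : ℝ) / Real.log y := not_le.1 h1
  have h4 : PP (primesPlus E ω) y ⊆ ((Finset.Icc 1 y).filter Nat.Prime) ∪
      (((Finset.Icc 2 y).filter (fun m => m ∈ primesPlus E ω)) ∩ V y) := by
    intro m hm
    unfold PP at hm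
    rw [Finset.mem_filter, Finset.mem_Icc] at hm
    rw [Finset.mem_union, Finset.mem_filter, Finset.mem_Icc, Finset.mem_inter, Finset.mem_filter,
      Finset.mem_Icc, hV, Finset.mem_filter, Finset.mem_Icc]
    by_cases hp : m.Prime
    · exact Or.inl ⟨hm.1, hp⟩
    · right
      have h5 : 2 ≤ m := by
        rcases hm.2 with h6 | h6
        · exact h6.two_le
        · exact h6.1
      exact ⟨⟨⟨h5, hm.1.2⟩, hm.2⟩, ⟨h5, hm.1.2⟩, hp⟩
  have h5 : ((PP (primesPlus E ω) y).card : ℝ) ≤ (((Finset.Icc 1 y).filter Nat.Prime).card : ℝ) +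
      (((((Finset.Icc 2 y).filter (fun m => m ∈ primesPlus E ω)) ∩ V y).card : ℕ) : ℝ) := by
    have h6 := (Finset.card_le_card h4).trans (Finset.card_union_le _ _)
    exact_mod_cast h6
  linarith

end Pool.Agent.Work.MP_7d0410_sp
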