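import Pool.Agent.Work.MP_7d0410_sv.Interface
import Pool.Agent.Work.MP_7d0410_cr.B_CO
import Pool.Agent.Work.MP_7d0410_cr.B_C1A

/-!
# The primes with a random set of slowly varying density added: collisions are rare (block VCO)
-/

set_option autoImplicit false

namespace Pool.Agent.Work.MP_7d0410_sp

open Finset Filter MeasureTheory ProbabilityTheory
open Pool.Agent.Work.MP_7d0410_cr
open scoped Classical Topology

theorem p_VCO (h1 : Stmt_VCR) (h2 : Stmt_C1S) (h3 : Stmt_C2A) : Stmt_VCO := by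
  intro w hw ε η hε hε4 hη
  have hprob := prob_pw hw
  filter_upwards [h1 w hw ε hε hε4, CO_par ε hε (8 * 41), CO_log (ε / 2) (by linarith) (3000 / η)]
    with x k1 k2 k3
  obtain ⟨ha64, hx8, hx1⟩ := k2
  have hX1 : (1 : ℝ) ≤ x := by exact_mod_cast hx1
  have hX : (0 : ℝ) < x := by linarith
  have hpos : ∀ s : ℝ, 0 < (x : ℝ) ^ s := fun s => Real.rpow_pos_of_pos hX s
  have hlog : 0 ≤ Real.log x := Real.log_nonneg hX1
  obtain ⟨W, hW⟩ : ∃ W, W = (Real.log x) ^ 2 + 1 := ⟨_, rfl⟩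
  have hW1 : 1 ≤ W := by rw [hW]; nlinarith [sq_nonneg (Real.log x)]
  have hlogW : 1 + Real.log x ≤ 2 * W := by
    rw [hW]
    nlinarith [sq_nonneg (Real.log x - 1), sq_nonneg (Real.log x)]
  rw [← hW] at k3 hx8
  have hG : (GG x : ℝ) ≤ 41 * W := by rw [hW]; exact CO_GG x
  have hG0 : (0 : ℝ) ≤ GG x := Nat.cast_nonneg _
  have hA : (x : ℝ) ^ (1 / 2 + ε) ≤ a0 ε x := Nat.le_ceil _
  have hA0 : (0 : ℝ) < a0 ε x := (hpos _).trans_le hA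
  have hA2 : (x : ℝ) ^ (1 + 2 * ε) ≤ (a0 ε x : ℝ) ^ 2 := by
    have e1 : ((x : ℝ) ^ (1 / 2 + ε)) ^ 2 = (x : ℝ) ^ (1 + 2 * ε) := by
      rw [← Real.rpow_natCast, ← Real.rpow_mul hX.le]
      congr 1
      push_cast
      ring
    rw [← e1]
    exact pow_le_pow_left₀ (hpos _).le hA 2
  have hR : (x : ℝ) ^ ε ≤ R0 ε x := Nat.le_ceil _
  have hR1 : 1 ≤ R0 ε x := by
    have : (1 : ℝ) ≤ R0 ε x := (Real.one_le_rpow hX1 hε.le).trans hR
    exact_mod_cast this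
  have hx2 : (x : ℝ) ^ (2 : ℝ) = (x : ℝ) ^ 2 := by
    rw [← Real.rpow_natCast]
    norm_num
  -- the bound for x ^ 2 / a ^ 2
  have hq : (x : ℝ) ^ 2 / (a0 ε x : ℝ) ^ 2 ≤ (x : ℝ) ^ (1 - 2 * ε) := by
    rw [div_le_iff₀ (by positivity), ← hx2]
    calc (x : ℝ) ^ (2 : ℝ) = (x : ℝ) ^ (1 - 2 * ε) * (x : ℝ) ^ (1 + 2 * ε) := by
          rw [← Real.rpow_add hX]
          congr 1
          ring
      _ ≤ _ := mul_le_mul_of_nonneg_left hA2 (hpos _).le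
  -- the common factor
  obtain ⟨Y, hY⟩ : ∃ Y, Y = (x : ℝ) ^ (1 - ε / 2) := ⟨_, rfl⟩
  have hY0 : 0 < Y := by rw [hY]; exact hpos _
  have hBq : (x : ℝ) ^ (ε / 2) * ((x : ℝ) ^ 2 / (a0 ε x : ℝ) ^ 2) ≤ Y := by
    refine (mul_le_mul_of_nonneg_left hq (hpos _).le).trans ?_
    rw [← Real.rpow_add hX, hY]
    exact Real.rpow_le_rpow_of_exponent_le hX1 (by linarith)
  rw [Finset.sum_add_distrib]
  -- the first sum
  have s1 : ∑ n ∈ Finset.Icc 1 x, T1 (pw w) (UU ε x) (R0 ε x) (GG x) n ≤ 984 * (W * Y) := by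
    have e1 : ∑ n ∈ Finset.Icc 1 x, T1 (pw w) (UU ε x) (R0 ε x) (GG x) n ≤
        Ex (pw w) (UU ε x) (fun S => 2 * ((AB S (GG x) x).card : ℝ)) := by
      unfold T1
      rw [← Ex_sum]
      refine Ex_mono hprob fun S hS => ?_
      have hpos : ∀ m ∈ S, 1 ≤ m := by
        intro m hm
        have := (Finset.mem_Icc.1 (hS hm)).1
        omega
      exact_mod_cast p_C1A S (R0 ε x) (GG x) x hpos
    refine e1.trans ?_
    rw [Ex_const_mul]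
    have e2 := h2 (pw w) hprob (a0 ε x) (2 * x) x (GG x) ⌈(x : ℝ) ^ (ε / 4)⌉₊ ((x : ℝ) ^ (ε / 2)) (by omega)
      (hpos _).le (fun l m hl => k1 l m ((Nat.le_ceil _).trans (by exact_mod_cast hl)))
    have hL : (⌈(x : ℝ) ^ (ε / 4)⌉₊ : ℝ) ≤ 2 * (x : ℝ) ^ (ε / 4) := by
      have h5 : (⌈(x : ℝ) ^ (ε / 4)⌉₊ : ℝ) < (x : ℝ) ^ (ε / 4) + 1 := Nat.ceil_lt_add_one (hpos _).le
      have h6 : 1 ≤ (x : ℝ) ^ (ε / 4) := Real.one_le_rpow hX1 (by linarith)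
      linarith
    have hL2 : (⌈(x : ℝ) ^ (ε / 4)⌉₊ : ℝ) ^ 2 ≤ 4 * (x : ℝ) ^ (ε / 2) := by
      calc (⌈(x : ℝ) ^ (ε / 4)⌉₊ : ℝ) ^ 2 ≤ (2 * (x : ℝ) ^ (ε / 4)) ^ 2 :=
            pow_le_pow_left₀ (Nat.cast_nonneg _) hL 2
        _ = 4 * (x : ℝ) ^ (ε / 2) := by
            rw [mul_pow, ← Real.rpow_natCast ((x : ℝ) ^ (ε / 4)), ← Real.rpow_mul hX.le]
            congr 1
            · norm_num
            · congr 1
              push_cast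
              ring
    have t1 : 2 * (GG x : ℝ) * x * (⌈(x : ℝ) ^ (ε / 4)⌉₊ : ℝ) ^ 2 / a0 ε x ≤ 328 * (W * Y) := by
      rw [div_le_iff₀ hA0]
      have h10 : (x : ℝ) * (x : ℝ) ^ (ε / 2) ≤ Y * (x : ℝ) ^ (1 / 2 + ε) := by
        rw [hY, ← Real.rpow_add hX, ← Real.rpow_one_add' hX.le (by linarith)]
        exact Real.rpow_le_rpow_of_exponent_le hX1 (by linarith)
      calc 2 * (GG x : ℝ) * x * (⌈(x : ℝ) ^ (ε / 4)⌉₊ : ℝ) ^ 2
          ≤ 2 * (41 * W) * x * (4 * (x : ℝ) ^ (ε / 2)) := by gcongr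
        _ = 328 * W * ((x : ℝ) * (x : ℝ) ^ (ε / 2)) := by ring
        _ ≤ 328 * W * (Y * (x : ℝ) ^ (1 / 2 + ε)) := by gcongr
        _ ≤ 328 * W * (Y * a0 ε x) := by gcongr
        _ = 328 * (W * Y) * a0 ε x := by ring
    have t2 : 4 * (x : ℝ) ^ (ε / 2) * (GG x : ℝ) * (x : ℝ) ^ 2 / (a0 ε x : ℝ) ^ 2 ≤ 164 * (W * Y) := by
      calc 4 * (x : ℝ) ^ (ε / 2) * (GG x : ℝ) * (x : ℝ) ^ 2 / (a0 ε x : ℝ) ^ 2
          = 4 * (GG x : ℝ) * ((x : ℝ) ^ (ε / 2) * ((x : ℝ) ^ 2 / (a0 ε x : ℝ) ^ 2)) := by ring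
        _ ≤ 4 * (41 * W) * Y := by gcongr
        _ = 164 * (W * Y) := by ring
    have t3 : Ex (pw w) (UU ε x) (fun S => ((AB S (GG x) x).card : ℝ)) ≤ 328 * (W * Y) + 164 * (W * Y) :=
      e2.trans (add_le_add t1 t2)
    linarith
  -- the second sum
  have h8 : 8 * GG x * x ≤ a0 ε x ^ 2 := by
    have : (8 : ℝ) * GG x * x ≤ (a0 ε x : ℝ) ^ 2 := by
      refine le_trans ?_ hx8
      calc (8 : ℝ) * GG x * x ≤ 8 * (41 * W) * x := by gcongr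
        _ = 8 * 41 * (W * x) := by ring
    exact_mod_cast this
  have s2 := h3 (pw w) hprob (a0 ε x) (2 * x) x (R0 ε x) (GG x) ((x : ℝ) ^ (ε / 2)) (by omega) h8 hR1 hx1
    (hpos _).le (fun s n hs _ => k1 s n (by
      refine (Real.rpow_le_rpow_of_exponent_le hX1 (show ε / 4 ≤ ε by linarith)).trans (hR.trans ?_)
      exact_mod_cast hs))
  have s2a : (x : ℝ) ^ (ε / 2) * (2 * ((x : ℝ) / R0 ε x) * (1 + Real.log x)) ≤ 4 * (W * Y) := by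
    have e1 : (x : ℝ) ^ (ε / 2) * ((x : ℝ) / R0 ε x) ≤ Y := by
      have e2 : (x : ℝ) / R0 ε x ≤ (x : ℝ) / (x : ℝ) ^ ε :=
        div_le_div_of_nonneg_left hX.le (hpos _) hR
      refine (mul_le_mul_of_nonneg_left e2 (hpos _).le).trans ?_
      rw [hY, mul_div_assoc', ← Real.rpow_add_one' hX.le (by linarith), ← Real.rpow_sub hX]
      exact Real.rpow_le_rpow_of_exponent_le hX1 (by linarith)
    calc (x : ℝ) ^ (ε / 2) * (2 * ((x : ℝ) / R0 ε x) * (1 + Real.log x))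
        = 2 * ((x : ℝ) ^ (ε / 2) * ((x : ℝ) / R0 ε x)) * (1 + Real.log x) := by ring
      _ ≤ 2 * Y * (2 * W) := by gcongr
      _ = 4 * (W * Y) := by ring
  have s2b : (x : ℝ) ^ (ε / 2) * (48 * (GG x : ℝ) * (x : ℝ) ^ 2 / (a0 ε x : ℝ) ^ 2) ≤ 1968 * (W * Y) := by
    calc (x : ℝ) ^ (ε / 2) * (48 * (GG x : ℝ) * (x : ℝ) ^ 2 / (a0 ε x : ℝ) ^ 2)
        = 48 * (GG x : ℝ) * ((x : ℝ) ^ (ε / 2) * ((x : ℝ) ^ 2 / (a0 ε x : ℝ) ^ 2)) := by ring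
      _ ≤ 48 * (41 * W) * Y := by gcongr
      _ = 1968 * (W * Y) := by ring
  have s2' : ∑ n ∈ Finset.Icc 1 x, T2 (pw w) (UU ε x) (R0 ε x) (GG x) n ≤ 1972 * (W * Y) := by
    refine s2.trans ?_
    rw [mul_add]
    linarith
  have hWY : 0 ≤ W * Y := by positivity
  have k4 : 3000 * (W * Y) ≤ η * x := by
    have e1 : 3000 * W ≤ η * (x : ℝ) ^ (ε / 2) := by
      have := mul_le_mul_of_nonneg_left k3 hη.le
      calc 3000 * W = η * (3000 / η * W) := by field_simp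
        _ ≤ _ := this
    calc 3000 * (W * Y) = 3000 * W * Y := by ring
      _ ≤ η * (x : ℝ) ^ (ε / 2) * Y := by gcongr
      _ = η * ((x : ℝ) ^ (ε / 2) * Y) := by ring
      _ = η * x := by
          rw [hY, ← Real.rpow_add hX]
          have : ε / 2 + (1 - ε / 2) = 1 := by ring
          rw [this, Real.rpow_one]
  linarith

end Pool.Agent.Work.MP_7d0410_sp
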