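import Pool.Agent.Work.MP_7d0410_sv.Interface
import Pool.Agent.Work.MP_7d0410_sp.B_CRB

/-! # Block VCR: the crude bound -/

set_option autoImplicit false

namespace Pool.Agent.Work.MP_7d0410_sp

open Finset Filter MeasureTheory ProbabilityTheory
open Pool.Agent.Work.MP_7d0410_cr
open scoped Classical Topology

theorem VCR_core (hVMU : Stmt_VMU) (hCHL : Stmt_CHL) (w : ℕ → ℝ) (hw : SVW w) (A B l m : ℕ)
    (hA : 2 ≤ A) (hA2 : w A ≤ 1 / 2) (hl6 : 6 ≤ l)
    (h24 : 24 ≤ (l : ℝ) * w B) :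
    hh (pw w) (Finset.Icc A B) l m ≤ 16 * (w B)⁻¹ * w A / l +
      (B : ℝ) ^ 2 * Real.exp (-((l : ℝ) * w B / 128)) := by
  have hp := prob_pw hw
  have hlr : (0 : ℝ) < l := by exact_mod_cast (show 0 < l by omega)
  have hBc : (0 : ℝ) < w B := hw.pos B
  obtain ⟨s, hs⟩ : ∃ s : ℕ, s = ⌈(l : ℝ) * w B / 8⌉₊ := ⟨_, rfl⟩
  have hs1 : (l : ℝ) * w B / 8 ≤ s := by
    rw [hs]
    exact Nat.le_ceil _
  have hs2 : (s : ℝ) < (l : ℝ) * w B / 8 + 1 := by
    rw [hs]
    exact Nat.ceil_lt_add_one (by positivity)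
  have hs0 : (0 : ℝ) < s := by linarith
  -- the bad event
  obtain ⟨W, hW⟩ : ∃ W : Finset (ℕ × ℕ), W = (Finset.Icc A B ×ˢ Finset.Icc A B).filter
      (fun q => q.1 + l ≤ q.2 + 1) := ⟨_, rfl⟩
  have hbad : Pb (pw w) (Finset.Icc A B) (fun S => ∃ q ∈ W, (S ∩ CRB_I A B q.1 q.2).card < s) ≤
      (B : ℝ) ^ 2 * Real.exp (-((l : ℝ) * w B / 128)) := by
    refine (Pb_exists_le hp _ W (fun q S => (S ∩ CRB_I A B q.1 q.2).card < s)).trans ?_
    have h1 : ∀ q ∈ W, Pb (pw w) (Finset.Icc A B) (fun S => (S ∩ CRB_I A B q.1 q.2).card < s) ≤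
        Real.exp (-((l : ℝ) * w B / 128)) := by
      intro q hq
      rw [hW, Finset.mem_filter, Finset.mem_product, Finset.mem_Icc, Finset.mem_Icc] at hq
      obtain ⟨⟨⟨q1, q2⟩, q3, q4⟩, q5⟩ := hq
      have h2 := CRB_card A B q.1 q.2 l hA q1 q4 hl6 q5
      have h3 : (l : ℝ) / 4 * w B ≤ ∑ z ∈ CRB_I A B q.1 q.2, pw w z := by
        have h4 : ∀ z ∈ CRB_I A B q.1 q.2, w B ≤ pw w z := by
          intro z hz
          unfold CRB_I at hz
          rw [Finset.mem_filter, Finset.mem_Icc] at hz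
          rw [pw_not_prime hz.2.1]
          exact hw.anti hz.1.2
        have h5 := Finset.card_nsmul_le_sum _ _ _ h4
        rw [nsmul_eq_mul] at h5
        refine le_trans ?_ h5
        apply mul_le_mul_of_nonneg_right _ hBc.le
        have h6 : (l : ℝ) ≤ 4 * ((CRB_I A B q.1 q.2).card : ℝ) := by exact_mod_cast h2
        linarith
      have h4 := hCHL (pw w) hp (Finset.Icc A B) (CRB_I A B q.1 q.2) s (1 / 2)
        (Finset.filter_subset _ _) (by norm_num) (by norm_num) (by linarith)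
      refine h4.trans ?_
      apply Real.exp_le_exp.2
      linarith
    refine (Finset.sum_le_sum h1).trans ?_
    rw [Finset.sum_const, nsmul_eq_mul]
    apply mul_le_mul_of_nonneg_right _ (Real.exp_pos _).le
    have h2 : W.card ≤ B * B := by
      calc W.card ≤ (Finset.Icc A B ×ˢ Finset.Icc A B).card := by
            rw [hW]
            exact Finset.card_filter_le _ _
        _ = (Finset.Icc A B).card * (Finset.Icc A B).card := Finset.card_product _ _
        _ ≤ B * B := by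
            have : (Finset.Icc A B).card ≤ B := by
              rw [Nat.card_Icc]
              omega
            exact Nat.mul_le_mul this this
    calc (W.card : ℝ) ≤ ((B * B : ℕ) : ℝ) := by exact_mod_cast h2
      _ = (B : ℝ) ^ 2 := by push_cast; ring
  -- pointwise
  have hpt : ∀ S ⊆ Finset.Icc A B, ((rr S l m).card : ℝ) ≤
      (s : ℝ)⁻¹ * (∑ q ∈ rr S l m, (KK S q : ℝ)) +
        (if ∃ q ∈ W, (S ∩ CRB_I A B q.1 q.2).card < s then 1 else 0) := by
    intro S hS
    have hsum : 0 ≤ ∑ q ∈ rr S l m, (KK S q : ℝ) := Finset.sum_nonneg fun q _ => Nat.cast_nonneg _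
    split_ifs with hb
    · have h1 := p_ONE S l m (by omega)
      have h2 : (rr S l m).card ≤ 1 := by
        refine le_trans ?_ h1
        have h3 := Finset.single_le_sum (f := fun ℓ => (rr S l (m + ℓ)).card)
          (fun _ _ => Nat.zero_le _) (Finset.mem_range.2 (show 0 < l by omega))
        exact h3
      have h3 : ((rr S l m).card : ℝ) ≤ 1 := by exact_mod_cast h2
      have h4 : 0 ≤ (s : ℝ)⁻¹ * (∑ q ∈ rr S l m, (KK S q : ℝ)) := by positivity
      linarith
    · rw [add_zero]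
      have h1 : ∀ q ∈ rr S l m, (s : ℝ) ≤ KK S q := by
        intro q hq
        unfold rr runs at hq
        rw [Finset.mem_filter, Finset.mem_filter, Finset.mem_product] at hq
        obtain ⟨⟨⟨q1, q2⟩, q3⟩, q4, q5⟩ := hq
        have h2 : q.1 + l ≤ q.2 + 1 := by
          have h3 : len S q ≤ (Finset.Icc q.1 q.2).card := by
            unfold len seg
            apply Finset.card_le_card
            intro z hz
            rw [Finset.mem_filter] at hz
            rw [Finset.mem_Icc]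
            exact hz.2
          rw [Nat.card_Icc, q4] at h3
          omega
        have hqW : q ∈ W := by
          rw [hW, Finset.mem_filter, Finset.mem_product]
          exact ⟨⟨hS q1, hS q2⟩, h2⟩
        have h4 : s ≤ (S ∩ CRB_I A B q.1 q.2).card := by
          by_contra hcon
          exact hb ⟨q, hqW, not_le.1 hcon⟩
        have h5 : (S ∩ CRB_I A B q.1 q.2).card ≤ KK S q := by
          unfold KK CRB_I
          apply Finset.card_le_card
          intro z hz
          rw [Finset.mem_inter, Finset.mem_filter] at hz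
          rw [Finset.mem_filter]
          exact ⟨hz.1, hz.2.2⟩
        exact_mod_cast h4.trans h5
      have h2 := Finset.card_nsmul_le_sum _ _ _ h1
      rw [nsmul_eq_mul] at h2
      rw [inv_mul_eq_div, le_div_iff₀ hs0]
      exact h2
  have hmain : hh (pw w) (Finset.Icc A B) l m ≤
      (s : ℝ)⁻¹ * Ex (pw w) (Finset.Icc A B) (fun S => ∑ q ∈ rr S l m, (KK S q : ℝ)) +
      Pb (pw w) (Finset.Icc A B) (fun S => ∃ q ∈ W, (S ∩ CRB_I A B q.1 q.2).card < s) := by
    unfold hh
    rw [← Ex_const_mul, Pb_eq, ← Ex_add]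
    exact Ex_mono hp hpt
  refine hmain.trans (add_le_add ?_ hbad)
  have h1 := hVMU w hw A B l m hA2
  have hinv : (s : ℝ)⁻¹ ≤ 8 * (w B)⁻¹ / l := by
    rw [inv_le_comm₀ hs0 (by positivity)]
    refine le_trans (le_of_eq ?_) hs1
    field_simp
  have hE : 0 ≤ Ex (pw w) (Finset.Icc A B) (fun S => ∑ q ∈ rr S l m, (KK S q : ℝ)) :=
    Ex_nonneg hp fun S _ => Finset.sum_nonneg fun q _ => Nat.cast_nonneg _
  calc (s : ℝ)⁻¹ * Ex (pw w) (Finset.Icc A B) (fun S => ∑ q ∈ rr S l m, (KK S q : ℝ)) ≤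
      8 * (w B)⁻¹ / l * (2 * w A) := mul_le_mul hinv h1 hE (by positivity)
    _ = _ := by ring

theorem VCR_exp (θ : ℝ) (hθ : 0 < θ) : ∀ᶠ x : ℕ in atTop,
    (x : ℝ) ^ 3 * Real.exp (-((x : ℝ) ^ θ / 128)) ≤ 1 / 8 := by
  have h1 := (tendsto_rpow_mul_exp_neg_mul_atTop_nhds_zero (3 / θ) (1 / 128)
    (by norm_num)).comp ((tendsto_rpow_atTop hθ).comp
      (tendsto_natCast_atTop_atTop (R := ℝ)))
  filter_upwards [h1.eventually (gt_mem_nhds (show (0 : ℝ) < 1 / 8 by norm_num)),
    eventually_ge_atTop 1] with x hx hx1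
  simp only [Function.comp_apply] at hx
  have hx0 : (0 : ℝ) ≤ x := Nat.cast_nonneg _
  have h2 : ((x : ℝ) ^ θ) ^ (3 / θ) = (x : ℝ) ^ 3 := by
    rw [← Real.rpow_mul hx0, ← Real.rpow_natCast]
    congr 1
    field_simp
    norm_num
  rw [h2] at hx
  have h3 : -(1 / 128) * (x : ℝ) ^ θ = -((x : ℝ) ^ θ / 128) := by ring
  rw [h3] at hx
  exact hx.le

theorem VCR_half {w : ℕ → ℝ} (hw : SVW w) : ∀ᶠ m : ℕ in atTop, w m ≤ 1 / 2 := by
  have h1 := hw.small.eventually (gt_mem_nhds (show (0 : ℝ) < 1 / 2 by norm_num))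
  have h2 : Tendsto (fun m : ℕ => Real.log m) atTop atTop :=
    Real.tendsto_log_atTop.comp (tendsto_natCast_atTop_atTop (R := ℝ))
  filter_upwards [h1, h2.eventually_ge_atTop 1] with m h3 h4
  have h5 := (hw.pos m).le
  nlinarith

theorem p_VCR (hVMU : Stmt_VMU) (hCHL : Stmt_CHL) (hVWL : Stmt_VWL) : Stmt_VCR := by
  intro w hw ε hε hε1
  have tp : ∀ e : ℝ, 0 < e → Tendsto (fun x : ℕ => (x : ℝ) ^ e) atTop atTop := fun e he =>
    (tendsto_rpow_atTop he).comp (tendsto_natCast_atTop_atTop (R := ℝ))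
  have ta : Tendsto (fun x : ℕ => a0 ε x) atTop atTop := by
    refine tendsto_natCast_atTop_iff (R := ℝ).1 ?_
    refine tendsto_atTop_mono (fun x => Nat.le_ceil _) (tp (1 / 2 + ε) (by linarith))
  have t2 : Tendsto (fun x : ℕ => 2 * x) atTop atTop :=
    tendsto_atTop_mono (fun x => by simp only [id]; omega) tendsto_id
  filter_upwards [VCR_exp (ε / 8) (by positivity),
    (tp (ε / 8) (by positivity)).eventually_ge_atTop 24,
    (tp (3 * ε / 8) (by positivity)).eventually_ge_atTop 9,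
    ta.eventually (VCR_half hw), ta.eventually_ge_atTop 2,
    t2.eventually (hVWL w hw (ε / 16) (by positivity)),
    eventually_ge_atTop 2] with x e1 e2 e3 e4 e5 e6 e7
  intro l m hl
  have hx2 : (2 : ℝ) ≤ x := by exact_mod_cast e7
  have hx1 : (1 : ℝ) ≤ x := by linarith
  have hx0 : (0 : ℝ) < x := by linarith
  have hl24 : (24 : ℝ) ≤ l := by
    have h1 : (x : ℝ) ^ (ε / 8) ≤ (x : ℝ) ^ (ε / 4) :=
      Real.rpow_le_rpow_of_exponent_le hx1 (by linarith)
    linarith
  have hl6 : 6 ≤ l := by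
    have : 24 ≤ l := by exact_mod_cast hl24
    omega
  have hl0 : (0 : ℝ) < l := by linarith
  rcases lt_or_ge (2 * x) l with hlx | hlx
  · -- no runs
    have h1 : hh (pw w) (UU ε x) l m = 0 := by
      unfold hh
      rw [← Ex_const (p := pw w) (UU ε x) 0]
      refine Ex_congr fun S hS => ?_
      have h2 : rr S l m = ∅ := by
        unfold rr
        rw [Finset.filter_eq_empty_iff]
        rintro q _ ⟨h3, -⟩
        have h4 : len S q ≤ (UU ε x).card := by
          unfold len seg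
          exact (Finset.card_filter_le _ _).trans (Finset.card_le_card hS)
        have h5 : (UU ε x).card ≤ 2 * x := by
          unfold UU
          rw [Nat.card_Icc]
          omega
        omega
      rw [h2, Finset.card_empty, Nat.cast_zero]
    rw [h1]
    positivity
  · have hω := hw.pos (2 * x)
    -- the lower bound for `w (2x)`
    have h2x : ((2 * x : ℕ) : ℝ) ≤ (x : ℝ) ^ (2 : ℝ) := by
      rw [Real.rpow_two]
      push_cast
      nlinarith
    have h2x0 : (0 : ℝ) < ((2 * x : ℕ) : ℝ) := by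
      push_cast
      linarith
    have hωinv : (w (2 * x))⁻¹ ≤ (x : ℝ) ^ (ε / 8) := by
      have h1 : ((2 * x : ℕ) : ℝ) ^ (ε / 16) ≤ (x : ℝ) ^ (ε / 8) := by
        calc ((2 * x : ℕ) : ℝ) ^ (ε / 16) ≤ ((x : ℝ) ^ (2 : ℝ)) ^ (ε / 16) :=
              Real.rpow_le_rpow h2x0.le h2x (by positivity)
          _ = (x : ℝ) ^ (ε / 8) := by
              rw [← Real.rpow_mul hx0.le]
              congr 1
              ring
      refine le_trans ?_ h1
      rw [inv_le_comm₀ hω (Real.rpow_pos_of_pos h2x0 _), ← Real.rpow_neg h2x0.le]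
      exact e6
    have hlω : (x : ℝ) ^ (ε / 8) ≤ (l : ℝ) * w (2 * x) := by
      have h1 : (x : ℝ) ^ (ε / 8) * (x : ℝ) ^ (ε / 8) = (x : ℝ) ^ (ε / 4) := by
        rw [← Real.rpow_add hx0]
        congr 1
        ring
      have h2 : 1 ≤ (x : ℝ) ^ (ε / 8) * w (2 * x) := by
        have h3 := mul_le_mul_of_nonneg_right hωinv hω.le
        rw [inv_mul_cancel₀ hω.ne'] at h3
        exact h3
      calc (x : ℝ) ^ (ε / 8) = (x : ℝ) ^ (ε / 8) * 1 := by ring
        _ ≤ (x : ℝ) ^ (ε / 8) * ((x : ℝ) ^ (ε / 8) * w (2 * x)) :=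
            mul_le_mul_of_nonneg_left h2 (by positivity)
        _ = (x : ℝ) ^ (ε / 4) * w (2 * x) := by rw [← h1]; ring
        _ ≤ l * w (2 * x) := mul_le_mul_of_nonneg_right hl hω.le
    have hcore := VCR_core hVMU hCHL w hw (a0 ε x) (2 * x) l m e5 e4 hl6 (e2.trans hlω)
    have hUU : UU ε x = Finset.Icc (a0 ε x) (2 * x) := rfl
    rw [hUU]
    refine hcore.trans ?_
    have h1 : 16 * (w (2 * x))⁻¹ * w (a0 ε x) / l ≤ 8 * (x : ℝ) ^ (ε / 8) / l := by
      apply div_le_div_of_nonneg_right _ hl0.le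
      calc 16 * (w (2 * x))⁻¹ * w (a0 ε x) ≤ 16 * (x : ℝ) ^ (ε / 8) * (1 / 2) := by
            apply mul_le_mul _ e4 (hw.pos _).le (by positivity)
            exact mul_le_mul_of_nonneg_left hωinv (by norm_num)
        _ = 8 * (x : ℝ) ^ (ε / 8) := by ring
    have h2 : ((2 * x : ℕ) : ℝ) ^ 2 * Real.exp (-((l : ℝ) * w (2 * x) / 128)) ≤ 1 / l := by
      have h3 : Real.exp (-((l : ℝ) * w (2 * x) / 128)) ≤
          Real.exp (-((x : ℝ) ^ (ε / 8) / 128)) := by
        apply Real.exp_le_exp.2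
        linarith
      have h5 : (l : ℝ) ≤ ((2 * x : ℕ) : ℝ) := by exact_mod_cast hlx
      rw [le_div_iff₀ hl0]
      calc ((2 * x : ℕ) : ℝ) ^ 2 * Real.exp (-((l : ℝ) * w (2 * x) / 128)) * l ≤
          ((2 * x : ℕ) : ℝ) ^ 2 * Real.exp (-((x : ℝ) ^ (ε / 8) / 128)) * ((2 * x : ℕ) : ℝ) := by
            apply mul_le_mul _ h5 hl0.le (by positivity)
            exact mul_le_mul_of_nonneg_left h3 (by positivity)
        _ = 8 * ((x : ℝ) ^ 3 * Real.exp (-((x : ℝ) ^ (ε / 8) / 128))) := by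
            push_cast
            ring
        _ ≤ 8 * (1 / 8) := mul_le_mul_of_nonneg_left e1 (by norm_num)
        _ = 1 := by norm_num
    have h3 : 8 * (x : ℝ) ^ (ε / 8) / l + 1 / l ≤ (x : ℝ) ^ (ε / 2) / l := by
      rw [← add_div]
      apply div_le_div_of_nonneg_right _ hl0.le
      have h4 : (x : ℝ) ^ (ε / 2) = (x : ℝ) ^ (3 * ε / 8) * (x : ℝ) ^ (ε / 8) := by
        rw [← Real.rpow_add hx0]
        congr 1
        ring
      rw [h4]
      have h5 : 9 * (x : ℝ) ^ (ε / 8) ≤ (x : ℝ) ^ (3 * ε / 8) * (x : ℝ) ^ (ε / 8) :=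
        mul_le_mul_of_nonneg_right e3 (by positivity)
      linarith
    linarith

end Pool.Agent.Work.MP_7d0410_sp
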