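import Pool.Agent.Work.MP_7d0410_sv.Interface

/-!
# Block VEB: the exceptional sets over the blocks of lengths
-/

set_option autoImplicit false

namespace Pool.Agent.Work.MP_7d0410_sp

open Finset Filter MeasureTheory ProbabilityTheory
open Pool.Agent.Work.MP_7d0410_cr
open scoped Classical Topology

/-- the sum of the exceptional probabilities for one length -/
lemma VEB_one {w : ℕ → ℝ} (hw : SVW w) {ε δ C' : ℝ} {x r : ℕ}
    (h0 : 0 ≤ C' * ((x : ℝ) / Real.log x))
    (h : ∀ S : Finset ℕ, TY w δ ε x S →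
      (((Finset.Icc 1 x).filter (fun n : ℕ => (x : ℝ) ≤ n * Real.log x ∧
        ¬ PT S r n)).card : ℝ) ≤ C' * (x / Real.log x)) :
    ∑ n ∈ (Finset.Icc 1 x).filter (fun n : ℕ => (x : ℝ) ≤ n * Real.log x),
      EP w δ ε x r n ≤ C' * (x / Real.log x) := by
  have h1 : ∑ n ∈ (Finset.Icc 1 x).filter (fun n : ℕ => (x : ℝ) ≤ n * Real.log x),
      EP w δ ε x r n = Ex (pw w) (UU ε x) (fun S =>
        ∑ n ∈ (Finset.Icc 1 x).filter (fun n : ℕ => (x : ℝ) ≤ n * Real.log x),
          (if TY w δ ε x S ∧ ¬ PT S r n then (1 : ℝ) else 0)) := by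
    rw [Ex_sum]
    refine Finset.sum_congr rfl fun n _ => ?_
    unfold EP
    rw [Pb_eq]
  rw [h1]
  refine Ex_le_const (prob_pw hw) fun S _ => ?_
  by_cases hT : TY w δ ε x S
  · refine le_trans (le_of_eq ?_) (h S hT)
    rw [Finset.sum_boole, Finset.filter_filter]
    congr 2
    refine Finset.filter_congr fun n _ => ?_
    constructor
    · rintro ⟨h2, -, h3⟩
      exact ⟨h2, h3⟩
    · rintro ⟨h2, h3⟩
      exact ⟨h2, hT, h3⟩
  · refine le_trans (le_of_eq ?_) h0
    refine Finset.sum_eq_zero fun n _ => ?_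
    rw [if_neg (fun h => hT h.1)]

theorem p_VEB : Stmt_VPT → Stmt_VRB → Stmt_VEB := by
  intro hPT hRB w hw ε δ C η hε hε1 hδ hδ1 hC hη
  obtain ⟨C', hC', h1⟩ := hPT w hw ε δ hε hε1 hδ (by linarith)
  have h2 := hRB ε δ hε hε1 hδ (by linarith)
  have h3 : ∀ᶠ x : ℕ in atTop, 4 * C * C' / η ≤ Real.log x :=
    (Real.tendsto_log_atTop.comp tendsto_natCast_atTop_atTop).eventually_ge_atTop _
  have h4 : ∀ᶠ x : ℕ in atTop, 1 ≤ Real.log x :=
    (Real.tendsto_log_atTop.comp tendsto_natCast_atTop_atTop).eventually_ge_atTop _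
  filter_upwards [h1, h2, h3, h4, eventually_ge_atTop 1] with x hx1 hx2 hx3 hx4 hx5
  obtain ⟨r1, -, r3, r4, r5, -, -⟩ := hx2
  have hL : 0 < Real.log x := by linarith
  have hx0 : (0 : ℝ) < x := by exact_mod_cast hx5
  have hxe : 0 < (x : ℝ) ^ ε := Real.rpow_pos_of_pos hx0 _
  have hRpos : ∀ j, (0 : ℝ) < RB ε δ x j := fun j => lt_of_lt_of_le hxe (r3 j).1
  have hmono : ∀ j, RB ε δ x 0 ≤ RB ε δ x j := by
    intro j
    induction j with
    | zero => exact le_rfl
    | succ j ih => exact ih.trans (r3 j).2.1.le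
  set N := (Finset.Icc 1 x).filter (fun n : ℕ => (x : ℝ) ≤ n * Real.log x) with hN
  have h0 : 0 ≤ C' * ((x : ℝ) / Real.log x) := by positivity
  -- one length
  have hone : ∀ j ∈ Finset.range (JB ε δ x), ∀ r ∈ Finset.Ioc (RB ε δ x j) (RB ε δ x (j + 1)),
      ∑ n ∈ N, EP w δ ε x r n ≤ C' * (x / Real.log x) := by
    intro j hj r hr
    rw [Finset.mem_range] at hj
    rw [Finset.mem_Ioc] at hr
    refine VEB_one hw h0 fun S hS => hx1 S hS r ?_ ?_
    · exact r1.trans ((hmono j).trans hr.1.le)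
    · exact hr.2.trans (r4 (j + 1) hj)
  -- one block
  have hblock : ∀ j ∈ Finset.range (JB ε δ x),
      ∑ r ∈ Finset.Ioc (RB ε δ x j) (RB ε δ x (j + 1)),
        C / (RB ε δ x j * Real.log x) * ∑ n ∈ N, EP w δ ε x r n ≤
        2 * δ * C * C' * (x / Real.log x ^ 2) := by
    intro j hj
    have hp : 0 ≤ C / (RB ε δ x j * Real.log x) := by
      have := hRpos j
      positivity
    have e1 : ∑ r ∈ Finset.Ioc (RB ε δ x j) (RB ε δ x (j + 1)),
        C / (RB ε δ x j * Real.log x) * ∑ n ∈ N, EP w δ ε x r n ≤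
        ∑ _r ∈ Finset.Ioc (RB ε δ x j) (RB ε δ x (j + 1)),
          C / (RB ε δ x j * Real.log x) * (C' * (x / Real.log x)) :=
      Finset.sum_le_sum fun r hr => mul_le_mul_of_nonneg_left (hone j hj r hr) hp
    refine e1.trans ?_
    rw [Finset.sum_const, Nat.card_Ioc, nsmul_eq_mul]
    have e2 : ((RB ε δ x (j + 1) - RB ε δ x j : ℕ) : ℝ) ≤ 2 * δ * RB ε δ x j := by
      rw [Nat.cast_sub (r3 j).2.1.le]
      have := (r3 j).2.2
      linarith
    have e3 : 0 ≤ C / (RB ε δ x j * Real.log x) * (C' * (x / Real.log x)) := mul_nonneg hp h0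
    refine (mul_le_mul_of_nonneg_right e2 e3).trans (le_of_eq ?_)
    have e4 : (RB ε δ x j : ℝ) ≠ 0 := (hRpos j).ne'
    field_simp
  -- exchange the sums
  have hex : ∑ n ∈ N, ∑ j ∈ Finset.range (JB ε δ x),
      ∑ r ∈ Finset.Ioc (RB ε δ x j) (RB ε δ x (j + 1)),
        C / (RB ε δ x j * Real.log x) * EP w δ ε x r n =
      ∑ j ∈ Finset.range (JB ε δ x), ∑ r ∈ Finset.Ioc (RB ε δ x j) (RB ε δ x (j + 1)),
        C / (RB ε δ x j * Real.log x) * ∑ n ∈ N, EP w δ ε x r n := by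
    rw [Finset.sum_comm]
    refine Finset.sum_congr rfl fun j _ => ?_
    rw [Finset.sum_comm]
    refine Finset.sum_congr rfl fun r _ => ?_
    rw [Finset.mul_sum]
  rw [hex]
  refine (Finset.sum_le_sum hblock).trans ?_
  rw [Finset.sum_const, Finset.card_range, nsmul_eq_mul]
  have e5 : 0 ≤ 2 * δ * C * C' * (x / Real.log x ^ 2) := by positivity
  refine (mul_le_mul_of_nonneg_right r5 e5).trans ?_
  have e6 : 2 / δ * Real.log x * (2 * δ * C * C' * (x / Real.log x ^ 2)) =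
      4 * C * C' * x / Real.log x := by
    field_simp
    ring
  rw [e6, div_le_iff₀ hL]
  have e7 : 4 * C * C' ≤ Real.log x * η := (div_le_iff₀ hη).1 hx3
  calc 4 * C * C' * x ≤ Real.log x * η * x := mul_le_mul_of_nonneg_right e7 hx0.le
    _ = η * x * Real.log x := by ring

end Pool.Agent.Work.MP_7d0410_sp
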