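import Pool.Agent.Work.MP_7d0410_sv.Interface
import Pool.Agent.Work.MP_852da8_m6.B_D
import Pool.Agent.Work.MP_852da8_m6.B_SD

/-! # Block VEX (helper40): exponential sums -/

set_option autoImplicit false

namespace Pool.Agent.Work.MP_7d0410_sp

open Finset Filter MeasureTheory ProbabilityTheory
open Pool.Agent.Work.MP_7d0410_cr
open scoped Classical Topology

/-! ### small `t` -/

lemma VEX_ee_sub (a b : ℝ) : ‖ee a - ee b‖ ≤ 2 * Real.pi * |a - b| := by
  have h1 : ee a - ee b = ee b * (ee (a - b) - 1) := by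
    rw [mul_sub, ← ee_add, mul_one]
    congr 2
    ring
  rw [h1, norm_mul, norm_ee, one_mul]
  have h2 := Real.norm_exp_I_mul_ofReal_sub_one_le (x := 2 * Real.pi * (a - b))
  have h3 : ee (a - b) = Complex.exp (Complex.I * ((2 * Real.pi * (a - b) : ℝ) : ℂ)) := by
    unfold ee
    rw [mul_comm]
  rw [h3]
  refine h2.trans (le_of_eq ?_)
  rw [Real.norm_eq_abs, abs_mul, abs_of_pos (by positivity : (0 : ℝ) < 2 * Real.pi)]

lemma VEX_cont (t : ℝ) : ContinuousOn (fun u : ℝ => ee (-(t * Real.log u))) (Set.Ioi 0) := by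
  refine continuous_ee.comp_continuousOn ?_
  refine (ContinuousOn.mul continuousOn_const ?_).neg
  exact Real.continuousOn_log.mono (fun u hu => (ne_of_gt hu : u ≠ 0))

lemma VEX_int (t : ℝ) {a b : ℝ} (ha : 0 < a) (hb : 0 < b) :
    IntervalIntegrable (fun u : ℝ => ee (-(t * Real.log u))) volume a b := by
  refine ((VEX_cont t).mono ?_).intervalIntegrable
  intro u hu
  rw [Set.mem_uIcc] at hu
  rcases hu with hu | hu
  · exact lt_of_lt_of_le ha hu.1
  · exact lt_of_lt_of_le hb hu.1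

lemma VEX_small (R : ℕ) (hR : 1 ≤ R) (t : ℝ) : ∀ n : ℕ, R ≤ n →
    ‖ES R n t‖ ≤ ((n : ℝ) - R) * (2 * Real.pi * (|t| / R)) := by
  intro n hn
  have hR0 : (0 : ℝ) < R := by exact_mod_cast hR
  induction n, hn using Nat.le_induction with
  | base => simp [ES]
  | succ n hn ih =>
    have hn0 : (0 : ℝ) < n := by exact_mod_cast (lt_of_lt_of_le hR hn)
    have hRn : (R : ℝ) ≤ n := by exact_mod_cast hn
    have h1 : ES R (n + 1) t = ES R n t + (ee (-(t * Real.log ((n + 1 : ℕ) : ℝ))) -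
        ∫ u in (n : ℝ)..((n + 1 : ℕ) : ℝ), ee (-(t * Real.log u))) := by
      unfold ES
      rw [Finset.sum_Ioc_succ_top (by omega),
        ← intervalIntegral.integral_add_adjacent_intervals
          (VEX_int t hR0 hn0) (VEX_int t hn0 (by positivity : (0 : ℝ) < ((n + 1 : ℕ) : ℝ)))]
      ring
    have h2 : ee (-(t * Real.log ((n + 1 : ℕ) : ℝ))) -
        ∫ u in (n : ℝ)..((n + 1 : ℕ) : ℝ), ee (-(t * Real.log u)) =
        ∫ u in (n : ℝ)..((n + 1 : ℕ) : ℝ), (ee (-(t * Real.log ((n + 1 : ℕ) : ℝ))) -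
          ee (-(t * Real.log u))) := by
      rw [intervalIntegral.integral_sub intervalIntegrable_const
        (VEX_int t hn0 (by positivity : (0 : ℝ) < ((n + 1 : ℕ) : ℝ))),
        intervalIntegral.integral_const]
      push_cast
      simp
    have h3 : ‖∫ u in (n : ℝ)..((n + 1 : ℕ) : ℝ), (ee (-(t * Real.log ((n + 1 : ℕ) : ℝ))) -
          ee (-(t * Real.log u)))‖ ≤ (2 * Real.pi * (|t| / R)) * |((n + 1 : ℕ) : ℝ) - n| := by
      refine intervalIntegral.norm_integral_le_of_norm_le_const ?_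
      intro u hu
      have hle : (n : ℝ) ≤ ((n + 1 : ℕ) : ℝ) := by push_cast; linarith
      rw [Set.uIoc_of_le hle] at hu
      have hu0 : 0 < u := hn0.trans hu.1
      refine (VEX_ee_sub _ _).trans ?_
      have h4 : |-(t * Real.log ((n + 1 : ℕ) : ℝ)) - -(t * Real.log u)| ≤ |t| / R := by
        have h5 : -(t * Real.log ((n + 1 : ℕ) : ℝ)) - -(t * Real.log u) =
            -(t * (Real.log ((n + 1 : ℕ) : ℝ) - Real.log u)) := by ring
        rw [h5, abs_neg, abs_mul, div_eq_mul_one_div]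
        refine mul_le_mul_of_nonneg_left ?_ (abs_nonneg t)
        have h6 : Real.log u ≤ Real.log ((n + 1 : ℕ) : ℝ) := Real.log_le_log hu0 hu.2
        rw [abs_of_nonneg (by linarith), ← Real.log_div (by positivity) hu0.ne']
        have h7 := Real.log_le_sub_one_of_pos (x := ((n + 1 : ℕ) : ℝ) / u) (by positivity)
        refine h7.trans ?_
        rw [div_sub_one hu0.ne', div_le_div_iff₀ hu0 hR0]
        have h8 : ((n + 1 : ℕ) : ℝ) - u ≤ 1 := by
          have := hu.1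
          push_cast
          linarith
        have h9 : 0 ≤ ((n + 1 : ℕ) : ℝ) - u := by linarith [hu.2]
        have h10 : (R : ℝ) ≤ u := hRn.trans hu.1.le
        nlinarith
      exact mul_le_mul_of_nonneg_left h4 (by positivity)
    rw [h1, h2]
    refine (norm_add_le _ _).trans ?_
    have h4 : |((n + 1 : ℕ) : ℝ) - n| = 1 := by push_cast; simp
    rw [h4, mul_one] at h3
    have h5 : ((n + 1 : ℕ) : ℝ) - R = ((n : ℝ) - R) + 1 := by push_cast; ring
    rw [h5, add_mul, one_mul]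
    exact add_le_add ih h3

/-! ### the integral -/

lemma VEX_integral (R R' : ℕ) (hR : 1 ≤ R) (hRR : R < R') (hR2 : R' ≤ 2 * R) (t : ℝ) (ht : t ≠ 0) :
    ‖∫ u in (R : ℝ)..R', ee (-(t * Real.log u))‖ ≤ R / |t| := by
  have hR0 : (0 : ℝ) < R := by exact_mod_cast hR
  have hRR' : (R : ℝ) < R' := by exact_mod_cast hRR
  obtain ⟨D, hD⟩ : ∃ D : ℂ, D = 1 - (2 * Real.pi * t : ℝ) * Complex.I := ⟨_, rfl⟩
  have hDn : 2 * Real.pi * |t| ≤ ‖D‖ := by
    have h1 : |D.im| ≤ ‖D‖ := Complex.abs_im_le_norm D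
    have h2 : D.im = -(2 * Real.pi * t) := by rw [hD]; simp
    rw [h2, abs_neg, abs_mul, abs_of_pos (by positivity : (0 : ℝ) < 2 * Real.pi)] at h1
    exact h1
  have htp : 0 < |t| := abs_pos.2 ht
  have hD0 : D ≠ 0 := by
    intro h
    rw [h, norm_zero] at hDn
    have := Real.pi_pos
    nlinarith [mul_pos (mul_pos (by norm_num : (0 : ℝ) < 2) this) htp]
  have hder : ∀ u ∈ Set.uIcc (R : ℝ) R', HasDerivAt
      (fun u : ℝ => (u : ℂ) * ee (-(t * Real.log u)) / D) (ee (-(t * Real.log u))) u := by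
    intro u hu
    rw [Set.uIcc_of_le hRR'.le] at hu
    have hu0 : 0 < u := lt_of_lt_of_le hR0 hu.1
    have h1 : HasDerivAt (fun u : ℝ => 2 * Real.pi * (-(t * Real.log u)))
        (2 * Real.pi * (-(t * u⁻¹))) u :=
      (((Real.hasDerivAt_log hu0.ne').const_mul t).neg).const_mul (2 * Real.pi)
    have h2 : HasDerivAt (fun u : ℝ => ee (-(t * Real.log u)))
        (ee (-(t * Real.log u)) * (((2 * Real.pi * (-(t * u⁻¹)) : ℝ) : ℂ) * Complex.I)) u := by
      unfold ee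
      exact ((h1.ofReal_comp).mul_const Complex.I).cexp
    have h3 : HasDerivAt (fun u : ℝ => (u : ℂ)) 1 u := Complex.ofRealCLM.hasDerivAt
    have h4 := (h3.mul h2).div_const D
    refine h4.congr_deriv ?_
    rw [div_eq_iff hD0, hD]
    have h5 : (u : ℂ) * (u : ℂ)⁻¹ = 1 := mul_inv_cancel₀ (by exact_mod_cast hu0.ne')
    push_cast
    linear_combination (-(2 * (Real.pi : ℂ) * t * Complex.I * ee (-(t * Real.log u)))) * h5
  rw [intervalIntegral.integral_eq_sub_of_hasDerivAt hder (VEX_int t hR0 (hR0.trans hRR'))]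
  rw [← sub_div, norm_div]
  have h1 : ‖(R' : ℂ) * ee (-(t * Real.log R')) - (R : ℂ) * ee (-(t * Real.log R))‖ ≤ 3 * R := by
    refine (norm_sub_le _ _).trans ?_
    rw [norm_mul, norm_mul, norm_ee, norm_ee, mul_one, mul_one, Complex.norm_natCast,
      Complex.norm_natCast]
    have : (R' : ℝ) ≤ 2 * R := by exact_mod_cast hR2
    linarith
  have h2 : (((R' : ℝ) : ℂ) * ee (-(t * Real.log R')) - ((R : ℝ) : ℂ) * ee (-(t * Real.log R))) =
      (R' : ℂ) * ee (-(t * Real.log R')) - (R : ℂ) * ee (-(t * Real.log R)) := by norm_cast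
  rw [h2]
  have hDp : 0 < ‖D‖ := norm_pos_iff.2 hD0
  rw [div_le_div_iff₀ hDp htp]
  have hpi := Real.pi_gt_three
  calc _ ≤ 3 * (R : ℝ) * |t| := mul_le_mul_of_nonneg_right h1 htp.le
    _ ≤ (R : ℝ) * (2 * Real.pi * |t|) := by nlinarith [mul_pos hR0 htp]
    _ ≤ (R : ℝ) * ‖D‖ := mul_le_mul_of_nonneg_left hDn hR0.le

/-! ### the derivative test, uniformly in `q ≤ Q` -/

/-- the bound of the derivative test -/
def VEX_DT (q : ℕ) (h η C : ℝ) : Prop :=
  ∀ (F : ℕ → ℝ → ℝ) (a b : ℕ) (K l : ℝ), a ≤ b → (b : ℝ) - a ≤ K → 1 ≤ K →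
  K ^ (-(3 / 2) : ℝ) ≤ l → l ≤ K ^ (-(1 / 4) : ℝ) →
  (∀ i < q, ∀ x ∈ Set.Icc (a : ℝ) b, HasDerivAt (F i) (F (i + 1) x) x) →
  ((∀ x ∈ Set.Icc (a : ℝ) b, l ≤ F q x ∧ F q x ≤ h * l) ∨
    (∀ x ∈ Set.Icc (a : ℝ) b, l ≤ -F q x ∧ -F q x ≤ h * l)) →
  ‖∑ n ∈ Finset.Ico a b, ee (F 0 n)‖ ≤ C * K ^ (1 - η)

lemma VEX_DT_mono {q : ℕ} {h η C η' C' : ℝ} (hC0 : 0 ≤ C) (hη : η' ≤ η) (hC : C ≤ C')
    (H : VEX_DT q h η C) : VEX_DT q h η' C' := by
  intro F a b K l h1 h2 h3 h4 h5 h6 h7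
  refine (H F a b K l h1 h2 h3 h4 h5 h6 h7).trans ?_
  have h8 : K ^ (1 - η) ≤ K ^ (1 - η') := Real.rpow_le_rpow_of_exponent_le h3 (by linarith)
  have h9 : 0 ≤ K ^ (1 - η') := by positivity
  nlinarith [mul_le_mul_of_nonneg_left h8 hC0]

lemma VEX_unif (Q : ℕ) : ∃ η C : ℝ, 0 < η ∧ η ≤ 1 / 5 ∧ 0 < C ∧
    ∀ q, 2 ≤ q → q ≤ Q → VEX_DT q (3 ^ q) η C := by
  induction Q with
  | zero =>
    exact ⟨1 / 5, 1, by norm_num, le_rfl, by norm_num, fun q h1 h2 => by omega⟩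
  | succ Q ih =>
    obtain ⟨η, C, h1, h2, h3, h4⟩ := ih
    by_cases hQ : 2 ≤ Q + 1
    · obtain ⟨η', C', g1, g2, g3⟩ := Pool.M6.stmt_D Pool.M6.stmt_SD (Q + 1) hQ (3 ^ (Q + 1))
        (one_le_pow₀ (by norm_num))
      refine ⟨min η η', max C C', lt_min h1 g1, (min_le_left _ _).trans h2,
        lt_max_of_lt_left h3, ?_⟩
      intro q hq1 hq2
      by_cases hq : q = Q + 1
      · subst hq
        exact VEX_DT_mono g2.le (min_le_right _ _) (le_max_right _ _) g3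
      · exact VEX_DT_mono h3.le (min_le_left _ _) (le_max_left _ _) (h4 q hq1 (by omega))
    · exact ⟨η, C, h1, h2, h3, fun q h5 h6 => by omega⟩

/-! ### the phase -/

/-- the derivatives of `-t log u` -/
noncomputable def VEX_F (t : ℝ) : ℕ → ℝ → ℝ
  | 0 => fun u => -(t * Real.log u)
  | i + 1 => fun u => (-1) ^ (i + 1) * t * (i.factorial : ℝ) / u ^ (i + 1)

lemma VEX_F_deriv (t : ℝ) (i : ℕ) (u : ℝ) (hu : 0 < u) :
    HasDerivAt (VEX_F t i) (VEX_F t (i + 1) u) u := by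
  cases i with
  | zero =>
    have h1 := ((Real.hasDerivAt_log hu.ne').const_mul t).neg
    refine h1.congr_deriv ?_
    simp [VEX_F, div_eq_mul_inv]
  | succ i =>
    have h1 : HasDerivAt (fun u : ℝ => u ^ (i + 1)) (((i + 1 : ℕ) : ℝ) * u ^ i) u := by
      have := hasDerivAt_pow (i + 1) u
      simpa using this
    have h2 : u ^ (i + 1) ≠ 0 := by positivity
    have h3 := (h1.inv h2).const_mul ((-1) ^ (i + 1) * t * (i.factorial : ℝ))
    have h4 : VEX_F t (i + 1) = fun u : ℝ => ((-1) ^ (i + 1) * t * (i.factorial : ℝ)) *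
        (u ^ (i + 1))⁻¹ := by
      funext v
      simp only [VEX_F, div_eq_mul_inv]
    rw [h4]
    refine h3.congr_deriv ?_
    simp only [VEX_F]
    have hu0 := hu.ne'
    rw [Nat.factorial_succ]
    push_cast
    field_simp
    ring

/-! ### large `t` -/

lemma VEX_large (Q : ℕ) (η C : ℝ) (hDT : ∀ q, 2 ≤ q → q ≤ Q → VEX_DT q (3 ^ q) η C)
    (R R' : ℕ) (hR1 : 1 ≤ R) (hRR : R < R') (hR2 : R' ≤ 2 * R)
    (hb : (3 : ℝ) ^ Q ≤ (R : ℝ) ^ (1 / 10 : ℝ)) (hc : (Q.factorial : ℝ) ≤ (R : ℝ) ^ (3 / 20 : ℝ))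
    (q : ℕ) (hq2 : 2 ≤ q) (hqQ : q ≤ Q) (t : ℝ)
    (h1 : (R : ℝ) ^ ((q : ℝ) - 7 / 5) ≤ |t|) (h2 : |t| ≤ (R : ℝ) ^ ((q : ℝ) - 2 / 5)) :
    ‖∑ r ∈ Finset.Ioc R R', ee (-(t * Real.log r))‖ ≤ C * (R : ℝ) ^ (1 - η) := by
  have hR0 : (0 : ℝ) < R := by exact_mod_cast hR1
  have hR1' : (1 : ℝ) ≤ R := by exact_mod_cast hR1
  have hRR' : (R : ℝ) < R' := by exact_mod_cast hRR
  have hR2' : (R' : ℝ) ≤ 2 * R := by exact_mod_cast hR2
  obtain ⟨i, rfl⟩ : ∃ i, q = i + 1 := ⟨q - 1, by omega⟩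
  have htp : 0 < |t| := lt_of_lt_of_le (by positivity) h1
  obtain ⟨l, hl⟩ : ∃ l : ℝ, l = |t| * (i.factorial : ℝ) / (3 * R) ^ (i + 1) := ⟨_, rfl⟩
  have hIco : Finset.Ioc R R' = Finset.Ico (R + 1) (R' + 1) := by
    ext m
    simp only [Finset.mem_Ioc, Finset.mem_Ico]
    omega
  rw [hIco]
  have hfac1 : (1 : ℝ) ≤ (i.factorial : ℝ) := by exact_mod_cast i.factorial_pos
  have hfacQ : (i.factorial : ℝ) ≤ (Q.factorial : ℝ) := by
    exact_mod_cast Nat.factorial_le (by omega : i ≤ Q)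
  have h3Q : (3 : ℝ) ^ (i + 1) ≤ 3 ^ Q := pow_le_pow_right₀ (by norm_num) hqQ
  have h31 : (1 : ℝ) ≤ (3 : ℝ) ^ (i + 1) := one_le_pow₀ (by norm_num)
  have hl2 : l = |t| / (R : ℝ) ^ (i + 1) * ((i.factorial : ℝ) / 3 ^ (i + 1)) := by
    rw [hl, mul_pow]
    field_simp
  have hRq : (R : ℝ) ^ (i + 1) = (R : ℝ) ^ (((i + 1 : ℕ) : ℝ)) := (Real.rpow_natCast _ _).symm
  have ht1 : (R : ℝ) ^ (-(7 / 5) : ℝ) ≤ |t| / (R : ℝ) ^ (i + 1) := by
    rw [le_div_iff₀ (by positivity), hRq, ← Real.rpow_add hR0]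
    refine le_trans (le_of_eq ?_) h1
    congr 1
    ring
  have ht2 : |t| / (R : ℝ) ^ (i + 1) ≤ (R : ℝ) ^ (-(2 / 5) : ℝ) := by
    rw [div_le_iff₀ (by positivity), hRq, ← Real.rpow_add hR0]
    refine h2.trans (le_of_eq ?_)
    congr 1
    ring
  have hl3 : (R : ℝ) ^ (-(3 / 2) : ℝ) ≤ l := by
    have e1 : (R : ℝ) ^ (-(3 / 2) : ℝ) = (R : ℝ) ^ (-(7 / 5) : ℝ) * (R : ℝ) ^ (-(1 / 10) : ℝ) := by
      rw [← Real.rpow_add hR0]
      norm_num
    rw [e1, hl2]
    have e2 : (R : ℝ) ^ (-(1 / 10) : ℝ) ≤ (i.factorial : ℝ) / 3 ^ (i + 1) := by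
      rw [Real.rpow_neg hR0.le, ← one_div]
      refine div_le_div₀ (by positivity) hfac1 (by positivity) (h3Q.trans hb)
    exact mul_le_mul ht1 e2 (by positivity) (by positivity)
  have hl4 : l ≤ (R : ℝ) ^ (-(1 / 4) : ℝ) := by
    have e1 : (R : ℝ) ^ (-(1 / 4) : ℝ) = (R : ℝ) ^ (-(2 / 5) : ℝ) * (R : ℝ) ^ (3 / 20 : ℝ) := by
      rw [← Real.rpow_add hR0]
      norm_num
    rw [e1, hl2]
    have e2 : (i.factorial : ℝ) / 3 ^ (i + 1) ≤ (R : ℝ) ^ (3 / 20 : ℝ) := by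
      refine (div_le_self (by positivity) h31).trans (hfacQ.trans hc)
    exact mul_le_mul ht2 e2 (by positivity) (by positivity)
  have key := hDT (i + 1) hq2 hqQ (VEX_F t) (R + 1) (R' + 1) (R : ℝ) l (by omega)
    (by push_cast; linarith) hR1' hl3 hl4 ?_ ?_
  · exact key
  · intro j _ u hu
    refine VEX_F_deriv t j u ?_
    have := hu.1
    push_cast at this
    linarith
  · -- the bounds
    have hb1 : ∀ u ∈ Set.Icc (((R + 1 : ℕ) : ℝ)) ((R' + 1 : ℕ) : ℝ),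
        l ≤ |t| * (i.factorial : ℝ) / u ^ (i + 1) ∧
        |t| * (i.factorial : ℝ) / u ^ (i + 1) ≤ 3 ^ (i + 1) * l := by
      intro u hu
      have hu1 : (R : ℝ) ≤ u := by
        have := hu.1
        push_cast at this
        linarith
      have hu2 : u ≤ 3 * R := by
        have := hu.2
        push_cast at this
        linarith
      have hu0 : 0 < u := lt_of_lt_of_le hR0 hu1
      constructor
      · rw [hl]
        refine div_le_div_of_nonneg_left (by positivity) (by positivity) ?_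
        exact pow_le_pow_left₀ hu0.le hu2 _
      · have e1 : 3 ^ (i + 1) * l = |t| * (i.factorial : ℝ) / R ^ (i + 1) := by
          rw [hl, mul_pow]
          field_simp
        rw [e1]
        refine div_le_div_of_nonneg_left (by positivity) (by positivity) ?_
        exact pow_le_pow_left₀ hR0.le hu1 _
    have hσ : (-1 : ℝ) ^ (i + 1) * t = |t| ∨ (-1 : ℝ) ^ (i + 1) * t = -|t| := by
      rcases neg_one_pow_eq_or ℝ (i + 1) with h | h <;> rcases abs_choice t with h' | h' <;>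
        rw [h, h'] <;> simp
    rcases hσ with hσ | hσ
    · left
      intro u hu
      have e : VEX_F t (i + 1) u = |t| * (i.factorial : ℝ) / u ^ (i + 1) := by
        simp only [VEX_F, hσ]
      rw [e]
      exact hb1 u hu
    · right
      intro u hu
      have e : -VEX_F t (i + 1) u = |t| * (i.factorial : ℝ) / u ^ (i + 1) := by
        simp only [VEX_F, hσ]
        ring
      rw [e]
      exact hb1 u hu

theorem p_VEX : Stmt_VEX := by
  intro ε hε
  obtain ⟨Q, hQ⟩ : ∃ Q : ℕ, Q = ⌈4 / ε⌉₊ + 3 := ⟨_, rfl⟩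
  obtain ⟨η, C, hη0, hη1, hC0, hDT⟩ := VEX_unif Q
  refine ⟨η / 2, by positivity, ?_⟩
  -- the largeness conditions
  have L : ∀ (c s : ℝ), 0 < s → ∀ᶠ y : ℝ in atTop, c ≤ y ^ s := fun c s hs =>
    (tendsto_rpow_atTop hs).eventually_ge_atTop c
  have hev : ∀ᶠ y : ℝ in atTop, 1 ≤ y ∧ 2 * Real.pi ≤ y ^ (1 / 10 : ℝ) ∧
      (3 : ℝ) ^ Q ≤ y ^ (1 / 10 : ℝ) ∧ (Q.factorial : ℝ) ≤ y ^ (3 / 20 : ℝ) ∧
      C + 1 ≤ y ^ (η / 2) := by
    filter_upwards [eventually_ge_atTop 1, L (2 * Real.pi) (1 / 10) (by norm_num),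
      L (3 ^ Q) (1 / 10) (by norm_num), L (Q.factorial : ℝ) (3 / 20) (by norm_num),
      L (C + 1) (η / 2) (by positivity)] with y a b c d e
    exact ⟨a, b, c, d, e⟩
  obtain ⟨y0, hy0⟩ := (eventually_atTop.1 hev)
  have hx : ∀ᶠ x : ℕ in atTop, y0 ≤ (x : ℝ) ^ ε :=
    ((tendsto_rpow_atTop hε).comp tendsto_natCast_atTop_atTop).eventually_ge_atTop y0
  filter_upwards [hx, eventually_ge_atTop 1] with x hx1 hx2
  intro R R' t hxR hRR hR2 htx
  obtain ⟨c1, c2, c3, c4, c5⟩ := hy0 (R : ℝ) (hx1.trans hxR)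
  have hR1 : 1 ≤ R := by exact_mod_cast c1
  have hR0 : (0 : ℝ) < R := by linarith
  have hRR' : (R : ℝ) < R' := by exact_mod_cast hRR
  have hR2' : (R' : ℝ) ≤ 2 * R := by exact_mod_cast hR2
  by_cases hcase : |t| ≤ (R : ℝ) ^ (7 / 10 : ℝ)
  · -- small t
    have h1 := VEX_small R hR1 t R' hRR.le
    have h2 : ((R' : ℝ) - R) * (2 * Real.pi * (|t| / R)) ≤ 2 * Real.pi * |t| := by
      have e : ((R' : ℝ) - R) * (2 * Real.pi * (|t| / R)) =
          (((R' : ℝ) - R) / R) * (2 * Real.pi * |t|) := by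
        field_simp
      rw [e]
      have h3 : ((R' : ℝ) - R) / R ≤ 1 := by rw [div_le_one hR0]; linarith
      have h4 : 0 ≤ 2 * Real.pi * |t| := by positivity
      nlinarith
    refine h1.trans (h2.trans ?_)
    calc 2 * Real.pi * |t| ≤ (R : ℝ) ^ (1 / 10 : ℝ) * (R : ℝ) ^ (7 / 10 : ℝ) :=
          mul_le_mul c2 hcase (abs_nonneg t) (by positivity)
      _ = (R : ℝ) ^ (8 / 10 : ℝ) := by
          rw [← Real.rpow_add hR0]
          norm_num
      _ ≤ (R : ℝ) ^ (1 - η / 2) := Real.rpow_le_rpow_of_exponent_le c1 (by linarith)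
  · push Not at hcase
    have htp : 0 < |t| := lt_trans (by positivity) hcase
    have ht0 : t ≠ 0 := abs_pos.1 htp
    -- the integral
    have hI : ‖∫ u in (R : ℝ)..R', ee (-(t * Real.log u))‖ ≤ (R : ℝ) ^ (1 - η) := by
      refine (VEX_integral R R' hR1 hRR hR2 t ht0).trans ?_
      rw [div_le_iff₀ htp]
      calc (R : ℝ) = (R : ℝ) ^ (3 / 10 : ℝ) * (R : ℝ) ^ (7 / 10 : ℝ) := by
            rw [← Real.rpow_add hR0]
            norm_num
        _ ≤ (R : ℝ) ^ (1 - η) * |t| := by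
            refine mul_le_mul ?_ hcase.le (by positivity) (by positivity)
            exact Real.rpow_le_rpow_of_exponent_le c1 (by linarith)
    -- the exponent
    have hxpos : (0 : ℝ) < x := by exact_mod_cast hx2
    have htR : |t| ≤ (R : ℝ) ^ (4 / ε) := by
      refine htx.trans ?_
      have e : (x : ℝ) ^ 4 = ((x : ℝ) ^ ε) ^ (4 / ε) := by
        rw [← Real.rpow_mul hxpos.le, ← Real.rpow_natCast]
        congr 1
        push_cast
        field_simp
      rw [e]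
      exact Real.rpow_le_rpow (by positivity) hxR (by positivity)
    have hex : ∃ q : ℕ, 2 ≤ q ∧ |t| ≤ (R : ℝ) ^ ((q : ℝ) - 2 / 5) := by
      refine ⟨Q, by omega, htR.trans (Real.rpow_le_rpow_of_exponent_le c1 ?_)⟩
      have h1 : 4 / ε ≤ (⌈4 / ε⌉₊ : ℝ) := Nat.le_ceil _
      rw [hQ]
      push_cast
      linarith
    obtain ⟨hq2, hqt⟩ := Nat.find_spec hex
    have hmin := fun m => Nat.find_min hex (m := m)
    obtain ⟨q, hq⟩ : ∃ q, q = Nat.find hex := ⟨_, rfl⟩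
    rw [← hq] at hq2 hqt hmin
    have hqQ : q ≤ Q := by
      rw [hq]
      refine Nat.find_min' hex ⟨by omega, htR.trans (Real.rpow_le_rpow_of_exponent_le c1 ?_)⟩
      have h1 : 4 / ε ≤ (⌈4 / ε⌉₊ : ℝ) := Nat.le_ceil _
      rw [hQ]
      push_cast
      linarith
    have hlow : (R : ℝ) ^ ((q : ℝ) - 7 / 5) ≤ |t| := by
      by_cases hq3 : q = 2
      · rw [hq3]
        refine le_trans ?_ hcase.le
        exact Real.rpow_le_rpow_of_exponent_le c1 (by norm_num)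
      · have h1 := hmin (q - 1) (by omega)
        rw [not_and] at h1
        have h2 := h1 (by omega)
        push Not at h2
        have h3 : ((q - 1 : ℕ) : ℝ) - 2 / 5 = (q : ℝ) - 7 / 5 := by
          rw [Nat.cast_sub (by omega)]
          push_cast
          ring
        rw [h3] at h2
        exact h2.le
    have hS := VEX_large Q η C hDT R R' hR1 hRR hR2 c3 c4 q hq2 hqQ t hlow hqt
    unfold ES
    refine (norm_sub_le _ _).trans ?_
    calc _ ≤ C * (R : ℝ) ^ (1 - η) + (R : ℝ) ^ (1 - η) := add_le_add hS hI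
      _ = (C + 1) * (R : ℝ) ^ (1 - η) := by ring
      _ ≤ (R : ℝ) ^ (η / 2) * (R : ℝ) ^ (1 - η) := mul_le_mul_of_nonneg_right c5 (by positivity)
      _ = (R : ℝ) ^ (1 - η / 2) := by
          rw [← Real.rpow_add hR0]
          congr 1
          ring

end Pool.Agent.Work.MP_7d0410_sp
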