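import Pool.Agent.Work.MP_7d0410_sv.Interface

/-! # Block VFB (helper55) -/

set_option autoImplicit false

namespace Pool.Agent.Work.MP_7d0410_sp

open Finset Filter MeasureTheory ProbabilityTheory
open Pool.Agent.Work.MP_7d0410_cr
open scoped Classical Topology

/-- the values of `HS` for typical sets -/
lemma VFB_HS {w : ℕ → ℝ} {η ε C : ℝ} {x R R' : ℕ} {S : Finset ℕ} (hty : TY w η ε x S)
    (ha : 1 ≤ a0 ε x) (hR : R < R') (hR1 : 1 ≤ R) (hRx : (x : ℝ) ^ ε ≤ R) (hC : C ≤ Real.log x)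
    (hC0 : 0 < C)
    (hB : ∀ q ∈ runs S, (x : ℝ) ^ ε ≤ 4 * len S q →
      (len S q : ℝ) * Real.log x ≤ C * ((q.2 : ℝ) - q.1)) (y : ℝ) :
    R * HS S R' y ≤ 1 ∧ ((y < 1 ∨ 4 * x < y) → HS S R' y = 0) := by
  by_cases hPT : PT S R' ⌊(R' : ℝ) * y⌋₊
  · obtain ⟨q, hq⟩ := (PT_iff _ _ _).1 hPT
    have hlt := PTS_lt hq
    have hltR : (q.1 : ℝ) < q.2 := by exact_mod_cast hlt
    obtain ⟨hqr, hlen, h1, h2, _⟩ := mem_PTS.1 hq
    obtain ⟨m1, m2, _⟩ := mem_runs.1 hqr
    have hU1 := hty.sub m1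
    have hU2 := hty.sub m2
    unfold UU at hU1 hU2
    rw [Finset.mem_Icc] at hU1 hU2
    have hR'0 : (0 : ℝ) < R' := by
      have : 0 < R' := by omega
      exact_mod_cast this
    constructor
    · have e1 : HS S R' y = 1 / ((q.2 : ℝ) - q.1) := gR_eq hq
      rw [e1, mul_one_div, div_le_one (by linarith)]
      have h3 : R ≤ len S q := by omega
      have h3' : (R : ℝ) ≤ len S q := by exact_mod_cast h3
      have h4 := hB q hqr (by linarith [Nat.cast_nonneg (α := ℝ) (len S q)])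
      have hlog : 0 < Real.log x := lt_of_lt_of_le hC0 hC
      have h5 : (len S q : ℝ) * Real.log x ≤ ((q.2 : ℝ) - q.1) * Real.log x := by
        refine h4.trans ?_
        rw [mul_comm]
        exact mul_le_mul_of_nonneg_left hC (by linarith)
      exact h3'.trans (le_of_mul_le_mul_right h5 hlog)
    · intro hy
      exfalso
      have hn0 : 0 < ⌊(R' : ℝ) * y⌋₊ := by omega
      have hRy : 1 ≤ (R' : ℝ) * y := Nat.floor_pos.1 hn0
      have h5 := len_mul_le_sm S q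
      have h6 := sm_le_len_mul S q
      have h7 : R' * q.1 < ⌊(R' : ℝ) * y⌋₊ := by
        have : R' * q.1 = len S q * q.1 + q.1 := by rw [← hlen, add_mul, one_mul]
        omega
      have h8 : ⌊(R' : ℝ) * y⌋₊ + 1 ≤ R' * q.2 := by
        have : R' * q.2 = len S q * q.2 + q.2 := by rw [← hlen, add_mul, one_mul]
        omega
      have h9 : ((R' * q.1 : ℕ) : ℝ) < R' * y :=
        lt_of_lt_of_le (by exact_mod_cast h7) (Nat.floor_le (by linarith))
      have h10 : (R' : ℝ) * y < ((R' * q.2 : ℕ) : ℝ) := by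
        refine lt_of_lt_of_le (Nat.lt_floor_add_one _) ?_
        exact_mod_cast h8
      push_cast at h9 h10
      have h11 : (q.1 : ℝ) < y := lt_of_mul_lt_mul_left h9 hR'0.le
      have h12 : y < q.2 := lt_of_mul_lt_mul_left h10 hR'0.le
      have h13 : (1 : ℝ) ≤ q.1 := by exact_mod_cast ha.trans hU1.1
      have h14 : (q.2 : ℝ) ≤ 2 * x := by exact_mod_cast hU2.2
      have h15 : (0 : ℝ) ≤ x := Nat.cast_nonneg x
      rcases hy with hy | hy <;> linarith
  · have e1 : HS S R' y = 0 := gR_eq_zero hPT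
    rw [e1]
    constructor
    · rw [mul_zero]; exact zero_le_one
    · intro _; rfl

lemma VFB_SM (x : ℕ) (f : ℝ → ℝ) (c y : ℝ) : SM x (fun z => c * f z) y = c * SM x f y := by
  unfold SM
  rw [intervalIntegral.integral_const_mul]
  ring

lemma VFB_lim {ε κ δ η : ℝ} (hε : 0 < ε) (hκ : 0 < κ) (hη : 0 < η) :
    ∀ᶠ x : ℕ in atTop, 2 / δ * Real.log x * (x : ℝ) ^ (-(ε * κ)) ≤ η := by
  have h1 : Tendsto (fun x : ℝ => Real.log x / x ^ (ε * κ)) atTop (𝓝 0) :=
    (isLittleO_log_rpow_atTop (mul_pos hε hκ)).tendsto_div_nhds_zero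
  have h2 : Tendsto (fun x : ℕ => 2 / δ * (Real.log x / (x : ℝ) ^ (ε * κ))) atTop (𝓝 (2 / δ * 0)) :=
    (h1.comp tendsto_natCast_atTop_atTop).const_mul _
  rw [mul_zero] at h2
  filter_upwards [h2.eventually (gt_mem_nhds hη)] with x hx
  refine le_trans (le_of_eq ?_) hx.le
  rw [Real.rpow_neg (Nat.cast_nonneg x)]
  ring

theorem p_VFB : Stmt_VAN → Stmt_VHB → Stmt_VRB → Stmt_VFB := by
  intro hVAN hVHB hVRB w hw ε δ η hε hε4 hδ hδ1 hη
  obtain ⟨κ, hκ, hVAN⟩ := hVAN ε hε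
  obtain ⟨C, hC, hVHB⟩ := hVHB w hw ε δ hε hε4 hδ (by linarith)
  have hlogC : ∀ᶠ x : ℕ in atTop, C ≤ Real.log x :=
    (Real.tendsto_log_atTop.comp tendsto_natCast_atTop_atTop).eventually_ge_atTop C
  filter_upwards [hVAN, hVHB, hVRB ε δ hε hε4 hδ (by linarith), hlogC, VFB_lim (δ := δ) hε hκ hη,
    eventually_ge_atTop 1] with x hVAN hVHB hVRB hlogC hlim hx1
  obtain ⟨_, _, hRB, hRM, hJB, _, hRM2⟩ := hVRB
  have hx1' : (1 : ℝ) ≤ x := by exact_mod_cast hx1
  have hx0 : (0 : ℝ) < x := by linarith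
  have ha : 1 ≤ a0 ε x := by
    unfold a0
    rw [Nat.one_le_ceil_iff]
    positivity
  -- one block
  have key : ∀ j ∈ Finset.range (JB ε δ x), IntervalIntegrable
      (fun ν : ℝ => |FJ w δ ε x (RB ε δ x j) (RB ε δ x (j + 1)) ν|) volume 1 (4 * x) ∧
      ∫ ν in (1 : ℝ)..(4 * x), |FJ w δ ε x (RB ε δ x j) (RB ε δ x (j + 1)) ν| ≤
        x * (x : ℝ) ^ (-(ε * κ)) := by
    intro j hj
    rw [Finset.mem_range] at hj
    obtain ⟨g1, g2, g3⟩ := hRB j
    have g4 := hRM (j + 1) hj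
    generalize RB ε δ x j = R at g1 g2 g3
    generalize RB ε δ x (j + 1) = R' at g2 g3 g4
    have hR0 : (0 : ℝ) < R := lt_of_lt_of_le (by positivity) g1
    have hR1 : 1 ≤ R := by
      have : 0 < R := by exact_mod_cast hR0
      omega
    have g5 : R' ≤ 2 * R := by
      have : (R' : ℝ) ≤ 2 * R := g3.trans (mul_le_mul_of_nonneg_right (by linarith) hR0.le)
      exact_mod_cast this
    have g6 : R' ^ 2 ≤ x := by
      have h1 : (R' : ℝ) ^ 2 ≤ (RM ε x : ℝ) ^ 2 := by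
        have : (R' : ℝ) ≤ RM ε x := by exact_mod_cast g4
        gcongr
      have h2 : (x : ℝ) ^ (1 - 2 * ε) ≤ (x : ℝ) ^ (1 : ℝ) :=
        Real.rpow_le_rpow_of_exponent_le hx1' (by linarith)
      rw [Real.rpow_one] at h2
      have h3 : (R' : ℝ) ^ 2 ≤ x := h1.trans (hRM2.trans h2)
      exact_mod_cast h3
    have hS : ∀ S : Finset ℕ, TY w δ ε x S → ∀ y : ℝ, R * HS S R' y ≤ 1 ∧
        ((y < 1 ∨ 4 * x < y) → HS S R' y = 0) := fun S hty y =>
      VFB_HS hty ha g2 hR1 g1 hlogC hC (hVHB S hty) y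
    have hf : ∀ y, (R : ℝ) * fj w δ ε x R' y = Ex (pw w) (UU ε x)
        (fun S => (R : ℝ) * (if TY w δ ε x S then HS S R' y else 0)) := by
      intro y
      unfold fj
      rw [Ex_const_mul]
    obtain ⟨i1, i2⟩ := hVAN R R' (fun y => (R : ℝ) * fj w δ ε x R' y) g1 g2 g5 g6
      ((fj_measurable w δ ε x R').const_mul _) (by
        intro y
        refine ⟨mul_nonneg hR0.le (fj_nonneg hw δ ε x R' y), ?_⟩
        show (R : ℝ) * fj w δ ε x R' y ≤ 1
        rw [hf]
        refine Ex_le_const (prob_pw hw) fun S _ => ?_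
        split_ifs with hty
        · exact (hS S hty y).1
        · rw [mul_zero]; exact zero_le_one) (by
        intro y hy
        show (R : ℝ) * fj w δ ε x R' y = 0
        rw [hf]
        refine (Ex_congr (K := fun _ => 0) fun S _ => ?_).trans (Ex_const _ _)
        split_ifs with hty
        · rw [(hS S hty _).2 (by exact_mod_cast hy), mul_zero]
        · rw [mul_zero])
    have e1 : (fun ν : ℝ => |∑ r ∈ Finset.Ioc R R', SM x (fun y => (R : ℝ) * fj w δ ε x R' y) (ν / r) -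
        ∫ u in (R : ℝ)..R', SM x (fun y => (R : ℝ) * fj w δ ε x R' y) (ν / u)|) =
        fun ν => (R : ℝ) * |FJ w δ ε x R R' ν| := by
      funext ν
      simp only [VFB_SM]
      rw [intervalIntegral.integral_const_mul, ← Finset.mul_sum, ← mul_sub, abs_mul,
        abs_of_pos hR0]
      rfl
    rw [e1] at i1 i2
    constructor
    · have h1 := i1.const_mul (R : ℝ)⁻¹
      refine h1.congr ?_
      intro ν _
      show (R : ℝ)⁻¹ * ((R : ℝ) * |FJ w δ ε x R R' ν|) = |FJ w δ ε x R R' ν|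
      rw [inv_mul_cancel_left₀ hR0.ne']
    · rw [intervalIntegral.integral_const_mul] at i2
      have h1 : (R : ℝ) ^ (1 - κ) = R * (R : ℝ) ^ (-κ) := by
        rw [sub_eq_add_neg, Real.rpow_add hR0, Real.rpow_one]
      rw [h1, mul_left_comm] at i2
      have h2 := le_of_mul_le_mul_left i2 hR0
      refine h2.trans (mul_le_mul_of_nonneg_left ?_ hx0.le)
      rw [← mul_neg, Real.rpow_mul hx0.le]
      exact Real.rpow_le_rpow_of_nonpos (by positivity) g1 (by linarith)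
  refine ⟨fun j hj => (key j hj).1, ?_⟩
  calc ∑ j ∈ Finset.range (JB ε δ x),
      ∫ ν in (1 : ℝ)..(4 * x), |FJ w δ ε x (RB ε δ x j) (RB ε δ x (j + 1)) ν|
      ≤ ∑ j ∈ Finset.range (JB ε δ x), x * (x : ℝ) ^ (-(ε * κ)) :=
        Finset.sum_le_sum fun j hj => (key j hj).2
    _ = (JB ε δ x : ℝ) * (x * (x : ℝ) ^ (-(ε * κ))) := by
        rw [Finset.sum_const, Finset.card_range, nsmul_eq_mul]
    _ ≤ (2 / δ * Real.log x) * (x * (x : ℝ) ^ (-(ε * κ))) :=
        mul_le_mul_of_nonneg_right hJB (by positivity)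
    _ = (2 / δ * Real.log x * (x : ℝ) ^ (-(ε * κ))) * x := by ring
    _ ≤ η * x := mul_le_mul_of_nonneg_right hlim hx0.le

end Pool.Agent.Work.MP_7d0410_sp
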