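import Pool.Agent.Work.MP_7d0410_sv.Interface
import Pool.Agent.Work.MP_7d0410_cr.B_FIN

/-!
# VFI: assembly
-/

set_option autoImplicit false

namespace Pool.Agent.Work.MP_7d0410_sp

open Finset Filter MeasureTheory ProbabilityTheory
open Pool.Agent.Work.MP_7d0410_cr
open scoped Classical Topology

lemma VFI_ex (w : ℕ → ℝ) (ε : ℝ) (x k : ℕ) : Ex (pw w) (UU ε x) (fun S => (DD (R0 ε x) (GG x) S x k : ℝ)) =
    ∑ n ∈ Finset.Icc 1 x, Pb (pw w) (UU ε x) (fun S => cnt (R0 ε x) (GG x) S n = k) := by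
  unfold Pb
  rw [← Ex_sum]
  refine Ex_congr fun S _ => ?_
  unfold DD
  rw [Finset.card_filter]
  push_cast
  exact Finset.sum_congr rfl fun n _ => by congr

theorem p_VFI.{u} (h2 : Stmt_VLM) (h1 : Stmt_VBC.{u}) (h3 : Stmt_VCG.{u}) (h5 : Stmt_VBA)
    (h6 : Stmt_INT) : Stmt_VFI.{u} := by
  intro Ω _ μ _ E w hw hC
  have he : ∀ i : ℕ, 0 < 1 / ((i : ℝ) + 5) ∧ 1 / ((i : ℝ) + 5) < 1 / 4 := by
    intro i
    have : (0 : ℝ) ≤ i := Nat.cast_nonneg i
    constructor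
    · positivity
    · exact one_div_lt_one_div_of_lt (by norm_num) (by linarith)
  have key : ∀ᵐ ω ∂μ, ∀ i k : ℕ, Tendsto (fun j : ℕ =>
      ((DD (R0 (1 / ((i : ℝ) + 5)) (j ^ AA (1 / ((i : ℝ) + 5)))) (GG (j ^ AA (1 / ((i : ℝ) + 5))))
      (SS (1 / ((i : ℝ) + 5)) (j ^ AA (1 / ((i : ℝ) + 5))) (primesPlus E ω)) (j ^ AA (1 / ((i : ℝ) + 5))) k : ℝ) -
    Ex (pw w) (UU (1 / ((i : ℝ) + 5)) (j ^ AA (1 / ((i : ℝ) + 5)))) (fun S =>
      (DD (R0 (1 / ((i : ℝ) + 5)) (j ^ AA (1 / ((i : ℝ) + 5)))) (GG (j ^ AA (1 / ((i : ℝ) + 5)))) S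
        (j ^ AA (1 / ((i : ℝ) + 5))) k : ℝ))) /
    ((j ^ AA (1 / ((i : ℝ) + 5)) : ℕ) : ℝ)) atTop (𝓝 0) := by
    rw [ae_all_iff]
    intro i
    rw [ae_all_iff]
    intro k
    exact h1 μ E w hw hC _ (he i).1 (he i).2 k
  filter_upwards [key, h3 μ E w hw hC] with ω hB hcnt k
  have hP : ∀ m ∈ primesPlus E ω, 1 ≤ m := by
    intro m hm
    rcases hm with hm | hm
    · exact hm.one_lt.le
    · omega
  -- the estimate for fixed `ε`
  have main : ∀ i : ℕ, ∀ η : ℝ, 0 < η → ∀ᶠ x : ℕ in atTop,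
      |(FIN_c (primesPlus E ω) k x : ℝ) / x - FIN_poi (1 / ((i : ℝ) + 5)) k| ≤
        400 * (1 / ((i : ℝ) + 5)) + η := by
    intro i η hη
    set ε : ℝ := 1 / ((i : ℝ) + 5) with hε
    obtain ⟨he1, he2⟩ := he i
    rw [← hε] at he1 he2
    have hA : 1 ≤ AA ε := by
      unfold AA
      have : 0 < 2 / ε := by positivity
      exact Nat.one_le_iff_ne_zero.2 (Nat.ceil_pos.2 this).ne'
    have hxj : Tendsto (fun j : ℕ => j ^ AA ε) atTop atTop := tendsto_pow_atTop (by omega)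
    refine h6 (FIN_c (primesPlus E ω) k) (AA ε) (FIN_poi ε k) (400 * ε + η / 2) (400 * ε + η)
      (FIN_c_mono _ _) (FIN_c_le _ _) hA (by linarith) ?_
    have hbad := hxj.eventually (h5 (primesPlus E ω) hP hcnt ε he1 he2)
    have hlim := (h2 w hw ε he1 he2 k).comp hxj
    have hlim' : ∀ᶠ j : ℕ in atTop, |Ex (pw w) (UU ε (j ^ AA ε)) (fun S =>
        (DD (R0 ε (j ^ AA ε)) (GG (j ^ AA ε)) S (j ^ AA ε) k : ℝ)) / ((j ^ AA ε : ℕ) : ℝ) -
          FIN_poi ε k| < η / 4 := by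
      have := (Metric.tendsto_nhds.1 hlim) (η / 4) (by linarith)
      filter_upwards [this] with j hj
      rw [VFI_ex]
      rw [Real.dist_eq] at hj
      exact hj
    have hcon := (Metric.tendsto_nhds.1 (hB i k)) (η / 4) (by linarith)
    filter_upwards [hbad, hlim', hcon, eventually_ge_atTop 1] with j hj1 hj2 hj3 hj4
    rw [← hε] at hj3
    rw [Real.dist_eq, sub_zero] at hj3
    set x := j ^ AA ε with hx
    have hx1 : 1 ≤ x := Nat.one_le_pow _ _ hj4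
    have hx0 : (0 : ℝ) < x := by exact_mod_cast hx1
    set c : ℝ := (FIN_c (primesPlus E ω) k x : ℝ)
    set d : ℝ := (DD (R0 ε x) (GG x) (SS ε x (primesPlus E ω)) x k : ℝ)
    set m : ℝ := Ex (pw w) (UU ε x) (fun S => (DD (R0 ε x) (GG x) S x k : ℝ))
    have e1 : |c - d| ≤ 400 * ε * x := (FIN_diff (primesPlus E ω) k x ε).trans hj1
    have e2 : |c / x - d / x| ≤ 400 * ε := by
      rw [← sub_div, abs_div, abs_of_pos hx0, div_le_iff₀ hx0]
      exact e1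
    have e3 : |d / x - m / x| < η / 4 := by
      rw [← sub_div]
      exact hj3
    have e4 : c / x - FIN_poi ε k = (c / x - d / x) + (d / x - m / x) + (m / x - FIN_poi ε k) := by
      ring
    rw [e4]
    calc |c / x - d / x + (d / x - m / x) + (m / x - FIN_poi ε k)|
        ≤ |c / x - d / x| + |d / x - m / x| + |m / x - FIN_poi ε k| := abs_add_three _ _ _
      _ ≤ 400 * ε + η / 2 := by linarith
  rw [Metric.tendsto_atTop']
  intro η hη
  have t1 : Tendsto (fun i : ℕ => 400 * (1 / ((i : ℝ) + 5))) atTop (𝓝 0) := by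
    have : Tendsto (fun i : ℕ => ((i : ℝ) + 5)) atTop atTop :=
      tendsto_atTop_add_const_right _ _ tendsto_natCast_atTop_atTop
    have h := this.inv_tendsto_atTop.const_mul (400 : ℝ)
    rw [mul_zero] at h
    simp only [one_div]
    exact h
  have t2 := (Metric.tendsto_nhds.1 t1) (η / 4) (by linarith)
  have t3 := (Metric.tendsto_nhds.1 (FIN_poi_tendsto k)) (η / 4) (by linarith)
  obtain ⟨i, hi1, hi2⟩ := (t2.and t3).exists
  rw [Real.dist_eq, sub_zero, abs_of_nonneg (by have := (he i).1; linarith)] at hi1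
  rw [Real.dist_eq] at hi2
  obtain ⟨N, hN⟩ := eventually_atTop.1 (main i (η / 4) (by linarith))
  refine ⟨N, fun x hx => ?_⟩
  have h := hN x hx.le
  rw [Real.dist_eq]
  have e4 : (FIN_c (primesPlus E ω) k x : ℝ) / x - Real.log 2 ^ k / (2 * (k.factorial : ℝ)) =
      ((FIN_c (primesPlus E ω) k x : ℝ) / x - FIN_poi (1 / ((i : ℝ) + 5)) k) +
      (FIN_poi (1 / ((i : ℝ) + 5)) k - Real.log 2 ^ k / (2 * (k.factorial : ℝ))) := by ring
  have : |(FIN_c (primesPlus E ω) k x : ℝ) / x - Real.log 2 ^ k / (2 * (k.factorial : ℝ))| < η := by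
    rw [e4]
    calc |((FIN_c (primesPlus E ω) k x : ℝ) / x - FIN_poi (1 / ((i : ℝ) + 5)) k) +
      (FIN_poi (1 / ((i : ℝ) + 5)) k - Real.log 2 ^ k / (2 * (k.factorial : ℝ)))|
        ≤ |(FIN_c (primesPlus E ω) k x : ℝ) / x - FIN_poi (1 / ((i : ℝ) + 5)) k| +
      |FIN_poi (1 / ((i : ℝ) + 5)) k - Real.log 2 ^ k / (2 * (k.factorial : ℝ))| := abs_add_le _ _
      _ < η := by linarith
  exact this

end Pool.Agent.Work.MP_7d0410_sp
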