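import Pool.Agent.Work.MP_7d0410_sv.Interface

/-! # Block VFL (helper87): sums against integrals of a function of the floor -/

set_option autoImplicit false

namespace Pool.Agent.Work.MP_7d0410_sp

open Finset Filter MeasureTheory ProbabilityTheory
open Pool.Agent.Work.MP_7d0410_cr
open scoped Classical Topology

theorem VFL_floor {A u : ℝ} {m : ℕ} (hm : 1 ≤ m) (hA : 0 < A)
    (hu : u ∈ Set.Ioo (A / (m + 1)) (A / m)) : ⌊A / u⌋₊ = m := by
  have hm' : (0 : ℝ) < m := by exact_mod_cast hm
  have h1 : 0 < u := lt_trans (by positivity) hu.1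
  rw [Nat.floor_eq_iff (by positivity)]
  constructor
  · rw [le_div_iff₀ h1]
    have h2 := hu.2
    rw [lt_div_iff₀ hm'] at h2
    linarith
  · rw [div_lt_iff₀ h1]
    have h2 := hu.1
    rw [div_lt_iff₀ (by positivity)] at h2
    linarith

theorem p_VFL : Stmt_VFL := by
  intro A R R' M G hA hR hRR hG hM
  have hR0 : (0 : ℝ) < R := by exact_mod_cast hR
  have hRR' : (R : ℝ) ≤ R' := by exact_mod_cast hRR
  have hmeas : Measurable fun u : ℝ => G ⌊A / u⌋₊ := by
    have h1 : Measurable fun u : ℝ => ⌊A / u⌋₊ :=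
      Nat.measurable_floor.comp (measurable_const.div measurable_id)
    exact (measurable_from_top (f := G)).comp h1
  have hI : Integrable (fun u : ℝ => G ⌊A / u⌋₊) (volume.restrict (Set.Ioc (R : ℝ) R')) := by
    refine Integrable.of_bound hmeas.aestronglyMeasurable
      (∑ i ∈ Finset.range (⌊A / R⌋₊ + 1), G i) ?_
    rw [ae_restrict_iff' measurableSet_Ioc]
    refine Eventually.of_forall fun u hu => ?_
    rw [Real.norm_eq_abs, abs_of_nonneg (hG _)]
    refine Finset.single_le_sum (f := G) (fun i _ => hG i) ?_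
    rw [Finset.mem_range, Nat.lt_succ_iff]
    refine Nat.floor_le_floor ?_
    exact div_le_div_of_nonneg_left hA.le hR0 hu.1.le
  refine ⟨(intervalIntegrable_iff_integrableOn_Ioc_of_le hRR').2 hI, ?_⟩
  rw [intervalIntegral.integral_of_le hRR']
  have hterm : ∀ m ∈ M, G m * (A / (m * ((m : ℝ) + 1))) =
      ∫ u in Set.Ioc (R : ℝ) R', (Set.Ioo (A / ((m : ℝ) + 1)) (A / m)).indicator
        (fun _ => G m) u := by
    intro m hm
    obtain ⟨h1, h2, h3⟩ := hM m hm
    have hm' : (0 : ℝ) < m := by exact_mod_cast h1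
    rw [integral_indicator_const _ measurableSet_Ioo, measureReal_restrict_apply measurableSet_Ioo]
    have h4 : Set.Ioo (A / ((m : ℝ) + 1)) (A / m) ∩ Set.Ioc (R : ℝ) R' =
        Set.Ioo (A / ((m : ℝ) + 1)) (A / m) := by
      refine Set.inter_eq_left.2 fun u hu => ⟨?_, ?_⟩
      · refine lt_of_le_of_lt ?_ hu.1
        rw [le_div_iff₀ (by positivity)]
        exact h3
      · refine hu.2.le.trans ?_
        rw [div_le_iff₀ hm']
        exact h2
    have h5 : A / ((m : ℝ) + 1) ≤ A / m :=
      div_le_div_of_nonneg_left hA.le hm' (by linarith)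
    rw [h4, Real.volume_real_Ioo_of_le h5, smul_eq_mul, mul_comm]
    congr 1
    field_simp
    ring
  rw [Finset.sum_congr rfl hterm, ← integral_finsetSum]
  · refine integral_mono_ae ?_ hI ?_
    · refine integrable_finsetSum _ fun m _ => ?_
      exact (integrable_const (G m)).indicator measurableSet_Ioo
    · refine Eventually.of_forall fun u => ?_
      show ∑ m ∈ M, (Set.Ioo (A / ((m : ℝ) + 1)) (A / m)).indicator (fun _ => G m) u ≤
        G ⌊A / u⌋₊
      have h1 : ∑ m ∈ M, (Set.Ioo (A / ((m : ℝ) + 1)) (A / m)).indicator (fun _ => G m) u ≤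
          ∑ m ∈ M, if ⌊A / u⌋₊ = m then G m else 0 := by
        refine Finset.sum_le_sum fun m hm => ?_
        by_cases h2 : u ∈ Set.Ioo (A / ((m : ℝ) + 1)) (A / m)
        · rw [Set.indicator_of_mem h2, if_pos (VFL_floor (hM m hm).1 hA h2)]
        · rw [Set.indicator_of_notMem h2]
          split_ifs
          · exact hG m
          · exact le_rfl
      refine h1.trans ?_
      rw [Finset.sum_ite_eq]
      split_ifs
      · exact le_rfl
      · exact hG _
  · intro m _
    exact (integrable_const (G m)).indicator measurableSet_Ioo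

end Pool.Agent.Work.MP_7d0410_sp
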