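import Pool.Agent.Work.MP_7d0410_sv.Interface

/-! # MP_7d0410_nt, slowly varying weights: block VG1 (box smoothing) -/

set_option autoImplicit false

namespace Pool.Agent.Work.MP_7d0410_sp

open Finset Filter MeasureTheory ProbabilityTheory
open Pool.Agent.Work.MP_7d0410_cr
open scoped Classical Topology

/-- the Fourier transform of a translate -/
theorem VG1_shift (g : ℝ → ℝ) (t a : ℝ) :
    ∫ y : ℝ, ((g (y - a) : ℝ) : ℂ) * ee (-(t * y)) =
      ee (-(t * a)) * FT (fun y => (g y : ℂ)) t := by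
  have h1 := integral_sub_right_eq_self (μ := volume)
    (fun y : ℝ => ((g y : ℝ) : ℂ) * ee (-(t * (y + a)))) a
  have h2 : (fun y : ℝ => ((g (y - a) : ℝ) : ℂ) * ee (-(t * (y - a + a)))) =
      fun y : ℝ => ((g (y - a) : ℝ) : ℂ) * ee (-(t * y)) := by
    funext y
    rw [sub_add_cancel]
  rw [h2] at h1
  rw [h1]
  unfold FT
  rw [← integral_const_mul]
  refine integral_congr_ae (Eventually.of_forall fun y => ?_)
  show ((g y : ℝ) : ℂ) * ee (-(t * (y + a))) = ee (-(t * a)) * ((g y : ℂ) * ee (-(t * y)))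
  have e : -(t * (y + a)) = -(t * a) + -(t * y) := by ring
  rw [e, ee_add]
  ring

/-- integrability on the product -/
theorem VG1_int (g c : ℝ → ℝ) (A B t : ℝ) (hgm : Measurable g) (hgi : Integrable g)
    (hc : Measurable c) :
    Integrable (Function.uncurry fun (s y : ℝ) => ((g (y - c s) : ℝ) : ℂ) * ee (-(t * y)))
      ((volume.restrict (Set.Ioc A B)).prod volume) := by
  have hm : Measurable (Function.uncurry
      fun (s y : ℝ) => ((g (y - c s) : ℝ) : ℂ) * ee (-(t * y))) := by
    have h1 : Measurable fun p : ℝ × ℝ => p.2 - c p.1 :=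
      measurable_snd.sub (hc.comp measurable_fst)
    have h2 : Measurable fun p : ℝ × ℝ => ((g (p.2 - c p.1) : ℝ) : ℂ) :=
      Complex.measurable_ofReal.comp (hgm.comp h1)
    have h3 : Measurable fun p : ℝ × ℝ => ee (-(t * p.2)) :=
      continuous_ee.measurable.comp ((measurable_snd.const_mul t).neg)
    exact h2.mul h3
  have hn : ∀ s y : ℝ, ‖((g (y - c s) : ℝ) : ℂ) * ee (-(t * y))‖ = |g (y - c s)| := by
    intro s y
    rw [norm_mul, norm_ee, mul_one, Complex.norm_real, Real.norm_eq_abs]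
  rw [integrable_prod_iff hm.aestronglyMeasurable]
  constructor
  · refine Eventually.of_forall fun s => ?_
    have h1 : Integrable fun y : ℝ => g (y - c s) := hgi.comp_sub_right (c s)
    have h2 : Integrable fun y : ℝ => ((g (y - c s) : ℝ) : ℂ) := h1.ofReal
    refine h2.mono (hm.comp measurable_prodMk_left).aestronglyMeasurable ?_
    refine Eventually.of_forall fun y => ?_
    show ‖((g (y - c s) : ℝ) : ℂ) * ee (-(t * y))‖ ≤ ‖((g (y - c s) : ℝ) : ℂ)‖
    rw [norm_mul, norm_ee, mul_one]
  · have h2 : (fun s : ℝ => ∫ y : ℝ, ‖Function.uncurry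
        (fun (s y : ℝ) => ((g (y - c s) : ℝ) : ℂ) * ee (-(t * y))) (s, y)‖) =
        fun _ => ∫ y : ℝ, |g y| := by
      funext s
      have h3 : (fun y : ℝ => ‖Function.uncurry
          (fun (s y : ℝ) => ((g (y - c s) : ℝ) : ℂ) * ee (-(t * y))) (s, y)‖) =
          fun y => |g (y - c s)| := by
        funext y
        exact hn s y
      rw [h3]
      exact integral_sub_right_eq_self (μ := volume) (fun y : ℝ => |g y|) (c s)
    rw [h2]
    exact integrable_const _

/-- Fubini for the mean value of translates -/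
theorem VG1_fub (g c : ℝ → ℝ) (A B t : ℝ) (hAB : A ≤ B) (hgm : Measurable g)
    (hgi : Integrable g) (hc : Measurable c) :
    Integrable (fun y : ℝ => ((∫ s in A..B, g (y - c s) : ℝ) : ℂ) * ee (-(t * y))) ∧
    ∫ y : ℝ, ((∫ s in A..B, g (y - c s) : ℝ) : ℂ) * ee (-(t * y)) =
      (∫ s in A..B, ee (-(t * c s))) * FT (fun y => (g y : ℂ)) t := by
  have hi := VG1_int g c A B t hgm hgi hc
  have he : ∀ y : ℝ, ((∫ s in A..B, g (y - c s) : ℝ) : ℂ) * ee (-(t * y)) =
      ∫ s in Set.Ioc A B, ((g (y - c s) : ℝ) : ℂ) * ee (-(t * y)) := by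
    intro y
    rw [intervalIntegral.integral_of_le hAB, ← integral_complex_ofReal, ← integral_mul_const]
  constructor
  · have h1 := hi.integral_prod_right
    refine h1.congr (Eventually.of_forall fun y => ?_)
    exact (he y).symm
  · have h2 := integral_integral_swap hi
    rw [integral_congr_ae (Eventually.of_forall he), ← h2]
    rw [intervalIntegral.integral_of_le hAB, ← integral_mul_const]
    refine integral_congr_ae (Eventually.of_forall fun s => ?_)
    exact VG1_shift g t (c s)

/-- the integral of `ee` over `[0, b]` -/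
theorem VG1_ee (t b : ℝ) (ht : t ≠ 0) : ‖∫ s in (0 : ℝ)..b, ee (-(t * s))‖ ≤ 1 / |t| := by
  have hpi := Real.pi_pos
  set z : ℂ := -(2 * Real.pi * t : ℝ) * Complex.I with hz
  have hz0 : z ≠ 0 := by
    rw [hz]
    refine mul_ne_zero (neg_ne_zero.2 ?_) Complex.I_ne_zero
    exact_mod_cast mul_ne_zero (by positivity) ht
  have h1 : ∀ s : ℝ, ee (-(t * s)) = Complex.exp (z * s) := by
    intro s
    unfold ee
    congr 1
    rw [hz]
    push_cast
    ring
  have h2 : ∫ s in (0 : ℝ)..b, ee (-(t * s)) = (Complex.exp (z * b) - Complex.exp (z * (0 : ℝ))) / z := by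
    rw [← integral_exp_mul_complex hz0]
    exact intervalIntegral.integral_congr fun s _ => h1 s
  rw [h2, norm_div]
  have h3 : ‖z‖ = 2 * Real.pi * |t| := by
    rw [hz, norm_mul, norm_neg, Complex.norm_I, mul_one, Complex.norm_real, Real.norm_eq_abs,
      abs_mul, abs_of_pos (by positivity : (0 : ℝ) < 2 * Real.pi)]
  have h4 : ‖Complex.exp (z * b) - Complex.exp (z * (0 : ℝ))‖ ≤ 2 := by
    refine (norm_sub_le _ _).trans ?_
    rw [← h1, ← h1, norm_ee, norm_ee]
    norm_num
  have ht' : 0 < |t| := abs_pos.2 ht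
  rw [h3, div_le_div_iff₀ (by positivity) ht']
  have h5 : (3 : ℝ) < Real.pi := Real.pi_gt_three
  nlinarith [norm_nonneg (Complex.exp (z * b) - Complex.exp (z * (0 : ℝ)))]

/-- bounded functions with bounded support are integrable -/
theorem VG1_gi (g : ℝ → ℝ) (V : ℝ) (hgm : Measurable g) (hg : ∀ y, 0 ≤ g y ∧ g y ≤ 1)
    (hV : ∀ y, y < 0 ∨ V < y → g y = 0) : Integrable g ∧ (0 ≤ V → ∫ y, |g y| ≤ V) := by
  have h1 : Integrable ((Set.Icc 0 V).indicator fun _ : ℝ => (1 : ℝ)) := by
    rw [integrable_indicator_iff measurableSet_Icc]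
    exact integrableOn_const (by rw [Real.volume_Icc]; exact ENNReal.ofReal_ne_top)
  have h2 : ∀ y, |g y| ≤ (Set.Icc 0 V).indicator (fun _ : ℝ => (1 : ℝ)) y := by
    intro y
    by_cases hy : y ∈ Set.Icc 0 V
    · rw [Set.indicator_of_mem hy, abs_of_nonneg (hg y).1]
      exact (hg y).2
    · rw [Set.indicator_of_notMem hy, hV y (by
        rw [Set.mem_Icc, not_and_or, not_le, not_le] at hy
        exact hy), abs_zero]
  have h3 : Integrable g := h1.mono' hgm.aestronglyMeasurable
    (Eventually.of_forall fun y => by rw [Real.norm_eq_abs]; exact h2 y)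
  refine ⟨h3, fun hV0 => ?_⟩
  have h4 := integral_mono h3.abs h1 h2
  refine h4.trans ?_
  rw [integral_indicator measurableSet_Icc, setIntegral_const, smul_eq_mul, mul_one,
    measureReal_def, Real.volume_Icc, ENNReal.toReal_ofReal (by linarith)]
  linarith

/-- Block VG1. -/
theorem p_VG1 : Stmt_VG1 := by
  intro g N V hN hV0 hgm hg hV
  obtain ⟨hgi, hgV⟩ := VG1_gi g V hgm hg hV
  have hN0 : 0 < N := by linarith
  have hN1 : (0 : ℝ) ≤ 1 / N := by positivity
  have hii : ∀ a b : ℝ, IntervalIntegrable g volume a b := fun a b => hgi.intervalIntegrable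
  have hii2 : ∀ y : ℝ, IntervalIntegrable (fun s => g (y - s)) volume 0 (1 / N) := by
    intro y
    have h1 := (hii y (y - 1 / N)).comp_sub_left y
    simpa using h1
  have hform : ∀ y : ℝ, BS N g y = N * ((∫ u in (0 : ℝ)..y, g u) - ∫ u in (0 : ℝ)..(y - 1 / N), g u) := by
    intro y
    unfold BS
    rw [intervalIntegral.integral_comp_sub_left (fun u => g u) y, sub_zero]
    rw [intervalIntegral.integral_interval_sub_left (hii _ _) (hii _ _)]
  have hrange : ∀ y, 0 ≤ BS N g y ∧ BS N g y ≤ 1 := by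
    intro y
    unfold BS
    have h1 : 0 ≤ ∫ s in (0 : ℝ)..(1 / N), g (y - s) :=
      intervalIntegral.integral_nonneg hN1 fun s _ => (hg _).1
    have h2 : ∫ s in (0 : ℝ)..(1 / N), g (y - s) ≤ ∫ _s in (0 : ℝ)..(1 / N), (1 : ℝ) :=
      intervalIntegral.integral_mono_on hN1 (hii2 y) intervalIntegrable_const
        fun s _ => (hg _).2
    rw [intervalIntegral.integral_const, smul_eq_mul, mul_one, sub_zero] at h2
    refine ⟨mul_nonneg hN0.le h1, ?_⟩
    calc N * ∫ s in (0 : ℝ)..(1 / N), g (y - s) ≤ N * (1 / N) :=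
          mul_le_mul_of_nonneg_left h2 hN0.le
      _ = 1 := by field_simp
  refine ⟨?_, hrange, ?_, ?_⟩
  · have h1 : Continuous fun y : ℝ => ∫ u in (0 : ℝ)..y, g u :=
      intervalIntegral.continuous_primitive hii 0
    have h2 : Continuous fun y : ℝ => ∫ u in (0 : ℝ)..(y - 1 / N), g u :=
      h1.comp (continuous_id.sub continuous_const)
    have h3 : BS N g = fun y => N * ((∫ u in (0 : ℝ)..y, g u) - ∫ u in (0 : ℝ)..(y - 1 / N), g u) :=
      funext hform
    rw [h3]
    exact continuous_const.mul (h1.sub h2)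
  · intro y hy
    unfold BS
    have h1 : ∫ s in (0 : ℝ)..(1 / N), g (y - s) = ∫ _s in (0 : ℝ)..(1 / N), (0 : ℝ) := by
      refine intervalIntegral.integral_congr fun s hs => ?_
      rw [Set.uIcc_of_le hN1] at hs
      have h2 : 1 / N ≤ 1 := by
        rw [div_le_one hN0]
        exact hN
      refine hV _ ?_
      rcases hy with hy | hy
      · left; linarith [hs.1]
      · right; linarith [hs.2]
    rw [h1, intervalIntegral.integral_zero, mul_zero]
  · intro t ht
    obtain ⟨-, h1⟩ := VG1_fub g (fun s => s) 0 (1 / N) t hN1 hgm hgi measurable_id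
    have h2 : FT (fun y => (BS N g y : ℂ)) t =
        N * ∫ y : ℝ, ((∫ s in (0 : ℝ)..(1 / N), g (y - s) : ℝ) : ℂ) * ee (-(t * y)) := by
      unfold FT BS
      rw [← integral_const_mul]
      refine integral_congr_ae (Eventually.of_forall fun y => ?_)
      show (((N * ∫ s in (0 : ℝ)..(1 / N), g (y - s) : ℝ)) : ℂ) * ee (-(t * y)) = _
      push_cast
      ring
    have h3 : ‖FT (fun y => (g y : ℂ)) t‖ ≤ V := by
      unfold FT
      refine (norm_integral_le_integral_norm _).trans ?_
      refine le_trans (le_of_eq ?_) (hgV hV0)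
      refine integral_congr_ae (Eventually.of_forall fun y => ?_)
      show ‖(g y : ℂ) * ee (-(t * y))‖ = |g y|
      rw [norm_mul, norm_ee, mul_one, Complex.norm_real, Real.norm_eq_abs]
    have h4 := VG1_ee t (1 / N) ht
    rw [h2, h1, norm_mul, norm_mul, Complex.norm_real, Real.norm_eq_abs, abs_of_pos hN0]
    have ht' : 0 < |t| := abs_pos.2 ht
    calc N * (‖∫ s in (0 : ℝ)..(1 / N), ee (-(t * s))‖ * ‖FT (fun y => (g y : ℂ)) t‖)
        ≤ N * (1 / |t| * V) := by
          refine mul_le_mul_of_nonneg_left ?_ hN0.le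
          exact mul_le_mul h4 h3 (norm_nonneg _) (by positivity)
      _ = N * V / |t| := by ring

end Pool.Agent.Work.MP_7d0410_sp
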