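import Pool.Agent.Work.MP_7d0410_sv.B_VG1

/-! # MP_7d0410_nt, slowly varying weights: block VG2 -/

set_option autoImplicit false

namespace Pool.Agent.Work.MP_7d0410_sp

open Finset Filter MeasureTheory ProbabilityTheory
open Pool.Agent.Work.MP_7d0410_cr
open scoped Classical Topology

/-- the integral over `u` is a continuous function -/
theorem VG2_cont (h : ℝ → ℝ) (R R' : ℕ) (hh : Continuous h) (hR : 1 ≤ R) (hRR : R < R') :
    Continuous fun t : ℝ => ∫ u in (R : ℝ)..R', h (t - Real.log u) := by
  have hR1 : (1 : ℝ) ≤ R := by exact_mod_cast hR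
  have hle : (R : ℝ) ≤ R' := by exact_mod_cast hRR.le
  have h1 : ∀ t : ℝ, ∫ u in (R : ℝ)..R', h (t - Real.log u) =
      ∫ u in (R : ℝ)..R', h (t - Real.log (max u 1)) := by
    intro t
    refine intervalIntegral.integral_congr fun u hu => ?_
    rw [Set.uIcc_of_le hle] at hu
    show h (t - Real.log u) = h (t - Real.log (max u 1))
    rw [max_eq_left (by linarith [hu.1])]
  rw [funext h1]
  have h2 : Continuous fun u : ℝ => Real.log (max u 1) := by
    refine Continuous.log (continuous_id.max continuous_const) fun u => ?_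
    have : (1 : ℝ) ≤ max u 1 := le_max_right _ _
    linarith
  have h3 : Continuous (Function.uncurry fun t u : ℝ => h (t - Real.log (max u 1))) :=
    hh.comp (continuous_fst.sub (h2.comp continuous_snd))
  exact intervalIntegral.continuous_parametric_intervalIntegral_of_continuous' h3 _ _

/-- Block VG2. -/
theorem p_VG2 : Stmt_VG2 := by
  intro h V R R' hh hV hR hRR
  have hR1 : (1 : ℝ) ≤ R := by exact_mod_cast hR
  have hle : (R : ℝ) ≤ R' := by exact_mod_cast hRR.le
  have hcs : HasCompactSupport h := by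
    refine HasCompactSupport.intro (isCompact_Icc (a := (0 : ℝ)) (b := V)) fun y hy => ?_
    rw [Set.mem_Icc, not_and_or, not_le, not_le] at hy
    exact hV y hy
  have hhi : Integrable h := hh.integrable_of_hasCompactSupport hcs
  have hlog : ∀ u : ℝ, (R : ℝ) ≤ u → u ≤ R' → 0 ≤ Real.log u ∧ Real.log u ≤ Real.log R' := by
    intro u h1 h2
    exact ⟨Real.log_nonneg (by linarith), Real.log_le_log (by linarith) h2⟩
  have hc1 : Continuous fun t : ℝ => ∑ r ∈ Finset.Ioc R R', h (t - Real.log r) :=
    continuous_finsetSum _ fun r _ => hh.comp (continuous_id.sub continuous_const)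
  have hc2 := VG2_cont h R R' hh hR hRR
  have hcont : Continuous (GC h R R') := hc1.sub hc2
  refine ⟨hcont, ?_, ?_⟩
  · refine HasCompactSupport.intro (isCompact_Icc (a := (0 : ℝ)) (b := V + Real.log R'))
      fun y hy => ?_
    rw [Set.mem_Icc, not_and_or, not_le, not_le] at hy
    have hz : ∀ u : ℝ, (R : ℝ) ≤ u → u ≤ R' → h (y - Real.log u) = 0 := by
      intro u h1 h2
      obtain ⟨h3, h4⟩ := hlog u h1 h2
      refine hV _ ?_
      rcases hy with hy | hy
      · left; linarith
      · right; linarith
    unfold GC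
    rw [Finset.sum_eq_zero, intervalIntegral.integral_congr (g := fun _ => (0 : ℝ)),
      intervalIntegral.integral_zero, sub_zero]
    · intro u hu
      rw [Set.uIcc_of_le hle] at hu
      exact hz u hu.1 hu.2
    · intro r hr
      rw [Finset.mem_Ioc] at hr
      exact hz r (by exact_mod_cast hr.1.le) (by exact_mod_cast hr.2)
  · intro t
    obtain ⟨i2, f2⟩ := VG1_fub h Real.log R R' t hle hh.measurable hhi Real.measurable_log
    have i1 : ∀ r ∈ Finset.Ioc R R',
        Integrable fun y : ℝ => ((h (y - Real.log r) : ℝ) : ℂ) * ee (-(t * y)) := by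
      intro r _
      have h1 : Integrable fun y : ℝ => h (y - Real.log r) := hhi.comp_sub_right (Real.log r)
      have h2 : Integrable fun y : ℝ => ((h (y - Real.log r) : ℝ) : ℂ) := h1.ofReal
      refine h2.mono ?_ (Eventually.of_forall fun y => ?_)
      · refine Continuous.aestronglyMeasurable ?_
        exact (Complex.continuous_ofReal.comp (hh.comp (continuous_id.sub continuous_const))).mul
          (continuous_ee.comp (continuous_const.mul continuous_id).neg)
      · rw [norm_mul, norm_ee, mul_one]
    have e1 : ∀ y : ℝ, ((GC h R R' y : ℝ) : ℂ) * ee (-(t * y)) =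
        (∑ r ∈ Finset.Ioc R R', ((h (y - Real.log r) : ℝ) : ℂ) * ee (-(t * y))) -
        ((∫ u in (R : ℝ)..R', h (y - Real.log u) : ℝ) : ℂ) * ee (-(t * y)) := by
      intro y
      unfold GC
      rw [Complex.ofReal_sub, Complex.ofReal_sum, sub_mul, Finset.sum_mul]
    have e2 : FT (fun y => (GC h R R' y : ℂ)) t =
        (∑ r ∈ Finset.Ioc R R', ∫ y : ℝ, ((h (y - Real.log r) : ℝ) : ℂ) * ee (-(t * y))) -
        ∫ y : ℝ, ((∫ u in (R : ℝ)..R', h (y - Real.log u) : ℝ) : ℂ) * ee (-(t * y)) := by
      rw [← integral_finsetSum _ i1, ← integral_sub (integrable_finsetSum _ i1) i2]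
      exact integral_congr_ae (Eventually.of_forall e1)
    rw [e2, f2]
    have e3 : ∀ r ∈ Finset.Ioc R R', ∫ y : ℝ, ((h (y - Real.log r) : ℝ) : ℂ) * ee (-(t * y)) =
        ee (-(t * Real.log r)) * FT (fun y => (h y : ℂ)) t := fun r _ =>
      VG1_shift h t (Real.log r)
    rw [Finset.sum_congr rfl e3, ← Finset.sum_mul, ← sub_mul, mul_comm]
    rfl

end Pool.Agent.Work.MP_7d0410_sp
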