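import Pool.Agent.Work.MP_7d0410_sv.Interface

/-!
# Block VG3: the mean square of the difference of sum and integral
-/

set_option autoImplicit false

namespace Pool.Agent.Work.MP_7d0410_sp

open Finset Filter MeasureTheory ProbabilityTheory
open Pool.Agent.Work.MP_7d0410_cr
open scoped Classical Topology

namespace VG3

/-- trivial bound for the exponential sum minus the integral -/
private theorem ES_le (R R' : ℕ) (t : ℝ) (h : R < R') (h2 : R' ≤ 2 * R) : ‖ES R R' t‖ ≤ 2 * R := by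
  have h1 : ‖∑ r ∈ Finset.Ioc R R', ee (-(t * Real.log r))‖ ≤ R := by
    refine (norm_sum_le _ _).trans ?_
    simp only [norm_ee, Finset.sum_const, Nat.card_Ioc, nsmul_eq_mul, mul_one]
    have : R' - R ≤ R := by omega
    exact_mod_cast this
  have h3 : ‖∫ u in (R : ℝ)..R', ee (-(t * Real.log u))‖ ≤ R := by
    have h4 := intervalIntegral.norm_integral_le_of_norm_le_const (a := (R : ℝ)) (b := (R' : ℝ))
      (f := fun u : ℝ => ee (-(t * Real.log u))) (C := 1) (fun u _ => (norm_ee _).le)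
    refine h4.trans ?_
    have h5 : (R : ℝ) < R' := by exact_mod_cast h
    have h6 : (R' : ℝ) ≤ 2 * R := by exact_mod_cast h2
    rw [one_mul, abs_of_pos (by linarith)]
    linarith
  unfold ES
  refine (norm_sub_le _ _).trans ?_
  linarith

/-- the majorant for large frequencies -/
private theorem maj (T t : ℝ) (hT : 0 < T) (h : T < |t|) :
    1 / t ^ 2 ≤ 2 / T ^ 2 * (1 + (t / T) ^ 2)⁻¹ := by
  have h1 : T ^ 2 < t ^ 2 := by
    rw [← sq_abs t]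
    nlinarith
  have h0 : 0 < T ^ 2 := by positivity
  have h2 : 0 < t ^ 2 := by linarith
  have h3 : 2 / T ^ 2 * (1 + (t / T) ^ 2)⁻¹ = 2 / (T ^ 2 + t ^ 2) := by
    field_simp
  rw [h3, div_le_div_iff₀ h2 (by linarith)]
  linarith

private theorem maj_int (T : ℝ) (hT : 0 < T) : Integrable (fun t : ℝ => (1 + (t / T) ^ 2)⁻¹) ∧
    ∫ t : ℝ, (1 + (t / T) ^ 2)⁻¹ = T * Real.pi := by
  constructor
  · exact (integrable_comp_div_iff (fun t : ℝ => (1 + t ^ 2)⁻¹) hT.ne').2 integrable_inv_one_add_sq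
  · have h := MeasureTheory.Measure.integral_comp_div (fun t : ℝ => (1 + t ^ 2)⁻¹) T
    rw [h, integral_univ_inv_one_add_sq, abs_of_pos hT, smul_eq_mul]

/-- the mean square of a function between `0` and `1` with support in `[0, V]` -/
private theorem sq_int (h : ℝ → ℝ) (V : ℝ) (hV : 0 ≤ V) (hc : Continuous h)
    (h01 : ∀ y, 0 ≤ h y ∧ h y ≤ 1) (hs : ∀ y, y < 0 ∨ V < y → h y = 0) :
    ∫ y, ‖(h y : ℂ)‖ ^ 2 ≤ V := by
  have h1 : (∫ y, ‖(h y : ℂ)‖ ^ 2) = ∫ y in Set.Icc 0 V, ‖(h y : ℂ)‖ ^ 2 := by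
    rw [setIntegral_eq_integral_of_forall_compl_eq_zero]
    intro y hy
    rw [Set.mem_Icc, not_and_or, not_le, not_le] at hy
    rw [hs y hy]
    simp
  rw [h1]
  have h2 : ∫ y in Set.Icc 0 V, ‖(h y : ℂ)‖ ^ 2 ≤ ∫ _y in Set.Icc 0 V, (1 : ℝ) := by
    refine setIntegral_mono_on ?_ ?_ measurableSet_Icc ?_
    · refine ContinuousOn.integrableOn_compact isCompact_Icc ?_
      fun_prop
    · exact integrableOn_const (by simp)
    · intro y _
      rw [Complex.norm_real, Real.norm_eq_abs, sq_abs]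
      obtain ⟨h3, h4⟩ := h01 y
      nlinarith
  refine h2.trans ?_
  simp [hV]

end VG3

theorem p_VG3 (hVEX : Stmt_VEX) (hVPL : Stmt_VPL) (hVG1 : Stmt_VG1) (hVG2 : Stmt_VG2) :
    Stmt_VG3 := by
  intro ε hε
  obtain ⟨κ₀, hκ₀, hE⟩ := hVEX ε hε
  refine ⟨min κ₀ 1, lt_min hκ₀ one_pos, ?_⟩
  set κ : ℝ := min κ₀ 1 with hκdef
  have hκ : 0 < κ := lt_min hκ₀ one_pos
  have hκ1 : κ ≤ 1 := min_le_right _ _
  have hκ0 : κ ≤ κ₀ := min_le_left _ _
  have hl1 : ∀ᶠ x : ℕ in atTop, Real.log x ≤ 1 / 6 * (x : ℝ) ^ (ε * κ) := by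
    have h1 := (isLittleO_log_rpow_atTop (mul_pos hε hκ)).def (show (0 : ℝ) < 1 / 6 by norm_num)
    have h2 := tendsto_natCast_atTop_atTop (R := ℝ) |>.eventually h1
    filter_upwards [h2, eventually_ge_atTop 1] with x hx hx1
    rw [Real.norm_eq_abs, Real.norm_eq_abs,
      abs_of_nonneg (Real.rpow_nonneg (Nat.cast_nonneg x) _)] at hx
    exact (le_abs_self _).trans hx
  have hl2 : ∀ᶠ x : ℕ in atTop, Real.log x ≤ 1 / 100 * (x : ℝ) ^ (1 / 2 : ℝ) := by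
    have h1 := (isLittleO_log_rpow_atTop (show (0 : ℝ) < 1 / 2 by norm_num)).def
      (show (0 : ℝ) < 1 / 100 by norm_num)
    have h2 := tendsto_natCast_atTop_atTop (R := ℝ) |>.eventually h1
    filter_upwards [h2, eventually_ge_atTop 1] with x hx hx1
    rw [Real.norm_eq_abs, Real.norm_eq_abs,
      abs_of_nonneg (Real.rpow_nonneg (Nat.cast_nonneg x) _)] at hx
    exact (le_abs_self _).trans hx
  have hl3 : ∀ᶠ x : ℕ in atTop, (2 : ℝ) ≤ (x : ℝ) ^ ε :=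
    ((tendsto_rpow_atTop hε).comp (tendsto_natCast_atTop_atTop (R := ℝ))).eventually_ge_atTop 2
  filter_upwards [hE, hl1, hl2, hl3, eventually_ge_atTop 4] with x hEx h1 h2 h3 hx4 R R' g hR hRR'
    hR2 hRx hgm hg01 hgs
  have hx4' : (4 : ℝ) ≤ x := by exact_mod_cast hx4
  have hx0 : (0 : ℝ) < x := by linarith
  have hlog4 : Real.log 4 ≤ Real.log x := Real.log_le_log (by norm_num) hx4'
  have hlog1 : 1 ≤ Real.log x := by
    have h5 : (1 : ℝ) ≤ Real.log 4 := by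
      rw [Real.le_log_iff_exp_le (by norm_num)]
      have := Real.exp_one_lt_d9
      linarith
    linarith
  have hV : Real.log (4 * x) = Real.log 4 + Real.log x :=
    Real.log_mul (by norm_num) hx0.ne'
  set V : ℝ := Real.log (4 * x) with hVdef
  have hV0 : 0 ≤ V := by
    rw [hV]
    have : 0 ≤ Real.log 4 := Real.log_nonneg (by norm_num)
    linarith
  have hV2 : V ≤ 2 * Real.log x := by linarith
  have hN : (1 : ℝ) ≤ 8 * x := by linarith
  obtain ⟨hc, h01, hs, hFh⟩ := hVG1 g (8 * x) V hN hV0 hgm hg01 hgs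
  set h : ℝ → ℝ := BS (8 * x) g with hhdef
  have hR1' : (2 : ℝ) ≤ R := h3.trans hR
  have hR1 : 1 ≤ R := by
    have : (1 : ℝ) ≤ R := by linarith
    exact_mod_cast this
  obtain ⟨hGc, hGs, hGF⟩ := hVG2 h (V + 1) R R' hc hs hR1 hRR'
  have hGcC : Continuous (fun y => (GC h R R' y : ℂ)) := Complex.continuous_ofReal.comp hGc
  have hGsC : HasCompactSupport (fun y => (GC h R R' y : ℂ)) :=
    hGs.comp_left (g := fun z : ℝ => (z : ℂ)) (by simp)
  obtain ⟨hI1, hI2⟩ := hVPL _ hGcC hGsC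
  have hhcC : Continuous (fun y => (h y : ℂ)) := Complex.continuous_ofReal.comp hc
  have hhsC : HasCompactSupport (fun y => (h y : ℂ)) := by
    refine HasCompactSupport.intro (isCompact_Icc (a := (0 : ℝ)) (b := V + 1)) fun y hy => ?_
    rw [Set.mem_Icc, not_and_or, not_le, not_le] at hy
    rw [hs y hy]
    simp
  obtain ⟨hJ1, hJ2⟩ := hVPL _ hhcC hhsC
  refine ⟨hGc, ?_, ?_⟩
  · refine Continuous.integrable_of_hasCompactSupport (hGc.pow 2) ?_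
    exact hGs.comp_left (g := fun z : ℝ => z ^ 2) (by simp)
  have e1 : ∫ t, (GC h R R' t) ^ 2 = ∫ t, ‖FT (fun y => (GC h R R' y : ℂ)) t‖ ^ 2 := by
    rw [hI2]
    refine integral_congr_ae (Eventually.of_forall fun t => ?_)
    simp only [Complex.norm_real, Real.norm_eq_abs, sq_abs]
  have hR0 : (0 : ℝ) < R := by linarith
  have hT : (0 : ℝ) < (x : ℝ) ^ 4 := by positivity
  set c : ℝ := (2 * R) ^ 2 * (8 * x * V) ^ 2 with hcdef
  have hc0 : 0 ≤ c := by positivity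
  have hpt : ∀ t : ℝ, ‖FT (fun y => (GC h R R' y : ℂ)) t‖ ^ 2 ≤
      (R : ℝ) ^ (2 - 2 * κ) * ‖FT (fun y => (h y : ℂ)) t‖ ^ 2 +
        c * (2 / ((x : ℝ) ^ 4) ^ 2) * (1 + (t / (x : ℝ) ^ 4) ^ 2)⁻¹ := by
    intro t
    rw [hGF t, norm_mul, mul_pow]
    by_cases ht : |t| ≤ (x : ℝ) ^ 4
    · have h5 := hEx R R' t hR hRR' hR2 ht
      have h6 : ‖ES R R' t‖ ≤ (R : ℝ) ^ (1 - κ) :=
        h5.trans (Real.rpow_le_rpow_of_exponent_le (by linarith) (by linarith))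
      have h7 : ‖ES R R' t‖ ^ 2 ≤ (R : ℝ) ^ (2 - 2 * κ) := by
        calc ‖ES R R' t‖ ^ 2 ≤ ((R : ℝ) ^ (1 - κ)) ^ 2 := by gcongr
          _ = (R : ℝ) ^ (2 - 2 * κ) := by
            rw [← Real.rpow_natCast, ← Real.rpow_mul hR0.le]
            congr 1
            push_cast
            ring
      have h8 : 0 ≤ c * (2 / ((x : ℝ) ^ 4) ^ 2) * (1 + (t / (x : ℝ) ^ 4) ^ 2)⁻¹ := by positivity
      have h9 : ‖FT (fun y => (h y : ℂ)) t‖ ^ 2 * ‖ES R R' t‖ ^ 2 ≤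
          (R : ℝ) ^ (2 - 2 * κ) * ‖FT (fun y => (h y : ℂ)) t‖ ^ 2 := by
        rw [mul_comm]
        exact mul_le_mul_of_nonneg_right h7 (by positivity)
      linarith
    · push Not at ht
      have ht0 : t ≠ 0 := by
        intro h0
        rw [h0, abs_zero] at ht
        linarith
      have h5 := VG3.ES_le R R' t hRR' hR2
      have h6 := hFh t ht0
      have h7 : ‖FT (fun y => (h y : ℂ)) t‖ ^ 2 * ‖ES R R' t‖ ^ 2 ≤
          (8 * x * V / |t|) ^ 2 * (2 * R) ^ 2 := by gcongr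
      have h8 : (8 * x * V / |t|) ^ 2 * (2 * R) ^ 2 = c * (1 / t ^ 2) := by
        rw [hcdef, div_pow, sq_abs]
        ring
      have h9 := VG3.maj ((x : ℝ) ^ 4) t hT ht
      have h10 : c * (1 / t ^ 2) ≤ c * (2 / ((x : ℝ) ^ 4) ^ 2 * (1 + (t / (x : ℝ) ^ 4) ^ 2)⁻¹) :=
        mul_le_mul_of_nonneg_left h9 hc0
      have h11 : 0 ≤ (R : ℝ) ^ (2 - 2 * κ) * ‖FT (fun y => (h y : ℂ)) t‖ ^ 2 := by positivity
      rw [h8] at h7
      linarith
  obtain ⟨hm1, hm2⟩ := VG3.maj_int ((x : ℝ) ^ 4) hT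
  have e2 : ∫ t, ‖FT (fun y => (GC h R R' y : ℂ)) t‖ ^ 2 ≤
      (R : ℝ) ^ (2 - 2 * κ) * (V + 1) +
        c * (2 / ((x : ℝ) ^ 4) ^ 2) * ((x : ℝ) ^ 4 * Real.pi) := by
    calc _ ≤ ∫ t, ((R : ℝ) ^ (2 - 2 * κ) * ‖FT (fun y => (h y : ℂ)) t‖ ^ 2 +
          c * (2 / ((x : ℝ) ^ 4) ^ 2) * (1 + (t / (x : ℝ) ^ 4) ^ 2)⁻¹) :=
          integral_mono hI1 ((hJ1.const_mul _).add (hm1.const_mul _)) hpt
      _ = (R : ℝ) ^ (2 - 2 * κ) * (∫ t, ‖FT (fun y => (h y : ℂ)) t‖ ^ 2) +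
          c * (2 / ((x : ℝ) ^ 4) ^ 2) * ((x : ℝ) ^ 4 * Real.pi) := by
          rw [integral_add (hJ1.const_mul _) (hm1.const_mul _), integral_const_mul,
            integral_const_mul, hm2]
      _ ≤ _ := by
          rw [hJ2]
          have := VG3.sq_int h (V + 1) (by linarith) hc h01 hs
          gcongr
  have e3 : c * (2 / ((x : ℝ) ^ 4) ^ 2) * ((x : ℝ) ^ 4 * Real.pi) ≤ 1 := by
    have hRx' : (R : ℝ) ^ 2 ≤ x := by
      have h5 : R ^ 2 ≤ x := le_trans (Nat.pow_le_pow_left hRR'.le 2) hRx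
      exact_mod_cast h5
    have hpi : Real.pi ≤ 3.15 := Real.pi_lt_d2.le
    have h5 : c * (2 / ((x : ℝ) ^ 4) ^ 2) * ((x : ℝ) ^ 4 * Real.pi) =
        512 * Real.pi * R ^ 2 * V ^ 2 / x ^ 2 := by
      rw [hcdef]
      field_simp
      ring
    rw [h5, div_le_one (by positivity)]
    have h6 : V ^ 2 ≤ (2 * (1 / 100 * (x : ℝ) ^ (1 / 2 : ℝ))) ^ 2 := by
      have : V ≤ 2 * (1 / 100 * (x : ℝ) ^ (1 / 2 : ℝ)) := by linarith
      gcongr
    have h7 : (2 * (1 / 100 * (x : ℝ) ^ (1 / 2 : ℝ))) ^ 2 = (x : ℝ) / 2500 := by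
      have h8 : ((x : ℝ) ^ (1 / 2 : ℝ)) ^ 2 = x := by
        rw [← Real.rpow_natCast, ← Real.rpow_mul hx0.le]
        norm_num
      calc (2 * (1 / 100 * (x : ℝ) ^ (1 / 2 : ℝ))) ^ 2 =
          1 / 2500 * ((x : ℝ) ^ (1 / 2 : ℝ)) ^ 2 := by ring
        _ = (x : ℝ) / 2500 := by rw [h8]; ring
    rw [h7] at h6
    calc 512 * Real.pi * R ^ 2 * V ^ 2 ≤ 512 * 3.15 * x * (x / 2500) := by gcongr
      _ ≤ (x : ℝ) ^ 2 := by nlinarith [sq_nonneg (x : ℝ)]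
  have hRpos : 0 < (R : ℝ) ^ (2 - 2 * κ) := Real.rpow_pos_of_pos hR0 _
  have e4 : 2 * (V + 1) ≤ (R : ℝ) ^ κ := by
    have h5 : (x : ℝ) ^ (ε * κ) ≤ (R : ℝ) ^ κ := by
      rw [Real.rpow_mul hx0.le]
      exact Real.rpow_le_rpow (by positivity) hR hκ.le
    linarith
  have e5 : (R : ℝ) ^ (2 - κ) = (R : ℝ) ^ (2 - 2 * κ) * (R : ℝ) ^ κ := by
    rw [← Real.rpow_add hR0]
    congr 1
    ring
  have e6 : (R : ℝ) ^ (2 - 2 * κ) * (2 * (V + 1)) ≤ (R : ℝ) ^ (2 - κ) := by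
    rw [e5]
    exact mul_le_mul_of_nonneg_left e4 hRpos.le
  have e7 : (2 : ℝ) ≤ (R : ℝ) ^ (2 - κ) := by
    calc (2 : ℝ) ≤ R := hR1'
      _ = (R : ℝ) ^ (1 : ℝ) := (Real.rpow_one _).symm
      _ ≤ (R : ℝ) ^ (2 - κ) := Real.rpow_le_rpow_of_exponent_le (by linarith) (by linarith)
  rw [e1]
  linarith

end Pool.Agent.Work.MP_7d0410_sp
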