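import Pool.Agent.Work.MP_7d0410_sv.Interface

/-! # MP_7d0410, slowly varying densities: block VGE (helper54) -/

set_option autoImplicit false

namespace Pool.Agent.Work.MP_7d0410_sp

open Finset Filter MeasureTheory ProbabilityTheory
open Pool.Agent.Work.MP_7d0410_cr
open scoped Classical Topology

theorem p_VGE (hCHB : Stmt_CHB) : Stmt_VGE := by
  intro w ε η hε hε1
  obtain ⟨c0, hc0, hCH⟩ := hCHB
  obtain ⟨Y0, hY0⟩ := eventually_atTop.1 hCH
  have e0 : ∀ᶠ x : ℕ in atTop, (3 : ℝ) ≤ x :=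
    tendsto_natCast_atTop_atTop.eventually_ge_atTop 3
  have e4 : ∀ᶠ x : ℕ in atTop, (Y0 : ℝ) ≤ (x : ℝ) ^ (1 / 2 : ℝ) :=
    ((tendsto_rpow_atTop (by norm_num)).comp tendsto_natCast_atTop_atTop).eventually_ge_atTop _
  have e5 : ∀ᶠ x : ℕ in atTop, 4 * Real.log x ≤ c0 * (x : ℝ) ^ ε := by
    have h3 := isLittleO_log_rpow_atTop hε
    have h4 := h3.comp_tendsto tendsto_natCast_atTop_atTop
    have h5 := h4.bound (show 0 < c0 / 4 by positivity)
    filter_upwards [h5, e0] with x hx hx3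
    simp only [Function.comp_apply, Real.norm_eq_abs] at hx
    have h6 : 0 ≤ Real.log x := Real.log_nonneg (by linarith)
    rw [abs_of_nonneg h6, abs_of_nonneg (by positivity)] at hx
    linarith
  filter_upwards [e0, e4, e5] with x hx3 hx4 hx5
  intro S hS q hq hlen
  by_contra hcon
  push Not at hcon
  unfold runs at hq
  rw [Finset.mem_filter, Finset.mem_product] at hq
  obtain ⟨⟨hq1, hq2⟩, hq3⟩ := hq
  have hu1 := hS.sub hq1
  have hu2 := hS.sub hq2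
  unfold UU at hu1 hu2
  rw [Finset.mem_Icc] at hu1 hu2
  have hX0 : (0 : ℝ) < x := by linarith
  have hX1 : (1 : ℝ) ≤ x := by linarith
  have hL1 : 0 < Real.log x := Real.log_pos (by linarith)
  -- the primes in `(q.1, 4 q.1]`
  have hsub : ((Finset.Ioc q.1 (q.1 + 3 * q.1)).filter Nat.Prime) ⊆ seg S q := by
    intro p hp
    rw [Finset.mem_filter, Finset.mem_Ioc] at hp
    obtain ⟨⟨hp1, hp2⟩, hp3⟩ := hp
    unfold seg
    rw [Finset.mem_filter]
    refine ⟨hS.pr p ?_ hp3, hp1.le, by omega⟩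
    unfold UU
    rw [Finset.mem_Icc]
    omega
  have hcard : pin q.1 (3 * q.1) ≤ len S q := Finset.card_le_card hsub
  have hY1 : (x : ℝ) ^ (1 / 2 + ε) ≤ q.1 := by
    have h1 := Nat.le_ceil ((x : ℝ) ^ (1 / 2 + ε))
    exact h1.trans (by exact_mod_cast hu1.1)
  have hhalf : (x : ℝ) ^ (1 / 2 : ℝ) ≤ q.1 :=
    le_trans (Real.rpow_le_rpow_of_exponent_le hX1 (by linarith)) hY1
  have hY0' : Y0 ≤ q.1 := by exact_mod_cast hx4.trans hhalf
  have hYpos : (0 : ℝ) < q.1 := lt_of_lt_of_le (by positivity) hhalf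
  have hh1 : (1 : ℝ) < q.1 := by
    have h3 : (1 : ℝ) < x := by linarith
    have h4 := Real.one_lt_rpow h3 (show (0 : ℝ) < 1 / 2 by norm_num)
    linarith
  have hlY : 0 < Real.log q.1 := Real.log_pos hh1
  have hlY' : Real.log q.1 ≤ 2 * Real.log x := by
    have h1 : (q.1 : ℝ) ≤ (x : ℝ) ^ 2 := by
      have h2 : (q.1 : ℝ) ≤ 2 * x := by exact_mod_cast hu1.2
      nlinarith
    have h2 := Real.log_le_log hYpos h1
    rw [Real.log_pow] at h2
    exact_mod_cast h2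
  have h1 := hY0 q.1 hY0'
  have h2 : ((pin q.1 (3 * q.1) : ℕ) : ℝ) ≤ (x : ℝ) ^ (1 / 2 : ℝ) :=
    le_trans (by exact_mod_cast hcard) hlen
  have h3 : c0 * ((x : ℝ) ^ (1 / 2 + ε) / (2 * Real.log x)) ≤ c0 * (q.1 / Real.log q.1) := by
    apply mul_le_mul_of_nonneg_left _ hc0.le
    exact div_le_div₀ hYpos.le hY1 hlY hlY'
  have h4 : c0 * ((x : ℝ) ^ (1 / 2 + ε) / (2 * Real.log x)) ≤ (x : ℝ) ^ (1 / 2 : ℝ) :=
    (h3.trans h1).trans h2
  rw [Real.rpow_add hX0, mul_div_assoc', div_le_iff₀ (by positivity)] at h4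
  have hA : 0 < (x : ℝ) ^ (1 / 2 : ℝ) := by positivity
  have h5 : (x : ℝ) ^ (1 / 2 : ℝ) * (c0 * (x : ℝ) ^ ε) ≤ (x : ℝ) ^ (1 / 2 : ℝ) * (2 * Real.log x) := by
    linarith
  have h6 := le_of_mul_le_mul_left h5 hA
  linarith

end Pool.Agent.Work.MP_7d0410_sp
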