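import Pool.Agent.Work.MP_7d0410_sv.Interface

/-! # VHB: a run of typical sets with `l` elements has length at least `c l log x` -/

set_option autoImplicit false

namespace Pool.Agent.Work.MP_7d0410_sp

open Finset Filter MeasureTheory ProbabilityTheory
open Pool.Agent.Work.MP_7d0410_cr
open scoped Classical Topology

/-- the elements of a run: the primes and the others -/
private lemma vhb_count (S : Finset ℕ) (q : ℕ × ℕ) (h : q.1 ≤ q.2) :
    len S q ≤ 3 + pin q.1 (q.2 - q.1) +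
      (S.filter (fun z => ¬ z.Prime ∧ q.1 < z ∧ z < q.2)).card := by
  unfold len pin
  have h1 : seg S q ⊆ ({q.1, q.2} : Finset ℕ) ∪
      ((Finset.Ioc q.1 (q.1 + (q.2 - q.1))).filter Nat.Prime ∪
        S.filter (fun z => ¬ z.Prime ∧ q.1 < z ∧ z < q.2)) := by
    intro m hm
    rw [mem_seg] at hm
    obtain ⟨hmS, h2, h3⟩ := hm
    simp only [Finset.mem_union, Finset.mem_filter, Finset.mem_Ioc, Finset.mem_insert,
      Finset.mem_singleton]
    by_cases h4 : m = q.1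
    · exact Or.inl (Or.inl h4)
    by_cases h5 : m = q.2
    · exact Or.inl (Or.inr h5)
    by_cases h6 : m.Prime
    · exact Or.inr (Or.inl ⟨⟨by omega, by omega⟩, h6⟩)
    · exact Or.inr (Or.inr ⟨hmS, h6, by omega, by omega⟩)
  have h2 := Finset.card_le_card h1
  have h3 := Finset.card_union_le ({q.1, q.2} : Finset ℕ)
    ((Finset.Ioc q.1 (q.1 + (q.2 - q.1))).filter Nat.Prime ∪
        S.filter (fun z => ¬ z.Prime ∧ q.1 < z ∧ z < q.2))
  have h4 := Finset.card_union_le ((Finset.Ioc q.1 (q.1 + (q.2 - q.1))).filter Nat.Prime)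
        (S.filter (fun z => ¬ z.Prime ∧ q.1 < z ∧ z < q.2))
  have h5 : ({q.1, q.2} : Finset ℕ).card ≤ 2 := Finset.card_le_two
  omega

/-- the facts for large `x` -/
private lemma vhb_ev {w : ℕ → ℝ} (hw : SVW w) {ε : ℝ} (hε : 0 < ε) : ∀ᶠ x : ℕ in atTop,
    2 ≤ (x : ℝ) ^ (ε / 2) ∧ 1 ≤ x ∧ (x : ℝ) ^ (ε / 2) ≤ (x : ℝ) ^ ε / 4 - 1 ∧
    Real.log x ≤ (x : ℝ) ^ (ε / 2) ∧ 0 < Real.log x ∧
    ∀ m : ℕ, (x : ℝ) ^ (1 / 2 : ℝ) ≤ m → w m * Real.log x ≤ 2 := by
  have h1 : Tendsto (fun x : ℕ => (x : ℝ) ^ (ε / 2)) atTop atTop :=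
    (tendsto_rpow_atTop (by linarith)).comp tendsto_natCast_atTop_atTop
  have h2 : Tendsto (fun x : ℕ => (x : ℝ) ^ (1 / 2 : ℝ)) atTop atTop :=
    (tendsto_rpow_atTop (by norm_num)).comp tendsto_natCast_atTop_atTop
  have h3 : ∀ᶠ x : ℕ in atTop, Real.log x ≤ (x : ℝ) ^ (ε / 2) := by
    have h := (isLittleO_log_rpow_atTop (r := ε / 2) (by linarith)).comp_tendsto
      tendsto_natCast_atTop_atTop
    have h4 := h.bound (c := 1) one_pos
    filter_upwards [h4, eventually_ge_atTop 1] with x hx hx1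
    simp only [Function.comp, Real.norm_eq_abs, one_mul] at hx
    have hx0 : (0 : ℝ) ≤ (x : ℝ) ^ (ε / 2) := Real.rpow_nonneg (Nat.cast_nonneg _) _
    rw [abs_of_nonneg hx0] at hx
    exact le_trans (le_abs_self _) hx
  obtain ⟨m0, hm0⟩ : ∃ m0 : ℕ, ∀ m : ℕ, m0 ≤ m → w m * Real.log m ≤ 1 := by
    have h := hw.small.eventually_le_const (show (0 : ℝ) < 1 from one_pos)
    exact eventually_atTop.1 h
  filter_upwards [h1.eventually_ge_atTop 8, h2.eventually_ge_atTop m0, h3,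
    eventually_ge_atTop 3] with x hx1 hx2 hx3 hx4
  have hx0 : (0 : ℝ) < x := by exact_mod_cast (by omega : 0 < x)
  have hlog : 0 < Real.log x := Real.log_pos (by exact_mod_cast (by omega : 1 < x))
  refine ⟨by linarith, by omega, ?_, hx3, hlog, ?_⟩
  · have h5 : (x : ℝ) ^ ε = (x : ℝ) ^ (ε / 2) * (x : ℝ) ^ (ε / 2) := by
      rw [← Real.rpow_add hx0]
      congr 1
      ring
    rw [h5]
    nlinarith
  · intro m hm
    have h6 : m0 ≤ m := by exact_mod_cast le_trans hx2 hm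
    have h7 := hm0 m h6
    have h8 : Real.log x / 2 ≤ Real.log m := by
      have h9 : Real.log ((x : ℝ) ^ (1 / 2 : ℝ)) ≤ Real.log m :=
        Real.log_le_log (Real.rpow_pos_of_pos hx0 _) hm
      rw [Real.log_rpow hx0] at h9
      linarith
    have h10 := hw.pos m
    nlinarith

theorem p_VHB : Stmt_BTT → Stmt_VHB := by
  rintro ⟨B, hB, hBT⟩ w hw ε η hε hε4 hη hη1
  refine ⟨2 * B / ε + 7, by positivity, ?_⟩
  filter_upwards [vhb_ev hw hε] with x hx S hTY q hq hlen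
  obtain ⟨hx1, hx2, hx3, hx4, hx5, hx6⟩ := hx
  obtain ⟨hq1, hq2, hq3⟩ := mem_runs.1 hq
  have hx0 : (0 : ℝ) < x := by exact_mod_cast (by omega : 0 < x)
  obtain ⟨D, hD⟩ : ∃ D, D = q.2 - q.1 := ⟨_, rfl⟩
  have hDr : (D : ℝ) = (q.2 : ℝ) - q.1 := by
    rw [hD, Nat.cast_sub hq3]
  have hlD : (len S q : ℝ) ≤ D + 1 := by
    have h := len_le_sub S q hq3
    rw [← hD] at h
    exact_mod_cast h
  have hDx : (x : ℝ) ^ (ε / 2) ≤ D := by linarith
  have hD2 : 2 ≤ D := by
    have : (2 : ℝ) ≤ D := le_trans hx1 hDx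
    exact_mod_cast this
  have hD0 : (0 : ℝ) < D := by linarith
  have hcount := vhb_count S q hq3
  rw [← hD] at hcount
  have hcount' : (len S q : ℝ) ≤ 3 + pin q.1 D +
      ((S.filter (fun z => ¬ z.Prime ∧ q.1 < z ∧ z < q.2)).card : ℝ) := by
    exact_mod_cast hcount
  have hfew := hTY.few q.1 q.2 (hTY.sub hq1) (hTY.sub hq2) (by rw [← hDr]; exact hDx)
  rw [← hDr] at hfew
  have hpin := hBT q.1 D hD2
  -- the primes
  have hlogD : ε / 2 * Real.log x ≤ Real.log D := by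
    have h := Real.log_le_log (Real.rpow_pos_of_pos hx0 _) hDx
    rw [Real.log_rpow hx0] at h
    exact h
  have hlogD0 : 0 < Real.log D := lt_of_lt_of_le (by positivity) hlogD
  have hp : (pin q.1 D : ℝ) * Real.log x ≤ 2 * B / ε * D := by
    have h1 : (pin q.1 D : ℝ) * Real.log D ≤ B * D := by
      have h2 := mul_le_mul_of_nonneg_right hpin hlogD0.le
      have h3 : B * ((D : ℝ) / Real.log D) * Real.log D = B * D := by
        field_simp
      linarith
    have h4 : (0 : ℝ) ≤ pin q.1 D := Nat.cast_nonneg _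
    have h5 : (pin q.1 D : ℝ) * (ε / 2 * Real.log x) ≤ B * D :=
      le_trans (mul_le_mul_of_nonneg_left hlogD h4) h1
    have h6 : 2 * B / ε * D = (B * D) * (2 / ε) := by
      field_simp
    have h7 : (pin q.1 D : ℝ) * Real.log x = (pin q.1 D : ℝ) * (ε / 2 * Real.log x) * (2 / ε) := by
      field_simp
    rw [h6, h7]
    exact mul_le_mul_of_nonneg_right h5 (by positivity)
  -- the other elements
  have hq1U := hTY.sub hq1
  have hq1a : (x : ℝ) ^ (1 / 2 : ℝ) ≤ q.1 := by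
    unfold UU at hq1U
    have h1 := (Finset.mem_Icc.1 hq1U).1
    have h2 : (x : ℝ) ^ (1 / 2 + ε) ≤ a0 ε x := by
      unfold a0
      exact Nat.le_ceil _
    have h3 : (x : ℝ) ^ (1 / 2 : ℝ) ≤ (x : ℝ) ^ (1 / 2 + ε) :=
      Real.rpow_le_rpow_of_exponent_le (by exact_mod_cast hx2) (by linarith)
    have h4 : (a0 ε x : ℝ) ≤ q.1 := by exact_mod_cast h1
    linarith
  have hwq := hx6 q.1 hq1a
  have hw0 := hw.pos q.1
  have hf : ((S.filter (fun z => ¬ z.Prime ∧ q.1 < z ∧ z < q.2)).card : ℝ) * Real.log x ≤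
      4 * D := by
    have h1 := mul_le_mul_of_nonneg_right hfew hx5.le
    have h2 : (1 + η) * w q.1 * (D : ℝ) * Real.log x = (1 + η) * D * (w q.1 * Real.log x) := by
      ring
    rw [h2] at h1
    have h3 : (1 + η) * D * (w q.1 * Real.log x) ≤ (1 + η) * D * 2 :=
      mul_le_mul_of_nonneg_left hwq (by positivity)
    have h4 : (1 + η) * (D : ℝ) * 2 ≤ 4 * D := by nlinarith
    linarith
  have hlx : 3 * Real.log x ≤ 3 * D := by linarith
  have hfin := mul_le_mul_of_nonneg_right hcount' hx5.le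
  rw [← hDr]
  have hfin2 : (3 + (pin q.1 D : ℝ) +
      ((S.filter (fun z => ¬ z.Prime ∧ q.1 < z ∧ z < q.2)).card : ℝ)) * Real.log x =
      3 * Real.log x + (pin q.1 D : ℝ) * Real.log x +
        ((S.filter (fun z => ¬ z.Prime ∧ q.1 < z ∧ z < q.2)).card : ℝ) * Real.log x := by
    ring
  rw [hfin2] at hfin
  have hfin3 : (2 * B / ε + 7) * (D : ℝ) = 2 * B / ε * D + 7 * D := by ring
  rw [hfin3]
  linarith

end Pool.Agent.Work.MP_7d0410_sp
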