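import Pool.Agent.Work.MP_7d0410_sv.Interface

set_option autoImplicit false

namespace Pool.Agent.Work.MP_7d0410_sp

open Finset Filter MeasureTheory ProbabilityTheory
open Pool.Agent.Work.MP_7d0410_cr
open scoped Classical Topology

lemma VHL_a0_le {ε : ℝ} {x : ℕ} : (x : ℝ) ^ (1 / 2 + ε) ≤ a0 ε x := Nat.le_ceil _

lemma VHL_tendsto_a0 {ε : ℝ} (hε : 0 < ε) : Tendsto (fun x : ℕ => a0 ε x) atTop atTop := by
  have h1 : Tendsto (fun x : ℕ => (x : ℝ) ^ (1 / 2 + ε)) atTop atTop :=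
    (tendsto_rpow_atTop (by linarith)).comp tendsto_natCast_atTop_atTop
  exact tendsto_nat_ceil_atTop.comp h1

/-- a statement on all large `m` holds for all `m ≥ a0` -/
lemma VHL_ev {ε : ℝ} (hε : 0 < ε) {P : ℕ → Prop} (h : ∀ᶠ m : ℕ in atTop, P m) :
    ∀ᶠ x : ℕ in atTop, ∀ m : ℕ, a0 ε x ≤ m → P m := by
  obtain ⟨M, hM⟩ := eventually_atTop.1 h
  filter_upwards [(VHL_tendsto_a0 hε).eventually_ge_atTop M] with x hx m hm
  exact hM m (hx.trans hm)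

/-- one run: the lower bound for the insertion -/
lemma VHL_term {w : ℕ → ℝ} (hw : SVW w) {η Δ : ℝ} (hη : 0 < η) (_hη1 : η ≤ 1) (hΔ : 0 < Δ)
    {z a K : ℕ} (hz : (1 - η / 4) * w a ≤ w z) (hK : (K : ℝ) ≤ (1 + η) * w a * Δ)
    (h1 : 1 ≤ η / 4 * w a * Δ) (h3 : 0 ≤ 1 - 3 * η) :
    (1 - 3 * η) * (1 / Δ) ≤ w z / (1 - w z) * (1 / ((K : ℝ) + 1)) := by
  have hwa := hw.pos a
  have hwz := hw.pos z
  have hwz1 := hw.lt_one z
  have hK0 : (0 : ℝ) ≤ K := Nat.cast_nonneg K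
  have h4 : w z ≤ w z / (1 - w z) := by
    rw [le_div_iff₀ (by linarith)]
    nlinarith
  have h5 : w z * (1 / ((K : ℝ) + 1)) ≤ w z / (1 - w z) * (1 / ((K : ℝ) + 1)) :=
    mul_le_mul_of_nonneg_right h4 (by positivity)
  refine le_trans ?_ h5
  rw [mul_one_div, mul_one_div, div_le_div_iff₀ hΔ (by linarith)]
  have h6 : (K : ℝ) + 1 ≤ (1 + 5 * η / 4) * (w a * Δ) := by nlinarith
  have h7 : (1 - 3 * η) * ((K : ℝ) + 1) ≤ (1 - 3 * η) * ((1 + 5 * η / 4) * (w a * Δ)) :=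
    mul_le_mul_of_nonneg_left h6 h3
  have h8 : (1 - 3 * η) * (1 + 5 * η / 4) ≤ 1 - η / 4 := by nlinarith
  have h9 : 0 ≤ w a * Δ := by positivity
  have h10 : (1 - 3 * η) * (1 + 5 * η / 4) * (w a * Δ) ≤ (1 - η / 4) * (w a * Δ) :=
    mul_le_mul_of_nonneg_right h8 h9
  have h11 : (1 - η / 4) * w a * Δ ≤ w z * Δ := mul_le_mul_of_nonneg_right hz hΔ.le
  nlinarith

theorem p_VHL : Stmt_VIN → Stmt_VGE → Stmt_VWR → Stmt_VWL → Stmt_VHL := by
  intro hVIN hVGE hVWR hVWL w hw ε η hε hε4 hη hη1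
  have hη4 : 0 < η / 4 := by linarith
  -- eventual facts
  have e1 := VHL_ev hε (hVWR w hw (η / 4) hη4)
  have e2 : ∀ᶠ x : ℕ in atTop, ((2 * x : ℕ) : ℝ) ^ (-(ε / 4)) ≤ w (2 * x) := by
    have h := hVWL w hw (ε / 4) (by linarith)
    have h2 : Tendsto (fun x : ℕ => 2 * x) atTop atTop :=
      tendsto_id.const_mul_atTop' (by norm_num)
    exact h2.eventually h
  have e3 := hVGE w ε η hε hε4
  have e4 : ∀ᶠ x : ℕ in atTop, (8 / η : ℝ) ≤ (x : ℝ) ^ (ε / 4) :=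
    ((tendsto_rpow_atTop (by linarith : 0 < ε / 4)).comp
      tendsto_natCast_atTop_atTop).eventually_ge_atTop _
  have e5 : ∀ᶠ x : ℕ in atTop, (3 : ℝ) ≤ (x : ℝ) ^ (ε / 2) :=
    ((tendsto_rpow_atTop (by linarith : 0 < ε / 2)).comp
      tendsto_natCast_atTop_atTop).eventually_ge_atTop _
  filter_upwards [e1, e2, e3, e4, e5, eventually_ge_atTop 2] with x h1 h2 h3 h4 h5 hx2 r n hr0 hr1
  have hx0 : (0 : ℝ) < x := by
    have : 0 < x := by omega
    exact_mod_cast this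
  have hx1 : (1 : ℝ) ≤ x := by
    have : 1 ≤ x := by omega
    exact_mod_cast this
  -- insertion
  have hins := hVIN w hw (UU ε x) r n
  have hstep1 : Ex (pw w) (UU ε x) (fun S => (((rr S r n).filter (fun q => 1 ≤ KK S q)).card : ℝ)) ≤
      Ex (pw w) (UU ε x) (fun S => ((rr S r n).card : ℝ)) := by
    refine Ex_mono (prob_pw hw) fun S _ => ?_
    exact_mod_cast Finset.card_filter_le _ _
  refine le_trans ?_ hstep1
  rw [hins]
  have hnn : ∀ S : Finset ℕ, ∀ z : ℕ, 0 ≤ w z / (1 - w z) *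
      (if z ∈ S then 0 else ∑ q ∈ FS S r n z, 1 / ((KK S q : ℝ) + 1)) := by
    intro S z
    have := hw.pos z
    have := hw.lt_one z
    refine mul_nonneg (div_nonneg (by linarith) (by linarith)) ?_
    split_ifs
    · exact le_rfl
    · exact Finset.sum_nonneg fun q _ => by positivity
  have hstep2 : (∑ z ∈ (UU ε x).filter (fun z => ¬ z.Prime), w z / (1 - w z) *
      Ex (pw w) (UU ε x) (fun S => if z ∈ S then 0 else ∑ q ∈ FS S r n z, 1 / ((KK S q : ℝ) + 1))) =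
      Ex (pw w) (UU ε x) (fun S => ∑ z ∈ (UU ε x).filter (fun z => ¬ z.Prime), w z / (1 - w z) *
        (if z ∈ S then 0 else ∑ q ∈ FS S r n z, 1 / ((KK S q : ℝ) + 1))) := by
    rw [Ex_sum]
    refine Finset.sum_congr rfl fun z _ => ?_
    rw [Ex_const_mul]
  rw [hstep2]
  by_cases h3η : 0 ≤ 1 - 3 * η
  swap
  · push Not at h3η
    have ha : 0 ≤ Ex (pw w) (UU ε x) (fun S => if TY w η ε x S then gR S r n else 0) :=
      Ex_nonneg (prob_pw hw) fun S _ => by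
        split_ifs
        · exact gR_nonneg S r n
        · exact le_rfl
    have hb : 0 ≤ Ex (pw w) (UU ε x) (fun S => ∑ z ∈ (UU ε x).filter (fun z => ¬ z.Prime),
        w z / (1 - w z) *
        (if z ∈ S then 0 else ∑ q ∈ FS S r n z, 1 / ((KK S q : ℝ) + 1))) :=
      Ex_nonneg (prob_pw hw) fun S _ => Finset.sum_nonneg fun z _ => hnn S z
    have := mul_nonpos_of_nonpos_of_nonneg h3η.le ha
    linarith
  rw [← Ex_const_mul]
  refine Ex_mono (prob_pw hw) fun S hSU => ?_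
  by_cases hTY : TY w η ε x S
  swap
  · rw [if_neg hTY, mul_zero]
    exact Finset.sum_nonneg fun z _ => hnn S z
  rw [if_pos hTY]
  by_cases hPT : PT S r n
  swap
  · rw [gR_eq_zero hPT, mul_zero]
    exact Finset.sum_nonneg fun z _ => hnn S z
  obtain ⟨q, hq⟩ := (PT_iff S r n).1 hPT
  rw [gR_eq hq]
  have hlt := PTS_lt hq
  obtain ⟨hqr, hlen, hn1, hn2, hnS⟩ := mem_PTS.1 hq
  obtain ⟨q1S, q2S, hqq⟩ := mem_runs.1 hqr
  have q1U := hSU q1S
  have q2U := hSU q2S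
  have hzU : n - sm S q ∈ UU ε x := by
    unfold UU at q1U q2U ⊢
    rw [Finset.mem_Icc] at q1U q2U ⊢
    omega
  have hznp : ¬ (n - sm S q).Prime := fun h => hnS (hTY.pr _ hzU h)
  have hFS : q ∈ FS S r n (n - sm S q) := by
    rw [mem_FS]
    exact ⟨hqr, by omega, by omega, hlen, by omega⟩
  -- single term
  have hmem : n - sm S q ∈ (UU ε x).filter (fun z => ¬ z.Prime) :=
    Finset.mem_filter.2 ⟨hzU, hznp⟩
  refine le_trans ?_ (Finset.single_le_sum (fun z _ => hnn S z) hmem)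
  rw [if_neg hnS]
  have hsingle : 1 / ((KK S q : ℝ) + 1) ≤ ∑ q ∈ FS S r n (n - sm S q), 1 / ((KK S q : ℝ) + 1) :=
    Finset.single_le_sum (f := fun q => 1 / ((KK S q : ℝ) + 1)) (fun q _ => by positivity) hFS
  have hwz0 : 0 ≤ w (n - sm S q) / (1 - w (n - sm S q)) := by
    have := hw.pos (n - sm S q)
    have := hw.lt_one (n - sm S q)
    exact div_nonneg (by linarith) (by linarith)
  refine le_trans ?_ (mul_le_mul_of_nonneg_left hsingle hwz0)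
  -- the length of the hull
  have hxe : (x : ℝ) ^ ε = (x : ℝ) ^ (ε / 2) * (x : ℝ) ^ (ε / 2) := by
    rw [← Real.rpow_add hx0]
    congr 1
    ring
  have hrx : (x : ℝ) ^ ε ≤ r := by
    have : (x : ℝ) ^ ε ≤ (R0 ε x : ℝ) := Nat.le_ceil _
    have h' : (R0 ε x : ℝ) ≤ r := by exact_mod_cast hr0
    linarith
  have hΔ1 : (x : ℝ) ^ (ε / 2) ≤ (q.2 : ℝ) - q.1 := by
    have hl := len_le_sub S q hqq
    have hl2 : (r : ℝ) - 2 ≤ (q.2 : ℝ) - q.1 := by
      have : r + q.1 ≤ q.2 + 2 := by omega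
      have : (r : ℝ) + q.1 ≤ (q.2 : ℝ) + 2 := by exact_mod_cast this
      linarith
    nlinarith
  have hΔ0 : 0 < (q.2 : ℝ) - q.1 := by linarith
  have hfew := hTY.few q.1 q.2 q1U q2U hΔ1
  have hlenx : (len S q : ℝ) ≤ (x : ℝ) ^ (1 / 2 : ℝ) := by
    have : (len S q : ℝ) ≤ r := by exact_mod_cast (by omega : len S q ≤ r)
    linarith
  have h4q := h3 S hTY q hqr hlenx
  have ha0q : a0 ε x ≤ q.1 := by
    unfold UU at q1U
    exact (Finset.mem_Icc.1 q1U).1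
  have hq2x : q.1 ≤ 2 * x := by
    unfold UU at q1U
    exact (Finset.mem_Icc.1 q1U).2
  have hwr := h1 q.1 ha0q
  have hwz : (1 - η / 4) * w q.1 ≤ w (n - sm S q) :=
    hwr.trans (hw.anti (by omega))
  -- the mean number is large
  have hwq : ((2 * x : ℕ) : ℝ) ^ (-(ε / 4)) ≤ w q.1 := h2.trans (hw.anti hq2x)
  have h2x : (x : ℝ) ^ (-(ε / 4)) / 2 ≤ ((2 * x : ℕ) : ℝ) ^ (-(ε / 4)) := by
    push_cast
    rw [Real.mul_rpow (by norm_num) hx0.le]
    have : (1 / 2 : ℝ) ≤ (2 : ℝ) ^ (-(ε / 4)) := by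
      have h7 : (2 : ℝ) ^ (-1 : ℝ) ≤ (2 : ℝ) ^ (-(ε / 4)) :=
        Real.rpow_le_rpow_of_exponent_le (by norm_num) (by linarith)
      have h8 : (2 : ℝ) ^ (-1 : ℝ) = 1 / 2 := by
        rw [Real.rpow_neg_one]
        norm_num
      linarith
    have h9 : 0 ≤ (x : ℝ) ^ (-(ε / 4)) := by positivity
    nlinarith
  have hbig : 1 ≤ η / 4 * w q.1 * ((q.2 : ℝ) - q.1) := by
    have h7 : (x : ℝ) ^ (-(ε / 4)) * (x : ℝ) ^ (ε / 2) = (x : ℝ) ^ (ε / 4) := by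
      rw [← Real.rpow_add hx0]
      congr 1
      ring
    have h8 : (x : ℝ) ^ (ε / 4) / 2 ≤ w q.1 * ((q.2 : ℝ) - q.1) := by
      have h9 : (x : ℝ) ^ (-(ε / 4)) / 2 ≤ w q.1 := h2x.trans hwq
      have h10 : 0 ≤ (x : ℝ) ^ (-(ε / 4)) / 2 := by positivity
      have h11 : (x : ℝ) ^ (-(ε / 4)) / 2 * (x : ℝ) ^ (ε / 2) ≤ w q.1 * ((q.2 : ℝ) - q.1) :=
        mul_le_mul h9 hΔ1 (by positivity) (by linarith)
      calc (x : ℝ) ^ (ε / 4) / 2 = (x : ℝ) ^ (-(ε / 4)) / 2 * (x : ℝ) ^ (ε / 2) := by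
            rw [← h7]; ring
        _ ≤ _ := h11
    have h12 : 4 / η ≤ w q.1 * ((q.2 : ℝ) - q.1) := by
      have : 4 / η = 8 / η / 2 := by ring
      linarith
    rw [div_le_iff₀ hη] at h12
    nlinarith
  exact VHL_term hw hη hη1 hΔ0 hwz hfew hbig h3η

end Pool.Agent.Work.MP_7d0410_sp

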