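import Pool.Agent.Work.MP_7d0410_sv.Interface

/-! # VHM: the expected number of good runs is `lam ε` for most `n` -/

set_option autoImplicit false

namespace Pool.Agent.Work.MP_7d0410_sp

open Finset Filter MeasureTheory ProbabilityTheory
open Pool.Agent.Work.MP_7d0410_cr
open scoped Classical Topology

theorem p_VHM (h1 : Stmt_VUP) (h2 : Stmt_VLO) : Stmt_VHM := by
  intro w hw ε η hε hε4 hη
  filter_upwards [h1 w hw ε (η / 3) hε hε4 (by positivity),
    h2 w hw ε (η / 3) hε hε4 (by positivity)] with x a1 a2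
  set H : ℕ → ℝ := fun n => HH (pw w) (UU ε x) (R0 ε x) (GG x) n with hH
  have hpt : ∀ n ∈ Finset.Icc 1 x, |H n - lam ε| = H n + (-lam ε + 2 * max (lam ε - H n) 0) := by
    intro n _
    rcases le_total (lam ε) (H n) with h | h
    · rw [abs_of_nonneg (by linarith), max_eq_right (by linarith)]
      ring
    · rw [abs_of_nonpos (by linarith), max_eq_left (by linarith)]
      ring
  have hcard : ((Finset.Icc 1 x).card : ℝ) = x := by
    rw [Nat.card_Icc, Nat.add_sub_cancel]
  calc ∑ n ∈ Finset.Icc 1 x, |H n - lam ε|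
      = ∑ n ∈ Finset.Icc 1 x, (H n + (-lam ε + 2 * max (lam ε - H n) 0)) :=
        Finset.sum_congr rfl hpt
    _ = ∑ n ∈ Finset.Icc 1 x, H n + (x * (-lam ε) +
        2 * ∑ n ∈ Finset.Icc 1 x, max (lam ε - H n) 0) := by
      rw [Finset.sum_add_distrib, Finset.sum_add_distrib, Finset.sum_const, nsmul_eq_mul, hcard,
        ← Finset.mul_sum]
    _ ≤ (lam ε + η / 3) * x + (x * (-lam ε) + 2 * (η / 3 * x)) := by
      gcongr
    _ = η * x := by ring

end Pool.Agent.Work.MP_7d0410_sp
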