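import Pool.Agent.Work.MP_7d0410_sv.Interface

set_option autoImplicit false

namespace Pool.Agent.Work.MP_7d0410_sp

open Finset Filter MeasureTheory ProbabilityTheory
open Pool.Agent.Work.MP_7d0410_cr
open scoped Classical Topology

lemma VIN_seg (S : Finset ℕ) (z : ℕ) (q : ℕ × ℕ) : seg (S.erase z) q = (seg S q).erase z := by
  ext m
  rw [mem_seg, Finset.mem_erase, Finset.mem_erase, mem_seg]
  tauto

/-- the runs of `S` which contain `z` between their end points -/
lemma VIN_FS (S : Finset ℕ) (r n z : ℕ) (hz : z ∈ S) :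
    (rr S r n).filter (fun q => q.1 < z ∧ z < q.2) = FS (S.erase z) r n z := by
  ext q
  rw [Finset.mem_filter, mem_FS, mem_rr, mem_runs, mem_runs]
  have key : q.1 < z → z < q.2 → len (S.erase z) q + 1 = len S q ∧
      sm (S.erase z) q + z = sm S q := by
    intro h1 h2
    have hzs : z ∈ seg S q := mem_seg.2 ⟨hz, h1.le, h2.le⟩
    constructor
    · unfold len
      rw [VIN_seg, Finset.card_erase_add_one hzs]
    · unfold sm
      rw [VIN_seg]
      exact Finset.sum_erase_add _ (fun m => m) hzs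
  constructor
  · rintro ⟨⟨⟨h1, h2, h3⟩, h4, h5⟩, h6, h7⟩
    obtain ⟨k1, k2⟩ := key h6 h7
    exact ⟨⟨Finset.mem_erase.2 ⟨by omega, h1⟩, Finset.mem_erase.2 ⟨by omega, h2⟩, h3⟩, h6, h7,
      k1.trans h4, k2.trans h5⟩
  · rintro ⟨⟨h1, h2, h3⟩, h6, h7, h8, h9⟩
    obtain ⟨k1, k2⟩ := key h6 h7
    exact ⟨⟨⟨(Finset.mem_erase.1 h1).2, (Finset.mem_erase.1 h2).2, h3⟩, k1.symm.trans h8,
      k2.symm.trans h9⟩, h6, h7⟩

lemma VIN_KK (S : Finset ℕ) (z : ℕ) (q : ℕ × ℕ) (hz : z ∈ S) (hp : ¬ z.Prime) (h1 : q.1 < z)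
    (h2 : z < q.2) : KK S q = KK (S.erase z) q + 1 := by
  unfold KK
  have h3 : (S.erase z).filter (fun z => ¬ z.Prime ∧ q.1 < z ∧ z < q.2) =
      (S.filter (fun z => ¬ z.Prime ∧ q.1 < z ∧ z < q.2)).erase z := by
    ext m
    rw [Finset.mem_filter, Finset.mem_erase, Finset.mem_erase, Finset.mem_filter]
    tauto
  rw [h3, Finset.card_erase_add_one]
  exact Finset.mem_filter.2 ⟨hz, hp, h1, h2⟩

theorem p_VIN : Stmt_VIN := by
  intro w hw V r n
  have h1 : Ex (pw w) V (fun S => (((rr S r n).filter (fun q => 1 ≤ KK S q)).card : ℝ)) =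
      Ex (pw w) V (fun S => ∑ z ∈ V.filter (fun z => ¬ z.Prime),
        (if z ∈ S then 1 else 0) *
          (fun T : Finset ℕ => ∑ q ∈ FS T r n z, 1 / ((KK T q : ℝ) + 1)) (S.erase z)) := by
    refine Ex_congr fun S hS => ?_
    have h2 : ∀ q : ℕ × ℕ, (if 1 ≤ KK S q then (1 : ℝ) else 0) =
        ∑ z ∈ V.filter (fun z => ¬ z.Prime),
          (if z ∈ S ∧ q.1 < z ∧ z < q.2 then 1 / (KK S q : ℝ) else 0) := by
      intro q
      rw [← Finset.sum_filter, Finset.sum_const, nsmul_eq_mul]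
      have h3 : ((V.filter (fun z => ¬ z.Prime)).filter
          (fun z => z ∈ S ∧ q.1 < z ∧ z < q.2)).card = KK S q := by
        unfold KK
        congr 1
        ext z
        rw [Finset.mem_filter, Finset.mem_filter, Finset.mem_filter]
        constructor
        · rintro ⟨⟨_, h4⟩, h3, h5⟩
          exact ⟨h3, h4, h5⟩
        · rintro ⟨h3, h4, h5⟩
          exact ⟨⟨hS h3, h4⟩, h3, h5⟩
      rw [h3]
      split_ifs with h4
      · have h5 : (KK S q : ℝ) ≠ 0 := by
          have : KK S q ≠ 0 := by omega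
          exact_mod_cast this
        field_simp
      · have h5 : KK S q = 0 := by omega
        rw [h5]
        simp
    have h0 : (((rr S r n).filter (fun q => 1 ≤ KK S q)).card : ℝ) =
        ∑ q ∈ rr S r n, (if 1 ≤ KK S q then (1 : ℝ) else 0) := by
      rw [← Finset.sum_filter, Finset.sum_const, nsmul_eq_mul, mul_one]
    rw [h0, Finset.sum_congr rfl fun q _ => h2 q, Finset.sum_comm]
    refine Finset.sum_congr rfl fun z hz => ?_
    have hzp : ¬ z.Prime := (Finset.mem_filter.1 hz).2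
    by_cases hzS : z ∈ S
    · rw [if_pos hzS, one_mul]
      change _ = ∑ q ∈ FS (S.erase z) r n z, 1 / ((KK (S.erase z) q : ℝ) + 1)
      rw [← VIN_FS S r n z hzS, Finset.sum_filter]
      refine Finset.sum_congr rfl fun q _ => ?_
      by_cases h6 : q.1 < z ∧ z < q.2
      · rw [if_pos ⟨hzS, h6⟩, if_pos h6, VIN_KK S z q hzS hzp h6.1 h6.2]
        push_cast
        rfl
      · rw [if_neg h6, if_neg]
        exact fun h => h6 h.2
    · rw [if_neg hzS, zero_mul]
      apply Finset.sum_eq_zero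
      intro q _
      rw [if_neg]
      exact fun h => hzS h.1
  rw [h1, Ex_sum]
  refine Finset.sum_congr rfl fun z hz => ?_
  rw [Finset.mem_filter] at hz
  have h3 := Ex_insert (p := pw w) V z hz.1 (pw_lt_one hw hz.2)
    (fun T : Finset ℕ => ∑ q ∈ FS T r n z, 1 / ((KK T q : ℝ) + 1))
  rw [h3, pw_not_prime hz.2]
  congr 1
  refine Ex_congr fun S _ => ?_
  split_ifs
  · rw [zero_mul]
  · rw [one_mul]

end Pool.Agent.Work.MP_7d0410_sp
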