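import Pool.Agent.Work.MP_7d0410_sv.Interface

/-!
# Block VLA: the pointwise lower bound (helper53)
-/

set_option autoImplicit false

namespace Pool.Agent.Work.MP_7d0410_sp

open Finset Filter MeasureTheory ProbabilityTheory
open Pool.Agent.Work.MP_7d0410_cr
open scoped Classical Topology

lemma VLA_gR_le (S : Finset ℕ) (r n : ℕ) : gR S r n ≤ 1 := by
  by_cases h : PT S r n
  · rw [PT_iff] at h
    obtain ⟨q, hq⟩ := h
    rw [gR_eq hq]
    have h1 : ((q.1 : ℝ)) + 1 ≤ q.2 := by exact_mod_cast PTS_lt hq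
    rw [div_le_one (by linarith)]
    linarith
  · rw [gR_eq_zero h]
    exact zero_le_one

lemma VLA_fj_le {w : ℕ → ℝ} (hw : SVW w) (η ε : ℝ) (x r : ℕ) (y : ℝ) : fj w η ε x r y ≤ 1 :=
  Ex_le_const (prob_pw hw) fun S _ => by
    split_ifs
    · exact VLA_gR_le S r _
    · exact zero_le_one

lemma VLA_lam {ε : ℝ} (h0 : 0 < ε) (h1 : ε < 1 / 4) : lam ε ≤ 7 / 10 := by
  unfold lam
  have h2 : (1 - ε) / (1 / 2 + ε) ≤ 2 := by
    rw [div_le_iff₀ (by linarith)]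
    linarith
  have h3 : 0 < (1 - ε) / (1 / 2 + ε) := div_pos (by linarith) (by linarith)
  have h4 := Real.log_le_log h3 h2
  have h5 := Real.log_two_lt_d9
  linarith

lemma VLA_sum_Ioc (R : ℕ → ℕ) (hR : Monotone R) (f : ℕ → ℝ) (J : ℕ) :
    ∑ j ∈ Finset.range J, ∑ r ∈ Finset.Ioc (R j) (R (j + 1)), f r =
      ∑ r ∈ Finset.Ioc (R 0) (R J), f r := by
  induction J with
  | zero => simp
  | succ J ih =>
    rw [Finset.sum_range_succ, ih, Finset.sum_Ioc_consecutive f (hR (Nat.zero_le J))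
      (hR (Nat.le_succ J))]

/-- the final inequality of real numbers -/
lemma VLA_num {L δ : ℝ} (h0 : 0 < δ) (h1 : δ ≤ 1 / 10) (h2 : δ ≤ L) (h3 : L ≤ 7 / 10) :
    L - 10 * δ ≤ (1 - 3 * δ) * ((1 - δ) ^ 2 * (1 - 2 * δ) * (L - δ) - δ) := by
  have e1 : 1 - 4 * δ ≤ (1 - δ) ^ 2 * (1 - 2 * δ) := by nlinarith [mul_nonneg h0.le h0.le, pow_pos h0 3]
  have e2 : (1 - 4 * δ) * (L - δ) ≤ (1 - δ) ^ 2 * (1 - 2 * δ) * (L - δ) :=
    mul_le_mul_of_nonneg_right e1 (by linarith)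
  have e3 : (1 - 3 * δ) * ((1 - 4 * δ) * (L - δ) - δ) ≤
      (1 - 3 * δ) * ((1 - δ) ^ 2 * (1 - 2 * δ) * (L - δ) - δ) :=
    mul_le_mul_of_nonneg_left (by linarith) (by linarith)
  refine le_trans ?_ e3
  nlinarith [mul_nonneg h0.le (sub_nonneg.2 h2), mul_nonneg h0.le (sub_nonneg.2 h3),
    mul_nonneg (mul_nonneg h0.le h0.le) (sub_nonneg.2 h2)]

/-- an average of functions which are at least `c` -/
lemma VLA_avg {x : ℕ} (hx : 1 ≤ x) {J : ℕ} {g : ℕ → ℝ → ℝ} {c : ℝ}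
    (hint : ∀ j < J, IntervalIntegrable (g j) volume 0 (1 / (8 * x)))
    (hc : ∀ s : ℝ, 0 ≤ s → s ≤ 1 / (8 * x) → c ≤ ∑ j ∈ Finset.range J, g j s) :
    c ≤ ∑ j ∈ Finset.range J, 8 * x * ∫ s in (0 : ℝ)..(1 / (8 * x)), g j s := by
  have hx0 : (0 : ℝ) < 8 * x := by
    have : (1 : ℝ) ≤ x := by exact_mod_cast hx
    linarith
  have h0 : (0 : ℝ) ≤ 1 / (8 * x) := by positivity
  rw [← Finset.mul_sum, ← intervalIntegral.integral_finsetSum
    (fun j hj => hint j (Finset.mem_range.1 hj))]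
  have h1 : ∫ _ in (0 : ℝ)..(1 / (8 * x)), c ≤
      ∫ s in (0 : ℝ)..(1 / (8 * x)), ∑ j ∈ Finset.range J, g j s := by
    refine intervalIntegral.integral_mono_on h0 (intervalIntegrable_const) ?_ ?_
    · have h2 := IntervalIntegrable.sum (μ := volume) (a := (0 : ℝ)) (b := 1 / (8 * (x : ℝ)))
        (Finset.range J) (f := g) (fun j hj => hint j (Finset.mem_range.1 hj))
      have h3 : (∑ j ∈ Finset.range J, g j) = fun s => ∑ j ∈ Finset.range J, g j s := by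
        funext s
        rw [Finset.sum_apply]
      rw [h3] at h2
      exact h2
    · intro s hs
      exact hc s hs.1 hs.2
  rw [intervalIntegral.integral_const, smul_eq_mul, sub_zero] at h1
  have h2 := mul_le_mul_of_nonneg_left h1 hx0.le
  have h3 : 8 * (x : ℝ) * (1 / (8 * x) * c) = c := by
    field_simp
  linarith

theorem p_VLA : Stmt_VLR → Stmt_VLS → Stmt_VLI → Stmt_VSW → Stmt_VMS → Stmt_VRB → Stmt_VLA := by
  intro hVLR hVLS hVLI hVSW hVMS hVRB w hw ε δ hε hε4 hδ hδ1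
  obtain ⟨C, hC, hR⟩ := hVLR w hw ε δ hε hε4 hδ hδ1
  refine ⟨C, hC, ?_⟩
  have hsmall : ∀ᶠ x : ℕ in atTop,
      8 / δ * (Real.log x) ^ 2 * (x : ℝ) ^ (-(2 * ε)) ≤ δ := by
    have h1 : Tendsto (fun x : ℝ => Real.log x ^ 2 / x ^ (2 * ε)) atTop (𝓝 0) := by
      have h2 := isLittleO_log_rpow_rpow_atTop (s := 2 * ε) 2 (by linarith)
      have h3 := h2.tendsto_div_nhds_zero
      refine h3.congr' ?_
      filter_upwards with x
      norm_cast
    have h2 := (h1.comp tendsto_natCast_atTop_atTop).const_mul (8 / δ)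
    rw [mul_zero] at h2
    filter_upwards [h2.eventually_le_const hδ, eventually_gt_atTop 0] with x hx hx0
    refine le_trans (le_of_eq ?_) hx
    rw [Real.rpow_neg (Nat.cast_nonneg x)]
    simp only [Function.comp]
    ring
  have hlog : ∀ᶠ x : ℕ in atTop, 1 ≤ Real.log x :=
    (Real.tendsto_log_atTop.comp tendsto_natCast_atTop_atTop).eventually_ge_atTop 1
  filter_upwards [hR, hVLI w hw ε δ hε hε4 hδ hδ1, hVMS ε δ δ hε hε4 hδ (by linarith) hδ,
    hVRB ε δ hε hε4 hδ (by linarith), hsmall, hlog, eventually_ge_atTop 1] with x hR hI hM hB hs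
    hl hx1
  obtain ⟨hB1, hB2, hB3, hB4, hB5, hB6, hB7⟩ := hB
  intro n θ hn1 hn2 hθ0 hθ1
  have hp : Prob (pw w) := prob_pw hw
  have hx1' : (1 : ℝ) ≤ x := by exact_mod_cast hx1
  have hx0' : (0 : ℝ) < x := by linarith
  have hRB1 : ∀ j, 1 ≤ RB ε δ x j := fun j => by unfold RB; omega
  have hmono : Monotone (RB ε δ x) := monotone_nat_of_le_succ fun j => (hB3 j).2.1.le
  have hRBpos : ∀ j, (0 : ℝ) < RB ε δ x j := fun j => by
    have : (1 : ℝ) ≤ RB ε δ x j := by exact_mod_cast hRB1 j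
    linarith
  have hR0 : ∀ j, R0 ε x ≤ RB ε δ x j := fun j => hB1.trans (hmono (Nat.zero_le j))
  have h2R : ∀ j, RB ε δ x (j + 1) ≤ 2 * RB ε δ x j := fun j => by
    have h1 := (hB3 j).2.2
    have h2 := hRBpos j
    have h3 : (RB ε δ x (j + 1) : ℝ) ≤ 2 * RB ε δ x j := by nlinarith
    exact_mod_cast h3
  -- nonnegativity of the error terms
  have hE0 : 0 ≤ ∑ j ∈ Finset.range (JB ε δ x), ∑ r ∈ Finset.Ioc (RB ε δ x j) (RB ε δ x (j + 1)),
      C / (RB ε δ x j * Real.log x) * EP w δ ε x r n := by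
    refine Finset.sum_nonneg fun j _ => Finset.sum_nonneg fun r _ => ?_
    have h1 := hRBpos j
    have h2 := EP_nonneg hw δ ε x r n
    positivity
  have hF0 : 0 ≤ ∑ j ∈ Finset.range (JB ε δ x),
      |FJ w δ ε x (RB ε δ x j) (RB ε δ x (j + 1)) (n + θ)| :=
    Finset.sum_nonneg fun j _ => abs_nonneg _
  have hH0 : 0 ≤ HH (pw w) (UU ε x) (R0 ε x) (GG x) n :=
    Ex_nonneg hp fun S _ => Nat.cast_nonneg _
  have hN0 : 0 ≤ NG (pw w) (UU ε x) (GG x) n := NG_nonneg hp _ _ _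
  by_cases hL : lam ε < δ
  · linarith
  push Not at hL
  have hν : (x : ℝ) ≤ (n + θ) * Real.log x := by nlinarith
  have hνx : (n : ℝ) + θ ≤ 5 / 4 * x := by
    have : (n : ℝ) ≤ x := by exact_mod_cast hn2
    linarith
  have hν0 : (0 : ℝ) < n + θ := by
    by_contra h
    push Not at h
    nlinarith
  -- the lower bound for the runs
  have s1 : ∑ j ∈ Finset.range (JB ε δ x), ∑ r ∈ Finset.Ioc (RB ε δ x j) (RB ε δ x (j + 1)),
      Ex (pw w) (UU ε x) (fun S => ((rr S r n).card : ℝ)) ≤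
      HH (pw w) (UU ε x) (R0 ε x) (GG x) n + NG (pw w) (UU ε x) (GG x) n := by
    rw [VLA_sum_Ioc (RB ε δ x) hmono]
    refine hVLS (pw w) hp (UU ε x) (R0 ε x) (GG x) n _ fun r hr => ?_
    exact hB1.trans (Finset.mem_Ioc.1 hr).1.le
  have hhalf : (RM ε x : ℝ) ≤ (x : ℝ) ^ (1 / 2 : ℝ) := by
    rw [← Real.sqrt_eq_rpow]
    refine Real.le_sqrt_of_sq_le (hB7.trans ?_)
    calc (x : ℝ) ^ (1 - 2 * ε) ≤ (x : ℝ) ^ (1 : ℝ) :=
          Real.rpow_le_rpow_of_exponent_le hx1' (by linarith)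
      _ = x := Real.rpow_one _
  have s2 : ∀ j ∈ Finset.range (JB ε δ x), ∀ r ∈ Finset.Ioc (RB ε δ x j) (RB ε δ x (j + 1)),
      (1 - 3 * δ) * SM x (fj w δ ε x (RB ε δ x (j + 1))) ((n + θ) / r) -
        C / (RB ε δ x j * Real.log x) * EP w δ ε x r n ≤
      Ex (pw w) (UU ε x) (fun S => ((rr S r n).card : ℝ)) := by
    intro j hj r hr
    have hj' := Finset.mem_range.1 hj
    obtain ⟨hr1, hr2⟩ := Finset.mem_Ioc.1 hr
    have h1 : (RB ε δ x (j + 1) : ℝ) ≤ (x : ℝ) ^ (1 / 2 : ℝ) := by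
      refine le_trans ?_ hhalf
      exact_mod_cast hB4 (j + 1) (by omega)
    have h2 := hR (RB ε δ x j) (RB ε δ x (j + 1)) r n θ (hR0 j) hr1 hr2 (h2R j) h1 hn2 hθ0 hθ1
    have h3 : 0 ≤ C / (RB ε δ x j * Real.log x) * EP w δ ε x r n := by
      have h4 := hRBpos j
      have h5 := EP_nonneg hw δ ε x r n
      positivity
    nlinarith
  have s3 : (1 - 3 * δ) * (∑ j ∈ Finset.range (JB ε δ x),
        ∑ r ∈ Finset.Ioc (RB ε δ x j) (RB ε δ x (j + 1)),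
        SM x (fj w δ ε x (RB ε δ x (j + 1))) ((n + θ) / r)) -
      (∑ j ∈ Finset.range (JB ε δ x), ∑ r ∈ Finset.Ioc (RB ε δ x j) (RB ε δ x (j + 1)),
        C / (RB ε δ x j * Real.log x) * EP w δ ε x r n) ≤
      ∑ j ∈ Finset.range (JB ε δ x), ∑ r ∈ Finset.Ioc (RB ε δ x j) (RB ε δ x (j + 1)),
        Ex (pw w) (UU ε x) (fun S => ((rr S r n).card : ℝ)) := by
    rw [Finset.mul_sum, ← Finset.sum_sub_distrib]
    refine Finset.sum_le_sum fun j hj => ?_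
    rw [Finset.mul_sum, ← Finset.sum_sub_distrib]
    exact Finset.sum_le_sum fun r hr => s2 j hj r hr
  have s4 : ∑ j ∈ Finset.range (JB ε δ x), (∫ u in (RB ε δ x j : ℝ)..(RB ε δ x (j + 1)),
        SM x (fj w δ ε x (RB ε δ x (j + 1))) ((n + θ) / u)) -
      ∑ j ∈ Finset.range (JB ε δ x),
        |FJ w δ ε x (RB ε δ x j) (RB ε δ x (j + 1)) (n + θ)| ≤
      ∑ j ∈ Finset.range (JB ε δ x), ∑ r ∈ Finset.Ioc (RB ε δ x j) (RB ε δ x (j + 1)),
        SM x (fj w δ ε x (RB ε δ x (j + 1))) ((n + θ) / r) := by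
    rw [← Finset.sum_sub_distrib]
    refine Finset.sum_le_sum fun j _ => ?_
    have h1 := neg_abs_le (FJ w δ ε x (RB ε δ x j) (RB ε δ x (j + 1)) (n + θ))
    have h2 : FJ w δ ε x (RB ε δ x j) (RB ε δ x (j + 1)) (n + θ) =
      ∑ r ∈ Finset.Ioc (RB ε δ x j) (RB ε δ x (j + 1)),
        SM x (fj w δ ε x (RB ε δ x (j + 1))) ((n + θ) / r) -
      ∫ u in (RB ε δ x j : ℝ)..(RB ε δ x (j + 1)),
        SM x (fj w δ ε x (RB ε δ x (j + 1))) ((n + θ) / u) := rfl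
    linarith
  -- the integrals
  have s5 : (1 - δ) ^ 2 * (1 - 2 * δ) * (lam ε - δ) - δ ≤
      ∑ j ∈ Finset.range (JB ε δ x), ∫ u in (RB ε δ x j : ℝ)..(RB ε δ x (j + 1)),
        SM x (fj w δ ε x (RB ε δ x (j + 1))) ((n + θ) / u) := by
    have hsw : ∀ j, IntervalIntegrable (fun s : ℝ => ∫ u in (RB ε δ x j : ℝ)..(RB ε δ x (j + 1)),
          fj w δ ε x (RB ε δ x (j + 1)) ((n + θ) * Real.exp (-s) / u)) volume 0 (1 / (8 * x)) ∧
        ∫ u in (RB ε δ x j : ℝ)..(RB ε δ x (j + 1)),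
          SM x (fj w δ ε x (RB ε δ x (j + 1))) ((n + θ) / u) =
        8 * x * ∫ s in (0 : ℝ)..(1 / (8 * x)), ∫ u in (RB ε δ x j : ℝ)..(RB ε δ x (j + 1)),
          fj w δ ε x (RB ε δ x (j + 1)) ((n + θ) * Real.exp (-s) / u) := fun j =>
      hVSW x (RB ε δ x j) (RB ε δ x (j + 1)) (fj w δ ε x (RB ε δ x (j + 1))) 1 (n + θ) hx1
        (hRB1 j) (hmono (Nat.le_succ j)) (fj_measurable w δ ε x _)
        (fun y => ⟨fj_nonneg hw δ ε x _ y, VLA_fj_le hw δ ε x _ y⟩)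
    rw [Finset.sum_congr rfl fun j _ => (hsw j).2]
    refine VLA_avg hx1 (g := fun j s => ∫ u in (RB ε δ x j : ℝ)..(RB ε δ x (j + 1)),
          fj w δ ε x (RB ε δ x (j + 1)) ((n + θ) * Real.exp (-s) / u)) (fun j _ => (hsw j).1) ?_
    intro s hs0 hs1
    -- `ν' = ν exp (-s)`
    have hs8 : s ≤ 1 / 8 := by
      refine hs1.trans ?_
      rw [div_le_div_iff₀ (by linarith) (by norm_num)]
      linarith
    have he1 : 7 / 8 ≤ Real.exp (-s) := by
      have := Real.add_one_le_exp (-s)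
      linarith
    have he2 : Real.exp (-s) ≤ 1 := Real.exp_le_one_iff.2 (by linarith)
    obtain ⟨ν', hν'⟩ : ∃ ν' : ℝ, ν' = (n + θ) * Real.exp (-s) := ⟨_, rfl⟩
    rw [← hν']
    have h1 : ν' ≤ n + θ := by
      rw [hν']
      nlinarith
    have h2 : (n : ℝ) + θ ≤ 2 * ν' := by
      rw [hν']
      nlinarith
    have h3 : (x : ℝ) ≤ 2 * ν' * Real.log x := by nlinarith
    have h4 : ν' ≤ 2 * x := by linarith
    have h5 : 0 < ν' := by linarith
    have h6 : ∀ j ∈ Finset.range (JB ε δ x),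
        (1 - δ) ^ 2 * (1 - 2 * δ) * PW x (ν' / RB ε δ x (j + 1)) (ν' / RB ε δ x j) -
          2 * (RM ε x : ℝ) ^ 2 / ν' ≤
        ∫ u in (RB ε δ x j : ℝ)..(RB ε δ x (j + 1)),
          fj w δ ε x (RB ε δ x (j + 1)) (ν' / u) := by
      intro j hj
      have hj' := Finset.mem_range.1 hj
      have g1 := hI (RB ε δ x j) (RB ε δ x (j + 1)) ν' (hR0 j) (hB3 j).2.1 (h2R j)
        (hB4 (j + 1) (by omega)) h3 h4
      have g2 : 1 - 2 * δ ≤ (RB ε δ x j : ℝ) / RB ε δ x (j + 1) := by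
        rw [le_div_iff₀ (hRBpos (j + 1))]
        have g3 := (hB3 j).2.2
        have g4 := hRBpos j
        nlinarith [mul_nonneg hδ.le hδ.le]
      have g5 := PW_nonneg x (ν' / RB ε δ x (j + 1)) (ν' / RB ε δ x j)
      have g6 : (1 - δ) ^ 2 * (1 - 2 * δ) * PW x (ν' / RB ε δ x (j + 1)) (ν' / RB ε δ x j) ≤
          (1 - δ) ^ 2 * ((RB ε δ x j : ℝ) / RB ε δ x (j + 1)) *
            PW x (ν' / RB ε δ x (j + 1)) (ν' / RB ε δ x j) :=
        mul_le_mul_of_nonneg_right (mul_le_mul_of_nonneg_left g2 (sq_nonneg _)) g5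
      have g7 : 2 * (RB ε δ x (j + 1) : ℝ) ^ 2 / ν' ≤ 2 * (RM ε x : ℝ) ^ 2 / ν' := by
        have g8 : (RB ε δ x (j + 1) : ℝ) ≤ RM ε x := by exact_mod_cast hB4 (j + 1) (by omega)
        have g9 := hRBpos (j + 1)
        have g10 : (RB ε δ x (j + 1) : ℝ) ^ 2 ≤ (RM ε x : ℝ) ^ 2 :=
          pow_le_pow_left₀ g9.le g8 2
        exact div_le_div_of_nonneg_right (by linarith) h5.le
      linarith
    have h7 := Finset.sum_le_sum h6
    rw [Finset.sum_sub_distrib, ← Finset.mul_sum, Finset.sum_const, Finset.card_range,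
      nsmul_eq_mul] at h7
    refine le_trans ?_ h7
    have h8 := hM ν' h3 h4
    have h9 : (1 - δ) ^ 2 * (1 - 2 * δ) * (lam ε - δ) ≤ (1 - δ) ^ 2 * (1 - 2 * δ) *
        ∑ j ∈ Finset.range (JB ε δ x), PW x (ν' / RB ε δ x (j + 1)) (ν' / RB ε δ x j) := by
      refine mul_le_mul_of_nonneg_left h8 (mul_nonneg (sq_nonneg _) (by linarith))
    have h10 : (JB ε δ x : ℝ) * (2 * (RM ε x : ℝ) ^ 2 / ν') ≤ δ := by
      refine le_trans ?_ hs
      have k1 : 1 / ν' ≤ 2 * Real.log x / x := by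
        rw [div_le_div_iff₀ h5 hx0']
        linarith
      have k2 : 2 * (RM ε x : ℝ) ^ 2 / ν' ≤ 2 * (x : ℝ) ^ (1 - 2 * ε) * (2 * Real.log x / x) := by
        rw [div_eq_mul_one_div]
        exact mul_le_mul (by linarith) k1 (by positivity) (by positivity)
      have k3 : (JB ε δ x : ℝ) * (2 * (RM ε x : ℝ) ^ 2 / ν') ≤
          (2 / δ * Real.log x) * (2 * (x : ℝ) ^ (1 - 2 * ε) * (2 * Real.log x / x)) :=
        mul_le_mul hB5 k2 (by positivity) (by positivity)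
      refine k3.trans (le_of_eq ?_)
      have k4 : (x : ℝ) ^ (1 - 2 * ε) = x * (x : ℝ) ^ (-(2 * ε)) := by
        rw [sub_eq_add_neg, Real.rpow_add hx0', Real.rpow_one]
      rw [k4]
      field_simp
      ring
    linarith
  have s6 := VLA_num hδ hδ1 hL (VLA_lam hε hε4)
  have s7 : (1 - 3 * δ) * ((1 - δ) ^ 2 * (1 - 2 * δ) * (lam ε - δ) - δ) ≤ (1 - 3 * δ) *
      ∑ j ∈ Finset.range (JB ε δ x), ∫ u in (RB ε δ x j : ℝ)..(RB ε δ x (j + 1)),
        SM x (fj w δ ε x (RB ε δ x (j + 1))) ((n + θ) / u) :=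
    mul_le_mul_of_nonneg_left s5 (by linarith)
  have s8 := mul_le_mul_of_nonneg_left s4 (show 0 ≤ 1 - 3 * δ by linarith)
  have s9 : (1 - 3 * δ) * (∑ j ∈ Finset.range (JB ε δ x),
      |FJ w δ ε x (RB ε δ x j) (RB ε δ x (j + 1)) (n + θ)|) ≤
      ∑ j ∈ Finset.range (JB ε δ x),
        |FJ w δ ε x (RB ε δ x j) (RB ε δ x (j + 1)) (n + θ)| := by
    nlinarith
  rw [mul_sub] at s8
  linarith

end Pool.Agent.Work.MP_7d0410_sp
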