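import Pool.Agent.Work.MP_7d0410_sv.Interface

/-! # Block VLI: the lower bound for the integral of the mean value -/

set_option autoImplicit false

namespace Pool.Agent.Work.MP_7d0410_sp

open Finset Filter MeasureTheory ProbabilityTheory
open Pool.Agent.Work.MP_7d0410_cr
open scoped Classical Topology

/-- the integral and the expectation can be exchanged -/
lemma VLI_exchange (w : ℕ → ℝ) (δ ε : ℝ) (x R R' : ℕ) (ν : ℝ)
    (hint : ∀ S : Finset ℕ, IntervalIntegrable (fun u : ℝ => HS S R' (ν / u)) volume R R') :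
    ∫ u in (R : ℝ)..R', fj w δ ε x R' (ν / u) =
      Ex (pw w) (UU ε x) (fun S => if TY w δ ε x S then ∫ u in (R : ℝ)..R', HS S R' (ν / u)
        else 0) := by
  unfold fj Ex
  rw [intervalIntegral.integral_finsetSum]
  · refine Finset.sum_congr rfl fun S _ => ?_
    by_cases h : TY w δ ε x S
    · simp only [if_pos h]
      rw [intervalIntegral.integral_const_mul]
    · simp only [if_neg h, mul_zero, intervalIntegral.integral_zero]
  · intro S _
    by_cases h : TY w δ ε x S
    · simp only [if_pos h]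
      exact (hint S).const_mul _
    · simp only [if_neg h, mul_zero]
      exact intervalIntegrable_const

lemma VLI_three (δ : ℝ) (hδ : 0 < δ) : ∀ᶠ x : ℕ in atTop, 1 / (x : ℝ) ^ 3 ≤ δ := by
  obtain ⟨N, hN⟩ := exists_nat_gt (1 / δ)
  filter_upwards [eventually_ge_atTop (max N 1)] with x hx
  have h1 : (1 : ℝ) ≤ x := by exact_mod_cast (le_max_right N 1).trans hx
  have h2 : (N : ℝ) ≤ x := by exact_mod_cast (le_max_left N 1).trans hx
  have h3 : (x : ℝ) ≤ (x : ℝ) ^ 3 := by
    have := pow_le_pow_right₀ h1 (show 1 ≤ 3 by norm_num)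
    rwa [pow_one] at this
  rw [div_le_iff₀ (by positivity)]
  have h4 : 1 < δ * N := by
    rw [div_lt_iff₀ hδ] at hN
    linarith
  have h5 : δ * N ≤ δ * (x : ℝ) ^ 3 := mul_le_mul_of_nonneg_left (h2.trans h3) hδ.le
  linarith

theorem p_VLI : Stmt_VMW → Stmt_VTY → Stmt_VFL → Stmt_VLI := by
  intro hVMW hVTY hVFL w hw ε δ hε hε1 hδ hδ1
  filter_upwards [hVMW w hw ε δ δ hε hε1 hδ (by linarith) hδ (by linarith),
    hVTY w hw ε δ hε hε1 hδ (by linarith), VLI_three δ hδ, eventually_ge_atTop 3]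
    with x hx hT h3 hx3 R R' ν hR0 hRR hR2 hRM hν1 hν2
  have hx0 : (3 : ℝ) ≤ x := by exact_mod_cast hx3
  have hlog : 0 < Real.log x := Real.log_pos (by linarith)
  have hν : 0 < ν := by
    by_contra hcon
    push Not at hcon
    have : ν * Real.log x ≤ 0 := mul_nonpos_of_nonpos_of_nonneg hcon hlog.le
    linarith
  have hR1 : 1 ≤ R := by
    have h1 : 0 < (x : ℝ) ^ ε := Real.rpow_pos_of_pos (by linarith) _
    have h2 : 0 < R0 ε x := Nat.ceil_pos.2 h1
    omega
  have hRpos : (0 : ℝ) < R := by exact_mod_cast hR1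
  have hR'pos : (0 : ℝ) < R' := by
    have : (R : ℝ) < R' := by exact_mod_cast hRR
    linarith
  have hint : ∀ S : Finset ℕ, IntervalIntegrable (fun u : ℝ => HS S R' (ν / u)) volume R R' := by
    intro S
    have h1 := (hVFL (R' * ν) R R' ∅ (gR S R') (by positivity) hR1 hRR.le
      (fun m => gR_nonneg S R' m) (fun m hm => absurd hm (Finset.notMem_empty m))).1
    have h2 : (fun u : ℝ => HS S R' (ν / u)) = fun u : ℝ => gR S R' ⌊R' * ν / u⌋₊ := by
      funext u
      unfold HS
      rw [mul_div_assoc]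
    rw [h2]
    exact h1
  rw [VLI_exchange w δ ε x R R' ν hint]
  set a : ℝ := (1 - δ) * ((R : ℝ) / R') * PW x (ν / R') (ν / R) with ha
  set b : ℝ := 2 * (R' : ℝ) ^ 2 / ν with hb
  have ha0 : 0 ≤ a := by
    have h1 := PW_nonneg x (ν / R') (ν / R)
    have h2 : 0 ≤ 1 - δ := by linarith
    positivity
  have hb0 : 0 ≤ b := by positivity
  have h4 : Ex (pw w) (UU ε x) (fun S => (if TY w δ ε x S then 1 else 0) * a - b) ≤
      Ex (pw w) (UU ε x) (fun S => if TY w δ ε x S then ∫ u in (R : ℝ)..R', HS S R' (ν / u)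
        else 0) := by
    refine Ex_mono (prob_pw hw) fun S _ => ?_
    by_cases h : TY w δ ε x S
    · rw [if_pos h, if_pos h, one_mul]
      exact hx S R R' ν h hR0 hRR hR2 hRM hν1 hν2
    · rw [if_neg h, if_neg h, zero_mul]
      linarith
  rw [Ex_sub, Ex_const, Ex_mul_const] at h4
  have h5 : Ex (pw w) (UU ε x) (fun S => if TY w δ ε x S then (1 : ℝ) else 0) =
      Pb (pw w) (UU ε x) (fun S => TY w δ ε x S) := rfl
  rw [h5] at h4
  have h6 : 1 - δ ≤ Pb (pw w) (UU ε x) (fun S => TY w δ ε x S) := by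
    have h7 := Pb_compl (p := pw w) (UU ε x) (fun S => TY w δ ε x S)
    rw [h7] at hT
    linarith
  have h8 := mul_le_mul_of_nonneg_right h6 ha0
  have h9 : (1 - δ) ^ 2 * ((R : ℝ) / R') * PW x (ν / R') (ν / R) = (1 - δ) * a := by
    rw [ha]
    ring
  rw [h9]
  linarith

end Pool.Agent.Work.MP_7d0410_sp
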