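import Pool.Agent.Work.MP_7d0410_sv.Interface

/-!
# VLM: the expected densities
-/

set_option autoImplicit false

namespace Pool.Agent.Work.MP_7d0410_sp

open Finset Filter MeasureTheory ProbabilityTheory
open Pool.Agent.Work.MP_7d0410_cr
open scoped Classical Topology

/-- the probability of exactly `k` good runs -/
noncomputable def VLM_P (w : ℕ → ℝ) (ε : ℝ) (x n k : ℕ) : ℝ := Pb (pw w) (UU ε x) (fun S => cnt (R0 ε x) (GG x) S n = k)

/-- the mean over `n` -/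
noncomputable def VLM_A (w : ℕ → ℝ) (ε : ℝ) (k x : ℕ) : ℝ := (∑ n ∈ Finset.Icc 1 x, VLM_P w ε x n k) / x

lemma VLM_lam_pos {ε : ℝ} (h1 : 0 < ε) (h2 : ε < 1 / 4) : 0 < lam ε := by
  unfold lam
  apply Real.log_pos
  rw [one_lt_div (by linarith)]
  linarith

lemma VLM_sum (w : ℕ → ℝ) (ε : ℝ) (x n K : ℕ) : ∑ k ∈ Finset.range K, VLM_P w ε x n k =
    Ex (pw w) (UU ε x) (fun S => if cnt (R0 ε x) (GG x) S n < K then 1 else 0) := by
  unfold VLM_P
  simp only [Pb_eq]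
  rw [← Ex_sum]
  refine Ex_congr fun S _ => ?_
  rw [Finset.sum_ite_eq]
  simp only [Finset.mem_range]

lemma VLM_sum_le {w : ℕ → ℝ} (hw : SVW w) (ε : ℝ) (x n K : ℕ) : ∑ k ∈ Finset.range K, VLM_P w ε x n k ≤ 1 := by
  rw [VLM_sum]
  exact Ex_le_const (prob_pw hw) fun S _ => by split_ifs <;> norm_num

lemma VLM_sum_ge {w : ℕ → ℝ} (hw : SVW w) (ε : ℝ) (x n K : ℕ) (hK : 1 ≤ K) :
    1 - HH (pw w) (UU ε x) (R0 ε x) (GG x) n / K ≤ ∑ k ∈ Finset.range K, VLM_P w ε x n k := by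
  rw [VLM_sum]
  have hK0 : (0 : ℝ) < K := by exact_mod_cast hK
  have e : 1 - HH (pw w) (UU ε x) (R0 ε x) (GG x) n / K =
      Ex (pw w) (UU ε x) (fun S => 1 - (1 / (K : ℝ)) * (cnt (R0 ε x) (GG x) S n : ℝ)) := by
    rw [Ex_sub, Ex_const, Ex_const_mul]
    unfold HH
    ring
  rw [e]
  refine Ex_mono (prob_pw hw) fun S _ => ?_
  split_ifs with h
  · have : 0 ≤ (1 / (K : ℝ)) * (cnt (R0 ε x) (GG x) S n : ℝ) := by positivity
    linarith
  · have h' : (K : ℝ) ≤ (cnt (R0 ε x) (GG x) S n : ℝ) := by exact_mod_cast not_lt.1 h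
    have : 1 ≤ (1 / (K : ℝ)) * (cnt (R0 ε x) (GG x) S n : ℝ) := by
      rw [one_div, inv_mul_eq_div, one_le_div hK0]
      exact h'
    linarith

theorem p_VLM (h1 : Stmt_VHM) (h2 : Stmt_VCO) (h4 : Stmt_MEC) (h5 : Stmt_POI)
    (h6 : Stmt_VUP) : Stmt_VLM := by
  intro w hw ε hε hε4
  have hlam := VLM_lam_pos hε hε4
  refine h5 (VLM_A w ε) (lam ε) (lam ε + 1) hlam ?_ ?_ ?_ ?_
  · intro k x
    unfold VLM_A
    exact div_nonneg (Finset.sum_nonneg fun n _ => Pb_nonneg (prob_pw hw) _ _) (Nat.cast_nonneg _)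
  · filter_upwards [eventually_ge_atTop 1] with x hx K
    have hx0 : (0 : ℝ) < x := by exact_mod_cast hx
    unfold VLM_A
    rw [← Finset.sum_div, div_le_one hx0, Finset.sum_comm]
    calc ∑ n ∈ Finset.Icc 1 x, ∑ k ∈ Finset.range K, VLM_P w ε x n k
        ≤ ∑ n ∈ Finset.Icc 1 x, (1 : ℝ) := Finset.sum_le_sum fun n _ => VLM_sum_le hw ε x n K
      _ = x := by simp
  · filter_upwards [eventually_ge_atTop 1, h6 w hw ε 1 hε hε4 one_pos] with x hx hU K hK
    have hx0 : (0 : ℝ) < x := by exact_mod_cast hx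
    have hK0 : (0 : ℝ) < K := by exact_mod_cast hK
    unfold VLM_A
    rw [← Finset.sum_div, le_div_iff₀ hx0, Finset.sum_comm]
    calc (1 - (lam ε + 1) / K) * x = x - (lam ε + 1) * x / K := by ring
      _ ≤ x - (∑ n ∈ Finset.Icc 1 x, HH (pw w) (UU ε x) (R0 ε x) (GG x) n) / K := by
          have := div_le_div_of_nonneg_right hU hK0.le
          linarith
      _ = ∑ n ∈ Finset.Icc 1 x, (1 - HH (pw w) (UU ε x) (R0 ε x) (GG x) n / K) := by
          rw [Finset.sum_sub_distrib, Finset.sum_div]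
          simp
      _ ≤ ∑ n ∈ Finset.Icc 1 x, ∑ k ∈ Finset.range K, VLM_P w ε x n k :=
          Finset.sum_le_sum fun n _ => VLM_sum_ge hw ε x n K hK
  · intro k
    rw [Metric.tendsto_nhds]
    intro η hη
    filter_upwards [eventually_ge_atTop 1, h1 w hw ε (η / 4) hε hε4 (by linarith),
      h2 w hw ε (η / 4) hε hε4 (by linarith)] with x hx a1 a2
    have hx0 : (0 : ℝ) < x := by exact_mod_cast hx
    rw [Real.dist_eq, sub_zero]
    have e : ((k : ℝ) + 1) * VLM_A w ε (k + 1) x - lam ε * VLM_A w ε k x =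
        (∑ n ∈ Finset.Icc 1 x, (((k : ℝ) + 1) * VLM_P w ε x n (k + 1) - lam ε * VLM_P w ε x n k)) / x := by
      unfold VLM_A
      rw [Finset.sum_sub_distrib, ← Finset.mul_sum, ← Finset.mul_sum]
      ring
    rw [e, abs_div, abs_of_pos hx0, div_lt_iff₀ hx0]
    have hP : ∀ n, |VLM_P w ε x n k| ≤ 1 := by
      intro n
      unfold VLM_P
      rw [abs_of_nonneg (Pb_nonneg (prob_pw hw) _ _)]
      exact Pb_le_one (prob_pw hw) _ _
    calc |∑ n ∈ Finset.Icc 1 x, (((k : ℝ) + 1) * VLM_P w ε x n (k + 1) - lam ε * VLM_P w ε x n k)|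
        ≤ ∑ n ∈ Finset.Icc 1 x, |((k : ℝ) + 1) * VLM_P w ε x n (k + 1) - lam ε * VLM_P w ε x n k| :=
          Finset.abs_sum_le_sum_abs _ _
      _ ≤ ∑ n ∈ Finset.Icc 1 x, ((T1 (pw w) (UU ε x) (R0 ε x) (GG x) n + T2 (pw w) (UU ε x) (R0 ε x) (GG x) n) +
          |HH (pw w) (UU ε x) (R0 ε x) (GG x) n - lam ε|) := by
          refine Finset.sum_le_sum fun n _ => ?_
          have m1 := h4 (pw w) (prob_pw hw) (UU ε x) (R0 ε x) (GG x) n k
          have e2 : ((k : ℝ) + 1) * VLM_P w ε x n (k + 1) - lam ε * VLM_P w ε x n k =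
              (((k : ℝ) + 1) * VLM_P w ε x n (k + 1) - HH (pw w) (UU ε x) (R0 ε x) (GG x) n * VLM_P w ε x n k) +
              (HH (pw w) (UU ε x) (R0 ε x) (GG x) n - lam ε) * VLM_P w ε x n k := by ring
          rw [e2]
          refine (abs_add_le _ _).trans (add_le_add m1 ?_)
          rw [abs_mul]
          calc |HH (pw w) (UU ε x) (R0 ε x) (GG x) n - lam ε| * |VLM_P w ε x n k|
              ≤ |HH (pw w) (UU ε x) (R0 ε x) (GG x) n - lam ε| * 1 :=
                mul_le_mul_of_nonneg_left (hP n) (abs_nonneg _)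
            _ = _ := mul_one _
      _ = ∑ n ∈ Finset.Icc 1 x, (T1 (pw w) (UU ε x) (R0 ε x) (GG x) n +
            T2 (pw w) (UU ε x) (R0 ε x) (GG x) n) +
          ∑ n ∈ Finset.Icc 1 x, |HH (pw w) (UU ε x) (R0 ε x) (GG x) n - lam ε| := by
          rw [Finset.sum_add_distrib]
      _ ≤ η / 4 * x + η / 4 * x := add_le_add a2 a1
      _ < η * x := by nlinarith

end Pool.Agent.Work.MP_7d0410_sp
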