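import Pool.Agent.Work.MP_7d0410_sv.Interface

/-!
# Block VLO: lower bound for the mean value, on average (helper53)
-/

set_option autoImplicit false

namespace Pool.Agent.Work.MP_7d0410_sp

open Finset Filter MeasureTheory ProbabilityTheory
open Pool.Agent.Work.MP_7d0410_cr
open scoped Classical Topology

lemma VLO_lam {ε : ℝ} (h0 : 0 < ε) (h1 : ε < 1 / 4) : lam ε ≤ 7 / 10 := by
  unfold lam
  have h2 : (1 - ε) / (1 / 2 + ε) ≤ 2 := by
    rw [div_le_iff₀ (by linarith)]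
    linarith
  have h3 : 0 < (1 - ε) / (1 / 2 + ε) := div_pos (by linarith) (by linarith)
  have h4 := Real.log_le_log h3 h2
  have h5 := Real.log_two_lt_d9
  linarith

lemma VLO_int {x : ℕ} (hx : 1 ≤ x) {g : ℝ → ℝ} (hg0 : ∀ ν, 0 ≤ g ν)
    (hg : IntervalIntegrable g volume 1 (4 * x)) {I : Finset ℕ} (hI : I ⊆ Finset.Icc 1 x) :
    ∑ n ∈ I, ∫ ν in (n : ℝ)..(n + 1 / 4), g ν ≤ ∫ ν in (1 : ℝ)..(4 * x), g ν := by
  have hx1 : (1 : ℝ) ≤ x := by exact_mod_cast hx
  have hsub : ∀ a b : ℝ, 1 ≤ a → a ≤ b → b ≤ 4 * x → IntervalIntegrable g volume a b := by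
    intro a b h1 h2 h3
    refine hg.mono_set ?_
    rw [Set.uIcc_of_le h2, Set.uIcc_of_le (by linarith)]
    exact Set.Icc_subset_Icc h1 h3
  have h1 : ∀ n ∈ I, ∫ ν in (n : ℝ)..(n + 1 / 4), g ν ≤ ∫ ν in (n : ℝ)..((n + 1 : ℕ) : ℝ), g ν := by
    intro n hn
    obtain ⟨h2, h3⟩ := Finset.mem_Icc.1 (hI hn)
    have h2' : (1 : ℝ) ≤ n := by exact_mod_cast h2
    have h3' : (n : ℝ) ≤ x := by exact_mod_cast h3
    have e1 : ((n + 1 : ℕ) : ℝ) = n + 1 := by push_cast; ring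
    rw [e1]
    exact intervalIntegral.integral_mono_interval le_rfl (by linarith) (by linarith)
      (Filter.Eventually.of_forall fun ν => hg0 ν) (hsub n (n + 1) h2' (by linarith) (by linarith))
  have h2 : ∀ n ∈ Finset.Icc 1 x, 0 ≤ ∫ ν in (n : ℝ)..((n + 1 : ℕ) : ℝ), g ν := by
    intro n _
    refine intervalIntegral.integral_nonneg ?_ fun ν _ => hg0 ν
    push_cast
    linarith
  have e3 : Finset.Icc 1 x = Finset.Ico 1 (x + 1) := by
    ext n
    rw [Finset.mem_Icc, Finset.mem_Ico]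
    omega
  have h3 : ∑ n ∈ Finset.Icc 1 x, ∫ ν in (n : ℝ)..((n + 1 : ℕ) : ℝ), g ν =
      ∫ ν in ((1 : ℕ) : ℝ)..((x + 1 : ℕ) : ℝ), g ν := by
    rw [e3]
    refine intervalIntegral.sum_integral_adjacent_intervals_Ico (a := fun k : ℕ => (k : ℝ))
      (by omega) ?_
    intro k hk
    obtain ⟨k1, k2⟩ := hk
    have k1' : (1 : ℝ) ≤ k := by exact_mod_cast k1
    have k2' : (k : ℝ) ≤ x := by
      have : k ≤ x := by omega
      exact_mod_cast this
    refine hsub _ _ k1' ?_ ?_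
    · push_cast
      linarith
    · push_cast
      linarith
  calc ∑ n ∈ I, ∫ ν in (n : ℝ)..(n + 1 / 4), g ν ≤
        ∑ n ∈ I, ∫ ν in (n : ℝ)..((n + 1 : ℕ) : ℝ), g ν := Finset.sum_le_sum h1
    _ ≤ ∑ n ∈ Finset.Icc 1 x, ∫ ν in (n : ℝ)..((n + 1 : ℕ) : ℝ), g ν :=
        Finset.sum_le_sum_of_subset_of_nonneg hI fun n hn _ => h2 n hn
    _ = ∫ ν in (1 : ℝ)..((x + 1 : ℕ) : ℝ), g ν := by rw [h3, Nat.cast_one]
    _ ≤ ∫ ν in (1 : ℝ)..(4 * x), g ν := by
        refine intervalIntegral.integral_mono_interval le_rfl ?_ ?_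
          (Filter.Eventually.of_forall fun ν => hg0 ν) hg
        · push_cast
          linarith
        · push_cast
          linarith

/-- taking the mean value over an interval of length `1/4` -/
lemma VLO_mean {J : ℕ} {g : ℕ → ℝ → ℝ} {a A : ℝ}
    (hg : ∀ j < J, IntervalIntegrable (g j) volume a (a + 1 / 4))
    (hA : ∀ ν : ℝ, a ≤ ν → ν ≤ a + 1 / 4 → A ≤ ∑ j ∈ Finset.range J, g j ν) :
    A ≤ 4 * ∑ j ∈ Finset.range J, ∫ ν in a..(a + 1 / 4), g j ν := by
  rw [← intervalIntegral.integral_finsetSum (fun j hj => hg j (Finset.mem_range.1 hj))]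
  have h1 : ∫ _ in a..(a + 1 / 4), A ≤ ∫ ν in a..(a + 1 / 4), ∑ j ∈ Finset.range J, g j ν := by
    refine intervalIntegral.integral_mono_on (by linarith) intervalIntegrable_const ?_ ?_
    · have h2 := IntervalIntegrable.sum (μ := volume) (a := a) (b := a + 1 / 4)
        (Finset.range J) (f := g) (fun j hj => hg j (Finset.mem_range.1 hj))
      have h3 : (∑ j ∈ Finset.range J, g j) = fun s => ∑ j ∈ Finset.range J, g j s := by
        funext s
        rw [Finset.sum_apply]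
      rw [h3] at h2
      exact h2
    · intro ν hν
      exact hA ν hν.1 hν.2
  rw [intervalIntegral.integral_const, smul_eq_mul] at h1
  linarith

theorem p_VLO : Stmt_VLA → Stmt_VNC → Stmt_VEB → Stmt_VFB → Stmt_VLO := by
  intro hVLA hVNC hVEB hVFB w hw ε η hε hε4 hη
  obtain ⟨δ, hδd⟩ : ∃ δ : ℝ, δ = min (η / 100) (1 / 10) := ⟨_, rfl⟩
  have hδ : 0 < δ := by
    rw [hδd]
    exact lt_min (by linarith) (by norm_num)
  have hδ1 : δ ≤ 1 / 10 := by
    rw [hδd]
    exact min_le_right _ _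
  have hδη : δ ≤ η / 100 := by
    rw [hδd]
    exact min_le_left _ _
  obtain ⟨C, hC, hA⟩ := hVLA w hw ε δ hε hε4 hδ hδ1
  have hlog : ∀ᶠ x : ℕ in atTop, max 1 (10 / η) ≤ Real.log x :=
    (Real.tendsto_log_atTop.comp tendsto_natCast_atTop_atTop).eventually_ge_atTop _
  filter_upwards [hA, hVEB w hw ε δ C (η / 10) hε hε4 hδ hδ1 hC (by linarith),
    hVFB w hw ε δ (η / 100) hε hε4 hδ hδ1 (by linarith), hlog, eventually_ge_atTop 1] with x hA hEB
    hFB hl hx1
  obtain ⟨hFi, hFs⟩ := hFB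
  have hl1 : 1 ≤ Real.log x := (le_max_left _ _).trans hl
  have hl2 : 10 / η ≤ Real.log x := (le_max_right _ _).trans hl
  have hp : Prob (pw w) := prob_pw hw
  have hx1' : (1 : ℝ) ≤ x := by exact_mod_cast hx1
  have hx0' : (0 : ℝ) < x := by linarith
  have hH0 : ∀ n, 0 ≤ HH (pw w) (UU ε x) (R0 ε x) (GG x) n := fun n =>
    Ex_nonneg hp fun S _ => Nat.cast_nonneg _
  have hN0 : ∀ n, 0 ≤ NG (pw w) (UU ε x) (GG x) n := fun n => NG_nonneg hp _ _ _
  have hE0 : ∀ n, 0 ≤ ∑ j ∈ Finset.range (JB ε δ x),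
      ∑ r ∈ Finset.Ioc (RB ε δ x j) (RB ε δ x (j + 1)),
      C / (RB ε δ x j * Real.log x) * EP w δ ε x r n := by
    intro n
    refine Finset.sum_nonneg fun j _ => Finset.sum_nonneg fun r _ => ?_
    have h2 := EP_nonneg hw δ ε x r n
    positivity
  -- the good `n`
  have key : ∀ n ∈ (Finset.Icc 1 x).filter (fun n : ℕ => (x : ℝ) ≤ n * Real.log x),
      max (lam ε - HH (pw w) (UU ε x) (R0 ε x) (GG x) n) 0 ≤
      10 * δ + NG (pw w) (UU ε x) (GG x) n + (∑ j ∈ Finset.range (JB ε δ x),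
        ∑ r ∈ Finset.Ioc (RB ε δ x j) (RB ε δ x (j + 1)),
        C / (RB ε δ x j * Real.log x) * EP w δ ε x r n) +
      4 * ∑ j ∈ Finset.range (JB ε δ x), ∫ ν in (n : ℝ)..(n + 1 / 4),
        |FJ w δ ε x (RB ε δ x j) (RB ε δ x (j + 1)) ν| := by
    intro n hn
    obtain ⟨hn1, hn2⟩ := Finset.mem_filter.1 hn
    obtain ⟨hn3, hn4⟩ := Finset.mem_Icc.1 hn1
    have hn3' : (1 : ℝ) ≤ n := by exact_mod_cast hn3
    have hn4' : (n : ℝ) ≤ x := by exact_mod_cast hn4
    have h1 := VLO_mean (J := JB ε δ x)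
      (g := fun j ν => |FJ w δ ε x (RB ε δ x j) (RB ε δ x (j + 1)) ν|) (a := n)
      (A := max (lam ε - HH (pw w) (UU ε x) (R0 ε x) (GG x) n) 0 -
        (10 * δ + NG (pw w) (UU ε x) (GG x) n + (∑ j ∈ Finset.range (JB ε δ x),
        ∑ r ∈ Finset.Ioc (RB ε δ x j) (RB ε δ x (j + 1)),
        C / (RB ε δ x j * Real.log x) * EP w δ ε x r n))) ?_ ?_
    · linarith
    · intro j hj
      refine (hFi j (Finset.mem_range.2 hj)).mono_set ?_
      rw [Set.uIcc_of_le (by linarith), Set.uIcc_of_le (by linarith)]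
      exact Set.Icc_subset_Icc hn3' (by linarith)
    · intro ν hν1 hν2
      have h2 := hA n (ν - n) hn2 hn4 (by linarith) (by linarith)
      have e1 : (n : ℝ) + (ν - n) = ν := by ring
      rw [e1] at h2
      have h3 : 0 ≤ ∑ j ∈ Finset.range (JB ε δ x),
          |FJ w δ ε x (RB ε δ x j) (RB ε δ x (j + 1)) ν| :=
        Finset.sum_nonneg fun j _ => abs_nonneg _
      have h4 := hN0 n
      have h5 := hE0 n
      rw [sub_le_iff_le_add]
      refine max_le ?_ ?_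
      · linarith
      · linarith
  have s1 := Finset.sum_le_sum key
  have s0 : ∑ n ∈ (Finset.Icc 1 x).filter (fun n : ℕ => (x : ℝ) ≤ n * Real.log x),
      4 * ∑ j ∈ Finset.range (JB ε δ x), ∫ ν in (n : ℝ)..(n + 1 / 4),
        |FJ w δ ε x (RB ε δ x j) (RB ε δ x (j + 1)) ν| =
      4 * ∑ j ∈ Finset.range (JB ε δ x),
        ∑ n ∈ (Finset.Icc 1 x).filter (fun n : ℕ => (x : ℝ) ≤ n * Real.log x),
        ∫ ν in (n : ℝ)..(n + 1 / 4), |FJ w δ ε x (RB ε δ x j) (RB ε δ x (j + 1)) ν| := by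
    rw [← Finset.mul_sum, Finset.sum_comm]
  rw [Finset.sum_add_distrib, Finset.sum_add_distrib, Finset.sum_add_distrib, s0] at s1
  have s2 : ∑ n ∈ (Finset.Icc 1 x).filter (fun n : ℕ => (x : ℝ) ≤ n * Real.log x), 10 * δ ≤
      η / 10 * x := by
    rw [Finset.sum_const, nsmul_eq_mul]
    have h1 : ((((Finset.Icc 1 x).filter (fun n : ℕ => (x : ℝ) ≤ n * Real.log x)).card : ℕ) : ℝ) ≤
        x := by
      have h2 := Finset.card_filter_le (Finset.Icc 1 x) (fun n : ℕ => (x : ℝ) ≤ n * Real.log x)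
      rw [Nat.card_Icc, Nat.add_sub_cancel] at h2
      exact_mod_cast h2
    have h2 : (0 : ℝ) ≤ (((Finset.Icc 1 x).filter (fun n : ℕ => (x : ℝ) ≤ n * Real.log x)).card : ℕ) :=
      Nat.cast_nonneg _
    calc _ ≤ (x : ℝ) * (10 * δ) := mul_le_mul_of_nonneg_right h1 (by linarith)
      _ ≤ η / 10 * x := by nlinarith
  have s3 : ∑ n ∈ (Finset.Icc 1 x).filter (fun n : ℕ => (x : ℝ) ≤ n * Real.log x),
      NG (pw w) (UU ε x) (GG x) n ≤ η / 10 * x := by
    have hG : 40 * (Real.log x) ^ 2 ≤ (GG x : ℝ) := Nat.le_ceil _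
    have hG1 : 1 ≤ GG x := by
      have h1 : (1 : ℝ) ≤ GG x := by nlinarith
      exact_mod_cast h1
    have hU : ∀ m ∈ UU ε x, 1 ≤ m := by
      intro m hm
      have h1 := (Finset.mem_Icc.1 hm).1
      have h2 : 1 ≤ a0 ε x := by
        unfold a0
        rw [Nat.one_le_ceil_iff]
        positivity
      omega
    have h1 := hVNC (pw w) hp (UU ε x) (GG x) x hU hG1 hx1
    have h2 : ∑ n ∈ (Finset.Icc 1 x).filter (fun n : ℕ => (x : ℝ) ≤ n * Real.log x),
        NG (pw w) (UU ε x) (GG x) n ≤ ∑ n ∈ Finset.Icc 1 x, NG (pw w) (UU ε x) (GG x) n :=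
      Finset.sum_le_sum_of_subset_of_nonneg (Finset.filter_subset _ _) fun n _ _ => hN0 n
    refine h2.trans (h1.trans ?_)
    rw [div_le_iff₀ (by linarith [sq_nonneg (Real.log x), (show (1 : ℝ) ≤ GG x by exact_mod_cast hG1)])]
    have h3 : 10 ≤ η * Real.log x := by
      rw [div_le_iff₀ hη] at hl2
      linarith
    have h4 : (1 + Real.log x) ≤ η / 10 * (40 * (Real.log x) ^ 2) := by nlinarith
    have h5 : η / 10 * (40 * (Real.log x) ^ 2) ≤ η / 10 * GG x :=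
      mul_le_mul_of_nonneg_left hG (by linarith)
    have h6 := mul_le_mul_of_nonneg_left (h4.trans h5) hx0'.le
    linarith
  have s4 : ∑ j ∈ Finset.range (JB ε δ x),
      ∑ n ∈ (Finset.Icc 1 x).filter (fun n : ℕ => (x : ℝ) ≤ n * Real.log x),
      ∫ ν in (n : ℝ)..(n + 1 / 4), |FJ w δ ε x (RB ε δ x j) (RB ε δ x (j + 1)) ν| ≤
      η / 100 * x := by
    refine le_trans (Finset.sum_le_sum fun j hj => ?_) hFs
    exact VLO_int hx1 (fun ν => abs_nonneg _) (hFi j hj) (Finset.filter_subset _ _)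
  -- the other `n`
  have s5 : ∑ n ∈ (Finset.Icc 1 x).filter (fun n : ℕ => ¬ (x : ℝ) ≤ n * Real.log x),
      max (lam ε - HH (pw w) (UU ε x) (R0 ε x) (GG x) n) 0 ≤ η / 10 * x := by
    have h1 : ∀ n ∈ (Finset.Icc 1 x).filter (fun n : ℕ => ¬ (x : ℝ) ≤ n * Real.log x),
        max (lam ε - HH (pw w) (UU ε x) (R0 ε x) (GG x) n) 0 ≤ 1 := by
      intro n _
      refine max_le ?_ zero_le_one
      have := VLO_lam hε hε4
      have := hH0 n
      linarith
    have h2 := Finset.sum_le_sum h1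
    rw [Finset.sum_const, nsmul_eq_mul, mul_one] at h2
    refine h2.trans ?_
    have h3 : (Finset.Icc 1 x).filter (fun n : ℕ => ¬ (x : ℝ) ≤ n * Real.log x) ⊆
        Finset.Icc 1 ⌊(x : ℝ) / Real.log x⌋₊ := by
      intro n hn
      obtain ⟨h4, h5⟩ := Finset.mem_filter.1 hn
      push Not at h5
      refine Finset.mem_Icc.2 ⟨(Finset.mem_Icc.1 h4).1, Nat.le_floor ?_⟩
      rw [le_div_iff₀ (by linarith)]
      exact h5.le
    have h4 := Finset.card_le_card h3
    rw [Nat.card_Icc, Nat.add_sub_cancel] at h4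
    have h5 : ((((Finset.Icc 1 x).filter
        (fun n : ℕ => ¬ (x : ℝ) ≤ n * Real.log x)).card : ℕ) : ℝ) ≤ (x : ℝ) / Real.log x :=
      le_trans (by exact_mod_cast h4) (Nat.floor_le (by positivity))
    refine h5.trans ?_
    rw [div_le_iff₀ (by linarith)]
    have h6 : 10 ≤ η * Real.log x := by
      rw [div_le_iff₀ hη] at hl2
      linarith
    nlinarith
  rw [← Finset.sum_filter_add_sum_filter_not (Finset.Icc 1 x)
    (fun n : ℕ => (x : ℝ) ≤ n * Real.log x)]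
  nlinarith

end Pool.Agent.Work.MP_7d0410_sp
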