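import Pool.Agent.Work.MP_7d0410_sv.Interface

/-! # VLR: the lower bound for one length -/

set_option autoImplicit false

namespace Pool.Agent.Work.MP_7d0410_sp

open Finset Filter MeasureTheory ProbabilityTheory
open Pool.Agent.Work.MP_7d0410_cr
open scoped Classical Topology

/-- an interval integral of a function at most `K` on `[0, 1/a]`, multiplied by `a` -/
lemma VLR_int {a K : ℝ} {g : ℝ → ℝ} (ha : 0 < a) (hK : 0 ≤ K)
    (h : ∀ s ∈ Set.Icc (0 : ℝ) (1 / a), g s ≤ K) : a * ∫ s in (0 : ℝ)..(1 / a), g s ≤ K := by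
  have ha' : (0 : ℝ) ≤ 1 / a := by positivity
  by_cases hi : IntervalIntegrable g volume 0 (1 / a)
  · have h1 : ∫ s in (0 : ℝ)..(1 / a), g s ≤ ∫ _ in (0 : ℝ)..(1 / a), K :=
      intervalIntegral.integral_mono_on ha' hi intervalIntegrable_const h
    rw [intervalIntegral.integral_const, sub_zero, smul_eq_mul] at h1
    calc a * ∫ s in (0 : ℝ)..(1 / a), g s ≤ a * (1 / a * K) := mul_le_mul_of_nonneg_left h1 ha.le
      _ = K := by field_simp
  · rw [intervalIntegral.integral_undef hi, mul_zero]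
    exact hK

theorem p_VLR (hNS : Stmt_VNS) (hHL : Stmt_VHL) : Stmt_VLR := by
  intro w hw ε δ hε hε4 hδ hδ1
  obtain ⟨C, hC, hN⟩ := hNS w hw ε δ hε hε4 hδ (by linarith)
  refine ⟨C, hC, ?_⟩
  filter_upwards [hN, hHL w hw ε δ hε hε4 hδ (by linarith), eventually_ge_atTop 1]
    with x hN hH hx R R' r n θ h1 h2 h3 h4 h5 h6 h7 h8
  have hx0 : (0 : ℝ) < x := by exact_mod_cast hx
  have hr : (r : ℝ) ≤ (x : ℝ) ^ (1 / 2 : ℝ) := le_trans (by exact_mod_cast h3) h5
  have hH' := hH r n (by omega) hr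
  set E : ℝ := Ex (pw w) (UU ε x) (fun S => if TY w δ ε x S then gR S r n else 0) with hE
  have hE0 : 0 ≤ E := Ex_nonneg (prob_pw hw) fun S _ => by
    split_ifs
    · exact gR_nonneg S r n
    · exact le_rfl
  have hc : 0 ≤ C / (R * Real.log x) :=
    div_nonneg hC.le (mul_nonneg (Nat.cast_nonneg _) (Real.log_natCast_nonneg x))
  have hEP := EP_nonneg hw δ ε x r n
  have hfj : ∀ s ∈ Set.Icc (0 : ℝ) (1 / (8 * x)),
      fj w δ ε x R' ((n + θ) / r * Real.exp (-s)) ≤ E + C / (R * Real.log x) * EP w δ ε x r n := by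
    intro s hs
    have h9 : E + C / (R * Real.log x) * EP w δ ε x r n = Ex (pw w) (UU ε x) (fun S =>
        (if TY w δ ε x S then gR S r n else 0) +
          C / (R * Real.log x) * (if TY w δ ε x S ∧ ¬ PT S r n then 1 else 0)) := by
      rw [Ex_add, Ex_const_mul]
      congr 2
      unfold EP
      rw [Pb_eq]
    rw [h9]
    refine Ex_mono (prob_pw hw) fun S hS => ?_
    by_cases hT : TY w δ ε x S
    · simp only [if_pos hT, hT, true_and]
      have h10 := hN S R R' r n (n + θ) s hT h1 h2 h3 h4 h6 (by linarith) (by linarith) hs.1 hs.2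
      refine h10.trans ?_
      by_cases hP : PT S r n
      · simp [hP]
      · simp [hP]
    · simp [hT]
  have hSM : SM x (fj w δ ε x R') ((n + θ) / r) ≤ E + C / (R * Real.log x) * EP w δ ε x r n := by
    unfold SM
    exact VLR_int (by positivity) (by positivity) hfj
  have hd : 0 ≤ 1 - 3 * δ := by linarith
  calc (1 - 3 * δ) * (SM x (fj w δ ε x R') ((n + θ) / r) - C / (R * Real.log x) * EP w δ ε x r n)
      ≤ (1 - 3 * δ) * E := mul_le_mul_of_nonneg_left (by linarith) hd
    _ ≤ _ := hH'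

end Pool.Agent.Work.MP_7d0410_sp
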