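import Pool.Agent.Work.MP_7d0410_sv.Interface

/-! # VLS: the runs of given lengths -/

set_option autoImplicit false

namespace Pool.Agent.Work.MP_7d0410_sp

open Finset Filter MeasureTheory ProbabilityTheory
open Pool.Agent.Work.MP_7d0410_cr
open scoped Classical Topology

theorem p_VLS : Stmt_VLS := by
  intro p hp U R G n I hI
  unfold HH NG
  rw [← Ex_sum, ← Ex_add]
  refine Ex_mono hp fun S _ => ?_
  have h1 : ∑ r ∈ I, (rr S r n).card ≤ cnt R G S n +
      ((runs S).filter (fun q => sm S q = n ∧ q.1 + G * len S q < q.2)).card := by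
    have h : (I.biUnion (fun r => rr S r n)).card = ∑ r ∈ I, (rr S r n).card := by
      refine Finset.card_biUnion fun r _ r' _ hne => ?_
      refine Finset.disjoint_left.2 ?_
      intro q hq hq'
      exact hne ((mem_rr.1 hq).2.1.symm.trans (mem_rr.1 hq').2.1)
    rw [← h]
    unfold cnt
    refine le_trans (Finset.card_le_card ?_) (Finset.card_union_le _ _)
    intro q hq
    obtain ⟨r, hr, hq⟩ := Finset.mem_biUnion.1 hq
    obtain ⟨h2, h3, h4⟩ := mem_rr.1 hq
    rw [Finset.mem_union]
    by_cases h5 : q.2 ≤ q.1 + G * len S q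
    · left
      exact mem_gr.2 ⟨mem_good.2 ⟨h2, by rw [h3]; exact hI r hr, h5⟩, h4⟩
    · right
      exact Finset.mem_filter.2 ⟨h2, h4, by omega⟩
  exact_mod_cast h1

end Pool.Agent.Work.MP_7d0410_sp
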