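import Pool.Agent.Work.MP_7d0410_sv.Interface
import Pool.Agent.Work.MP_7d0410_sp.B_LAW

/-! # Block VLW: the law of the random set -/

set_option autoImplicit false

namespace Pool.Agent.Work.MP_7d0410_sp

open Finset Filter MeasureTheory ProbabilityTheory
open Pool.Agent.Work.MP_7d0410_cr
open scoped Classical Topology

theorem p_VLW.{u} : Stmt_VLW.{u} := by
  intro Ω _ μ _ E w hw hE U hU A
  have hmE : ∀ p, MeasurableSet (LAW_E E p) := by
    intro p
    unfold LAW_E
    split_ifs
    · exact MeasurableSet.univ
    · exact hE.meas p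
  have hfil : ∀ ω, U.filter (fun m => m ∈ primesPlus E ω) =
      U.filter (fun m => ω ∈ LAW_E E m) := by
    intro ω
    refine Finset.filter_congr fun m hm => ?_
    have := hU m hm
    show (m.Prime ∨ (2 ≤ m ∧ ω ∈ E m)) ↔ ω ∈ LAW_E E m
    unfold LAW_E
    split_ifs with hp
    · exact ⟨fun _ => Set.mem_univ _, fun _ => Or.inl hp⟩
    · constructor
      · rintro (h | h)
        · exact absurd h hp
        · exact h.2
      · intro h
        exact Or.inr ⟨this, h⟩
  -- the atoms
  have hset : ∀ M ⊆ U, {ω | U.filter (fun m => ω ∈ LAW_E E m) = M} =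
      ⋂ p ∈ U, LAW_ev E M p := by
    intro M hM
    ext ω
    simp only [Set.mem_ofPred_eq, Set.mem_iInter]
    constructor
    · intro h p hp
      unfold LAW_ev
      split_ifs with hpM
      · rw [← h] at hpM
        exact (Finset.mem_filter.1 hpM).2
      · intro hω
        exact hpM (h ▸ Finset.mem_filter.2 ⟨hp, hω⟩)
    · intro h
      ext p
      rw [Finset.mem_filter]
      constructor
      · rintro ⟨hp, hω⟩
        by_contra hpM
        have := h p hp
        rw [LAW_ev, if_neg hpM] at this
        exact this hω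
      · intro hp
        have := h p (hM hp)
        rw [LAW_ev, if_pos hp] at this
        exact ⟨hM hp, this⟩
  have hms : ∀ M ⊆ U, MeasurableSet {ω | U.filter (fun m => ω ∈ LAW_E E m) = M} := by
    intro M hM
    rw [hset M hM]
    refine Finset.measurableSet_biInter _ (fun p _ => ?_)
    unfold LAW_ev
    split_ifs
    · exact hmE p
    · exact (hmE p).compl
  have hμ : ∀ M ⊆ U, μ.real {ω | U.filter (fun m => ω ∈ LAW_E E m) = M} = wt (pw w) U M := by
    intro M hM
    rw [hset M hM, LAW_inter μ E hE.indep]
    have hp : ∀ p ∈ U, μ.real (LAW_E E p) = pw w p := by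
      intro p hp
      have h3 := hU p hp
      unfold LAW_E
      split_ifs with hpp
      · rw [pw_prime hpp, probReal_univ]
      · rw [pw_not_prime hpp, Measure.real, hE.prob p h3, ENNReal.toReal_ofReal]
        exact (hw.pos p).le
    unfold wt
    rw [← Finset.prod_sdiff hM, mul_comm]
    congr 1
    · refine Finset.prod_congr rfl fun p hp' => ?_
      rw [LAW_ev, if_pos hp', hp p (hM hp')]
    · refine Finset.prod_congr rfl fun p hp' => ?_
      have hp'' := Finset.mem_sdiff.1 hp'
      rw [LAW_ev, if_neg hp''.2, probReal_compl_eq_one_sub (hmE p), hp p hp''.1]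
  have hdec : {ω | A (U.filter (fun m => m ∈ primesPlus E ω))} =
      ⋃ M ∈ U.powerset.filter A, {ω | U.filter (fun m => ω ∈ LAW_E E m) = M} := by
    ext ω
    simp only [Set.mem_ofPred_eq, Set.mem_iUnion, hfil]
    constructor
    · intro h
      exact ⟨_, Finset.mem_filter.2 ⟨Finset.mem_powerset.2 (Finset.filter_subset _ _), h⟩, rfl⟩
    · rintro ⟨M, hM, h⟩
      rw [h]
      exact (Finset.mem_filter.1 hM).2
  have hsub : ∀ M ∈ U.powerset.filter A, M ⊆ U := fun M hM =>
    Finset.mem_powerset.1 (Finset.mem_filter.1 hM).1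
  rw [hdec]
  refine ⟨Finset.measurableSet_biUnion _ fun M hM => hms M (hsub M hM), ?_⟩
  rw [measureReal_biUnion_finset]
  · rw [Finset.sum_congr rfl fun M hM => hμ M (hsub M hM)]
    unfold Pb Ex
    rw [Finset.sum_filter]
    exact Finset.sum_congr rfl fun M _ => by
      by_cases h : A M <;> simp [h]
  · intro M _ M' _ hne
    exact Set.disjoint_left.2 fun ω h1 h2 => hne (h1.symm.trans h2)
  · exact fun M hM => hms M (hsub M hM)

end Pool.Agent.Work.MP_7d0410_sp
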