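import Pool.Agent.Work.MP_7d0410_sv.Interface
import Pool.Agent.Work.MP_b0c12c_nt_helper41.Mert

/-! # Block VMS (helper40): the sum over the blocks -/

set_option autoImplicit false

namespace Pool.Agent.Work.MP_7d0410_sp

open Finset Filter MeasureTheory ProbabilityTheory
open Pool.Agent.Work.MP_7d0410_cr
open scoped Classical Topology

lemma VMS_split (x : ℕ) (α β γ : ℝ) (hα : 0 < α) :
    PW x γ β ≤ PW x γ α + PW x α β + 1 / α := by
  unfold PW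
  obtain ⟨B, hB⟩ : ∃ B : Finset ℕ, B = (Finset.Icc 1 (2 * x)).filter
    (fun s : ℕ => s.Prime ∧ γ < (s : ℝ) ∧ (s : ℝ) < α) := ⟨_, rfl⟩
  obtain ⟨C, hC⟩ : ∃ C : Finset ℕ, C = (Finset.Icc 1 (2 * x)).filter
    (fun s : ℕ => s.Prime ∧ α < (s : ℝ) ∧ (s : ℝ) < β) := ⟨_, rfl⟩
  obtain ⟨D, hD⟩ : ∃ D : Finset ℕ, D = (Finset.Icc 1 (2 * x)).filter
    (fun s : ℕ => (s : ℝ) = α) := ⟨_, rfl⟩
  rw [← hB, ← hC]
  have h0 : ∀ s : ℕ, (0 : ℝ) ≤ 1 / (s : ℝ) := fun s => by positivity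
  have hsub : (Finset.Icc 1 (2 * x)).filter (fun s : ℕ => s.Prime ∧ γ < (s : ℝ) ∧ (s : ℝ) < β) ⊆
      (B ∪ C) ∪ D := by
    intro s hs
    rw [Finset.mem_filter] at hs
    obtain ⟨h1, h2, h3, h4⟩ := hs
    rw [Finset.mem_union, Finset.mem_union, hB, hC, hD, Finset.mem_filter, Finset.mem_filter,
      Finset.mem_filter]
    rcases lt_trichotomy (s : ℝ) α with h | h | h
    · exact Or.inl (Or.inl ⟨h1, h2, h3, h⟩)
    · exact Or.inr ⟨h1, h⟩
    · exact Or.inl (Or.inr ⟨h1, h2, h, h4⟩)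
  have hu : ∀ P Q : Finset ℕ, ∑ s ∈ P ∪ Q, 1 / (s : ℝ) ≤ ∑ s ∈ P, 1 / (s : ℝ) +
      ∑ s ∈ Q, 1 / (s : ℝ) := by
    intro P Q
    have h1 := Finset.sum_union_inter (s₁ := P) (s₂ := Q) (f := fun s : ℕ => 1 / (s : ℝ))
    have h2 : 0 ≤ ∑ s ∈ P ∩ Q, 1 / (s : ℝ) := Finset.sum_nonneg fun s _ => h0 s
    linarith
  have hDs : ∑ s ∈ D, 1 / (s : ℝ) ≤ 1 / α := by
    have h1 : ∑ s ∈ D, 1 / (s : ℝ) = ∑ s ∈ D, 1 / α := by
      refine Finset.sum_congr rfl fun s hs => ?_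
      rw [hD, Finset.mem_filter] at hs
      rw [hs.2]
    have h2 : D.card ≤ 1 := by
      rw [Finset.card_le_one]
      intro s hs s' hs'
      rw [hD, Finset.mem_filter] at hs hs'
      have : (s : ℝ) = s' := hs.2.trans hs'.2.symm
      exact_mod_cast this
    rw [h1, Finset.sum_const, nsmul_eq_mul]
    have h3 : (D.card : ℝ) ≤ 1 := by exact_mod_cast h2
    have h4 : 0 < 1 / α := by positivity
    nlinarith
  calc _ ≤ ∑ s ∈ (B ∪ C) ∪ D, 1 / (s : ℝ) :=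
        Finset.sum_le_sum_of_subset_of_nonneg hsub fun s _ _ => h0 s
    _ ≤ ∑ s ∈ B ∪ C, 1 / (s : ℝ) + ∑ s ∈ D, 1 / (s : ℝ) := hu _ _
    _ ≤ (∑ s ∈ B, 1 / (s : ℝ) + ∑ s ∈ C, 1 / (s : ℝ)) + 1 / α := add_le_add (hu _ _) hDs

lemma VMS_tel (x : ℕ) (b : ℕ → ℝ) (M : ℝ) (hb : ∀ j, 0 < b j) (J : ℕ)
    (hM : ∀ j < J, 1 / b j ≤ M) :
    PW x (b J) (b 0) ≤ ∑ j ∈ Finset.range J, PW x (b (j + 1)) (b j) + J * M := by
  induction J with
  | zero =>
    have h1 : PW x (b 0) (b 0) = 0 := by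
      unfold PW
      refine Finset.sum_eq_zero fun s hs => ?_
      rw [Finset.mem_filter] at hs
      linarith [hs.2.2.1, hs.2.2.2]
    rw [h1]
    simp
  | succ J ih =>
    have h1 := ih (fun j hj => hM j (by omega))
    have h2 := VMS_split x (b J) (b 0) (b (J + 1)) (hb J)
    have h3 := hM J (by omega)
    rw [Finset.sum_range_succ]
    push_cast
    linarith

theorem p_VMS : Stmt_VRB → Stmt_VMS := by
  intro hVRB ε δ η hε hε4 hδ hδ1 hη
  obtain ⟨C, hC0, hC⟩ := Pool.Agent.Work.MP_b0c12c_nt_helper41.mertens2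
  have hlog : Tendsto (fun x : ℕ => Real.log (x : ℝ)) atTop atTop :=
    Real.tendsto_log_atTop.comp tendsto_natCast_atTop_atTop
  have hpow : ∀ c : ℝ, 0 < c → Tendsto (fun x : ℕ => (x : ℝ) ^ c) atTop atTop := fun c hc =>
    (tendsto_rpow_atTop hc).comp tendsto_natCast_atTop_atTop
  have hll : Tendsto (fun y : ℝ => Real.log y / y) atTop (𝓝 0) :=
    Real.isLittleO_log_id_atTop.tendsto_div_nhds_zero
  have hc : ∀ c : ℝ, Tendsto (fun y : ℝ => c / y) atTop (𝓝 0) := fun c =>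
    tendsto_const_nhds.div_atTop tendsto_id
  have hG : Tendsto (fun y : ℝ => ((1 - ε) * y - Real.log y - Real.log 8) /
      ((1 / 2 + ε) * y + 4 * Real.log y + Real.log 4)) atTop (𝓝 ((1 - ε) / (1 / 2 + ε))) := by
    have h1 : Tendsto (fun y : ℝ => ((1 - ε) - Real.log y / y - Real.log 8 / y) /
        ((1 / 2 + ε) + 4 * (Real.log y / y) + Real.log 4 / y)) atTop
        (𝓝 (((1 - ε) - 0 - 0) / ((1 / 2 + ε) + 4 * 0 + 0))) :=
      ((tendsto_const_nhds.sub hll).sub (hc _)).div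
        ((tendsto_const_nhds.add (hll.const_mul 4)).add (hc _)) (by simp; positivity)
    rw [sub_zero, sub_zero, mul_zero, add_zero, add_zero] at h1
    refine h1.congr' ?_
    filter_upwards [eventually_gt_atTop (0 : ℝ)] with y hy
    have e1 : (1 - ε) - Real.log y / y - Real.log 8 / y =
        ((1 - ε) * y - Real.log y - Real.log 8) / y := by field_simp
    have e2 : (1 / 2 + ε) + 4 * (Real.log y / y) + Real.log 4 / y =
        ((1 / 2 + ε) * y + 4 * Real.log y + Real.log 4) / y := by field_simp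
    rw [e1, e2, div_div_div_cancel_right₀ hy.ne']
  have hlim1 : 1 < (1 - ε) / (1 / 2 + ε) := by
    rw [lt_div_iff₀ (by positivity)]
    linarith
  have hlim : 0 < (1 - ε) / (1 / 2 + ε) := by linarith
  have hlG : Tendsto (fun y : ℝ => Real.log (((1 - ε) * y - Real.log y - Real.log 8) /
      ((1 / 2 + ε) * y + 4 * Real.log y + Real.log 4))) atTop (𝓝 (lam ε)) :=
    (Real.continuousAt_log hlim.ne').tendsto.comp hG
  have E1 : ∀ᶠ x : ℕ in atTop, 1 < ((1 - ε) * Real.log x - Real.log (Real.log x) - Real.log 8) /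
      ((1 / 2 + ε) * Real.log x + 4 * Real.log (Real.log x) + Real.log 4) :=
    hlog.eventually (hG.eventually (lt_mem_nhds hlim1))
  have E2 : ∀ᶠ x : ℕ in atTop, lam ε - η / 4 < Real.log (((1 - ε) * Real.log x -
      Real.log (Real.log x) - Real.log 8) / ((1 / 2 + ε) * Real.log x +
      4 * Real.log (Real.log x) + Real.log 4)) :=
    hlog.eventually (hlG.eventually (lt_mem_nhds (by linarith)))
  have E3 : ∀ᶠ x : ℕ in atTop, (1 : ℝ) ≤ Real.log x := hlog.eventually (eventually_ge_atTop 1)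
  have E4 : ∀ᶠ x : ℕ in atTop, Real.log (x : ℝ) ≤ (x : ℝ) ^ (1 / 8 : ℝ) := by
    have h1 := (isLittleO_log_rpow_atTop (show (0 : ℝ) < 1 / 8 by norm_num)).bound
      (show (0 : ℝ) < 1 by norm_num)
    have h2 := tendsto_natCast_atTop_atTop.eventually h1
    filter_upwards [h2, E3] with x h3 h4
    rw [Real.norm_of_nonneg (by linarith), Real.norm_of_nonneg (by positivity), one_mul] at h3
    exact h3
  -- the threshold for `u`
  obtain ⟨U0, hU2, hU0⟩ : ∃ U0 : ℕ, 2 ≤ U0 ∧ C / Real.log U0 ≤ η / 4 := by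
    have h1 : Tendsto (fun x : ℕ => C / Real.log (x : ℝ)) atTop (𝓝 0) :=
      tendsto_const_nhds.div_atTop hlog
    have h2 : ∀ᶠ x : ℕ in atTop, C / Real.log (x : ℝ) < η / 4 :=
      h1.eventually (gt_mem_nhds (by linarith))
    obtain ⟨U0, h3, h4⟩ := ((eventually_ge_atTop 2).and h2).exists
    exact ⟨U0, h3, h4.le⟩
  have E5 : ∀ᶠ x : ℕ in atTop, 2 * ((U0 : ℝ) + 1) ≤ (x : ℝ) ^ (3 / 8 : ℝ) :=
    (hpow _ (by norm_num)).eventually_ge_atTop _
  have E6 : ∀ᶠ x : ℕ in atTop, 16 / (δ * η) ≤ (x : ℝ) ^ (1 / 4 : ℝ) :=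
    (hpow _ (by norm_num)).eventually_ge_atTop _
  have E7 : ∀ᶠ x : ℕ in atTop, (8 : ℝ) ≤ (x : ℝ) ^ (5 / 8 : ℝ) :=
    (hpow _ (by norm_num)).eventually_ge_atTop _
  filter_upwards [hVRB ε δ hε hε4 hδ hδ1, E1, E2, E3, E4, E5, E6, E7, eventually_ge_atTop 1]
    with x hx e1 e2 e3 e4 e5 e6 e7 e8
  obtain ⟨-, r1, r2, r3, r4, r5, r6⟩ := hx
  intro ν hν1 hν2
  have hx0 : (0 : ℝ) < x := by exact_mod_cast e8
  have hx1 : (1 : ℝ) ≤ x := by exact_mod_cast e8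
  have hL0 : 0 < Real.log x := by linarith
  have hν0 : 0 < ν := by
    by_contra hneg
    push Not at hneg
    have : 2 * ν * Real.log x ≤ 0 := mul_nonpos_of_nonpos_of_nonneg (by linarith) hL0.le
    linarith
  obtain ⟨b, hb⟩ : ∃ b : ℕ → ℝ, b = fun j => ν / RB ε δ x j := ⟨_, rfl⟩
  have hxe : (0 : ℝ) < (x : ℝ) ^ ε := by positivity
  have hxe1 : (1 : ℝ) ≤ (x : ℝ) ^ ε := Real.one_le_rpow hx1 hε.le
  have hRB0 : ∀ j, (0 : ℝ) < RB ε δ x j := fun j => lt_of_lt_of_le hxe (r2 j).1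
  have hRB1 : ∀ j, (1 : ℝ) ≤ RB ε δ x j := fun j => hxe1.trans (r2 j).1
  have hb0 : ∀ j, 0 < b j := fun j => by
    rw [hb]
    exact div_pos hν0 (hRB0 j)
  obtain ⟨J, hJ⟩ : ∃ J, J = JB ε δ x := ⟨_, rfl⟩
  -- `RM ≤ x^(1/2-ε)`
  have hRM : (RM ε x : ℝ) ≤ (x : ℝ) ^ (1 / 2 - ε) := by
    have h1 : (x : ℝ) ^ (1 - 2 * ε) = ((x : ℝ) ^ (1 / 2 - ε)) ^ 2 := by
      rw [← Real.rpow_natCast, ← Real.rpow_mul hx0.le]
      congr 1
      push_cast
      ring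
    rw [h1] at r6
    exact (pow_le_pow_iff_left₀ (by positivity) (by positivity) (by norm_num)).1 r6
  have hνx : (x : ℝ) / (2 * Real.log x) ≤ ν := by
    rw [div_le_iff₀ (by positivity)]
    linarith
  have hbM : ∀ j < J, 1 / b j ≤ (x : ℝ) ^ (1 / 2 - ε) / ν := by
    intro j hj
    rw [hb]
    simp only
    rw [one_div_div]
    refine div_le_div_of_nonneg_right ?_ hν0.le
    have h1 := r3 j (by omega)
    have h2 : (RB ε δ x j : ℝ) ≤ RM ε x := by exact_mod_cast h1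
    exact h2.trans hRM
  have htel := VMS_tel x b ((x : ℝ) ^ (1 / 2 - ε) / ν) hb0 J hbM
  -- the error of the end points
  have herr : (J : ℝ) * ((x : ℝ) ^ (1 / 2 - ε) / ν) ≤ η / 4 := by
    have h1 : (J : ℝ) ≤ 2 / δ * Real.log x := by rw [hJ]; exact r4
    have h2 : (x : ℝ) ^ (1 / 2 - ε) / ν ≤ (x : ℝ) ^ (1 / 2 : ℝ) * (2 * Real.log x) / x := by
      rw [div_le_div_iff₀ hν0 hx0]
      have h3 : (x : ℝ) ≤ 2 * Real.log x * ν := by linarith
      have h4 : (x : ℝ) ^ (1 / 2 - ε) ≤ (x : ℝ) ^ (1 / 2 : ℝ) :=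
        Real.rpow_le_rpow_of_exponent_le hx1 (by linarith)
      have h5 : (0 : ℝ) ≤ (x : ℝ) ^ (1 / 2 : ℝ) := by positivity
      calc (x : ℝ) ^ (1 / 2 - ε) * x ≤ (x : ℝ) ^ (1 / 2 : ℝ) * (2 * Real.log x * ν) :=
            mul_le_mul h4 h3 hx0.le h5
        _ = (x : ℝ) ^ (1 / 2 : ℝ) * (2 * Real.log x) * ν := by ring
    have h3 : (J : ℝ) * ((x : ℝ) ^ (1 / 2 - ε) / ν) ≤
        (2 / δ * Real.log x) * ((x : ℝ) ^ (1 / 2 : ℝ) * (2 * Real.log x) / x) :=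
      mul_le_mul h1 h2 (by positivity) (by positivity)
    refine h3.trans ?_
    have h4 : (Real.log x) ^ 2 ≤ (x : ℝ) ^ (1 / 4 : ℝ) := by
      have : (x : ℝ) ^ (1 / 4 : ℝ) = ((x : ℝ) ^ (1 / 8 : ℝ)) ^ 2 := by
        rw [← Real.rpow_natCast, ← Real.rpow_mul hx0.le]
        norm_num
      rw [this]
      exact pow_le_pow_left₀ hL0.le e4 2
    have h5 : (x : ℝ) = (x : ℝ) ^ (1 / 2 : ℝ) * (x : ℝ) ^ (1 / 4 : ℝ) * (x : ℝ) ^ (1 / 4 : ℝ) := by
      rw [← Real.rpow_add hx0, ← Real.rpow_add hx0]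
      norm_num
    have h6 : (2 / δ * Real.log x) * ((x : ℝ) ^ (1 / 2 : ℝ) * (2 * Real.log x) / x) =
        4 / δ * ((x : ℝ) ^ (1 / 2 : ℝ) * (Real.log x) ^ 2) / x := by ring
    rw [h6, div_le_iff₀ hx0]
    rw [div_le_iff₀ (by positivity)] at e6
    have h7 : 4 / δ ≤ η / 4 * (x : ℝ) ^ (1 / 4 : ℝ) := by
      rw [div_le_iff₀ hδ]
      nlinarith
    have hA : (0 : ℝ) ≤ (x : ℝ) ^ (1 / 2 : ℝ) := by positivity
    have hB : (0 : ℝ) ≤ (x : ℝ) ^ (1 / 4 : ℝ) := by positivity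
    calc 4 / δ * ((x : ℝ) ^ (1 / 2 : ℝ) * (Real.log x) ^ 2) ≤
          (η / 4 * (x : ℝ) ^ (1 / 4 : ℝ)) * ((x : ℝ) ^ (1 / 2 : ℝ) * (x : ℝ) ^ (1 / 4 : ℝ)) := by
          refine mul_le_mul h7 (mul_le_mul_of_nonneg_left h4 hA) (by positivity) (by positivity)
      _ = η / 4 * ((x : ℝ) ^ (1 / 2 : ℝ) * (x : ℝ) ^ (1 / 4 : ℝ) * (x : ℝ) ^ (1 / 4 : ℝ)) := by
          ring
      _ = η / 4 * x := by rw [← h5]
  -- the range of primes
  obtain ⟨u, hu⟩ : ∃ u : ℕ, u = ⌊b J⌋₊ := ⟨_, rfl⟩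
  obtain ⟨v, hv⟩ : ∃ v : ℕ, v = ⌈b 0⌉₊ - 1 := ⟨_, rfl⟩
  have hbJ : (x : ℝ) ^ (3 / 8 : ℝ) / 2 ≤ b J := by
    have h1 : (RB ε δ x J : ℝ) ≤ (x : ℝ) ^ (1 / 2 : ℝ) := by
      have h2 := r3 J (by omega)
      have h3 : (RB ε δ x J : ℝ) ≤ RM ε x := by exact_mod_cast h2
      exact (h3.trans hRM).trans (Real.rpow_le_rpow_of_exponent_le hx1 (by linarith))
    have h2 : (x : ℝ) / (2 * (x : ℝ) ^ (1 / 8 : ℝ)) ≤ ν := by
      refine le_trans ?_ hνx
      refine div_le_div_of_nonneg_left hx0.le (by positivity) ?_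
      linarith
    rw [hb]
    simp only
    rw [le_div_iff₀ (hRB0 J)]
    refine le_trans ?_ h2
    rw [le_div_iff₀ (by positivity)]
    have h5 : (x : ℝ) = (x : ℝ) ^ (3 / 8 : ℝ) * (x : ℝ) ^ (1 / 2 : ℝ) * (x : ℝ) ^ (1 / 8 : ℝ) := by
      rw [← Real.rpow_add hx0, ← Real.rpow_add hx0]
      norm_num
    have h6 : (x : ℝ) ^ (3 / 8 : ℝ) / 2 * (RB ε δ x J : ℝ) * (2 * (x : ℝ) ^ (1 / 8 : ℝ)) =
        (x : ℝ) ^ (3 / 8 : ℝ) * (RB ε δ x J : ℝ) * (x : ℝ) ^ (1 / 8 : ℝ) := by ring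
    rw [h6]
    conv_rhs => rw [h5]
    gcongr
  have hu1 : (U0 : ℝ) ≤ u := by
    have h1 := Nat.lt_floor_add_one (b J)
    rw [hu]
    linarith
  have hu1' : U0 ≤ u := by exact_mod_cast hu1
  have hu2 : (u : ℝ) ≤ b J := by rw [hu]; exact Nat.floor_le (hb0 J).le
  have hu0 : (0 : ℝ) < u := by
    have : (2 : ℝ) ≤ U0 := by exact_mod_cast hU2
    linarith
  have hbJ2 : b J ≤ 4 * (x : ℝ) ^ (1 / 2 + ε) * Real.log x ^ 4 := by
    rw [hb]
    simp only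
    rw [div_le_iff₀ (hRB0 J)]
    rw [← hJ] at r5
    have h1 : (x : ℝ) ^ (1 / 2 + ε) * (x : ℝ) ^ (1 / 2 - ε) = x := by
      rw [← Real.rpow_add hx0]
      have : (1 / 2 + ε + (1 / 2 - ε) : ℝ) = 1 := by ring
      rw [this, Real.rpow_one]
    have h2 : 4 * (x : ℝ) ^ (1 / 2 + ε) * Real.log x ^ 4 *
        ((x : ℝ) ^ (1 / 2 - ε) / (2 * Real.log x ^ 4)) = 2 * x := by
      have hL4 : Real.log x ^ 4 ≠ 0 := by positivity
      calc _ = 2 * ((x : ℝ) ^ (1 / 2 + ε) * (x : ℝ) ^ (1 / 2 - ε)) *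
            (Real.log x ^ 4 / Real.log x ^ 4) := by ring
        _ = 2 * x := by rw [h1, div_self hL4, mul_one]
    calc ν ≤ 2 * x := hν2
      _ = _ := h2.symm
      _ ≤ _ := mul_le_mul_of_nonneg_left r5 (by positivity)
  have hb0low : (x : ℝ) ^ (1 - ε) / (4 * Real.log x) ≤ b 0 := by
    rw [hb]
    simp only
    rw [le_div_iff₀ (hRB0 0)]
    have h1 : (x : ℝ) ^ (1 - ε) * (x : ℝ) ^ ε = x := by
      rw [← Real.rpow_add hx0]
      have : (1 - ε + ε : ℝ) = 1 := by ring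
      rw [this, Real.rpow_one]
    calc (x : ℝ) ^ (1 - ε) / (4 * Real.log x) * (RB ε δ x 0 : ℝ) ≤
          (x : ℝ) ^ (1 - ε) / (4 * Real.log x) * (2 * (x : ℝ) ^ ε) :=
          mul_le_mul_of_nonneg_left r1 (by positivity)
      _ = ((x : ℝ) ^ (1 - ε) * (x : ℝ) ^ ε) / (2 * Real.log x) := by
          field_simp
          ring
      _ = x / (2 * Real.log x) := by rw [h1]
      _ ≤ ν := hνx
  have hbig : 1 ≤ (x : ℝ) ^ (1 - ε) / (8 * Real.log x) := by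
    rw [le_div_iff₀ (by positivity), one_mul]
    calc 8 * Real.log x ≤ (x : ℝ) ^ (5 / 8 : ℝ) * (x : ℝ) ^ (1 / 8 : ℝ) :=
          mul_le_mul e7 e4 hL0.le (by positivity)
      _ = (x : ℝ) ^ (3 / 4 : ℝ) := by
          rw [← Real.rpow_add hx0]
          norm_num
      _ ≤ (x : ℝ) ^ (1 - ε) := Real.rpow_le_rpow_of_exponent_le hx1 (by linarith)
  have hv1 : (x : ℝ) ^ (1 - ε) / (8 * Real.log x) ≤ v := by
    have h1 : b 0 ≤ (⌈b 0⌉₊ : ℝ) := Nat.le_ceil _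
    have h2 : 1 ≤ ⌈b 0⌉₊ := Nat.one_le_iff_ne_zero.2 (Nat.ceil_pos.2 (hb0 0)).ne'
    have h3 : (v : ℝ) = (⌈b 0⌉₊ : ℝ) - 1 := by
      rw [hv, Nat.cast_sub h2]
      push_cast
      ring
    have h4 : (x : ℝ) ^ (1 - ε) / (4 * Real.log x) = 2 * ((x : ℝ) ^ (1 - ε) / (8 * Real.log x)) := by
      field_simp
      ring
    rw [h3]
    linarith
  have hv0 : (0 : ℝ) < v := lt_of_lt_of_le (by linarith) hv1
  have hv2 : (v : ℝ) < b 0 := by
    have h1 := Nat.ceil_lt_add_one (hb0 0).le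
    have h2 : 1 ≤ ⌈b 0⌉₊ := Nat.one_le_iff_ne_zero.2 (Nat.ceil_pos.2 (hb0 0)).ne'
    have h3 : (v : ℝ) = (⌈b 0⌉₊ : ℝ) - 1 := by
      rw [hv, Nat.cast_sub h2]
      push_cast
      ring
    rw [h3]
    linarith
  -- logarithms
  have hlv : (1 - ε) * Real.log x - Real.log (Real.log x) - Real.log 8 ≤ Real.log v := by
    have h1 := Real.log_le_log (by linarith : (0 : ℝ) < (x : ℝ) ^ (1 - ε) / (8 * Real.log x)) hv1
    rw [Real.log_div (by positivity) (by positivity), Real.log_mul (by norm_num) hL0.ne',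
      Real.log_rpow hx0] at h1
    linarith
  have hlu : Real.log u ≤ (1 / 2 + ε) * Real.log x + 4 * Real.log (Real.log x) + Real.log 4 := by
    have h1 := Real.log_le_log hu0 (hu2.trans hbJ2)
    rw [Real.log_mul (by positivity) (by positivity), Real.log_mul (by norm_num) (by positivity),
      Real.log_rpow hx0, Real.log_pow] at h1
    push_cast at h1
    linarith
  have hlu0 : 0 < Real.log u := by
    apply Real.log_pos
    have : (2 : ℝ) ≤ U0 := by exact_mod_cast hU2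
    linarith
  have hden : 0 < (1 / 2 + ε) * Real.log x + 4 * Real.log (Real.log x) + Real.log 4 :=
    lt_of_lt_of_le hlu0 hlu
  have hnum : (1 / 2 + ε) * Real.log x + 4 * Real.log (Real.log x) + Real.log 4 <
      (1 - ε) * Real.log x - Real.log (Real.log x) - Real.log 8 := by
    rw [lt_div_iff₀ hden, one_mul] at e1
    exact e1
  have hlv0 : 0 < Real.log v := by linarith
  have huv : u ≤ v := by
    have h1 : Real.log u < Real.log v := by linarith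
    have h2 : (u : ℝ) < v := (Real.log_lt_log_iff hu0 hv0).1 h1
    exact_mod_cast h2.le
  have hmert := hC u v (hU2.trans hu1') huv
  have hCu : C / Real.log u ≤ η / 4 := by
    refine le_trans ?_ hU0
    have hlU : 0 < Real.log U0 := Real.log_pos (by exact_mod_cast hU2)
    refine div_le_div_of_nonneg_left hC0.le hlU ?_
    exact Real.log_le_log (by exact_mod_cast (by omega : 0 < U0)) hu1
  have hll2 : lam ε - η / 4 ≤ Real.log (Real.log v) - Real.log (Real.log u) := by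
    refine e2.le.trans ?_
    rw [← Real.log_div hlv0.ne' hlu0.ne']
    refine Real.log_le_log (div_pos (by linarith) hden) ?_
    exact div_le_div₀ hlv0.le hlv hlu0 hlu
  have hPW : ∑ p ∈ (Finset.Ioc u v).filter Nat.Prime, 1 / (p : ℝ) ≤ PW x (b J) (b 0) := by
    unfold PW
    refine Finset.sum_le_sum_of_subset_of_nonneg ?_ (fun s _ _ => by positivity)
    intro s hs
    rw [Finset.mem_filter, Finset.mem_Ioc] at hs
    obtain ⟨⟨s1, s2⟩, s3⟩ := hs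
    have t1 : b J < s := by
      have h1 := Nat.lt_floor_add_one (b J)
      have h2 : (u : ℝ) + 1 ≤ s := by exact_mod_cast s1
      rw [hu] at h2
      linarith
    have t2 : (s : ℝ) < b 0 := by
      have : (s : ℝ) ≤ v := by exact_mod_cast s2
      linarith
    rw [Finset.mem_filter, Finset.mem_Icc]
    refine ⟨⟨s3.one_lt.le, ?_⟩, s3, t1, t2⟩
    have t3 : b 0 ≤ ν := by
      rw [hb]
      simp only
      exact div_le_self hν0.le (hRB1 0)
    have t4 : (s : ℝ) ≤ 2 * x := by linarith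
    exact_mod_cast t4
  have hab := (abs_le.1 hmert).1
  have hsum : ∑ j ∈ Finset.range J, PW x (b (j + 1)) (b j) =
      ∑ j ∈ Finset.range (JB ε δ x), PW x (ν / RB ε δ x (j + 1)) (ν / RB ε δ x j) := by
    rw [hJ, hb]
  rw [← hsum]
  linarith

end Pool.Agent.Work.MP_7d0410_sp
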