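import Pool.Agent.Work.MP_7d0410_sv.Interface
import Pool.Agent.Work.MP_7d0410_sp.B_MCK

/-! # VMU: upper bound for the expected number of removable elements -/

set_option autoImplicit false

namespace Pool.Agent.Work.MP_7d0410_sp

open Finset Filter MeasureTheory ProbabilityTheory
open Pool.Agent.Work.MP_7d0410_cr
open scoped Classical Topology

/-- the insertion formula -/
lemma VMU_MCK {w : ℕ → ℝ} (hw : SVW w) (V : Finset ℕ) (r n : ℕ) :
    Ex (pw w) V (fun S => ∑ q ∈ rr S r n, (KK S q : ℝ)) =
    ∑ z ∈ V.filter (fun z => ¬ z.Prime), pw w z / (1 - pw w z) *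
      Ex (pw w) V (fun S => if z ∈ S then 0 else (FF S r n z : ℝ)) := by
  have h1 : Ex (pw w) V (fun S => ∑ q ∈ rr S r n, (KK S q : ℝ)) =
      Ex (pw w) V (fun S => ∑ z ∈ V.filter (fun z => ¬ z.Prime),
        (if z ∈ S then 1 else 0) * (FF (S.erase z) r n z : ℝ)) := by
    refine Ex_congr fun S hS => ?_
    have h2 : ∀ q : ℕ × ℕ, (KK S q : ℝ) = ∑ z ∈ V.filter (fun z => ¬ z.Prime),
        (if z ∈ S ∧ q.1 < z ∧ z < q.2 then (1 : ℝ) else 0) := by
      intro q
      rw [← Finset.sum_filter, Finset.sum_const, nsmul_eq_mul, mul_one]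
      unfold KK
      congr 2
      ext z
      rw [Finset.mem_filter, Finset.mem_filter, Finset.mem_filter]
      constructor
      · rintro ⟨h3, h4, h5⟩
        exact ⟨⟨hS h3, h4⟩, h3, h5⟩
      · rintro ⟨⟨_, h4⟩, h3, h5⟩
        exact ⟨h3, h4, h5⟩
    rw [Finset.sum_congr rfl fun q _ => h2 q, Finset.sum_comm]
    refine Finset.sum_congr rfl fun z _ => ?_
    by_cases hz : z ∈ S
    · rw [if_pos hz, one_mul, ← MCK_FF S r n z hz]
      rw [← Finset.sum_filter, Finset.sum_const, nsmul_eq_mul, mul_one]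
      congr 2
      ext q
      rw [Finset.mem_filter, Finset.mem_filter]
      constructor
      · rintro ⟨h3, _, h5⟩
        exact ⟨h3, h5⟩
      · rintro ⟨h3, h5⟩
        exact ⟨h3, hz, h5⟩
    · rw [if_neg hz, zero_mul]
      apply Finset.sum_eq_zero
      intro q _
      rw [if_neg]
      exact fun h => hz h.1
  rw [h1, Ex_sum]
  refine Finset.sum_congr rfl fun z hz => ?_
  rw [Finset.mem_filter] at hz
  have h3 := Ex_insert (p := pw w) V z hz.1 (pw_lt_one hw hz.2)
    (fun S => (FF S r n z : ℝ))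
  rw [h3]
  congr 1
  refine Ex_congr fun S _ => ?_
  split_ifs
  · rw [zero_mul]
  · rw [one_mul]

theorem p_VMU : Stmt_VMU := by
  intro w hw a b r n haw
  rw [VMU_MCK hw (Finset.Icc a b) r n]
  have hP := prob_pw hw
  have hE : ∀ z, 0 ≤ Ex (pw w) (Finset.Icc a b) (fun S => if z ∈ S then 0 else (FF S r n z : ℝ)) :=
    fun z => Ex_nonneg hP fun S _ => by
      split_ifs
      · exact le_rfl
      · exact Nat.cast_nonneg _
  calc ∑ z ∈ (Finset.Icc a b).filter (fun z => ¬ z.Prime), pw w z / (1 - pw w z) *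
        Ex (pw w) (Finset.Icc a b) (fun S => if z ∈ S then 0 else (FF S r n z : ℝ))
      ≤ ∑ z ∈ (Finset.Icc a b).filter (fun z => ¬ z.Prime), 2 * w a *
        Ex (pw w) (Finset.Icc a b) (fun S => if z ∈ S then 0 else (FF S r n z : ℝ)) := by
        refine Finset.sum_le_sum fun z hz => ?_
        refine mul_le_mul_of_nonneg_right ?_ (hE z)
        rw [Finset.mem_filter, Finset.mem_Icc] at hz
        rw [pw_not_prime hz.2]
        have h3 : w z ≤ w a := hw.anti hz.1.1
        have h4 : 0 < w z := hw.pos z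
        rw [div_le_iff₀ (by linarith)]
        nlinarith
    _ = 2 * w a * Ex (pw w) (Finset.Icc a b)
        (fun S => ∑ z ∈ (Finset.Icc a b).filter (fun z => ¬ z.Prime),
          if z ∈ S then 0 else (FF S r n z : ℝ)) := by
        rw [← Finset.mul_sum, Ex_sum]
    _ ≤ 2 * w a * 1 := by
        refine mul_le_mul_of_nonneg_left ?_ (by have := hw.pos a; positivity)
        refine Ex_le_const hP fun S _ => ?_
        have h5 := MCU_sum p_SFT S ((Finset.Icc a b).filter (fun z => ¬ z.Prime)) r n
        calc ∑ z ∈ (Finset.Icc a b).filter (fun z => ¬ z.Prime),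
              (if z ∈ S then 0 else (FF S r n z : ℝ))
            ≤ ∑ z ∈ (Finset.Icc a b).filter (fun z => ¬ z.Prime), (FF S r n z : ℝ) := by
              refine Finset.sum_le_sum fun z _ => ?_
              split_ifs
              · exact Nat.cast_nonneg _
              · exact le_rfl
          _ ≤ 1 := by exact_mod_cast h5
    _ = 2 * w a := by rw [mul_one]

end Pool.Agent.Work.MP_7d0410_sp
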