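import Pool.Agent.Work.MP_7d0410_sv.Interface

/-!
# VMW: the mean value over a block of lengths
-/

set_option autoImplicit false

namespace Pool.Agent.Work.MP_7d0410_sp

open Finset Filter MeasureTheory ProbabilityTheory
open Pool.Agent.Work.MP_7d0410_cr
open scoped Classical Topology

/-- the `k` largest elements -/
lemma VMW_run (k : ℕ) (hk : 1 ≤ k) : ∀ (n : ℕ) (T : Finset ℕ), T.card = n → k ≤ n →
    ∃ a ∈ T, (T.filter (fun m => a ≤ m)).card = k := by
  intro n
  induction n with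
  | zero => intro T _ h; omega
  | succ n ih =>
    intro T hT hkn
    have hne : T.Nonempty := by
      rw [← Finset.card_pos]; omega
    have hmem := Finset.min'_mem T hne
    rcases Nat.eq_or_lt_of_le hkn with h | h
    · refine ⟨T.min' hne, hmem, ?_⟩
      rw [Finset.filter_true_of_mem (fun m hm => Finset.min'_le T m hm), hT, h]
    · obtain ⟨a, ha, hc⟩ := ih (T.erase (T.min' hne))
        (by rw [Finset.card_erase_of_mem hmem, hT]; rfl) (by omega)
      refine ⟨a, Finset.mem_of_mem_erase ha, ?_⟩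
      rw [← hc]
      congr 1
      ext m
      simp only [Finset.mem_filter, Finset.mem_erase]
      constructor
      · rintro ⟨h1, h2⟩
        refine ⟨⟨?_, h1⟩, h2⟩
        rintro rfl
        have h3 := Finset.min'_le T a (Finset.mem_of_mem_erase ha)
        exact (Finset.mem_erase.1 ha).1 (le_antisymm h2 h3)
      · rintro ⟨⟨_, h1⟩, h2⟩
        exact ⟨h1, h2⟩

/-- the run of length `k` which ends at `s` -/
lemma VMW_end {S : Finset ℕ} {k s : ℕ} (hk : 1 ≤ k) (hs : s ∈ S)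
    (h : k ≤ (S.filter (fun m => m ≤ s)).card) :
    ∃ a : ℕ, (a, s) ∈ runs S ∧ len S (a, s) = k := by
  obtain ⟨a, ha, hc⟩ := VMW_run k hk _ (S.filter (fun m => m ≤ s)) rfl h
  obtain ⟨h1, h2⟩ := Finset.mem_filter.1 ha
  refine ⟨a, mem_runs.2 ⟨h1, hs, h2⟩, ?_⟩
  rw [← hc]
  unfold len
  congr 1
  ext m
  simp only [mem_seg, Finset.mem_filter]
  tauto

/-- the values which are reached from a run by adding one element -/
def VMW_M (S : Finset ℕ) (a s : ℕ) : Finset ℕ :=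
  ((Finset.Ioo a s).filter (fun z => z ∉ S)).image (fun z => sm S (a, s) + z)

lemma VMW_mem {S : Finset ℕ} {a s m : ℕ} (h : m ∈ VMW_M S a s) :
    ∃ z, a < z ∧ z < s ∧ z ∉ S ∧ m = sm S (a, s) + z := by
  unfold VMW_M at h
  obtain ⟨z, hz, rfl⟩ := Finset.mem_image.1 h
  obtain ⟨h1, h2⟩ := Finset.mem_filter.1 hz
  obtain ⟨h3, h4⟩ := Finset.mem_Ioo.1 h1
  exact ⟨z, h3, h4, h2, rfl⟩

lemma VMW_PTS {S : Finset ℕ} {a s m r : ℕ} (hr : (a, s) ∈ runs S) (hl : len S (a, s) + 1 = r)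
    (h : m ∈ VMW_M S a s) : (a, s) ∈ PTS S r m := by
  obtain ⟨z, h1, h2, h3, rfl⟩ := VMW_mem h
  refine mem_PTS.2 ⟨hr, hl, ?_, ?_, ?_⟩
  · show a + sm S (a, s) < sm S (a, s) + z
    omega
  · show sm S (a, s) + z < sm S (a, s) + s
    omega
  · rwa [Nat.add_sub_cancel_left]

lemma VMW_card {S : Finset ℕ} {a s : ℕ} (hr : (a, s) ∈ runs S) :
    (s : ℝ) - a - (len S (a, s) + 1) ≤ ((VMW_M S a s).card : ℝ) := by
  have h1 : (VMW_M S a s).card = ((Finset.Ioo a s).filter (fun z => z ∉ S)).card := by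
    unfold VMW_M
    exact Finset.card_image_of_injective _ (fun u v h => Nat.add_left_cancel h)
  have h2 : ((Finset.Ioo a s).filter (fun z => z ∈ S)).card ≤ len S (a, s) := by
    unfold len
    refine Finset.card_le_card fun z hz => ?_
    obtain ⟨h3, h4⟩ := Finset.mem_filter.1 hz
    obtain ⟨h5, h6⟩ := Finset.mem_Ioo.1 h3
    exact mem_seg.2 ⟨h4, h5.le, h6.le⟩
  have h3 : ((Finset.Ioo a s).filter (fun z => z ∈ S)).card +
      ((Finset.Ioo a s).filter (fun z => z ∉ S)).card = (Finset.Ioo a s).card :=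
    Finset.card_filter_add_card_filter_not _
  rw [Nat.card_Ioo] at h3
  have h4 : a ≤ s := (mem_runs.1 hr).2.2
  have h5 : s - a ≤ (VMW_M S a s).card + (len S (a, s) + 1) := by omega
  have h6 : ((s - a : ℕ) : ℝ) ≤ ((VMW_M S a s).card : ℝ) + (len S (a, s) + 1) := by
    exact_mod_cast h5
  rw [Nat.cast_sub h4] at h6
  linarith

/-- the deterministic part -/
lemma VMW_core (hVFL : Stmt_VFL) {S : Finset ℕ} {x R R' : ℕ} {ν δ : ℝ} (hδ0 : 0 < δ)
    (hR : 1 ≤ R) (hRR : R < R') (hν : 0 < ν) (a : ℕ → ℕ)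
    (ha : ∀ s : ℕ, s.Prime → s ≤ 2 * x → ν / R' < s → (a s, s) ∈ runs S ∧
      len S (a s, s) + 1 = R' ∧ (R' : ℝ) ≤ δ * ((s : ℝ) - a s)) :
    (1 - δ) * ((R : ℝ) / R') * PW x (ν / R') (ν / R) - 2 * (R' : ℝ) ^ 2 / ν ≤
      ∫ u in (R : ℝ)..R', HS S R' (ν / u) := by
  have hR0 : (0 : ℝ) < R := by exact_mod_cast hR
  have hR'0 : (0 : ℝ) < R' := by
    have : 0 < R' := by omega
    exact_mod_cast this
  have hRR' : (R : ℝ) ≤ R' := by exact_mod_cast hRR.le
  set P : Finset ℕ := (Finset.Icc 1 (2 * x)).filter (fun s : ℕ => s.Prime ∧ ν / R' < (s : ℝ) ∧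
    (s : ℝ) < ν / R) with hP
  have hPm : ∀ s ∈ P, s.Prime ∧ s ≤ 2 * x ∧ ν / R' < (s : ℝ) ∧ (s : ℝ) < ν / R := by
    intro s hs
    obtain ⟨h1, h2, h3, h4⟩ := Finset.mem_filter.1 hs
    exact ⟨h2, (Finset.mem_Icc.1 h1).2, h3, h4⟩
  have hPa : ∀ s ∈ P, (a s, s) ∈ runs S ∧ len S (a s, s) + 1 = R' ∧
      (R' : ℝ) ≤ δ * ((s : ℝ) - a s) := by
    intro s hs
    obtain ⟨h1, h2, h3, _⟩ := hPm s hs
    exact ha s h1 h2 h3
  have hdpos : ∀ s ∈ P, (0 : ℝ) < (s : ℝ) - a s := by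
    intro s hs
    have h1 := (hPa s hs).2.2
    have h2 : 0 < δ * ((s : ℝ) - a s) := lt_of_lt_of_le hR'0 h1
    exact (mul_pos_iff_of_pos_left hδ0).1 h2
  set P1 := P.filter (fun s => (a s : ℝ) < ν / R') with hP1
  set P2 := P.filter (fun s => ¬ ((a s : ℝ) < ν / R')) with hP2
  have hc1 : P1.card ≤ R' := by
    rcases P1.eq_empty_or_nonempty with h | h
    · rw [h]; simp
    · have hm := Finset.max'_mem P1 h
      obtain ⟨hm1, hm2⟩ := Finset.mem_filter.1 hm
      have h1 : P1 ⊆ seg S (a (P1.max' h), P1.max' h) := by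
        intro s hs
        obtain ⟨hs1, _⟩ := Finset.mem_filter.1 hs
        obtain ⟨_, _, h3, _⟩ := hPm s hs1
        refine mem_seg.2 ⟨(mem_runs.1 (hPa s hs1).1).2.1, ?_, Finset.le_max' P1 s hs⟩
        have h4 : (a (P1.max' h) : ℝ) < s := hm2.trans h3
        have h5 : a (P1.max' h) < s := by exact_mod_cast h4
        exact h5.le
      have h2 := Finset.card_le_card h1
      have h3 := (hPa _ hm1).2.1
      unfold len at h3
      omega
  have hsum1 : ∑ s ∈ P1, 1 / (s : ℝ) ≤ (R' : ℝ) ^ 2 / ν := by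
    have h1 : ∀ s ∈ P1, 1 / (s : ℝ) ≤ R' / ν := by
      intro s hs
      obtain ⟨hs1, _⟩ := Finset.mem_filter.1 hs
      obtain ⟨_, _, h3, _⟩ := hPm s hs1
      have h4 : 1 / (s : ℝ) ≤ 1 / (ν / R') := one_div_le_one_div_of_le (by positivity) h3.le
      rwa [one_div_div] at h4
    have h2 := Finset.sum_le_card_nsmul P1 _ _ h1
    rw [nsmul_eq_mul] at h2
    have h3 : (P1.card : ℝ) ≤ R' := by exact_mod_cast hc1
    calc ∑ s ∈ P1, 1 / (s : ℝ) ≤ P1.card * (R' / ν) := h2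
      _ ≤ R' * (R' / ν) := mul_le_mul_of_nonneg_right h3 (by positivity)
      _ = (R' : ℝ) ^ 2 / ν := by ring
  set A : ℝ := R' * ν with hA
  have hA0 : 0 < A := by positivity
  set M : Finset ℕ := P2.biUnion (fun s => VMW_M S (a s) s) with hM
  have hP2P : ∀ s ∈ P2, s ∈ P ∧ ν / R' ≤ a s := by
    intro s hs
    obtain ⟨h1, h2⟩ := Finset.mem_filter.1 hs
    exact ⟨h1, not_lt.1 h2⟩
  have hbd : ∀ s ∈ P2, ∀ m ∈ VMW_M S (a s) s, ν ≤ (m : ℝ) ∧ (m : ℝ) + 1 ≤ R' * s := by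
    intro s hs m hm
    obtain ⟨h1, h2⟩ := hP2P s hs
    obtain ⟨hr, hl, _⟩ := hPa s h1
    obtain ⟨z, hz1, hz2, _, rfl⟩ := VMW_mem hm
    have h3 := len_mul_le_sm S (a s, s)
    have h4 := sm_le_len_mul S (a s, s)
    simp only at h3 h4
    constructor
    · have h5 : R' * a s ≤ sm S (a s, s) + z := by
        rw [← hl, Nat.add_mul, Nat.one_mul]
        omega
      have h6 : (R' : ℝ) * a s ≤ ((sm S (a s, s) + z : ℕ) : ℝ) := by exact_mod_cast h5
      have h7 : ν ≤ R' * a s := by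
        rw [div_le_iff₀ hR'0] at h2
        linarith
      linarith
    · have h5 : sm S (a s, s) + z + 1 ≤ R' * s := by
        rw [← hl, Nat.add_mul, Nat.one_mul]
        omega
      exact_mod_cast h5
  have hRs : ∀ s ∈ P, (R : ℝ) * s ≤ ν := by
    intro s hs
    obtain ⟨_, _, _, h4⟩ := hPm s hs
    rw [lt_div_iff₀ hR0] at h4
    linarith
  have hmain := (hVFL A R R' M (fun m => gR S R' m) hA0 hR hRR.le (fun m => gR_nonneg S R' m)
    (by
      intro m hm
      obtain ⟨s, hs, hm⟩ := Finset.mem_biUnion.1 hm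
      obtain ⟨h1, h2⟩ := hbd s hs m hm
      have h3 := hRs s (hP2P s hs).1
      refine ⟨?_, ?_, ?_⟩
      · have h4 : (0 : ℝ) < m := lt_of_lt_of_le hν h1
        have h5 : 0 < m := by exact_mod_cast h4
        exact h5
      · exact mul_le_mul_of_nonneg_left h1 hR'0.le
      · calc (R : ℝ) * ((m : ℝ) + 1) ≤ R * (R' * s) := mul_le_mul_of_nonneg_left h2 hR0.le
          _ = R' * (R * s) := by ring
          _ ≤ R' * ν := mul_le_mul_of_nonneg_left h3 hR'0.le)).2
  have hint : ∫ u in (R : ℝ)..R', HS S R' (ν / u) = ∫ u in (R : ℝ)..R', gR S R' ⌊A / u⌋₊ := by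
    unfold HS
    simp only [hA, mul_div_assoc]
  rw [hint]
  refine le_trans ?_ hmain
  rw [hM, Finset.sum_biUnion]
  · have h1 : ∀ s ∈ P2, (1 - δ) * ((R : ℝ) / R') * (1 / (s : ℝ)) ≤
        ∑ m ∈ VMW_M S (a s) s, gR S R' m * (A / (m * ((m : ℝ) + 1))) := by
      intro s hs
      obtain ⟨hsP, _⟩ := hP2P s hs
      obtain ⟨hr, hl, hd⟩ := hPa s hsP
      have hd0 := hdpos s hsP
      have hs0 : (0 : ℝ) < s := by
        have := (hPm s hsP).1.pos
        exact_mod_cast this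
      have h2 : ∀ m ∈ VMW_M S (a s) s, 1 / ((s : ℝ) - a s) * ((R : ℝ) / R' * (1 / (s : ℝ))) ≤
          gR S R' m * (A / (m * ((m : ℝ) + 1))) := by
        intro m hm
        obtain ⟨h3, h4⟩ := hbd s hs m hm
        rw [gR_eq (VMW_PTS hr hl hm)]
        refine mul_le_mul_of_nonneg_left ?_ (by positivity)
        have hm0 : (0 : ℝ) < m := lt_of_lt_of_le hν h3
        have h5 : (m : ℝ) * (m + 1) ≤ (R' * s) * (R' * s) :=
          mul_le_mul (by linarith) h4 (by linarith) (by positivity)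
        have h6 : A / ((R' * s) * (R' * s)) ≤ A / (m * ((m : ℝ) + 1)) :=
          div_le_div_of_nonneg_left hA0.le (by positivity) h5
        refine le_trans ?_ h6
        have h7 : (R : ℝ) / R' * (1 / (s : ℝ)) = R' * (R * s) / ((R' * s) * (R' * s)) := by
          field_simp
        rw [h7]
        exact div_le_div_of_nonneg_right (mul_le_mul_of_nonneg_left (hRs s hsP) hR'0.le)
          (by positivity)
      have h3 := Finset.card_nsmul_le_sum _ _ _ h2
      refine le_trans ?_ h3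
      rw [nsmul_eq_mul]
      have h4 := VMW_card hr
      have h5 : (len S (a s, s) : ℝ) + 1 = R' := by exact_mod_cast hl
      rw [h5] at h4
      have h6 : (1 - δ) * ((s : ℝ) - a s) ≤ ((VMW_M S (a s) s).card : ℝ) := by
        refine le_trans ?_ h4
        have : (1 - δ) * ((s : ℝ) - a s) = ((s : ℝ) - a s) - δ * ((s : ℝ) - a s) := by ring
        rw [this]
        linarith
      have h7 : (1 - δ) * ((R : ℝ) / R') * (1 / (s : ℝ)) =
          ((1 - δ) * ((s : ℝ) - a s)) * (1 / ((s : ℝ) - a s) * ((R : ℝ) / R' * (1 / (s : ℝ)))) := by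
        field_simp
      rw [h7]
      exact mul_le_mul_of_nonneg_right h6 (by positivity)
    have h2 := Finset.sum_le_sum h1
    refine le_trans ?_ h2
    rw [← Finset.mul_sum]
    have h3 : PW x (ν / R') (ν / R) = ∑ s ∈ P1, 1 / (s : ℝ) + ∑ s ∈ P2, 1 / (s : ℝ) := by
      unfold PW
      rw [hP1, hP2, Finset.sum_filter_add_sum_filter_not]
    have h4 : ∑ s ∈ P2, 1 / (s : ℝ) = PW x (ν / R') (ν / R) - ∑ s ∈ P1, 1 / (s : ℝ) := by
      rw [h3]; ring
    rw [h4, mul_sub]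
    have h5 : (1 - δ) * ((R : ℝ) / R') ≤ 1 := by
      have h6 : (R : ℝ) / R' ≤ 1 := by rw [div_le_one hR'0]; exact hRR'
      have h7 : 0 ≤ (R : ℝ) / R' := by positivity
      nlinarith
    have h6 : 0 ≤ ∑ s ∈ P1, 1 / (s : ℝ) := Finset.sum_nonneg fun s _ => by positivity
    have h7 : (1 - δ) * ((R : ℝ) / R') * ∑ s ∈ P1, 1 / (s : ℝ) ≤ 1 * ∑ s ∈ P1, 1 / (s : ℝ) :=
      mul_le_mul_of_nonneg_right h5 h6
    have h8 : 0 ≤ (R' : ℝ) ^ 2 / ν := by positivity
    have h9 : 2 * (R' : ℝ) ^ 2 / ν = 2 * ((R' : ℝ) ^ 2 / ν) := by ring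
    rw [h9]
    linarith
  · intro s hs s' hs' hne
    refine Finset.disjoint_left.2 fun m hm hm' => hne ?_
    have h1 := hPa s (hP2P s (Finset.mem_coe.1 hs)).1
    have h2 := hPa s' (hP2P s' (Finset.mem_coe.1 hs')).1
    have h3 := Finset.card_le_one.1 (PTS_card_le_one S R' m) _ (VMW_PTS h1.1 h1.2.1 hm) _
      (VMW_PTS h2.1 h2.2.1 hm')
    exact congrArg Prod.snd h3

theorem p_VMW : Stmt_VHB → Stmt_CHB → Stmt_VFL → Stmt_VMW := by
  intro hVHB hCHB hVFL w hw ε η δ hε0 hε1 hη0 hη1 hδ0 hδ1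
  obtain ⟨C, hC0, hVHB⟩ := hVHB w hw ε η hε0 hε1 hη0 hη1
  obtain ⟨c0, hc0, hCHB⟩ := hCHB
  obtain ⟨Y0, hY0⟩ := Filter.eventually_atTop.1 hCHB
  have hlog : Tendsto (fun x : ℕ => Real.log x) atTop atTop :=
    Real.tendsto_log_atTop.comp tendsto_natCast_atTop_atTop
  have hpow : ∀ c : ℝ, 0 < c → Tendsto (fun x : ℕ => (x : ℝ) ^ c) atTop atTop := fun c hc =>
    (tendsto_rpow_atTop hc).comp tendsto_natCast_atTop_atTop
  filter_upwards [hVHB, hlog.eventually_ge_atTop 10, hlog.eventually_ge_atTop (1 / c0),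
    hlog.eventually_ge_atTop (2 * C / δ), (hpow (1 / 2 + ε) (by linarith)).eventually_ge_atTop 1,
    (hpow (1 / 2 + ε) (by linarith)).eventually_ge_atTop (Y0 : ℝ),
    (hpow ε hε0).eventually_ge_atTop 4, Filter.eventually_ge_atTop 3] with x hV hL hLc hLC ht1 htY
    hε4 hx3 S R R' ν hTY hR0 hRR hR2 hRM hν1 hν2
  have hxr : (3 : ℝ) ≤ x := by exact_mod_cast hx3
  have hx0 : (0 : ℝ) < x := by linarith
  set L := Real.log x with hLdef
  set t := (x : ℝ) ^ (1 / 2 + ε) with htdef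
  have hL0 : 0 < L := by linarith
  have hν : 0 < ν := by
    by_contra h
    push Not at h
    have : 2 * ν * L ≤ 0 := by nlinarith
    linarith
  have hR0' : (x : ℝ) ^ ε ≤ R := by
    have h1 : (x : ℝ) ^ ε ≤ R0 ε x := by unfold R0; exact Nat.le_ceil _
    have h2 : (R0 ε x : ℝ) ≤ R := by exact_mod_cast hR0
    linarith
  have hR4 : 4 ≤ R := by
    have : (4 : ℝ) ≤ R := by linarith
    exact_mod_cast this
  have hRMr : (R' : ℝ) ≤ (x : ℝ) ^ (1 / 2 - ε) / L ^ 3 := by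
    have h1 : (R' : ℝ) ≤ (RM ε x : ℝ) := by exact_mod_cast hRM
    have h2 : (RM ε x : ℝ) ≤ (x : ℝ) ^ (1 / 2 - ε) / L ^ 3 := by
      unfold RM
      exact Nat.floor_le (by positivity)
    linarith
  have hR'0 : (0 : ℝ) < R' := by
    have : 0 < R' := by omega
    exact_mod_cast this
  have hxx : (x : ℝ) = (x : ℝ) ^ (1 / 2 - ε) * t := by
    rw [htdef, ← Real.rpow_add hx0]
    norm_num
  have hνR : t * L ^ 2 / 2 ≤ ν / R' := by
    rw [le_div_iff₀ hR'0]
    have h1 : t * L ^ 2 / 2 * R' ≤ t * L ^ 2 / 2 * ((x : ℝ) ^ (1 / 2 - ε) / L ^ 3) :=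
      mul_le_mul_of_nonneg_left hRMr (by positivity)
    have h2 : t * L ^ 2 / 2 * ((x : ℝ) ^ (1 / 2 - ε) / L ^ 3) =
        ((x : ℝ) ^ (1 / 2 - ε) * t) / (2 * L) := by
      field_simp
    rw [h2, ← hxx] at h1
    have h3 : (x : ℝ) / (2 * L) ≤ ν := by
      rw [div_le_iff₀ (by positivity)]
      linarith
    linarith
  -- the run which ends at `s`
  have hex : ∀ s : ℕ, ∃ b : ℕ, s.Prime → s ≤ 2 * x → ν / R' < s → (b, s) ∈ runs S ∧
      len S (b, s) + 1 = R' := by
    intro s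
    by_cases hs : s.Prime ∧ s ≤ 2 * x ∧ ν / R' < (s : ℝ)
    · obtain ⟨hs1, hs2, hs3⟩ := hs
      have hs4 : t * L ^ 2 / 2 < s := lt_of_le_of_lt hνR hs3
      have hs5 : 50 * t ≤ s := by
        have h1 : (100 : ℝ) ≤ L ^ 2 := by nlinarith
        nlinarith
      set Y := s / 4 with hY
      have hYr : (s : ℝ) ≤ 4 * Y + 3 := by
        have h1 : s ≤ 4 * Y + 3 := by omega
        exact_mod_cast h1
      have hY2 : 2 * t ≤ Y := by linarith
      have ha0 : a0 ε x ≤ Y := by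
        have h1 : (a0 ε x : ℝ) < t + 1 := by
          unfold a0
          exact Nat.ceil_lt_add_one (by positivity)
        have h2 : (a0 ε x : ℝ) < Y + 1 := by linarith
        have h3 : a0 ε x < Y + 1 := by exact_mod_cast h2
        omega
      have hYY : Y0 ≤ Y := by
        have h1 : (Y0 : ℝ) ≤ Y := by linarith
        exact_mod_cast h1
      have hpin := hY0 Y hYY
      have hlogY0 : 0 < Real.log Y := Real.log_pos (by linarith)
      have hlogY : Real.log Y ≤ 2 * L := by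
        have h1 : (Y : ℝ) ≤ (x : ℝ) ^ 2 := by
          have h2 : Y ≤ 2 * x := by omega
          have h3 : (Y : ℝ) ≤ 2 * x := by exact_mod_cast h2
          nlinarith
        have h2 := Real.log_le_log (by linarith) h1
        rw [Real.log_pow] at h2
        exact_mod_cast h2
      have hRpin : (R' : ℝ) ≤ c0 * (Y / Real.log Y) := by
        have h1 : t / L ≤ Y / Real.log Y := by
          rw [div_le_div_iff₀ hL0 hlogY0]
          nlinarith
        have h2 : (x : ℝ) ^ (1 / 2 - ε) ≤ t := by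
          rw [htdef]
          exact Real.rpow_le_rpow_of_exponent_le (by linarith) (by linarith)
        have h3 : (R' : ℝ) ≤ t / L ^ 3 :=
          hRMr.trans (div_le_div_of_nonneg_right h2 (by positivity))
        have h4 : t / L ^ 3 ≤ c0 * (t / L) := by
          have h5 : 1 ≤ c0 * L := by
            rw [div_le_iff₀ hc0] at hLc
            linarith
          have h6 : 1 ≤ c0 * L ^ 2 := by nlinarith
          have h7 : c0 * (t / L) = (c0 * L ^ 2) * (t / L ^ 3) := by field_simp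
          rw [h7]
          have h8 : 0 ≤ t / L ^ 3 := by positivity
          nlinarith
        calc (R' : ℝ) ≤ t / L ^ 3 := h3
          _ ≤ c0 * (t / L) := h4
          _ ≤ c0 * (Y / Real.log Y) := mul_le_mul_of_nonneg_left h1 hc0.le
      have hpinR : R' ≤ pin Y (3 * Y) := by
        have h1 : (R' : ℝ) ≤ pin Y (3 * Y) := hRpin.trans hpin
        exact_mod_cast h1
      have hUU : ∀ m : ℕ, Y ≤ m → m ≤ s → m ∈ UU ε x := by
        intro m h1 h2
        unfold UU
        exact Finset.mem_Icc.2 ⟨by omega, by omega⟩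
      have hsS : s ∈ S := hTY.pr s (hUU s (by omega) le_rfl) hs1
      have hcard : R' - 1 ≤ (S.filter (fun m => m ≤ s)).card := by
        refine le_trans (by omega : R' - 1 ≤ R') (hpinR.trans ?_)
        unfold pin
        refine Finset.card_le_card fun m hm => ?_
        obtain ⟨h1, h2⟩ := Finset.mem_filter.1 hm
        obtain ⟨h3, h4⟩ := Finset.mem_Ioc.1 h1
        have h5 : m ≤ s := by omega
        exact Finset.mem_filter.2 ⟨hTY.pr m (hUU m h3.le h5) h2, h5⟩
      obtain ⟨b, hb1, hb2⟩ := VMW_end (by omega : 1 ≤ R' - 1) hsS hcard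
      exact ⟨b, fun _ _ _ => ⟨hb1, by omega⟩⟩
    · exact ⟨0, fun h1 h2 h3 => absurd ⟨h1, h2, h3⟩ hs⟩
  choose a ha using hex
  refine VMW_core hVFL hδ0 (by omega) hRR hν a ?_
  intro s hs1 hs2 hs3
  obtain ⟨hr, hl⟩ := ha s hs1 hs2 hs3
  refine ⟨hr, hl, ?_⟩
  have hlr : (len S (a s, s) : ℝ) + 1 = R' := by exact_mod_cast hl
  have hR4' : (4 : ℝ) ≤ R := by exact_mod_cast hR4
  have hRR'r : (R : ℝ) + 1 ≤ R' := by exact_mod_cast hRR
  have h1 := hV S hTY (a s, s) hr (by linarith)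
  simp only at h1
  have h2 : (R' : ℝ) ≤ 2 * len S (a s, s) := by linarith
  have h3 : 2 * C ≤ δ * L := by
    rw [div_le_iff₀ hδ0] at hLC
    linarith
  have hd : 0 < (s : ℝ) - a s := by
    have h4 : 0 < (len S (a s, s) : ℝ) * L := by
      have : 0 < (len S (a s, s) : ℝ) := by linarith
      positivity
    have h5 : 0 < C * ((s : ℝ) - a s) := lt_of_lt_of_le h4 h1
    exact (mul_pos_iff_of_pos_left hC0).1 h5
  have h4 : (R' : ℝ) * L ≤ (δ * ((s : ℝ) - a s)) * L := by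
    calc (R' : ℝ) * L ≤ 2 * len S (a s, s) * L := mul_le_mul_of_nonneg_right h2 hL0.le
      _ = 2 * (len S (a s, s) * L) := by ring
      _ ≤ 2 * (C * ((s : ℝ) - a s)) := by linarith
      _ = (2 * C) * ((s : ℝ) - a s) := by ring
      _ ≤ (δ * L) * ((s : ℝ) - a s) := mul_le_mul_of_nonneg_right h3 hd.le
      _ = (δ * ((s : ℝ) - a s)) * L := by ring
  exact le_of_mul_le_mul_right h4 hL0

end Pool.Agent.Work.MP_7d0410_sp

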