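import Pool.Agent.Work.MP_7d0410_sv.Interface

set_option autoImplicit false

namespace Pool.Agent.Work.MP_7d0410_sp

open Finset Filter MeasureTheory ProbabilityTheory
open Pool.Agent.Work.MP_7d0410_cr
open scoped Classical Topology

/-- the arithmetic at the right end -/
lemma VNE_right (P P' : Finset ℕ) (x2 y1 z z' : ℤ) (hP : (P.card : ℤ) ≤ P'.card)
    (hn : (∑ m ∈ P, (m : ℤ)) + z ≤ (P.card + 1) * x2)
    (hA : ∀ m ∈ P \ P', (m : ℤ) ≤ min (y1 - 1) x2)
    (hB : ∀ m ∈ P' \ P, max (x2 + 1) y1 ≤ (m : ℤ))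
    (hne : 1 ≤ (P \ P').card) (hz : y1 - x2 + 2 ≤ z' - z) :
    (P'.card + 1) * ((∑ m ∈ P, (m : ℤ)) + z) + 4 * (P.card + 1) ≤
      ((∑ m ∈ P', (m : ℤ)) + z') * (P.card + 1) := by
  have h1 := Finset.sum_sdiff_sub_sum_sdiff (s₁ := P) (s₂ := P') (f := fun m : ℕ => (m : ℤ))
  have h2 := Finset.sum_sdiff_sub_sum_sdiff (s₁ := P) (s₂ := P') (f := fun _ : ℕ => (1 : ℤ))
  simp only [Finset.sum_const, nsmul_eq_mul, mul_one] at h2
  have h3 : ((P' \ P).card : ℤ) * max (x2 + 1) y1 ≤ ∑ m ∈ P' \ P, (m : ℤ) := by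
    have := Finset.card_nsmul_le_sum (P' \ P) (fun m : ℕ => (m : ℤ)) (max (x2 + 1) y1) hB
    rwa [nsmul_eq_mul] at this
  have h4 : ∑ m ∈ P \ P', (m : ℤ) ≤ ((P \ P').card : ℤ) * min (y1 - 1) x2 := by
    have := Finset.sum_le_card_nsmul (P \ P') (fun m : ℕ => (m : ℤ)) (min (y1 - 1) x2) hA
    rwa [nsmul_eq_mul] at this
  generalize hL : max (x2 + 1) y1 = L at h3
  generalize hU : min (y1 - 1) x2 = U at h4
  have hL1 : x2 + 1 ≤ L := hL ▸ le_max_left _ _
  have hL2 : y1 ≤ L := hL ▸ le_max_right _ _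
  have hU1 : U ≤ y1 - 1 := hU ▸ min_le_left _ _
  have hU2 : U ≤ x2 := hU ▸ min_le_right _ _
  have ha : (1 : ℤ) ≤ ((P \ P').card : ℤ) := by exact_mod_cast hne
  generalize ((P \ P').card : ℤ) = a at h2 h4 ha
  generalize ((P' \ P).card : ℤ) = b at h2 h3
  generalize (∑ m ∈ P' \ P, (m : ℤ)) = SB at h1 h3
  generalize (∑ m ∈ P \ P', (m : ℤ)) = SA at h1 h4
  have hc0 : (0 : ℤ) ≤ (P.card : ℤ) := Int.natCast_nonneg _
  generalize (P.card : ℤ) = c at *
  generalize (P'.card : ℤ) = c' at *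
  generalize (∑ m ∈ P', (m : ℤ)) = s' at *
  generalize (∑ m ∈ P, (m : ℤ)) = s at *
  -- s' = s + SB - SA, c' = c + b - a
  have hs : s' = s + SB - SA := by linarith
  have hc : c' = c + b - a := by linarith
  subst hs hc
  have hba : 0 ≤ b - a := by linarith
  -- SB - SA + z' - z ≥ (b - a) x2 + 4
  have e1 : (b - a) * x2 ≤ (b - a) * L := mul_le_mul_of_nonneg_left (by linarith) hba
  have e2 : L - U ≤ a * (L - U) := by
    have : 0 ≤ (a - 1) * (L - U) := mul_nonneg (by linarith) (by linarith)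
    linarith
  have e3 : (b - a) * x2 + 4 ≤ SB - SA + z' - z := by nlinarith
  have e4 : (b - a) * (s + z) ≤ (b - a) * ((c + 1) * x2) := mul_le_mul_of_nonneg_left hn hba
  have e5 : ((b - a) * x2 + 4) * (c + 1) ≤ (SB - SA + z' - z) * (c + 1) :=
    mul_le_mul_of_nonneg_right e3 (by linarith)
  nlinarith

/-- the arithmetic at the left end -/
lemma VNE_left (P P' : Finset ℕ) (x1 y2 z z' : ℤ) (hP : (P.card : ℤ) ≤ P'.card)
    (hn : (P.card + 1) * x1 ≤ (∑ m ∈ P, (m : ℤ)) + z)
    (hA : ∀ m ∈ P \ P', max (y2 + 1) x1 ≤ (m : ℤ))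
    (hB : ∀ m ∈ P' \ P, (m : ℤ) ≤ min (x1 - 1) y2)
    (hne : 1 ≤ (P \ P').card) (hz : x1 - y2 + 2 ≤ z - z') :
    ((∑ m ∈ P', (m : ℤ)) + z') * (P.card + 1) + 4 * (P.card + 1) ≤
      (P'.card + 1) * ((∑ m ∈ P, (m : ℤ)) + z) := by
  have h1 := Finset.sum_sdiff_sub_sum_sdiff (s₁ := P) (s₂ := P') (f := fun m : ℕ => (m : ℤ))
  have h2 := Finset.sum_sdiff_sub_sum_sdiff (s₁ := P) (s₂ := P') (f := fun _ : ℕ => (1 : ℤ))
  simp only [Finset.sum_const, nsmul_eq_mul, mul_one] at h2
  have h3 : ((P \ P').card : ℤ) * max (y2 + 1) x1 ≤ ∑ m ∈ P \ P', (m : ℤ) := by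
    have := Finset.card_nsmul_le_sum (P \ P') (fun m : ℕ => (m : ℤ)) (max (y2 + 1) x1) hA
    rwa [nsmul_eq_mul] at this
  have h4 : ∑ m ∈ P' \ P, (m : ℤ) ≤ ((P' \ P).card : ℤ) * min (x1 - 1) y2 := by
    have := Finset.sum_le_card_nsmul (P' \ P) (fun m : ℕ => (m : ℤ)) (min (x1 - 1) y2) hB
    rwa [nsmul_eq_mul] at this
  generalize hL : max (y2 + 1) x1 = L at h3
  generalize hU : min (x1 - 1) y2 = U at h4
  have hL1 : y2 + 1 ≤ L := hL ▸ le_max_left _ _
  have hL2 : x1 ≤ L := hL ▸ le_max_right _ _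
  have hU1 : U ≤ x1 - 1 := hU ▸ min_le_left _ _
  have hU2 : U ≤ y2 := hU ▸ min_le_right _ _
  have ha : (1 : ℤ) ≤ ((P \ P').card : ℤ) := by exact_mod_cast hne
  generalize ((P \ P').card : ℤ) = a at h2 h3 ha
  generalize ((P' \ P).card : ℤ) = b at h2 h4
  generalize (∑ m ∈ P' \ P, (m : ℤ)) = SB at h1 h4
  generalize (∑ m ∈ P \ P', (m : ℤ)) = SA at h1 h3
  have hc0 : (0 : ℤ) ≤ (P.card : ℤ) := Int.natCast_nonneg _
  generalize (P.card : ℤ) = c at *
  generalize (P'.card : ℤ) = c' at *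
  generalize (∑ m ∈ P', (m : ℤ)) = s' at *
  generalize (∑ m ∈ P, (m : ℤ)) = s at *
  have hs : s' = s + SB - SA := by linarith
  have hc : c' = c + b - a := by linarith
  subst hs hc
  have hba : 0 ≤ b - a := by linarith
  have e1 : (b - a) * U ≤ (b - a) * x1 := mul_le_mul_of_nonneg_left (by linarith) hba
  have e2 : L - U ≤ a * (L - U) := by
    have : 0 ≤ (a - 1) * (L - U) := mul_nonneg (by linarith) (by linarith)
    linarith
  have e3 : SB - SA + z' - z + 4 ≤ (b - a) * x1 := by nlinarith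
  have e4 : (b - a) * ((c + 1) * x1) ≤ (b - a) * (s + z) := mul_le_mul_of_nonneg_left hn hba
  have e5 : (SB - SA + z' - z + 4) * (c + 1) ≤ ((b - a) * x1) * (c + 1) :=
    mul_le_mul_of_nonneg_right e3 (by linarith)
  nlinarith

theorem p_VNE : Stmt_VNE := by
  intro S q q' z z' hq hq' h1 h2 h1' h2' hlen hA hB
  obtain ⟨q1S, q2S, hqq⟩ := mem_runs.1 hq
  obtain ⟨q1S', q2S', hqq'⟩ := mem_runs.1 hq'
  have hcard : ((seg S q).card : ℤ) ≤ (seg S q').card := by exact_mod_cast hlen
  have hsm : (sm S q : ℤ) = ∑ m ∈ seg S q, (m : ℤ) := by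
    unfold sm
    push_cast
    rfl
  have hsm' : (sm S q' : ℤ) = ∑ m ∈ seg S q', (m : ℤ) := by
    unfold sm
    push_cast
    rfl
  constructor
  · by_contra hcon
    push Not at hcon
    -- q.1 < q'.1
    have hlt : q.2 < q'.2 := by
      by_contra hc
      push Not at hc
      have hsub : seg S q' ⊂ seg S q := by
        refine Finset.ssubset_iff_subset_ne.2 ⟨fun m hm => ?_, fun h => ?_⟩
        · rw [mem_seg] at hm ⊢
          exact ⟨hm.1, by omega, by omega⟩
        · have : q.1 ∈ seg S q' := h ▸ mem_seg.2 ⟨q1S, le_rfl, hqq⟩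
          rw [mem_seg] at this
          omega
      have := Finset.card_lt_card hsub
      unfold len at hlen
      omega
    have key := VNE_right (seg S q) (seg S q') q.2 q'.1 z z' hcard ?_ ?_ ?_ ?_ ?_
    · rw [← hsm, ← hsm'] at key
      have hA' : (((sm S q' + z') * (len S q + 1) : ℕ) : ℤ) <
          (((len S q' + 1) * (sm S q + z) + 4 * (len S q + 1) : ℕ) : ℤ) := by exact_mod_cast hA
      unfold len at hA'
      push_cast at hA'
      linarith
    · rw [← hsm]
      have h3 := sm_le_len_mul S q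
      have h4 : ((sm S q + z : ℕ) : ℤ) ≤ (((len S q + 1) * q.2 : ℕ) : ℤ) := by
        have : sm S q + z ≤ (len S q + 1) * q.2 := by
          rw [add_mul, one_mul]
          omega
        exact_mod_cast this
      unfold len at h4
      push_cast at h4
      exact h4
    · intro m hm
      rw [Finset.mem_sdiff, mem_seg, mem_seg] at hm
      obtain ⟨⟨hm1, hm2, hm3⟩, hm4⟩ := hm
      have h5 : m < q'.1 := by
        by_contra hc
        push Not at hc
        exact hm4 ⟨hm1, hc, by omega⟩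
      refine le_min ?_ ?_
      · have : (m : ℤ) < q'.1 := by exact_mod_cast h5
        linarith
      · exact_mod_cast hm3
    · intro m hm
      rw [Finset.mem_sdiff, mem_seg, mem_seg] at hm
      obtain ⟨⟨hm1, hm2, hm3⟩, hm4⟩ := hm
      have h5 : q.2 < m := by
        by_contra hc
        push Not at hc
        exact hm4 ⟨hm1, by omega, hc⟩
      refine max_le ?_ ?_
      · have : (q.2 : ℤ) < m := by exact_mod_cast h5
        linarith
      · exact_mod_cast hm2
    · refine Finset.card_pos.2 ⟨q.1, ?_⟩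
      rw [Finset.mem_sdiff, mem_seg, mem_seg]
      exact ⟨⟨q1S, le_rfl, hqq⟩, fun h => by omega⟩
    · have h6 : (z : ℤ) < q.2 := by exact_mod_cast h2
      have h7 : (q'.1 : ℤ) < z' := by exact_mod_cast h1'
      linarith
  · by_contra hcon
    push Not at hcon
    -- q'.2 < q.2
    have hlt : q'.1 < q.1 := by
      by_contra hc
      push Not at hc
      have hsub : seg S q' ⊂ seg S q := by
        refine Finset.ssubset_iff_subset_ne.2 ⟨fun m hm => ?_, fun h => ?_⟩
        · rw [mem_seg] at hm ⊢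
          exact ⟨hm.1, by omega, by omega⟩
        · have : q.2 ∈ seg S q' := h ▸ mem_seg.2 ⟨q2S, hqq, le_rfl⟩
          rw [mem_seg] at this
          omega
      have := Finset.card_lt_card hsub
      unfold len at hlen
      omega
    have key := VNE_left (seg S q) (seg S q') q.1 q'.2 z z' hcard ?_ ?_ ?_ ?_ ?_
    · rw [← hsm, ← hsm'] at key
      have hB' : (((len S q' + 1) * (sm S q + z) : ℕ) : ℤ) <
          (((sm S q' + z') * (len S q + 1) + 4 * (len S q + 1) : ℕ) : ℤ) := by exact_mod_cast hB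
      unfold len at hB'
      push_cast at hB'
      linarith
    · rw [← hsm]
      have h3 := len_mul_le_sm S q
      have h4 : (((len S q + 1) * q.1 : ℕ) : ℤ) ≤ ((sm S q + z : ℕ) : ℤ) := by
        have : (len S q + 1) * q.1 ≤ sm S q + z := by
          rw [add_mul, one_mul]
          omega
        exact_mod_cast this
      unfold len at h4
      push_cast at h4
      exact h4
    · intro m hm
      rw [Finset.mem_sdiff, mem_seg, mem_seg] at hm
      obtain ⟨⟨hm1, hm2, hm3⟩, hm4⟩ := hm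
      have h5 : q'.2 < m := by
        by_contra hc
        push Not at hc
        exact hm4 ⟨hm1, by omega, hc⟩
      refine max_le ?_ ?_
      · have : (q'.2 : ℤ) < m := by exact_mod_cast h5
        linarith
      · exact_mod_cast hm2
    · intro m hm
      rw [Finset.mem_sdiff, mem_seg, mem_seg] at hm
      obtain ⟨⟨hm1, hm2, hm3⟩, hm4⟩ := hm
      have h5 : m < q.1 := by
        by_contra hc
        push Not at hc
        exact hm4 ⟨hm1, hc, by omega⟩
      refine le_min ?_ ?_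
      · have : (m : ℤ) < q.1 := by exact_mod_cast h5
        linarith
      · exact_mod_cast hm3
    · refine Finset.card_pos.2 ⟨q.2, ?_⟩
      rw [Finset.mem_sdiff, mem_seg, mem_seg]
      exact ⟨⟨q2S, hqq, le_rfl⟩, fun h => by omega⟩
    · have h6 : (q.1 : ℤ) < z := by exact_mod_cast h1
      have h7 : (z' : ℤ) < q'.2 := by exact_mod_cast h2'
      linarith

end Pool.Agent.Work.MP_7d0410_sp

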