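import Pool.Agent.Work.MP_7d0410_sv.Interface
import Pool.Agent.Work.MP_7d0410_sp.B_NPD

set_option autoImplicit false

/-! Block VNG: for most `n` there is a run of length `r - 1` with room for one more element. -/

namespace Pool.Agent.Work.MP_7d0410_sp

open Finset Filter MeasureTheory ProbabilityTheory
open Pool.Agent.Work.MP_7d0410_cr
open scoped Classical Topology

/-- the maximal short run and the next one -/
theorem VNG_key (hSFT : Stmt_SFT) (r n : ℕ) (S : Finset ℕ) (hr : 3 ≤ r)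
    (h1 : ∃ q ∈ runs S, len S q + 1 = r ∧ sm S q + q.1 ≤ n)
    (h2 : ∃ q ∈ runs S, len S q + 1 = r ∧ n ≤ sm S q + q.2) :
    ∃ u v : ℕ, (u, v) ∈ runs S ∧ len S (u, v) = r - 1 ∧ sm S (u, v) + u ≤ n ∧
      (n ≤ sm S (u, v) + v ∨ ∃ u' v' : ℕ, sm S (u, v) + v < n ∧ u' ∈ S ∧
      v' ∈ S ∧ u < u' ∧ v < v' ∧ (∀ s ∈ S, u < s → u' ≤ s) ∧ (∀ s ∈ S, v < s → v' ≤ s) ∧
      n + u < sm S (u, v) + v' + u') := by
  set Q := (runs S).filter (fun q => len S q + 1 = r ∧ sm S q + q.1 ≤ n) with hQ
  have hQne : Q.Nonempty := by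
    obtain ⟨q, hq, hq1, hq2⟩ := h1
    exact ⟨q, Finset.mem_filter.2 ⟨hq, hq1, hq2⟩⟩
  obtain ⟨q, hqQ, hmax⟩ := Finset.exists_max_image Q (fun q => q.1) hQne
  obtain ⟨u, v⟩ := q
  obtain ⟨hqr, hql, hqs⟩ := Finset.mem_filter.1 hqQ
  dsimp only at hqs
  obtain ⟨huS, hvS, huv⟩ := mem_runs.1 hqr
  dsimp only at huS hvS huv
  have huv' : u < v := by
    rcases Nat.lt_or_ge u v with h | h
    · exact h
    · exfalso
      have h3 : seg S (u, v) ⊆ {u} := by
        intro s hs
        rw [mem_seg] at hs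
        rw [Finset.mem_singleton]
        dsimp only at hs
        omega
      have h4 := Finset.card_le_card h3
      rw [Finset.card_singleton] at h4
      unfold len at hql
      omega
  have hsegu : u ∈ seg S (u, v) := mem_seg.2 ⟨huS, le_refl _, huv⟩
  refine ⟨u, v, hqr, by omega, hqs, ?_⟩
  by_cases hnv : n ≤ sm S (u, v) + v
  · exact Or.inl hnv
  push Not at hnv
  right
  -- the successors
  have hne1 : (S.filter (fun s => u < s)).Nonempty := ⟨v, Finset.mem_filter.2 ⟨hvS, huv'⟩⟩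
  have hne2 : (S.filter (fun s => v < s)).Nonempty := by
    obtain ⟨q2, hq2, hl2, hn2⟩ := h2
    have hS2 := mem_runs.1 hq2
    refine ⟨q2.2, Finset.mem_filter.2 ⟨hS2.2.1, ?_⟩⟩
    rcases lt_trichotomy q2.1 u with h3 | h3 | h3
    · exfalso
      have h4 := hSFT S q2 (u, v) hq2 hqr (by omega) h3
      dsimp only at h4
      omega
    · exfalso
      have h4 := NPD_end S q2 (u, v) hq2 hqr (by omega) h3
      rw [h4] at hn2
      dsimp only at hn2
      omega
    · have h4 := (hSFT S (u, v) q2 hqr hq2 (by omega) h3).1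
      exact h4
  set u' := (S.filter (fun s => u < s)).min' hne1 with hu'
  set v' := (S.filter (fun s => v < s)).min' hne2 with hv'
  have hu'1 := Finset.mem_filter.1 ((S.filter (fun s => u < s)).min'_mem hne1)
  have hv'1 := Finset.mem_filter.1 ((S.filter (fun s => v < s)).min'_mem hne2)
  rw [← hu'] at hu'1
  rw [← hv'] at hv'1
  have hu'2 : ∀ s ∈ S, u < s → u' ≤ s := fun s hs h =>
    Finset.min'_le _ s (Finset.mem_filter.2 ⟨hs, h⟩)
  have hv'2 : ∀ s ∈ S, v < s → v' ≤ s := fun s hs h =>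
    Finset.min'_le _ s (Finset.mem_filter.2 ⟨hs, h⟩)
  have huv2 : u' ≤ v' := hu'2 v' hv'1.1 (by omega)
  have hq'r : (u', v') ∈ runs S := mem_runs.2 ⟨hu'1.1, hv'1.1, huv2⟩
  have hv'n : v' ∉ (seg S (u, v)).erase u := by
    intro h
    have h3 := mem_seg.1 (Finset.mem_erase.1 h).2
    dsimp only at h3
    omega
  have hseg' : seg S (u', v') = insert v' ((seg S (u, v)).erase u) := by
    ext s
    rw [mem_seg, Finset.mem_insert, Finset.mem_erase, mem_seg]
    dsimp only
    constructor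
    · rintro ⟨h3, h4, h5⟩
      by_cases h6 : s = v'
      · exact Or.inl h6
      · refine Or.inr ⟨by omega, h3, by omega, ?_⟩
        by_contra h7
        push Not at h7
        have := hv'2 s h3 h7
        omega
    · rintro (h3 | ⟨h3, h4, h5, h6⟩)
      · rw [h3]
        exact ⟨hv'1.1, huv2, le_refl _⟩
      · have h7 := hu'2 s h4 (by omega)
        exact ⟨h4, h7, by omega⟩
  have hlen' : len S (u', v') + 1 = r := by
    unfold len at hql ⊢
    rw [hseg', Finset.card_insert_of_notMem hv'n, Finset.card_erase_of_mem hsegu]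
    omega
  have hsm' : sm S (u', v') + u = sm S (u, v) + v' := by
    unfold sm
    rw [hseg', Finset.sum_insert hv'n]
    have h3 := Finset.sum_erase_add (seg S (u, v)) (fun m => m) hsegu
    omega
  refine ⟨u', v', hnv, hu'1.1, hv'1.1, hu'1.2, hv'1.2, hu'2, hv'2, ?_⟩
  by_contra hc
  push Not at hc
  have h3 : (u', v') ∈ Q := Finset.mem_filter.2 ⟨hq'r, hlen', by dsimp only; omega⟩
  have h4 := hmax (u', v') h3
  dsimp only at h4
  omega

theorem p_VNG (hSFT : Stmt_SFT) : Stmt_VNG := by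
  intro a b r x S hS ha hr
  set N := (Finset.Icc 1 x).filter (fun n => (∃ q ∈ runs S, len S q + 1 = r ∧ sm S q + q.1 ≤ n) ∧
    (∃ q ∈ runs S, len S q + 1 = r ∧ n ≤ sm S q + q.2) ∧ ¬ PT S r n) with hN
  set A := N.filter (fun n => ∃ q ∈ runs S, len S q = r - 1 ∧ sm S q + q.1 ≤ n ∧
    n ≤ sm S q + q.2 ∧ n - sm S q ∈ S) with hA
  set B := N.filter (fun n => ¬ ∃ q ∈ runs S, len S q = r - 1 ∧ sm S q + q.1 ≤ n ∧
    n ≤ sm S q + q.2 ∧ n - sm S q ∈ S) with hB
  have hcard : N.card = A.card + B.card := (Finset.card_filter_add_card_filter_not _).symm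
  -- the first kind
  have hAc : A.card ≤ r * (S.filter (fun m => (r - 1) * m ≤ x)).card := by
    set T := S.filter (fun m => (r - 1) * m ≤ x) with hT
    set Q := (runs S).filter (fun q => len S q = r - 1 ∧ q.1 ∈ T) with hQ
    have hsub : A ⊆ Q.biUnion (fun q => (seg S q).image (fun s => sm S q + s)) := by
      intro n hn
      rw [hA, Finset.mem_filter] at hn
      obtain ⟨hnN, q, hq, hl, hs1, hs2, hs3⟩ := hn
      have hnx : n ≤ x := (Finset.mem_Icc.1 (Finset.mem_filter.1 hnN).1).2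
      rw [Finset.mem_biUnion]
      refine ⟨q, ?_, ?_⟩
      · rw [hQ, Finset.mem_filter]
        refine ⟨hq, hl, Finset.mem_filter.2 ⟨(mem_runs.1 hq).1, ?_⟩⟩
        have h3 := len_mul_le_sm S q
        rw [hl] at h3
        omega
      · rw [Finset.mem_image]
        exact ⟨n - sm S q, mem_seg.2 ⟨hs3, by omega, by omega⟩, by omega⟩
    have hQc : Q.card ≤ T.card := by
      refine Finset.card_le_card_of_injOn (fun q => q.1) ?_ ?_
      · intro q hq
        have h3 := Finset.mem_filter.1 (Finset.mem_coe.1 hq)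
        exact h3.2.2
      · intro q hq q' hq' h
        have h3 := Finset.mem_filter.1 (Finset.mem_coe.1 hq)
        have h4 := Finset.mem_filter.1 (Finset.mem_coe.1 hq')
        exact NPD_end S q q' h3.1 h4.1 (h3.2.1.trans h4.2.1.symm) h
    calc A.card ≤ (Q.biUnion (fun q => (seg S q).image (fun s => sm S q + s))).card :=
          Finset.card_le_card hsub
      _ ≤ ∑ q ∈ Q, ((seg S q).image (fun s => sm S q + s)).card := Finset.card_biUnion_le
      _ ≤ ∑ q ∈ Q, r := by
          refine Finset.sum_le_sum fun q hq => Finset.card_image_le.trans ?_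
          have h3 := (Finset.mem_filter.1 hq).2.1
          unfold len at h3
          omega
      _ = Q.card * r := by rw [Finset.sum_const, smul_eq_mul]
      _ ≤ T.card * r := Nat.mul_le_mul_right _ hQc
      _ = r * T.card := by ring
  -- the second kind
  have hBk : ∀ n ∈ B, ∃ u v u' v' : ℕ, (u, v) ∈ runs S ∧ len S (u, v) = r - 1 ∧
      sm S (u, v) + v < n ∧ u' ∈ S ∧ v' ∈ S ∧ u < u' ∧ v < v' ∧ (∀ s ∈ S, u < s → u' ≤ s) ∧
      (∀ s ∈ S, v < s → v' ≤ s) ∧ n + u < sm S (u, v) + v' + u' := by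
    intro n hn
    rw [hB, Finset.mem_filter] at hn
    obtain ⟨hnN, hnA⟩ := hn
    obtain ⟨_, h1, h2, hPT⟩ := Finset.mem_filter.1 hnN
    obtain ⟨u, v, k1, k2, k3, k4⟩ := VNG_key hSFT r n S hr h1 h2
    rcases k4 with k4 | ⟨u', v', k4⟩
    · exfalso
      have huv := mem_runs.1 k1
      dsimp only at huv
      by_cases h3 : n - sm S (u, v) ∈ S
      · exact hnA ⟨(u, v), k1, k2, k3, k4, h3⟩
      · have h4 : n - sm S (u, v) ≠ u := fun h => h3 (by rw [h]; exact huv.1)
        have h5 : n - sm S (u, v) ≠ v := fun h => h3 (by rw [h]; exact huv.2.1)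
        exact hPT ⟨(u, v), k1, by omega, by dsimp only; omega, by dsimp only; omega, h3⟩
    · exact ⟨u, v, u', v', k1, k2, k4⟩
  choose! u v u' v' k using hBk
  have hab : (Finset.Icc a b).card ≤ b := by
    rw [Nat.card_Icc]
    omega
  have hSab : ∀ s ∈ S, a ≤ s ∧ s ≤ b := fun s hs => Finset.mem_Icc.1 (hS hs)
  -- equal first elements
  have hsame : ∀ n ∈ B, ∀ m ∈ B, u n = u m → v n = v m ∧ u' n = u' m ∧ v' n = v' m := by
    intro n hn m hm h
    obtain ⟨a1, a2, a3, a4, a5, a6, a7, a8, a9, a10⟩ := k n hn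
    obtain ⟨b1, b2, b3, b4, b5, b6, b7, b8, b9, b10⟩ := k m hm
    have h3 := NPD_end S (u n, v n) (u m, v m) a1 b1 (a2.trans b2.symm) h
    have h4 : v n = v m := (Prod.mk.inj h3).2
    refine ⟨h4, le_antisymm ?_ ?_, le_antisymm ?_ ?_⟩
    · exact a8 _ b4 (by omega)
    · exact b8 _ a4 (by omega)
    · exact a9 _ b5 (by omega)
    · exact b9 _ a5 (by omega)
  -- equal last elements
  have hsame2 : ∀ n ∈ B, ∀ m ∈ B, v n = v m → u n = u m := by
    intro n hn m hm h
    obtain ⟨a1, a2, -⟩ := k n hn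
    obtain ⟨b1, b2, -⟩ := k m hm
    rcases lt_trichotomy (u n) (u m) with h1 | h1 | h1
    · have h2 := (hSFT S (u n, v n) (u m, v m) a1 b1 (a2.trans b2.symm) h1).1
      dsimp only at h2
      omega
    · exact h1
    · have h2 := (hSFT S (u m, v m) (u n, v n) b1 a1 (b2.trans a2.symm) h1).1
      dsimp only at h2
      omega
  have hB0 : (B.filter (fun n => n < sm S (u n, v n) + v' n)).card ≤ b := by
    refine le_trans (Finset.card_le_card_of_injOn (fun n => n - sm S (u n, v n))
      (t := Finset.Icc a b) ?_ ?_) hab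
    · intro n hn
      obtain ⟨hn1, hn2⟩ := Finset.mem_filter.1 (Finset.mem_coe.1 hn)
      obtain ⟨a1, a2, a3, a4, a5, a6, a7, a8, a9, a10⟩ := k n hn1
      have h3 := hSab _ (mem_runs.1 a1).2.1
      have h4 := hSab _ a5
      rw [Finset.mem_coe, Finset.mem_Icc]
      dsimp only at h3 ⊢
      omega
    · intro n hn m hm h
      obtain ⟨hn1, hn2⟩ := Finset.mem_filter.1 (Finset.mem_coe.1 hn)
      obtain ⟨hm1, hm2⟩ := Finset.mem_filter.1 (Finset.mem_coe.1 hm)
      obtain ⟨a1, a2, a3, a4, a5, a6, a7, a8, a9, a10⟩ := k n hn1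
      obtain ⟨b1, b2, b3, b4, b5, b6, b7, b8, b9, b10⟩ := k m hm1
      have h3 := (mem_runs.1 a1).2.1
      have h4 := (mem_runs.1 b1).2.1
      dsimp only at h h3 h4
      have h5 : v n = v m := by
        rcases lt_trichotomy (v n) (v m) with h6 | h6 | h6
        · have := a9 _ h4 h6
          omega
        · exact h6
        · have := b9 _ h3 h6
          omega
      have h6 := hsame2 n hn1 m hm1 h5
      rw [h5, h6] at h a3
      omega
  have hB1 : (B.filter (fun n => ¬ n < sm S (u n, v n) + v' n)).card ≤ b := by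
    refine le_trans (Finset.card_le_card_of_injOn (fun n => u n + (n - (sm S (u n, v n) + v' n)))
      (t := Finset.Icc a b) ?_ ?_) hab
    · intro n hn
      obtain ⟨hn1, hn2⟩ := Finset.mem_filter.1 (Finset.mem_coe.1 hn)
      obtain ⟨a1, a2, a3, a4, a5, a6, a7, a8, a9, a10⟩ := k n hn1
      have h3 := hSab _ (mem_runs.1 a1).1
      have h4 := hSab _ a4
      rw [Finset.mem_coe, Finset.mem_Icc]
      dsimp only at h3 ⊢
      omega
    · intro n hn m hm h
      obtain ⟨hn1, hn2⟩ := Finset.mem_filter.1 (Finset.mem_coe.1 hn)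
      obtain ⟨hm1, hm2⟩ := Finset.mem_filter.1 (Finset.mem_coe.1 hm)
      obtain ⟨a1, a2, a3, a4, a5, a6, a7, a8, a9, a10⟩ := k n hn1
      obtain ⟨b1, b2, b3, b4, b5, b6, b7, b8, b9, b10⟩ := k m hm1
      have h3 := (mem_runs.1 a1).1
      have h4 := (mem_runs.1 b1).1
      dsimp only at h h3 h4
      have h5 : u n = u m := by
        rcases lt_trichotomy (u n) (u m) with h6 | h6 | h6
        · have := a8 _ h4 h6
          omega
        · exact h6
        · have := b8 _ h3 h6
          omega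
      obtain ⟨h6, h7, h8⟩ := hsame n hn1 m hm1 h5
      rw [h5, h6, h8] at h hn2
      omega
  have hBc : B.card = (B.filter (fun n => n < sm S (u n, v n) + v' n)).card +
      (B.filter (fun n => ¬ n < sm S (u n, v n) + v' n)).card :=
    (Finset.card_filter_add_card_filter_not _).symm
  omega

end Pool.Agent.Work.MP_7d0410_sp
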