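import Pool.Agent.Work.MP_7d0410_sv.Interface

/-!
# VNS: comparison of the lengths
-/

set_option autoImplicit false

namespace Pool.Agent.Work.MP_7d0410_sp

open Finset Filter MeasureTheory ProbabilityTheory
open Pool.Agent.Work.MP_7d0410_cr
open scoped Classical Topology

lemma VNS_bounds {R R' r n x : ℕ} {ν s : ℝ} (hRr : R < r) (hR2 : R' ≤ 2 * R)
    (hnx : n ≤ x) (hx : 1 ≤ x) (hnu : (n : ℝ) ≤ ν) (hnu2 : ν ≤ n + 1 / 4) (hs : 0 ≤ s)
    (hs2 : s ≤ 1 / (8 * x)) :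
    ⌊(R' : ℝ) * (ν / r * Real.exp (-s))⌋₊ * r < R' * n + 4 * r ∧
    R' * n < ⌊(R' : ℝ) * (ν / r * Real.exp (-s))⌋₊ * r + 4 * r := by
  have hr : (0 : ℝ) < r := by
    have : 0 < r := by omega
    exact_mod_cast this
  have hn0 : (0 : ℝ) ≤ n := Nat.cast_nonneg n
  have hν0 : 0 ≤ ν := hn0.trans hnu
  have hR'0 : (0 : ℝ) ≤ R' := Nat.cast_nonneg R'
  have hR'r : (R' : ℝ) ≤ 2 * r := by
    have : R' ≤ 2 * r := by omega
    exact_mod_cast this
  have hx0 : (0 : ℝ) < x := by exact_mod_cast hx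
  have hnx' : (n : ℝ) ≤ x := by exact_mod_cast hnx
  have he1 : Real.exp (-s) ≤ 1 := by
    rw [Real.exp_le_one_iff]
    linarith
  have he0 : 0 ≤ Real.exp (-s) := (Real.exp_pos _).le
  have he2 : 1 - s ≤ Real.exp (-s) := by
    have := Real.add_one_le_exp (-s)
    linarith
  have hy0 : 0 ≤ (R' : ℝ) * (ν / r * Real.exp (-s)) := by positivity
  have hyr : (R' : ℝ) * (ν / r * Real.exp (-s)) * r = R' * ν * Real.exp (-s) := by
    field_simp
  have hns : (n : ℝ) * s ≤ 1 / 8 := by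
    calc (n : ℝ) * s ≤ x * (1 / (8 * x)) := mul_le_mul hnx' hs2 hs hx0.le
      _ = 1 / 8 := by field_simp
  constructor
  · have h1 : (⌊(R' : ℝ) * (ν / r * Real.exp (-s))⌋₊ : ℝ) * r ≤ R' * ν := by
      calc (⌊(R' : ℝ) * (ν / r * Real.exp (-s))⌋₊ : ℝ) * r
          ≤ (R' : ℝ) * (ν / r * Real.exp (-s)) * r :=
            mul_le_mul_of_nonneg_right (Nat.floor_le hy0) hr.le
        _ = R' * ν * Real.exp (-s) := hyr
        _ ≤ R' * ν * 1 := mul_le_mul_of_nonneg_left he1 (by positivity)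
        _ = R' * ν := mul_one _
    have h2 : (R' : ℝ) * ν ≤ R' * n + R' * (1 / 4) := by nlinarith
    have h3 : ((⌊(R' : ℝ) * (ν / r * Real.exp (-s))⌋₊ * r : ℕ) : ℝ) <
        ((R' * n + 4 * r : ℕ) : ℝ) := by
      push_cast
      nlinarith
    exact_mod_cast h3
  · have h1 : (R' : ℝ) * ν * Real.exp (-s) - r <
        (⌊(R' : ℝ) * (ν / r * Real.exp (-s))⌋₊ : ℝ) * r := by
      have h4 := Nat.lt_floor_add_one ((R' : ℝ) * (ν / r * Real.exp (-s)))
      have h5 : (R' : ℝ) * (ν / r * Real.exp (-s)) * r <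
          ((⌊(R' : ℝ) * (ν / r * Real.exp (-s))⌋₊ : ℝ) + 1) * r :=
        mul_lt_mul_of_pos_right h4 hr
      rw [hyr] at h5
      linarith
    have h2 : (R' : ℝ) * n - R' * (1 / 8) ≤ R' * ν * Real.exp (-s) := by
      have h6 : (n : ℝ) - 1 / 8 ≤ ν * Real.exp (-s) := by
        calc (n : ℝ) - 1 / 8 ≤ n - n * s := by linarith
          _ = n * (1 - s) := by ring
          _ ≤ n * Real.exp (-s) := mul_le_mul_of_nonneg_left he2 hn0
          _ ≤ ν * Real.exp (-s) := mul_le_mul_of_nonneg_right hnu he0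
      nlinarith
    have h3 : ((R' * n : ℕ) : ℝ) <
        ((⌊(R' : ℝ) * (ν / r * Real.exp (-s))⌋₊ * r + 4 * r : ℕ) : ℝ) := by
      push_cast
      nlinarith
    exact_mod_cast h3

theorem p_VNS (hVNE : Stmt_VNE) (hVHB : Stmt_VHB) : Stmt_VNS := by
  intro w hw ε η hε hε4 hη hη1
  obtain ⟨C, hC, hev⟩ := hVHB w hw ε η hε hε4 hη hη1
  refine ⟨C, hC, ?_⟩
  filter_upwards [hev, eventually_ge_atTop 3] with x hx hx3 S R R' r n ν s hTY hR0 hRr hrR' hR2
    hnx hnu hnu2 hs hs2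
  obtain ⟨hb1, hb2⟩ := VNS_bounds (R := R) (R' := R') (r := r) (n := n) (x := x) (ν := ν) (s := s)
    hRr hR2 hnx (by omega) hnu hnu2 hs hs2
  have hx3' : (3 : ℝ) ≤ x := by exact_mod_cast hx3
  have hlog : 0 < Real.log x := Real.log_pos (by linarith)
  have hxε : (0 : ℝ) < (x : ℝ) ^ ε := Real.rpow_pos_of_pos (by linarith) _
  have hR0' : (x : ℝ) ^ ε ≤ R := by
    have h1 : (x : ℝ) ^ ε ≤ (R0 ε x : ℝ) := Nat.le_ceil _
    have h2 : ((R0 ε x : ℕ) : ℝ) ≤ R := by exact_mod_cast hR0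
    exact h1.trans h2
  have hRpos : (0 : ℝ) < R := lt_of_lt_of_le hxε hR0'
  have hrhs : 0 ≤ (if PT S r n then (0 : ℝ) else C / (R * Real.log x)) := by
    split_ifs
    · exact le_rfl
    · positivity
  unfold HS
  set n' := ⌊(R' : ℝ) * (ν / r * Real.exp (-s))⌋₊ with hn'
  by_cases hPT' : PT S R' n'
  swap
  · rw [gR_eq_zero hPT']
    have := gR_nonneg S r n
    linarith
  rw [PT_iff] at hPT'
  obtain ⟨q', hq'⟩ := hPT'
  rw [gR_eq hq']
  have hq'lt : (q'.1 : ℝ) < q'.2 := by exact_mod_cast PTS_lt hq'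
  obtain ⟨a1, a2, a3, a4, -⟩ := mem_PTS.1 hq'
  have hpos' : 0 < (q'.2 : ℝ) - q'.1 := by linarith
  by_cases hPT : PT S r n
  · rw [if_pos hPT, add_zero]
    rw [PT_iff] at hPT
    obtain ⟨q, hq⟩ := hPT
    rw [gR_eq hq]
    have hqlt : (q.1 : ℝ) < q.2 := by exact_mod_cast PTS_lt hq
    obtain ⟨b1, b2, b3, b4, -⟩ := mem_PTS.1 hq
    have hz : sm S q + (n - sm S q) = n := by omega
    have hz' : sm S q' + (n' - sm S q') = n' := by omega
    obtain ⟨c1, c2⟩ := hVNE S q q' (n - sm S q) (n' - sm S q') b1 a1 (by omega) (by omega)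
      (by omega) (by omega) (by omega) (by rw [hz, hz', a2, b2]; exact hb1)
      (by rw [hz, hz', a2, b2]; exact hb2)
    have c1' : (q'.1 : ℝ) ≤ q.1 := by exact_mod_cast c1
    have c2' : (q.2 : ℝ) ≤ q'.2 := by exact_mod_cast c2
    exact one_div_le_one_div_of_le (by linarith) (by linarith)
  · rw [gR_eq_zero hPT, if_neg hPT, zero_add]
    have hlen : (R : ℝ) ≤ (len S q' : ℝ) := by
      have : R ≤ len S q' := by omega
      exact_mod_cast this
    have h1 := hx S hTY q' a1 (by linarith)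
    have h2 : (R : ℝ) * Real.log x ≤ C * ((q'.2 : ℝ) - q'.1) :=
      (mul_le_mul_of_nonneg_right hlen hlog.le).trans h1
    rw [div_le_div_iff₀ hpos' (by positivity)]
    linarith

end Pool.Agent.Work.MP_7d0410_sp
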