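import Pool.Agent.Work.MP_7d0410_sv.Interface

set_option autoImplicit false

namespace Pool.Agent.Work.MP_7d0410_sp

open Finset Filter MeasureTheory ProbabilityTheory
open Pool.Agent.Work.MP_7d0410_cr
open scoped Classical Topology ContDiff

lemma VPL_FT (F : ℝ → ℂ) (t : ℝ) : FT F t = FourierTransform.fourier F t := by
  unfold FT
  rw [Real.fourier_real_eq]
  refine integral_congr_ae (Eventually.of_forall fun y => ?_)
  show F y * ee (-(t * y)) = Real.fourierChar (-(y * t)) • F y
  rw [Circle.smul_def, Real.fourierChar_apply, smul_eq_mul, mul_comm]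
  unfold ee
  congr 2
  push_cast
  ring_nf

lemma VPL_cont {F : ℝ → ℂ} (hF : Integrable F) :
    Continuous (fun t => FourierTransform.fourier F t) :=
  VectorFourier.fourierIntegral_continuous (L := innerₗ ℝ) Real.continuous_fourierChar
    (by exact continuous_inner) hF

lemma VPL_sq (g : Lp ℂ 2 (volume : Measure ℝ)) : ‖g‖ ^ 2 = ∫ y, ‖g y‖ ^ 2 := by
  have h1 : ((‖g‖ ^ 2 : ℝ) : ℂ) = inner ℂ g g := by
    rw [Complex.ofReal_pow]
    exact (inner_self_eq_norm_sq_to_K g).symm
  rw [L2.inner_def] at h1
  have h2 : ∀ a, inner ℂ (g a) (g a) = ((‖g a‖ ^ 2 : ℝ) : ℂ) := by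
    intro a
    rw [inner_self_eq_norm_sq_to_K]
    norm_cast
  have h3 : ∫ a, inner ℂ (g a) (g a) = ((∫ y, ‖g y‖ ^ 2 : ℝ) : ℂ) := by
    rw [← integral_complex_ofReal]
    exact integral_congr_ae (Eventually.of_forall h2)
  rw [h3] at h1
  exact_mod_cast h1

theorem p_VPL : Stmt_VPL := by
  intro F hF hFs
  have hint : Integrable F := hF.integrable_of_hasCompactSupport hFs
  have hL2 : MemLp F 2 (volume : Measure ℝ) := hF.memLp_of_hasCompactSupport hFs
  let f : Lp ℂ 2 (volume : Measure ℝ) := hL2.toLp F
  let g : Lp ℂ 2 (volume : Measure ℝ) := FourierTransform.fourier f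
  have hcont := VPL_cont hint
  have hae : ∀ᵐ t, g t = FourierTransform.fourier F t := by
    apply ae_eq_of_integral_contDiff_smul_eq
    · exact (Lp.memLp g).locallyIntegrable (by norm_num)
    · exact hcont.locallyIntegrable
    · intro φ hφ hφs
      have hg₁ : HasCompactSupport (Complex.ofRealCLM ∘ φ) := hφs.comp_left rfl
      have hg₂ : ContDiff ℝ ∞ (Complex.ofRealCLM ∘ φ) := Complex.ofRealCLM.contDiff.comp hφ
      let ψ : SchwartzMap ℝ ℂ := hg₁.toSchwartzMap hg₂
      have k1 := Lp.fourier_toTemperedDistribution_eq f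
      have k2 : (FourierTransform.fourier (Lp.toTemperedDistribution f)) ψ =
          (Lp.toTemperedDistribution g) ψ := by rw [k1]
      rw [TemperedDistribution.fourier_apply, Lp.toTemperedDistribution_apply,
        Lp.toTemperedDistribution_apply] at k2
      have k3 : ∀ x, ψ x = (φ x : ℂ) := fun x => rfl
      have k4 : ∫ x, φ x • g x = ∫ x, ψ x • g x := by
        refine integral_congr_ae (Eventually.of_forall fun x => ?_)
        show φ x • g x = ψ x • g x
        rw [k3, smul_eq_mul, Complex.real_smul]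
      have k5 : ∫ x, φ x • FourierTransform.fourier F x =
          ∫ x, FourierTransform.fourier F x • ψ x := by
        refine integral_congr_ae (Eventually.of_forall fun x => ?_)
        show φ x • FourierTransform.fourier F x = FourierTransform.fourier F x • ψ x
        rw [k3, smul_eq_mul, Complex.real_smul, mul_comm]
      have k6 : ∫ x, (FourierTransform.fourier ψ) x • f x =
          ∫ x, F x • FourierTransform.fourier (ψ : ℝ → ℂ) x := by
        refine integral_congr_ae ?_
        filter_upwards [hL2.coeFn_toLp] with x hx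
        rw [show f x = F x from hx, smul_eq_mul, smul_eq_mul, mul_comm]
        rfl
      have k7 : ∫ x, FourierTransform.fourier F x • ψ x =
          ∫ x, F x • FourierTransform.fourier (ψ : ℝ → ℂ) x := by
        have := VectorFourier.integral_fourierIntegral_smul_eq_flip (L := innerₗ ℝ)
          (μ := (volume : Measure ℝ)) (ν := (volume : Measure ℝ))
          Real.continuous_fourierChar (by exact continuous_inner) hint ψ.integrable
        rw [flip_innerₗ] at this
        exact this
      rw [k4, k5, k7, ← k6, k2]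
  have h1 : ∀ᵐ t, ‖FT F t‖ ^ 2 = ‖g t‖ ^ 2 := by
    filter_upwards [hae] with t ht
    rw [VPL_FT, ht]
  have h2 : ∀ᵐ y, ‖F y‖ ^ 2 = ‖f y‖ ^ 2 := by
    filter_upwards [hL2.coeFn_toLp] with y hy
    rw [hy]
  have h3 : Integrable (fun t => ‖g t‖ ^ 2) :=
    (memLp_two_iff_integrable_sq_norm (Lp.memLp g).1).1 (Lp.memLp g)
  refine ⟨h3.congr (by filter_upwards [h1] with t ht; exact ht.symm), ?_⟩
  rw [integral_congr_ae h1, integral_congr_ae h2, ← VPL_sq, ← VPL_sq]
  show ‖FourierTransform.fourier f‖ ^ 2 = ‖f‖ ^ 2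
  rw [Lp.norm_fourier_eq]

end Pool.Agent.Work.MP_7d0410_sp
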