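import Pool.Agent.Work.MP_7d0410_sv.Interface
import Pool.Agent.Work.MP_7d0410_sp.B_NPD

/-!
# Block VPT: few exceptions
-/

set_option autoImplicit false

namespace Pool.Agent.Work.MP_7d0410_sp

open Finset Filter MeasureTheory ProbabilityTheory
open Pool.Agent.Work.MP_7d0410_cr
open scoped Classical Topology

/-- a run of length `k` inside `(u, v]` -/
lemma VPT_run (S : Finset ℕ) (u v k : ℕ) (hk : 1 ≤ k)
    (h : k ≤ (S.filter (fun m => u < m ∧ m ≤ v)).card) :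
    ∃ q ∈ runs S, len S q = k ∧ u < q.1 ∧ q.2 ≤ v := by
  obtain ⟨T, hT⟩ : ∃ T, T = S.filter (fun m => u < m ∧ m ≤ v) := ⟨_, rfl⟩
  rw [← hT] at h
  have hmem : ∀ m, m ∈ T ↔ m ∈ S ∧ u < m ∧ m ≤ v := fun m => by rw [hT, Finset.mem_filter]
  have h0 : 0 ∉ T := fun h0 => by have := ((hmem 0).1 h0).2.1; omega
  obtain ⟨t, ht, htk⟩ := NPD_pick T k hk h h0
  have hne : T.Nonempty := ⟨t, ht⟩
  have ha := T.min'_mem hne
  have hat : T.min' hne ≤ t := T.min'_le t ht
  refine ⟨(T.min' hne, t), mem_runs.2 ⟨((hmem _).1 ha).1, ((hmem _).1 ht).1, hat⟩, ?_,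
    ((hmem _).1 ha).2.1, ((hmem _).1 ht).2.2⟩
  rw [← htk]
  unfold len
  congr 1
  ext m
  rw [mem_seg, Finset.mem_filter, hmem]
  constructor
  · rintro ⟨h1, h2, h3⟩
    have h4 := ((hmem _).1 ha).2.1
    have h5 := ((hmem _).1 ht).2.2
    simp only at h2 h3
    exact ⟨⟨h1, by omega, by omega⟩, h3⟩
  · rintro ⟨⟨h1, h2, h3⟩, h4⟩
    exact ⟨h1, T.min'_le m ((hmem m).2 ⟨h1, h2, h3⟩), h4⟩

/-- restriction to the elements up to `b` -/
lemma VPT_restrict (S : Finset ℕ) (b r n : ℕ)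
    (h : PT (S.filter (fun m => m ≤ b)) r n) : PT S r n := by
  obtain ⟨q, hq, h1, h2, h3, h4⟩ := h
  rw [mem_runs, Finset.mem_filter, Finset.mem_filter] at hq
  obtain ⟨⟨hq1, _⟩, ⟨hq2, hq3⟩, hq4⟩ := hq
  have hseg : seg (S.filter (fun m => m ≤ b)) q = seg S q := by
    ext m
    rw [mem_seg, mem_seg, Finset.mem_filter]
    constructor
    · rintro ⟨⟨k1, _⟩, k3, k4⟩
      exact ⟨k1, k3, k4⟩
    · rintro ⟨k1, k3, k4⟩
      exact ⟨⟨k1, by omega⟩, k3, k4⟩
  have hlen : len (S.filter (fun m => m ≤ b)) q = len S q := by unfold len; rw [hseg]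
  have hsm : sm (S.filter (fun m => m ≤ b)) q = sm S q := by unfold sm; rw [hseg]
  rw [hlen] at h1
  rw [hsm] at h2 h3 h4
  refine ⟨q, mem_runs.2 ⟨hq1, hq2, hq4⟩, h1, h2, h3, fun h5 => h4 ?_⟩
  rw [Finset.mem_filter]
  exact ⟨h5, by omega⟩

/-- the combinatorial part -/
lemma VPT_count (hVNG : Stmt_VNG) (a b r x : ℕ) (S : Finset ℕ) (ha : 1 ≤ a) (hr : 3 ≤ r)
    (hS : ∀ m ∈ S, a ≤ m) (I : Finset ℕ) (hI : I ⊆ Finset.Icc 1 x)
    (h1 : ∀ n ∈ I, r ≤ (S.filter (fun m => n / (4 * r) < m ∧ m ≤ 4 * (n / (4 * r)))).card)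
    (h2 : ∀ n ∈ I, r ≤ (S.filter (fun m => n / r + 1 < m ∧ m ≤ 4 * (n / r + 1))).card)
    (hb : ∀ n ∈ I, 4 * (n / r + 1) ≤ b) (hPT : ∀ n ∈ I, ¬ PT S r n) :
    I.card ≤ 3 * b + r * (S.filter (fun m => (r - 1) * m ≤ x)).card := by
  obtain ⟨S', hS'⟩ : ∃ S', S' = S.filter (fun m => m ≤ b) := ⟨_, rfl⟩
  have hsub : S' ⊆ Finset.Icc a b := by
    intro m hm
    rw [hS', Finset.mem_filter] at hm
    exact Finset.mem_Icc.2 ⟨hS m hm.1, hm.2⟩
  have hrun : ∀ u v : ℕ, v ≤ b → r ≤ (S.filter (fun m => u < m ∧ m ≤ v)).card →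
      ∃ q ∈ runs S', len S' q + 1 = r ∧ u < q.1 ∧ q.2 ≤ v := by
    intro u v hv hc
    have h3 : S'.filter (fun m => u < m ∧ m ≤ v) = S.filter (fun m => u < m ∧ m ≤ v) := by
      ext m
      rw [hS', Finset.mem_filter, Finset.mem_filter, Finset.mem_filter]
      constructor
      · rintro ⟨⟨k1, _⟩, k3⟩
        exact ⟨k1, k3⟩
      · rintro ⟨k1, k3⟩
        exact ⟨⟨k1, by omega⟩, k3⟩
    obtain ⟨q, hq1, hq2, hq3, hq4⟩ := VPT_run S' u v (r - 1) (by omega) (by rw [h3]; omega)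
    exact ⟨q, hq1, by omega, hq3, hq4⟩
  refine le_trans (Finset.card_le_card ?_) ((hVNG a b r x S' hsub ha hr).trans ?_)
  · intro n hn
    rw [Finset.mem_filter]
    refine ⟨hI hn, ?_, ?_, ?_⟩
    · have hle : 4 * (n / (4 * r)) ≤ n / r := by
        rw [Nat.le_div_iff_mul_le (by omega)]
        calc 4 * (n / (4 * r)) * r = n / (4 * r) * (4 * r) := by ring
          _ ≤ n := Nat.div_mul_le_self _ _
      obtain ⟨q, hq1, hq2, hq3, hq4⟩ := hrun _ _ (by have := hb n hn; omega) (h1 n hn)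
      refine ⟨q, hq1, hq2, ?_⟩
      have h5 := sm_le_len_mul S' q
      have h6 := (mem_runs.1 hq1).2.2
      have h7 : sm S' q + q.1 ≤ r * q.2 := by
        calc sm S' q + q.1 ≤ len S' q * q.2 + q.2 := by omega
          _ = (len S' q + 1) * q.2 := by ring
          _ = r * q.2 := by rw [hq2]
      calc sm S' q + q.1 ≤ r * q.2 := h7
        _ ≤ r * (n / r) := Nat.mul_le_mul_left _ (hq4.trans hle)
        _ ≤ n := Nat.mul_div_le n r
    · obtain ⟨q, hq1, hq2, hq3, hq4⟩ := hrun _ _ (hb n hn) (h2 n hn)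
      refine ⟨q, hq1, hq2, ?_⟩
      have h5 := len_mul_le_sm S' q
      have h6 := (mem_runs.1 hq1).2.2
      have h7 : r * q.1 ≤ sm S' q + q.2 := by
        calc r * q.1 = (len S' q + 1) * q.1 := by rw [hq2]
          _ = len S' q * q.1 + q.1 := by ring
          _ ≤ _ := by omega
      have h8 : n < r * (n / r + 1) := Nat.lt_mul_div_succ n (by omega)
      have h9 : r * (n / r + 1) ≤ r * q.1 := Nat.mul_le_mul_left _ hq3.le
      omega
    · intro h
      rw [hS'] at h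
      exact hPT n hn (VPT_restrict S b r n h)
  · have h3 : (S'.filter (fun m => (r - 1) * m ≤ x)).card ≤
        (S.filter (fun m => (r - 1) * m ≤ x)).card := by
      refine Finset.card_le_card ?_
      intro m hm
      rw [hS', Finset.mem_filter, Finset.mem_filter] at hm
      rw [Finset.mem_filter]
      exact ⟨hm.1.1, hm.2⟩
    have := Nat.mul_le_mul_left r h3
    omega

/-- many primes in `(Y, 4Y]` -/
lemma VPT_pr (hCHB : Stmt_CHB) (ε : ℝ) (hε0 : 0 < ε) : ∀ᶠ x : ℕ in atTop,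
    ∀ r Y : ℕ, (r : ℝ) ≤ (x : ℝ) ^ (1 / 2 - ε) → (x : ℝ) ^ (1 / 2 + ε) * Real.log x ≤ Y → Y ≤ x →
      r ≤ pin Y (3 * Y) := by
  obtain ⟨c0, hc0, hc⟩ := hCHB
  obtain ⟨Y0, hY0⟩ := Filter.eventually_atTop.1 hc
  have hcast : Tendsto (fun x : ℕ => (x : ℝ)) atTop atTop := tendsto_natCast_atTop_atTop
  have hlog : Tendsto (fun x : ℕ => Real.log (x : ℝ)) atTop atTop :=
    Real.tendsto_log_atTop.comp hcast
  have hp1 : Tendsto (fun x : ℕ => (x : ℝ) ^ (2 * ε)) atTop atTop :=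
    (tendsto_rpow_atTop (by linarith)).comp hcast
  have hp2 : Tendsto (fun x : ℕ => (x : ℝ) ^ (1 / 2 + ε)) atTop atTop :=
    (tendsto_rpow_atTop (by linarith)).comp hcast
  filter_upwards [hp1.eventually_ge_atTop (1 / c0), hp2.eventually_ge_atTop Y0,
    hp2.eventually_ge_atTop 3, hlog.eventually_ge_atTop 1, Filter.eventually_ge_atTop 2]
    with x h1 h2 h2' h3 h4 r Y hr hY hYx
  have hxpos : (0 : ℝ) < x := by exact_mod_cast (show 0 < x by omega)
  have hE : 0 < (x : ℝ) ^ (1 / 2 + ε) := Real.rpow_pos_of_pos hxpos _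
  have hEY : (x : ℝ) ^ (1 / 2 + ε) ≤ Y := by nlinarith
  have hY3 : (3 : ℝ) ≤ Y := h2'.trans hEY
  have hlY : 0 < Real.log Y := Real.log_pos (by linarith)
  have hlYx : Real.log Y ≤ Real.log x :=
    Real.log_le_log (by linarith) (by exact_mod_cast hYx)
  have h5 := hY0 Y (by exact_mod_cast h2.trans hEY)
  have h6 : (x : ℝ) ^ (1 / 2 + ε) ≤ Y / Real.log Y := by
    rw [le_div_iff₀ hlY]
    calc (x : ℝ) ^ (1 / 2 + ε) * Real.log Y ≤ (x : ℝ) ^ (1 / 2 + ε) * Real.log x :=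
          mul_le_mul_of_nonneg_left hlYx hE.le
      _ ≤ Y := hY
  have h7 : (x : ℝ) ^ (1 / 2 - ε) ≤ c0 * (x : ℝ) ^ (1 / 2 + ε) := by
    have h8 : (x : ℝ) ^ (1 / 2 + ε) = (x : ℝ) ^ (1 / 2 - ε) * (x : ℝ) ^ (2 * ε) := by
      rw [← Real.rpow_add hxpos]
      congr 1
      ring
    have h9 : 0 < (x : ℝ) ^ (1 / 2 - ε) := Real.rpow_pos_of_pos hxpos _
    have h10 : 1 ≤ c0 * (x : ℝ) ^ (2 * ε) := by
      have := mul_le_mul_of_nonneg_left h1 hc0.le
      rwa [mul_one_div_cancel hc0.ne'] at this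
    rw [h8]
    calc (x : ℝ) ^ (1 / 2 - ε) = (x : ℝ) ^ (1 / 2 - ε) * 1 := (mul_one _).symm
      _ ≤ (x : ℝ) ^ (1 / 2 - ε) * (c0 * (x : ℝ) ^ (2 * ε)) :=
          mul_le_mul_of_nonneg_left h10 h9.le
      _ = c0 * ((x : ℝ) ^ (1 / 2 - ε) * (x : ℝ) ^ (2 * ε)) := by ring
  have h11 : (r : ℝ) ≤ pin Y (3 * Y) := by
    refine hr.trans (h7.trans ((mul_le_mul_of_nonneg_left h6 hc0.le).trans h5))
  exact_mod_cast h11

lemma VPT_a0 (ε : ℝ) (hε0 : 0 < ε) : Tendsto (fun x : ℕ => a0 ε x) atTop atTop := by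
  have hcast : Tendsto (fun x : ℕ => (x : ℝ)) atTop atTop := tendsto_natCast_atTop_atTop
  have hp2 : Tendsto (fun x : ℕ => (x : ℝ) ^ (1 / 2 + ε)) atTop atTop :=
    (tendsto_rpow_atTop (by linarith)).comp hcast
  have := tendsto_nat_ceil_atTop (α := ℝ) |>.comp hp2
  exact this

theorem p_VPT : Stmt_VNG → Stmt_CHB → Stmt_BTT → Stmt_VPT := by
  intro hVNG hCHB hBTT w hw ε η hε0 hε1 hη0 hη1
  obtain ⟨C, hC1, hC⟩ := hBTT
  refine ⟨4 * C + 66, by linarith, ?_⟩
  have hcast : Tendsto (fun x : ℕ => (x : ℝ)) atTop atTop := tendsto_natCast_atTop_atTop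
  have hlog : Tendsto (fun x : ℕ => Real.log (x : ℝ)) atTop atTop :=
    Real.tendsto_log_atTop.comp hcast
  have hp1 : Tendsto (fun x : ℕ => (x : ℝ) ^ ε) atTop atTop :=
    (tendsto_rpow_atTop hε0).comp hcast
  have hlogle : ∀ κ : ℝ, 0 < κ → ∀ᶠ x : ℕ in atTop, Real.log x ≤ (x : ℝ) ^ κ := by
    intro κ hκ
    have h1 := hcast.eventually ((isLittleO_log_rpow_atTop hκ).bound one_pos)
    filter_upwards [h1, Filter.eventually_ge_atTop 1] with x hx hx1
    have hx1' : (1 : ℝ) ≤ x := by exact_mod_cast hx1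
    rw [one_mul, Real.norm_of_nonneg (Real.log_nonneg hx1'),
      Real.norm_of_nonneg (Real.rpow_nonneg (by linarith) _)] at hx
    exact hx
  have hwa := (VPT_a0 ε hε0).eventually (hw.small.eventually (gt_mem_nhds (zero_lt_one' ℝ)))
  filter_upwards [VPT_pr hCHB ε hε0, hlogle ε hε0, hlogle (1 / 2) (by norm_num), hwa,
    hp1.eventually_ge_atTop 16, hlog.eventually_ge_atTop 16, Filter.eventually_ge_atTop 16]
    with x hpr hLe hLh hwa hxe hL16 hx16 S hTY r hrR hrM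
  have hxpos : (0 : ℝ) < x := by exact_mod_cast (show 0 < x by omega)
  have hx1' : (1 : ℝ) ≤ x := by exact_mod_cast (show 1 ≤ x by omega)
  obtain ⟨L, hL⟩ : ∃ L, L = Real.log (x : ℝ) := ⟨_, rfl⟩
  rw [← hL] at hLe hLh hL16 hpr
  rw [← hL]
  have hLpos : 0 < L := by linarith
  -- the parameters
  have hr1 : (x : ℝ) ^ ε ≤ r := by
    have : (x : ℝ) ^ ε ≤ (R0 ε x : ℝ) := by unfold R0; exact Nat.le_ceil _
    exact this.trans (by exact_mod_cast hrR)
  have hr16 : (16 : ℝ) ≤ r := hxe.trans hr1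
  have hr16' : 16 ≤ r := by exact_mod_cast hr16
  have hrpos : (0 : ℝ) < r := by linarith
  have hr2 : (r : ℝ) ≤ (x : ℝ) ^ (1 / 2 - ε) / L ^ 3 := by
    have h1 : (RM ε x : ℝ) ≤ (x : ℝ) ^ (1 / 2 - ε) / Real.log x ^ 3 := by
      unfold RM
      refine Nat.floor_le ?_
      rw [← hL]
      have := Real.rpow_pos_of_pos hxpos (1 / 2 - ε)
      positivity
    rw [← hL] at h1
    exact le_trans (by exact_mod_cast hrM) h1
  have hPm : 0 < (x : ℝ) ^ (1 / 2 - ε) := Real.rpow_pos_of_pos hxpos _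
  have hPp : 0 < (x : ℝ) ^ (1 / 2 + ε) := Real.rpow_pos_of_pos hxpos _
  have hPP : (x : ℝ) ^ (1 / 2 - ε) * (x : ℝ) ^ (1 / 2 + ε) = x := by
    rw [← Real.rpow_add hxpos]
    norm_num
  have hr3 : (r : ℝ) * L ^ 3 ≤ (x : ℝ) ^ (1 / 2 - ε) := by
    rwa [le_div_iff₀ (by positivity)] at hr2
  have hL3 : 1 ≤ L ^ 3 := by nlinarith [sq_nonneg L]
  have hr4 : (r : ℝ) ≤ (x : ℝ) ^ (1 / 2 - ε) := by nlinarith
  -- `r x^(1/2+ε) L^3 ≤ x`
  have hr5 : (r : ℝ) * (x : ℝ) ^ (1 / 2 + ε) * L ^ 3 ≤ x := by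
    calc (r : ℝ) * (x : ℝ) ^ (1 / 2 + ε) * L ^ 3 = (r * L ^ 3) * (x : ℝ) ^ (1 / 2 + ε) := by ring
      _ ≤ (x : ℝ) ^ (1 / 2 - ε) * (x : ℝ) ^ (1 / 2 + ε) := mul_le_mul_of_nonneg_right hr3 hPp.le
      _ = x := hPP
  have ha0 : (a0 ε x : ℝ) ≤ (x : ℝ) ^ (1 / 2 + ε) + 1 := by
    unfold a0
    exact (Nat.ceil_lt_add_one hPp.le).le
  have ha0' : (x : ℝ) ^ (1 / 2 + ε) ≤ (a0 ε x : ℝ) := by
    unfold a0
    exact Nat.le_ceil _
  have hhalf : (x : ℝ) ^ (1 / 2 : ℝ) ≤ (x : ℝ) ^ (1 / 2 + ε) :=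
    Real.rpow_le_rpow_of_exponent_le hx1' (by linarith)
  have hPp1 : 16 ≤ (x : ℝ) ^ (1 / 2 + ε) := by linarith
  have ha01 : 1 ≤ a0 ε x := by
    have : (1 : ℝ) ≤ (a0 ε x : ℝ) := by linarith
    exact_mod_cast this
  have hUmem : ∀ m, m ∈ UU ε x ↔ a0 ε x ≤ m ∧ m ≤ 2 * x := by
    intro m
    unfold UU
    rw [Finset.mem_Icc]
  have hSa : ∀ m ∈ S, a0 ε x ≤ m := fun m hm => ((hUmem m).1 (hTY.sub hm)).1
  -- many elements of `S`
  have hmany : ∀ Y : ℕ, (x : ℝ) ^ (1 / 2 + ε) * L ≤ Y → 4 * Y ≤ 2 * x →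
      r ≤ (S.filter (fun m => Y < m ∧ m ≤ 4 * Y)).card := by
    intro Y hY hYx
    refine (hpr r Y hr4 hY (by omega)).trans ?_
    unfold pin
    refine Finset.card_le_card ?_
    intro p hp
    rw [Finset.mem_filter, Finset.mem_Ioc] at hp
    rw [Finset.mem_filter]
    have haY : (a0 ε x : ℝ) ≤ Y := by nlinarith
    have haY' : a0 ε x ≤ Y := by exact_mod_cast haY
    exact ⟨hTY.pr p ((hUmem p).2 ⟨by omega, by omega⟩) hp.2, by omega, by omega⟩
  -- apply the counting lemma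
  have hcount := VPT_count hVNG (a0 ε x) (16 * x / r) r x S ha01 (by omega) hSa
    ((Finset.Icc 1 x).filter (fun n : ℕ => (x : ℝ) ≤ n * L ∧ ¬ PT S r n))
    (Finset.filter_subset _ _)
    (by
      intro n hn
      rw [Finset.mem_filter, Finset.mem_Icc] at hn
      refine hmany _ ?_ ?_
      · have h1 : (n : ℝ) / (4 * r) - 1 ≤ ((n / (4 * r) : ℕ) : ℝ) := by
          have h2 := Nat.lt_floor_add_one ((n : ℝ) / (4 * r))
          have h3 : ⌊(n : ℝ) / (4 * r)⌋₊ = n / (4 * r) := by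
            have := Nat.floor_div_eq_div (K := ℝ) n (4 * r)
            push_cast at this
            exact this
          rw [h3] at h2
          linarith
        refine le_trans ?_ h1
        rw [le_sub_iff_add_le, le_div_iff₀ (by positivity)]
        have h4 : ((x : ℝ) ^ (1 / 2 + ε) * L + 1) * (4 * r) * L ≤
            (r : ℝ) * (x : ℝ) ^ (1 / 2 + ε) * L ^ 3 := by
          have h5 : ((x : ℝ) ^ (1 / 2 + ε) * L + 1) * 4 ≤ (x : ℝ) ^ (1 / 2 + ε) * L ^ 2 := by
            have h6 : (x : ℝ) ^ (1 / 2 + ε) * (L * 16) ≤ (x : ℝ) ^ (1 / 2 + ε) * (L * L) :=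
              mul_le_mul_of_nonneg_left (mul_le_mul_of_nonneg_left hL16 hLpos.le) hPp.le
            have h7 : 256 ≤ (x : ℝ) ^ (1 / 2 + ε) * L := by nlinarith
            nlinarith
          have h8 := mul_le_mul_of_nonneg_left h5 (show 0 ≤ (r : ℝ) * L by positivity)
          calc ((x : ℝ) ^ (1 / 2 + ε) * L + 1) * (4 * r) * L =
                (r : ℝ) * L * (((x : ℝ) ^ (1 / 2 + ε) * L + 1) * 4) := by ring
            _ ≤ (r : ℝ) * L * ((x : ℝ) ^ (1 / 2 + ε) * L ^ 2) := h8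
            _ = _ := by ring
        have h9 : ((x : ℝ) ^ (1 / 2 + ε) * L + 1) * (4 * r) * L ≤ n * L :=
          h4.trans (hr5.trans hn.2.1)
        exact le_of_mul_le_mul_right h9 hLpos
      · have h1 : 4 * (n / (4 * r)) ≤ n := by
          have := Nat.div_mul_le_self n (4 * r)
          have h2 : n / (4 * r) * 4 ≤ n / (4 * r) * (4 * r) := Nat.mul_le_mul_left _ (by omega)
          omega
        omega)
    (by
      intro n hn
      rw [Finset.mem_filter, Finset.mem_Icc] at hn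
      refine hmany _ ?_ ?_
      · have h1 : (n : ℝ) / r ≤ ((n / r + 1 : ℕ) : ℝ) := by
          have h2 := Nat.lt_floor_add_one ((n : ℝ) / r)
          rw [Nat.floor_div_eq_div] at h2
          push_cast
          linarith
        refine le_trans ?_ h1
        rw [le_div_iff₀ hrpos]
        have h4 : ((x : ℝ) ^ (1 / 2 + ε) * L) * r * L ≤
            (r : ℝ) * (x : ℝ) ^ (1 / 2 + ε) * L ^ 3 := by
          have h8 := mul_le_mul_of_nonneg_left (show (1 : ℝ) ≤ L by linarith)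
            (show 0 ≤ (r : ℝ) * (x : ℝ) ^ (1 / 2 + ε) * L ^ 2 by positivity)
          calc ((x : ℝ) ^ (1 / 2 + ε) * L) * r * L =
                (r : ℝ) * (x : ℝ) ^ (1 / 2 + ε) * L ^ 2 * 1 := by ring
            _ ≤ (r : ℝ) * (x : ℝ) ^ (1 / 2 + ε) * L ^ 2 * L := h8
            _ = _ := by ring
        have h9 : ((x : ℝ) ^ (1 / 2 + ε) * L) * r * L ≤ n * L :=
          h4.trans (hr5.trans hn.2.1)
        exact le_of_mul_le_mul_right h9 hLpos
      · have h1 : n / r ≤ n / 16 := Nat.div_le_div_left hr16' (by norm_num)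
        omega)
    (by
      intro n hn
      rw [Finset.mem_filter, Finset.mem_Icc] at hn
      have h1 : n / r ≤ x / r := Nat.div_le_div_right hn.1.2
      have h2 : 16 * (x / r) ≤ 16 * x / r := by
        rw [Nat.le_div_iff_mul_le (by omega)]
        have := Nat.div_mul_le_self x r
        calc 16 * (x / r) * r = 16 * (x / r * r) := by ring
          _ ≤ 16 * x := Nat.mul_le_mul_left _ this
      have h3 : 1 ≤ x / r := by
        rw [Nat.le_div_iff_mul_le (by omega), one_mul]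
        have h4 : (r : ℝ) ≤ x := by
          have h5 : (x : ℝ) ^ (1 / 2 - ε) ≤ x := by
            have h6 := mul_le_mul_of_nonneg_left (show 1 ≤ (x : ℝ) ^ (1 / 2 + ε) by linarith)
              hPm.le
            rw [hPP, mul_one] at h6
            exact h6
          linarith
        exact_mod_cast h4
      omega)
    (by
      intro n hn
      rw [Finset.mem_filter] at hn
      exact hn.2.2)
  -- the number of small elements
  obtain ⟨y, hy⟩ : ∃ y, y = x / (r - 1) := ⟨_, rfl⟩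
  have hy1 : (y : ℝ) * r ≤ 2 * x := by
    have h1 : y * (r - 1) ≤ x := by rw [hy]; exact Nat.div_mul_le_self _ _
    have h2 : y * r ≤ 2 * (y * (r - 1)) := by
      have : r ≤ 2 * (r - 1) := by omega
      calc y * r ≤ y * (2 * (r - 1)) := Nat.mul_le_mul_left _ this
        _ = 2 * (y * (r - 1)) := by ring
    exact_mod_cast h2.trans (Nat.mul_le_mul_left 2 h1)
  have hy2 : (x : ℝ) ^ (1 / 2 + ε) ≤ y := by
    have h1 : (x : ℝ) / r ≤ ((x / r : ℕ) : ℝ) + 1 := by
      have h2 := Nat.lt_floor_add_one ((x : ℝ) / r)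
      rw [Nat.floor_div_eq_div] at h2
      linarith
    have h3 : x / r ≤ y := by rw [hy]; exact Nat.div_le_div_left (by omega) (by omega)
    have h4 : ((x / r : ℕ) : ℝ) ≤ y := by exact_mod_cast h3
    have h5 : (x : ℝ) ^ (1 / 2 + ε) + 1 ≤ (x : ℝ) / r := by
      rw [le_div_iff₀ hrpos]
      refine le_trans ?_ hr5
      have h6 : (x : ℝ) ^ (1 / 2 + ε) + 1 ≤ (x : ℝ) ^ (1 / 2 + ε) * L ^ 3 := by
        have : 2 ≤ L ^ 3 := by nlinarith [sq_nonneg L]
        nlinarith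
      calc ((x : ℝ) ^ (1 / 2 + ε) + 1) * r ≤ ((x : ℝ) ^ (1 / 2 + ε) * L ^ 3) * r :=
            mul_le_mul_of_nonneg_right h6 hrpos.le
        _ = _ := by ring
    linarith
  have hy16 : (16 : ℝ) ≤ y := hPp1.trans hy2
  have hy16' : 16 ≤ y := by exact_mod_cast hy16
  have hlogE : L / 2 ≤ Real.log ((x : ℝ) ^ (1 / 2 + ε)) := by
    rw [Real.log_rpow hxpos, ← hL]
    nlinarith
  have hlogy : L / 2 ≤ Real.log y := hlogE.trans (Real.log_le_log hPp hy2)
  have hloga : L / 2 ≤ Real.log (a0 ε x) := hlogE.trans (Real.log_le_log hPp ha0')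
  have hfil : S.filter (fun m => (r - 1) * m ≤ x) = S.filter (fun m => m ≤ y) := by
    ext m
    rw [Finset.mem_filter, Finset.mem_filter, hy, Nat.le_div_iff_mul_le (by omega), mul_comm]
  rw [hfil] at hcount
  -- primes
  have hprimes : (((S.filter (fun m => m ≤ y)).filter Nat.Prime).card : ℝ) ≤
      C * (y / (L / 2)) := by
    have h1 : ((S.filter (fun m => m ≤ y)).filter Nat.Prime).card ≤ pin 0 y := by
      unfold pin
      refine Finset.card_le_card ?_
      intro p hp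
      rw [Finset.mem_filter, Finset.mem_filter] at hp
      rw [Finset.mem_filter, Finset.mem_Ioc]
      exact ⟨⟨hp.2.pos, by omega⟩, hp.2⟩
    have h2 := hC 0 y (by omega)
    have h3 : (y : ℝ) / Real.log y ≤ y / (L / 2) :=
      div_le_div_of_nonneg_left (by linarith) (by linarith) hlogy
    calc (((S.filter (fun m => m ≤ y)).filter Nat.Prime).card : ℝ) ≤ pin 0 y := by
          exact_mod_cast h1
      _ ≤ C * (y / Real.log y) := h2
      _ ≤ C * (y / (L / 2)) := mul_le_mul_of_nonneg_left h3 (by linarith)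
  -- the others
  have hxe2 : 1 ≤ (x : ℝ) ^ (ε / 2) := Real.one_le_rpow hx1' (by linarith)
  have hothers : (((S.filter (fun m => m ≤ y)).filter (fun m => ¬ m.Prime)).card : ℝ) ≤
      1 + (x : ℝ) ^ (ε / 2) + 8 * y / L := by
    have h1 : ((S.filter (fun m => m ≤ y)).filter (fun m => ¬ m.Prime)).card ≤
        1 + (S.filter (fun z => ¬ z.Prime ∧ a0 ε x < z ∧ z < y + 1)).card := by
      have h2 : (S.filter (fun m => m ≤ y)).filter (fun m => ¬ m.Prime) ⊆
          {a0 ε x} ∪ S.filter (fun z => ¬ z.Prime ∧ a0 ε x < z ∧ z < y + 1) := by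
        intro m hm
        rw [Finset.mem_filter, Finset.mem_filter] at hm
        rw [Finset.mem_union, Finset.mem_singleton, Finset.mem_filter]
        have h3 := hSa m hm.1.1
        by_cases h4 : m = a0 ε x
        · exact Or.inl h4
        · exact Or.inr ⟨hm.1.1, hm.2, by omega, by omega⟩
      refine (Finset.card_le_card h2).trans ((Finset.card_union_le _ _).trans ?_)
      rw [Finset.card_singleton]
    have h8 : (0 : ℝ) ≤ 8 * y / L := by positivity
    have h5 : ((S.filter (fun z => ¬ z.Prime ∧ a0 ε x < z ∧ z < y + 1)).card : ℝ) ≤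
        (x : ℝ) ^ (ε / 2) + 8 * y / L := by
      by_cases h6 : (x : ℝ) ^ (ε / 2) ≤ ((y + 1 : ℕ) : ℝ) - (a0 ε x : ℕ)
      · have hyx : y + 1 ≤ 2 * x := by
          have : y ≤ x := by rw [hy]; exact Nat.div_le_self _ _
          omega
        have hay : a0 ε x ≤ y + 1 := by
          have h7 : (a0 ε x : ℝ) ≤ ((y + 1 : ℕ) : ℝ) := by linarith
          exact_mod_cast h7
        have h9 := hTY.few (a0 ε x) (y + 1) ((hUmem _).2 ⟨le_rfl, by omega⟩)
          ((hUmem _).2 ⟨hay, hyx⟩) h6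
        refine h9.trans ?_
        have hwp := (hw.pos (a0 ε x)).le
        have h10 : w (a0 ε x) ≤ 2 / L := by
          have h11 : w (a0 ε x) * Real.log (a0 ε x) < 1 := hwa
          rw [le_div_iff₀ hLpos]
          nlinarith
        have h12 : ((y + 1 : ℕ) : ℝ) - (a0 ε x : ℕ) ≤ y := by
          push_cast
          have : (1 : ℝ) ≤ a0 ε x := by exact_mod_cast ha01
          linarith
        have h13 : (1 + η) * w (a0 ε x) * (((y + 1 : ℕ) : ℝ) - (a0 ε x : ℕ)) ≤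
            2 * (2 / L) * y := by
          have h14 : (1 + η) * w (a0 ε x) ≤ 2 * (2 / L) := by nlinarith
          have h15 : 0 ≤ ((y + 1 : ℕ) : ℝ) - (a0 ε x : ℕ) := by linarith
          exact mul_le_mul h14 h12 h15 (by positivity)
        refine h13.trans ?_
        have h16 : 2 * (2 / L) * y = 4 * y / L := by ring
        rw [h16]
        have h17 : 4 * (y : ℝ) / L ≤ 8 * y / L :=
          div_le_div_of_nonneg_right (by linarith) hLpos.le
        linarith
      · push Not at h6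
        have h7 : (S.filter (fun z => ¬ z.Prime ∧ a0 ε x < z ∧ z < y + 1)).card ≤
            y - a0 ε x := by
          have h9 : S.filter (fun z => ¬ z.Prime ∧ a0 ε x < z ∧ z < y + 1) ⊆
              Finset.Ioc (a0 ε x) y := by
            intro z hz
            rw [Finset.mem_filter] at hz
            rw [Finset.mem_Ioc]
            omega
          have h10 := Finset.card_le_card h9
          rwa [Nat.card_Ioc] at h10
        have h11 : (((y - a0 ε x : ℕ) : ℕ) : ℝ) ≤ (x : ℝ) ^ (ε / 2) := by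
          rcases le_total (a0 ε x) y with h12 | h12
          · rw [Nat.cast_sub h12]
            push_cast at h6
            linarith
          · rw [Nat.sub_eq_zero_of_le h12, Nat.cast_zero]
            linarith
        have h12 : ((S.filter (fun z => ¬ z.Prime ∧ a0 ε x < z ∧ z < y + 1)).card : ℝ) ≤
            (x : ℝ) ^ (ε / 2) := le_trans (by exact_mod_cast h7) h11
        linarith
    have h6 : (((S.filter (fun m => m ≤ y)).filter (fun m => ¬ m.Prime)).card : ℝ) ≤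
        1 + ((S.filter (fun z => ¬ z.Prime ∧ a0 ε x < z ∧ z < y + 1)).card : ℝ) := by
      exact_mod_cast h1
    linarith
  have hsplit : ((S.filter (fun m => m ≤ y)).card : ℝ) ≤
      C * (y / (L / 2)) + (1 + (x : ℝ) ^ (ε / 2) + 8 * y / L) := by
    rw [← Finset.card_filter_add_card_filter_not (s := S.filter (fun m => m ≤ y)) Nat.Prime]
    push_cast
    exact add_le_add hprimes hothers
  -- conclusion
  have hcR : ((((Finset.Icc 1 x).filter (fun n : ℕ => (x : ℝ) ≤ n * L ∧ ¬ PT S r n)).card : ℕ) : ℝ)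
      ≤ 3 * ((16 * x / r : ℕ) : ℝ) + r * ((S.filter (fun m => m ≤ y)).card : ℝ) := by
    exact_mod_cast hcount
  refine hcR.trans ?_
  have hb1 : ((16 * x / r : ℕ) : ℝ) ≤ 16 * (x / L) := by
    have h1 : ((16 * x / r : ℕ) : ℝ) ≤ ((16 * x : ℕ) : ℝ) / r := Nat.cast_div_le
    refine h1.trans ?_
    push_cast
    rw [mul_div_assoc]
    refine mul_le_mul_of_nonneg_left ?_ (by norm_num)
    exact div_le_div_of_nonneg_left hxpos.le hLpos (hLe.trans hr1)
  have hb2 : (r : ℝ) * (C * (y / (L / 2))) ≤ 4 * C * (x / L) := by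
    have h1 : (r : ℝ) * (C * (y / (L / 2))) = 2 * C / L * (y * r) := by
      field_simp
    rw [h1]
    have h2 := mul_le_mul_of_nonneg_left hy1 (show 0 ≤ 2 * C / L by positivity)
    calc 2 * C / L * (y * r) ≤ 2 * C / L * (2 * x) := h2
      _ = 4 * C * (x / L) := by ring
  have hb3 : (r : ℝ) * (8 * y / L) ≤ 16 * (x / L) := by
    have h1 : (r : ℝ) * (8 * y / L) = 8 / L * (y * r) := by ring
    rw [h1]
    have h2 := mul_le_mul_of_nonneg_left hy1 (show 0 ≤ 8 / L by positivity)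
    calc 8 / L * (y * r) ≤ 8 / L * (2 * x) := h2
      _ = 16 * (x / L) := by ring
  have hb4 : (r : ℝ) * (1 + (x : ℝ) ^ (ε / 2)) ≤ 2 * (x / L) := by
    have h1 : (r : ℝ) * (1 + (x : ℝ) ^ (ε / 2)) ≤ 2 * ((x : ℝ) ^ (1 / 2 - ε) *
        (x : ℝ) ^ (ε / 2)) := by
      have h2 : 1 + (x : ℝ) ^ (ε / 2) ≤ 2 * (x : ℝ) ^ (ε / 2) := by linarith
      calc (r : ℝ) * (1 + (x : ℝ) ^ (ε / 2)) ≤ (x : ℝ) ^ (1 / 2 - ε) * (2 * (x : ℝ) ^ (ε / 2)) :=
            mul_le_mul hr4 h2 (by positivity) hPm.le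
        _ = _ := by ring
    have h3 : (x : ℝ) ^ (1 / 2 - ε) * (x : ℝ) ^ (ε / 2) ≤ (x : ℝ) ^ (1 / 2 : ℝ) := by
      rw [← Real.rpow_add hxpos]
      exact Real.rpow_le_rpow_of_exponent_le hx1' (by linarith)
    have h4 : (x : ℝ) ^ (1 / 2 : ℝ) ≤ x / L := by
      rw [le_div_iff₀ hLpos]
      have h5 : (x : ℝ) ^ (1 / 2 : ℝ) * (x : ℝ) ^ (1 / 2 : ℝ) = x := by
        rw [← Real.rpow_add hxpos]
        norm_num
      have h6 : 0 < (x : ℝ) ^ (1 / 2 : ℝ) := Real.rpow_pos_of_pos hxpos _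
      nlinarith
    linarith
  have hfin := mul_le_mul_of_nonneg_left hsplit hrpos.le
  have h1 : (r : ℝ) * (C * (y / (L / 2)) + (1 + (x : ℝ) ^ (ε / 2) + 8 * y / L)) =
      r * (C * (y / (L / 2))) + r * (1 + (x : ℝ) ^ (ε / 2)) + r * (8 * y / L) := by ring
  rw [h1] at hfin
  have h2 : (4 * C + 66) * ((x : ℝ) / L) = 3 * (16 * (x / L)) + 4 * C * (x / L) + 2 * (x / L) +
      16 * (x / L) := by ring
  rw [h2]
  linarith

end Pool.Agent.Work.MP_7d0410_sp
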