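import Pool.Agent.Work.MP_7d0410_sv.Interface

/-! # VRB: the blocks of lengths, elementary facts -/

set_option autoImplicit false

namespace Pool.Agent.Work.MP_7d0410_sp

open Finset Filter MeasureTheory ProbabilityTheory
open Pool.Agent.Work.MP_7d0410_cr
open scoped Classical Topology

/-- a power of `x` beats a power of `log x` -/
private lemma vrb_pow {a : ℝ} (ha : 0 < a) (k : ℕ) (C : ℝ) : ∀ᶠ x : ℕ in atTop,
    C * Real.log x ^ k ≤ (x : ℝ) ^ a := by
  have h1 : Tendsto (fun y : ℝ => Real.log y ^ k / y ^ a) atTop (𝓝 0) := by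
    have h := isLittleO_log_rpow_rpow_atTop (s := a) (k : ℝ) ha
    have h2 := h.tendsto_div_nhds_zero
    refine h2.congr fun y => ?_
    rw [Real.rpow_natCast]
  have h2 : Tendsto (fun x : ℕ => |C| * (Real.log (x : ℝ) ^ k / (x : ℝ) ^ a)) atTop (𝓝 0) := by
    have := (h1.comp tendsto_natCast_atTop_atTop).const_mul |C|
    simpa using this
  filter_upwards [h2.eventually_le_const (show (0 : ℝ) < 1 from one_pos),
    eventually_ge_atTop 2] with x hx hx2
  have hx0 : (0 : ℝ) < (x : ℝ) ^ a :=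
    Real.rpow_pos_of_pos (by exact_mod_cast (by omega : 0 < x)) _
  have hlog : 0 ≤ Real.log x := Real.log_nonneg (by exact_mod_cast (by omega : 1 ≤ x))
  rw [← mul_div_assoc, div_le_one hx0] at hx
  have h3 : C * Real.log x ^ k ≤ |C| * Real.log x ^ k :=
    mul_le_mul_of_nonneg_right (le_abs_self C) (by positivity)
  linarith

theorem p_VRB : Stmt_VRB := by
  intro ε δ hε hε4 hδ hδ1
  filter_upwards [vrb_pow (a := ε) hε 0 (1 / δ), vrb_pow (a := 1 / 2 - ε) (by linarith) 4 2,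
    vrb_pow (a := 1 / 2 - 2 * ε) (by linarith) 4 1, eventually_ge_atTop 16,
    (Real.tendsto_log_atTop.comp tendsto_natCast_atTop_atTop).eventually_ge_atTop 2]
    with x h1 h2 h3 hx16 hlog2
  simp only [Function.comp] at hlog2
  simp only [pow_zero, mul_one] at h1
  have hx0 : (0 : ℝ) < x := by exact_mod_cast (by omega : 0 < x)
  have hx1 : (1 : ℝ) ≤ x := by exact_mod_cast (by omega : 1 ≤ x)
  obtain ⟨L, hL⟩ : ∃ L, L = Real.log x := ⟨_, rfl⟩
  rw [← hL] at h2 h3 hlog2
  have hL0 : 0 < L := by linarith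
  obtain ⟨X, hX⟩ : ∃ X, X = (x : ℝ) ^ ε := ⟨_, rfl⟩
  rw [← hX] at h1
  have hX0 : 0 < X := by rw [hX]; exact Real.rpow_pos_of_pos hx0 _
  have hX1 : 1 ≤ X := by rw [hX]; exact Real.one_le_rpow hx1 hε.le
  have hXδ : 1 ≤ δ * X := by
    rw [div_le_iff₀ hδ] at h1
    linarith
  obtain ⟨A, hA⟩ : ∃ A, A = (x : ℝ) ^ (1 / 2 - 2 * ε) := ⟨_, rfl⟩
  rw [← hA, one_mul] at h3
  have hA0 : 0 < A := by rw [hA]; exact Real.rpow_pos_of_pos hx0 _
  have hXA : (x : ℝ) ^ (1 / 2 - ε) = X * A := by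
    rw [hX, hA, ← Real.rpow_add hx0]
    congr 1
    ring
  rw [hXA] at h2
  have hδ1' : (1 : ℝ) < 1 + δ := by linarith
  have hl0 : 0 < Real.log (1 + δ) := Real.log_pos hδ1'
  have hl1 : δ / 2 ≤ Real.log (1 + δ) := by
    have h := Real.one_sub_inv_le_log_of_pos (show (0 : ℝ) < 1 + δ by linarith)
    have h4 : 1 - (1 + δ)⁻¹ = δ / (1 + δ) := by
      field_simp
      ring
    rw [h4] at h
    have h5 : δ / 2 ≤ δ / (1 + δ) := div_le_div_of_nonneg_left hδ.le (by linarith) (by linarith)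
    linarith
  -- the powers
  have hpow : ∀ j : ℕ, 1 ≤ (1 + δ) ^ j := fun j => one_le_pow₀ hδ1'.le
  have hY : ∀ j : ℕ, X ≤ X * (1 + δ) ^ j := fun j => by
    have := hpow j
    nlinarith
  have hRB : ∀ j : ℕ, RB ε δ x j = ⌊X * (1 + δ) ^ j⌋₊ + 1 := fun j => by
    unfold RB
    rw [hX]
  have hlow : ∀ j : ℕ, X * (1 + δ) ^ j < RB ε δ x j := fun j => by
    rw [hRB]
    push_cast
    exact Nat.lt_floor_add_one _
  have hup : ∀ j : ℕ, (RB ε δ x j : ℝ) ≤ X * (1 + δ) ^ j + 1 := fun j => by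
    rw [hRB]
    push_cast
    have := Nat.floor_le (show 0 ≤ X * (1 + δ) ^ j by positivity)
    linarith
  -- JB
  have hT1 : 1 ≤ A / L ^ 4 := by
    rw [le_div_iff₀ (by positivity)]
    linarith
  have hJB : JB ε δ x = ⌊Real.log (A / L ^ 4) / Real.log (1 + δ)⌋₊ := by
    unfold JB
    rw [hA, hL]
  have hlogT : 0 ≤ Real.log (A / L ^ 4) := Real.log_nonneg hT1
  have hJ1 : (JB ε δ x : ℝ) * Real.log (1 + δ) ≤ Real.log (A / L ^ 4) := by
    rw [hJB, ← le_div_iff₀ hl0]
    exact Nat.floor_le (div_nonneg hlogT hl0.le)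
  have hJ2 : Real.log (A / L ^ 4) ≤ ((JB ε δ x : ℝ) + 1) * Real.log (1 + δ) := by
    rw [hJB, ← div_le_iff₀ hl0]
    exact (Nat.lt_floor_add_one _).le
  have hJ3 : (1 + δ) ^ (JB ε δ x) ≤ A / L ^ 4 := by
    rw [← Real.log_le_log_iff (by positivity) (by positivity), Real.log_pow]
    exact hJ1
  have hJ4 : A / L ^ 4 ≤ (1 + δ) ^ (JB ε δ x + 1) := by
    rw [← Real.log_le_log_iff (by positivity) (by positivity), Real.log_pow]
    push_cast
    exact hJ2
  have hRM : RM ε x = ⌊X * A / L ^ 3⌋₊ := by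
    unfold RM
    rw [hXA, hL]
  refine ⟨?_, ?_, ?_, ?_, ?_, ?_, ?_⟩
  · rw [hRB]
    unfold R0
    rw [← hX, pow_zero, mul_one]
    exact Nat.ceil_le_floor_add_one X
  · have h := hup 0
    rw [pow_zero, mul_one] at h
    rw [← hX]
    linarith
  · intro j
    have hj1 : X * (1 + δ) ^ (j + 1) = X * (1 + δ) ^ j + δ * (X * (1 + δ) ^ j) := by
      rw [pow_succ]
      ring
    have hj2 : 1 ≤ δ * (X * (1 + δ) ^ j) := by
      have := mul_le_mul_of_nonneg_left (hY j) hδ.le
      linarith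
    refine ⟨?_, ?_, ?_⟩
    · rw [← hX]
      exact le_trans (hY j) (hlow j).le
    · have hj3 := hlow (j + 1)
      have hj4 := hup j
      have : (RB ε δ x j : ℝ) < RB ε δ x (j + 1) := by linarith
      exact_mod_cast this
    · have hj3 := hup (j + 1)
      have hj4 := (hlow j).le
      have hj5 : 1 ≤ δ * RB ε δ x j := le_trans hj2 (mul_le_mul_of_nonneg_left hj4 hδ.le)
      nlinarith
  · intro j hj
    rw [hRM]
    apply Nat.le_floor
    have hj1 : (1 + δ) ^ j ≤ A / L ^ 4 := le_trans (pow_le_pow_right₀ hδ1'.le hj) hJ3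
    have hj2 : X * (1 + δ) ^ j ≤ X * A / L ^ 4 := by
      have := mul_le_mul_of_nonneg_left hj1 hX0.le
      rw [← mul_div_assoc] at this
      exact this
    have hj3 := hup j
    have hj4 : X * A / L ^ 3 = L * (X * A / L ^ 4) := by
      field_simp
    have hj5 : 2 ≤ X * A / L ^ 4 := by
      rw [le_div_iff₀ (by positivity)]
      linarith
    rw [hj4]
    nlinarith
  · have hA' : Real.log (A / L ^ 4) ≤ Real.log x := by
      apply Real.log_le_log (by positivity)
      rw [div_le_iff₀ (by positivity)]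
      have hL4 : 1 ≤ L ^ 4 := one_le_pow₀ (by linarith)
      have hAx : A ≤ x := by
        rw [hA]
        calc (x : ℝ) ^ (1 / 2 - 2 * ε) ≤ (x : ℝ) ^ (1 : ℝ) :=
              Real.rpow_le_rpow_of_exponent_le hx1 (by linarith)
          _ = x := Real.rpow_one _
      nlinarith
    have h6 : (JB ε δ x : ℝ) * (δ / 2) ≤ Real.log x := by
      have h7 : (0 : ℝ) ≤ JB ε δ x := Nat.cast_nonneg _
      have h8 := mul_le_mul_of_nonneg_left hl1 h7
      linarith
    have h9 : (JB ε δ x : ℝ) = 2 / δ * ((JB ε δ x : ℝ) * (δ / 2)) := by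
      field_simp
    rw [h9]
    exact mul_le_mul_of_nonneg_left h6 (by positivity)
  · have h6 := (hlow (JB ε δ x)).le
    rw [hXA, ← hL]
    have h7 : A / L ^ 4 ≤ 2 * (1 + δ) ^ (JB ε δ x) := by
      have h8 : (1 + δ) ^ (JB ε δ x + 1) ≤ 2 * (1 + δ) ^ (JB ε δ x) := by
        rw [pow_succ]
        have := hpow (JB ε δ x)
        nlinarith
      linarith
    have h9 : X * A / (2 * L ^ 4) = X * (A / L ^ 4) / 2 := by
      field_simp
    rw [h9]
    have h10 := mul_le_mul_of_nonneg_left h7 hX0.le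
    linarith
  · have h6 : (RM ε x : ℝ) ≤ X * A := by
      rw [hRM]
      have h7 := Nat.floor_le (show 0 ≤ X * A / L ^ 3 by positivity)
      have h8 : X * A / L ^ 3 ≤ X * A := div_le_self (by positivity) (one_le_pow₀ (by linarith))
      linarith
    have h9 : (x : ℝ) ^ (1 - 2 * ε) = (X * A) ^ 2 := by
      rw [← hXA, ← Real.rpow_natCast, ← Real.rpow_mul hx0.le]
      congr 1
      push_cast
      ring
    rw [h9]
    exact pow_le_pow_left₀ (Nat.cast_nonneg _) h6 2

end Pool.Agent.Work.MP_7d0410_sp
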