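import Pool.Agent.Work.MP_7d0410_sv.Interface

/-! # Block VSW (helper87): Fubini -/

set_option autoImplicit false

namespace Pool.Agent.Work.MP_7d0410_sp

open Finset Filter MeasureTheory ProbabilityTheory
open Pool.Agent.Work.MP_7d0410_cr
open scoped Classical Topology

theorem p_VSW : Stmt_VSW := by
  intro x R R' f B ν hx hR hRR hf hfB
  have hδ : (0 : ℝ) ≤ 1 / (8 * x) := by positivity
  have hRR' : (R : ℝ) ≤ R' := by exact_mod_cast hRR
  have hm : Measurable (Function.uncurry fun (u s : ℝ) => f (ν * Real.exp (-s) / u)) := by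
    have h1 : Measurable fun q : ℝ × ℝ => ν * Real.exp (-q.2) / q.1 :=
      (measurable_const.mul (Real.measurable_exp.comp measurable_snd.neg)).div measurable_fst
    exact hf.comp h1
  have hI : Integrable (Function.uncurry fun (u s : ℝ) => f (ν * Real.exp (-s) / u))
      ((volume.restrict (Set.Ioc (R : ℝ) R')).prod
        (volume.restrict (Set.Ioc (0 : ℝ) (1 / (8 * x))))) := by
    refine Integrable.of_bound hm.aestronglyMeasurable B (Eventually.of_forall fun q => ?_)
    have h1 := hfB (ν * Real.exp (-q.2) / q.1)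
    show ‖f (ν * Real.exp (-q.2) / q.1)‖ ≤ B
    rw [Real.norm_eq_abs, abs_of_nonneg h1.1]
    exact h1.2
  have hint : ∀ s : ℝ, ∫ u in (R : ℝ)..R', f (ν * Real.exp (-s) / u) =
      ∫ u in Set.Ioc (R : ℝ) R', f (ν * Real.exp (-s) / u) := fun s =>
    intervalIntegral.integral_of_le hRR'
  refine ⟨?_, ?_⟩
  · rw [intervalIntegrable_iff_integrableOn_Ioc_of_le hδ]
    simp only [hint]
    exact hI.integral_prod_right
  · rw [intervalIntegral.integral_of_le hRR', intervalIntegral.integral_of_le hδ]
    simp only [hint]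
    rw [← integral_integral_swap hI, ← integral_const_mul]
    refine integral_congr_ae (Eventually.of_forall fun u => ?_)
    show SM x f (ν / u) = 8 * x * ∫ s in Set.Ioc (0 : ℝ) (1 / (8 * x)), f (ν * Real.exp (-s) / u)
    unfold SM
    rw [intervalIntegral.integral_of_le hδ]
    congr 1
    refine integral_congr_ae (Eventually.of_forall fun s => ?_)
    show f (ν / u * Real.exp (-s)) = f (ν * Real.exp (-s) / u)
    rw [div_mul_eq_mul_div]

end Pool.Agent.Work.MP_7d0410_sp
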