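import Pool.Agent.Work.MP_7d0410_sv.Interface

/-! # Block VTY: most sets are typical -/

set_option autoImplicit false

namespace Pool.Agent.Work.MP_7d0410_sp

open Finset Filter MeasureTheory ProbabilityTheory
open Pool.Agent.Work.MP_7d0410_cr
open scoped Classical Topology

lemma VTY_log (ε c : ℝ) (hε : 0 < ε) (hc : 0 < c) : ∀ᶠ x : ℕ in atTop,
    6 * Real.log x ≤ c * (x : ℝ) ^ (ε / 4) := by
  have h1 : ∀ᶠ y : ℝ in atTop, ‖Real.log y‖ ≤ c / 6 * ‖y ^ (ε / 4)‖ :=
    (isLittleO_log_rpow_atTop (by positivity : (0 : ℝ) < ε / 4)).def (by positivity)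
  filter_upwards [tendsto_natCast_atTop_atTop.eventually h1] with x hx
  have h2 : 0 ≤ (x : ℝ) ^ (ε / 4) := Real.rpow_nonneg (Nat.cast_nonneg x) _
  rw [Real.norm_of_nonneg h2] at hx
  have h3 := Real.le_norm_self (Real.log (x : ℝ))
  linarith

lemma VTY_end (x : ℕ) (c y : ℝ) (hx : 9 ≤ x) (h : 6 * Real.log x ≤ c * y) :
    ((2 * x + 1 : ℕ) : ℝ) ^ 2 * Real.exp (-(c * y)) ≤ 1 / (x : ℝ) ^ 3 := by
  have hx0 : (9 : ℝ) ≤ x := by exact_mod_cast hx
  have hpos : (0 : ℝ) < x := by linarith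
  have h1 : Real.exp (-(c * y)) ≤ 1 / (x : ℝ) ^ 6 := by
    rw [le_div_iff₀ (by positivity)]
    have h2 : (x : ℝ) ^ 6 = Real.exp (6 * Real.log x) := by
      rw [mul_comm, Real.exp_mul, Real.exp_log hpos]
      norm_cast
    rw [h2, ← Real.exp_add, Real.exp_le_one_iff]
    linarith
  have h3 : ((2 * x + 1 : ℕ) : ℝ) ^ 2 ≤ (x : ℝ) ^ 3 := by
    push_cast
    nlinarith [mul_pos hpos hpos]
  calc ((2 * x + 1 : ℕ) : ℝ) ^ 2 * Real.exp (-(c * y)) ≤ (x : ℝ) ^ 3 * (1 / (x : ℝ) ^ 6) :=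
        mul_le_mul h3 h1 (Real.exp_pos _).le (by positivity)
    _ = 1 / (x : ℝ) ^ 3 := by
        field_simp

theorem p_VTY : Stmt_VWL → Stmt_VCD → Stmt_VTY := by
  intro hVWL hVCD w hw ε η hε hε1 hη hη1
  have h2x : Tendsto (fun x : ℕ => 2 * x) atTop atTop :=
    tendsto_atTop_mono (fun x => by show x ≤ 2 * x; omega) tendsto_id
  filter_upwards [h2x.eventually (hVWL w hw (ε / 8) (by positivity)), eventually_ge_atTop 9,
    VTY_log ε (η ^ 2 / 4) hε (by positivity)] with x hx hx9 hxl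
  set U := UU ε x with hU
  have hx0 : (9 : ℝ) ≤ x := by exact_mod_cast hx9
  have hpos : (0 : ℝ) < x := by linarith
  -- the pairs
  set P : Finset (ℕ × ℕ) := (U ×ˢ U).filter
    (fun q => (x : ℝ) ^ (ε / 2) ≤ (q.2 : ℝ) - q.1) with hP
  set I : ℕ × ℕ → Finset ℕ := fun q => U.filter (fun z => ¬ z.Prime ∧ q.1 < z ∧ z < q.2) with hI
  set M : ℕ × ℕ → ℝ := fun q => w q.1 * ((q.2 : ℝ) - q.1) with hM
  have h1 : Pb (pw w) U (fun S => ¬ TY w η ε x S) ≤
      Pb (pw w) U (fun S => ∃ q ∈ P, (1 + η) * M q ≤ ((S ∩ I q).card : ℝ)) := by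
    unfold Pb
    apply Ex_mono_pw hw
    intro S hS hpr
    by_cases hT : TY w η ε x S
    · rw [if_neg (not_not.2 hT)]
      split_ifs <;> norm_num
    · have h2 : ∃ q ∈ P, (1 + η) * M q ≤ ((S ∩ I q).card : ℝ) := by
        by_contra hcon
        push Not at hcon
        apply hT
        refine ⟨hS, hpr, ?_⟩
        intro u v hu hv huv
        have h3 := hcon (u, v) (Finset.mem_filter.2 ⟨Finset.mem_product.2 ⟨hu, hv⟩, huv⟩)
        have h4 : S.filter (fun z => ¬ z.Prime ∧ u < z ∧ z < v) = S ∩ I (u, v) := by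
          ext z
          simp only [hI, Finset.mem_filter, Finset.mem_inter]
          constructor
          · rintro ⟨h5, h6⟩
            exact ⟨h5, hS h5, h6⟩
          · rintro ⟨h5, _, h6⟩
            exact ⟨h5, h6⟩
        rw [h4]
        have h5 : (1 + η) * w u * ((v : ℝ) - u) = (1 + η) * M (u, v) := by
          simp only [hM]
          ring
        rw [h5]
        exact h3.le
      rw [if_pos hT, if_pos h2]
  have h6 := Pb_exists_le (prob_pw hw) U P (fun q S => (1 + η) * M q ≤ ((S ∩ I q).card : ℝ))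
  have h7 : ∀ q ∈ P, Pb (pw w) U (fun S => (1 + η) * M q ≤ ((S ∩ I q).card : ℝ)) ≤
      Real.exp (-(η ^ 2 / 4 * (x : ℝ) ^ (ε / 4))) := by
    intro q hq
    obtain ⟨hqU, hq2⟩ := Finset.mem_filter.1 hq
    obtain ⟨hu, hv⟩ := Finset.mem_product.1 hqU
    have hxe : 0 < (x : ℝ) ^ (ε / 2) := Real.rpow_pos_of_pos hpos _
    have huv : q.1 < q.2 := by
      have : (q.1 : ℝ) < q.2 := by linarith
      exact_mod_cast this
    have h8 : ∑ m ∈ I q, pw w m ≤ M q := by
      have h9 : ∀ m ∈ I q, pw w m ≤ w q.1 := by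
        intro m hm
        simp only [hI, Finset.mem_filter] at hm
        rw [pw_not_prime hm.2.1]
        exact hw.anti hm.2.2.1.le
      have h10 : (I q).card ≤ q.2 - q.1 := by
        have h11 : I q ⊆ Finset.Ioo q.1 q.2 := by
          intro m hm
          simp only [hI, Finset.mem_filter] at hm
          exact Finset.mem_Ioo.2 hm.2.2
        have h12 := Finset.card_le_card h11
        rw [Nat.card_Ioo] at h12
        omega
      have h13 : ((I q).card : ℝ) ≤ (q.2 : ℝ) - q.1 := by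
        have : ((I q).card : ℝ) ≤ ((q.2 - q.1 : ℕ) : ℝ) := by exact_mod_cast h10
        rwa [Nat.cast_sub huv.le] at this
      calc ∑ m ∈ I q, pw w m ≤ (I q).card • w q.1 := Finset.sum_le_card_nsmul _ _ _ h9
        _ = (I q).card * w q.1 := by rw [nsmul_eq_mul]
        _ ≤ ((q.2 : ℝ) - q.1) * w q.1 := mul_le_mul_of_nonneg_right h13 (hw.pos _).le
        _ = M q := by simp only [hM]; ring
    have h14 := hVCD (pw w) (prob_pw hw) U (I q) (M q) η (Finset.filter_subset _ _) hη hη1 h8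
    refine h14.trans (Real.exp_le_exp.2 (neg_le_neg ?_))
    have h15 : (x : ℝ) ^ (ε / 4) ≤ M q := by
      have h16 : w (2 * x) ≤ w q.1 := by
        apply hw.anti
        have := (Finset.mem_Icc.1 hu).2
        exact this
      have h17 : (x : ℝ) ^ (-(ε / 4)) ≤ w (2 * x) := by
        refine le_trans ?_ hx
        have h18 : (x : ℝ) ^ (-(ε / 4)) = ((x : ℝ) ^ 2) ^ (-(ε / 8)) := by
          rw [← Real.rpow_natCast, ← Real.rpow_mul hpos.le]
          congr 1
          push_cast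
          ring
        rw [h18]
        apply Real.rpow_le_rpow_of_nonpos
        · push_cast
          linarith
        · push_cast
          nlinarith
        · linarith
      have h19 : (x : ℝ) ^ (ε / 4) = (x : ℝ) ^ (-(ε / 4)) * (x : ℝ) ^ (ε / 2) := by
        rw [← Real.rpow_add hpos]
        congr 1
        ring
      rw [h19]
      exact mul_le_mul (h17.trans h16) hq2 hxe.le (hw.pos _).le
    have h20 : 0 ≤ η ^ 2 / 4 := by positivity
    calc η ^ 2 / 4 * (x : ℝ) ^ (ε / 4) ≤ η ^ 2 / 4 * M q := mul_le_mul_of_nonneg_left h15 h20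
      _ = η ^ 2 * M q / 4 := by ring
  have h21 : (P.card : ℝ) ≤ ((2 * x + 1 : ℕ) : ℝ) ^ 2 := by
    have h22 : P.card ≤ (2 * x + 1) * (2 * x + 1) := by
      have h23 : U.card ≤ 2 * x + 1 := by
        rw [hU]
        unfold UU
        rw [Nat.card_Icc]
        omega
      calc P.card ≤ (U ×ˢ U).card := Finset.card_filter_le _ _
        _ = U.card * U.card := Finset.card_product _ _
        _ ≤ _ := Nat.mul_le_mul h23 h23
    rw [sq]
    exact_mod_cast h22
  calc Pb (pw w) U (fun S => ¬ TY w η ε x S)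
      ≤ ∑ q ∈ P, Pb (pw w) U (fun S => (1 + η) * M q ≤ ((S ∩ I q).card : ℝ)) := h1.trans h6
    _ ≤ P.card • Real.exp (-(η ^ 2 / 4 * (x : ℝ) ^ (ε / 4))) := Finset.sum_le_card_nsmul _ _ _ h7
    _ = P.card * Real.exp (-(η ^ 2 / 4 * (x : ℝ) ^ (ε / 4))) := by rw [nsmul_eq_mul]
    _ ≤ ((2 * x + 1 : ℕ) : ℝ) ^ 2 * Real.exp (-(η ^ 2 / 4 * (x : ℝ) ^ (ε / 4))) :=
        mul_le_mul_of_nonneg_right h21 (Real.exp_pos _).le
    _ ≤ 1 / (x : ℝ) ^ 3 := VTY_end x _ _ hx9 hxl

end Pool.Agent.Work.MP_7d0410_sp
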