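import Pool.Agent.Work.MP_7d0410_sv.Interface
import Pool.Agent.Work.MP_7d0410_cr.B_UPP
import Pool.Agent.Work.MP_b0c12c_nt_helper41.Mert

/-!
# Upper bound for the expected number of good runs on average
-/

set_option autoImplicit false

namespace Pool.Agent.Work.MP_7d0410_sp

open Finset Filter MeasureTheory ProbabilityTheory
open Pool.Agent.Work.MP_7d0410_cr
open scoped Classical Topology

/-- the asymptotic estimate -/
lemma VUP_asym (ε η : ℝ) (hε0 : 0 < ε) (hε1 : ε < 1 / 4) (hη : 0 < η) : ∀ᶠ x : ℕ in atTop,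
    4 ≤ a0 ε x ∧ Real.log x ≤ 2 * Real.log ((a0 ε x - 1 : ℕ) : ℝ) + 2 ∧
      ∀ B : ℕ, B = x / R0 ε x → a0 ε x ≤ B →
      Real.log (Real.log B) - Real.log (Real.log ((a0 ε x - 1 : ℕ) : ℝ)) ≤ lam ε + η := by
  have hlog : Tendsto (fun x : ℕ => Real.log (x : ℝ)) atTop atTop :=
    Real.tendsto_log_atTop.comp tendsto_natCast_atTop_atTop
  filter_upwards [hlog.eventually_ge_atTop (max 4 (4 / η)), Filter.eventually_ge_atTop 1]
    with x hx hx1
  have hx4 : 4 ≤ Real.log x := (le_max_left _ _).trans hx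
  have hxη : 4 / η ≤ Real.log x := (le_max_right _ _).trans hx
  have hxpos : (0 : ℝ) < x := by exact_mod_cast (show 0 < x by omega)
  have hlam : 0 < lam ε := by
    unfold lam
    apply Real.log_pos
    rw [one_lt_div (by linarith)]
    linarith
  set E : ℝ := (x : ℝ) ^ (1 / 2 + ε) with hE
  have hEexp : E = Real.exp (Real.log x * (1 / 2 + ε)) := by
    rw [hE, Real.rpow_def_of_pos hxpos]
  have hE7 : 7 ≤ E := by
    rw [hEexp]
    have h1 : (2 : ℝ) ≤ Real.log x * (1 / 2 + ε) := by nlinarith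
    have h2 : Real.exp 2 ≤ Real.exp (Real.log x * (1 / 2 + ε)) := Real.exp_le_exp.2 h1
    have h3 : Real.exp 2 = Real.exp 1 * Real.exp 1 := by rw [← Real.exp_add]; norm_num
    have h4 := Real.exp_one_gt_d9
    nlinarith
  have ha0 : E ≤ (a0 ε x : ℝ) := by
    unfold a0
    exact Nat.le_ceil _
  have ha4 : 4 ≤ a0 ε x := by
    have : (4 : ℝ) ≤ (a0 ε x : ℝ) := by linarith
    exact_mod_cast this
  have hloga : (1 / 2 + ε) * Real.log x - 1 ≤ Real.log ((a0 ε x - 1 : ℕ) : ℝ) := by
    have hcast : ((a0 ε x - 1 : ℕ) : ℝ) = (a0 ε x : ℝ) - 1 := by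
      rw [Nat.cast_sub (by omega), Nat.cast_one]
    rw [hcast]
    have h2 : E * Real.exp (-1) ≤ (a0 ε x : ℝ) - 1 := by
      have h3 : Real.exp (-1) ≤ 1 / 2 := by
        rw [Real.exp_neg, inv_le_comm₀ (Real.exp_pos _) (by norm_num)]
        have := Real.exp_one_gt_d9
        norm_num
        linarith
      nlinarith
    have h4 := Real.log_le_log (mul_pos (by linarith) (Real.exp_pos _)) h2
    rw [Real.log_mul (by linarith) (Real.exp_pos _).ne', Real.log_exp, hEexp, Real.log_exp] at h4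
    linarith
  refine ⟨ha4, by nlinarith, ?_⟩
  intro B hB hle
  have hBpos : 1 ≤ B := by omega
  have hR : (x : ℝ) ^ ε ≤ (R0 ε x : ℝ) := by
    unfold R0
    exact Nat.le_ceil _
  have hxe : 0 < (x : ℝ) ^ ε := Real.rpow_pos_of_pos hxpos _
  have hBle : (B : ℝ) ≤ (x : ℝ) / (x : ℝ) ^ ε := by
    rw [hB]
    calc ((x / R0 ε x : ℕ) : ℝ) ≤ (x : ℝ) / R0 ε x := Nat.cast_div_le
      _ ≤ (x : ℝ) / (x : ℝ) ^ ε := by
          apply div_le_div_of_nonneg_left hxpos.le hxe hR
  have hlogB : Real.log B ≤ (1 - ε) * Real.log x := by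
    have hBp : (0 : ℝ) < B := by exact_mod_cast hBpos
    have := Real.log_le_log hBp hBle
    rw [Real.log_div hxpos.ne' hxe.ne', Real.log_rpow hxpos] at this
    linarith
  have hlx : 0 < Real.log x := by linarith
  have hmid : 0 < (1 / 2 + ε) * Real.log x - 1 := by nlinarith
  have hlogBpos : 0 < Real.log B := by
    apply Real.log_pos
    have : (4 : ℝ) ≤ B := by exact_mod_cast (by omega : 4 ≤ B)
    linarith
  have h5 : Real.log (Real.log B) ≤ Real.log (1 - ε) + Real.log (Real.log x) := by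
    rw [← Real.log_mul (by linarith) hlx.ne']
    exact Real.log_le_log hlogBpos hlogB
  have h6 : Real.log ((1 / 2 + ε) * Real.log x - 1) ≤
      Real.log (Real.log ((a0 ε x - 1 : ℕ) : ℝ)) := Real.log_le_log hmid hloga
  set u : ℝ := 1 / ((1 / 2 + ε) * Real.log x) with hu
  have hden : 0 < (1 / 2 + ε) * Real.log x := by nlinarith
  have hupos : 0 < u := by positivity
  have hu2 : u ≤ 1 / 2 := by
    rw [hu]
    apply one_div_le_one_div_of_le (by norm_num)
    nlinarith
  have huη : 2 * u ≤ η := by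
    rw [hu, mul_one_div, div_le_iff₀ hden]
    have h7 : 4 ≤ η * Real.log x := by
      have := (div_le_iff₀ hη).1 hxη
      linarith
    nlinarith
  have h8 : (1 / 2 + ε) * Real.log x - 1 = ((1 / 2 + ε) * Real.log x) * (1 - u) := by
    rw [hu]
    field_simp
  have h9 : Real.log ((1 / 2 + ε) * Real.log x - 1) =
      Real.log (1 / 2 + ε) + Real.log (Real.log x) + Real.log (1 - u) := by
    rw [h8, Real.log_mul hden.ne' (by linarith), Real.log_mul (by linarith) hlx.ne']
  have h10 : -(2 * u) ≤ Real.log (1 - u) := by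
    have h11 := Real.one_sub_inv_le_log_of_pos (show (0 : ℝ) < 1 - u by linarith)
    have h12 : (1 - u)⁻¹ ≤ 1 + 2 * u := by
      rw [inv_le_iff_one_le_mul₀ (by linarith)]
      nlinarith
    linarith
  have hlameq : lam ε = Real.log (1 - ε) - Real.log (1 / 2 + ε) := by
    unfold lam
    rw [Real.log_div (by linarith) (by linarith)]
  linarith

theorem p_VUP : Stmt_VWS → Stmt_VUP := by
  intro hVWS w hw ε η hε0 hε1 hη
  obtain ⟨C, hC0, hC⟩ := Pool.Agent.Work.MP_b0c12c_nt_helper41.mertens2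
  have hlog : Tendsto (fun x : ℕ => Real.log (x : ℝ)) atTop atTop :=
    Real.tendsto_log_atTop.comp tendsto_natCast_atTop_atTop
  filter_upwards [VUP_asym ε (η / 4) hε0 hε1 (by linarith), Filter.eventually_ge_atTop 1,
    hVWS w hw (η / 2) (by linarith), hlog.eventually_ge_atTop (2 * (4 * C / η) + 2)]
    with x hx hx1 hws hlx
  obtain ⟨ha4, hlog2, hasym⟩ := hx
  have hasym := hasym _ rfl
  obtain ⟨U, hU⟩ : ∃ U, U = UU ε x := ⟨_, rfl⟩
  obtain ⟨R, hR⟩ : ∃ R, R = R0 ε x := ⟨_, rfl⟩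
  obtain ⟨G, hG⟩ : ∃ G, G = GG x := ⟨_, rfl⟩
  rw [← hU, ← hR, ← hG]
  rw [← hR] at hasym
  have hxpos : (0 : ℝ) < x := by exact_mod_cast (show 0 < x by omega)
  have hR1 : 1 ≤ R := by
    rw [hR]
    unfold R0
    apply Nat.one_le_ceil_iff.2
    exact Real.rpow_pos_of_pos hxpos _
  have hUmem : ∀ m, m ∈ U ↔ a0 ε x ≤ m ∧ m ≤ 2 * x := by
    intro m
    rw [hU]
    unfold UU
    rw [Finset.mem_Icc]
  have hsqrt : Nat.sqrt x ≤ a0 ε x := by
    have h1 : (Nat.sqrt x : ℝ) ≤ (x : ℝ) ^ (1 / 2 : ℝ) := by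
      rw [← Real.sqrt_eq_rpow]
      exact Real.nat_sqrt_le_real_sqrt
    have h2 : (x : ℝ) ^ (1 / 2 : ℝ) ≤ (x : ℝ) ^ (1 / 2 + ε) :=
      Real.rpow_le_rpow_of_exponent_le (by exact_mod_cast hx1) (by linarith)
    have h3 : (x : ℝ) ^ (1 / 2 + ε) ≤ (a0 ε x : ℝ) := by
      unfold a0
      exact Nat.le_ceil _
    exact_mod_cast h1.trans (h2.trans h3)
  have h1 : ∑ n ∈ Finset.Icc 1 x, HH (pw w) U R G n =
      Ex (pw w) U (fun S => ∑ n ∈ Finset.Icc 1 x, (cnt R G S n : ℝ)) := by
    rw [Ex_sum]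
    rfl
  have h2 : Ex (pw w) U (fun S => ∑ n ∈ Finset.Icc 1 x, (cnt R G S n : ℝ)) ≤
      Ex (pw w) U (fun S => ∑ b ∈ S, if b * R ≤ x then ((x / b : ℕ) : ℝ) else 0) := by
    refine Ex_mono (prob_pw hw) fun S hS => ?_
    have h3 := UPP_count S R G x (fun m hm => by have := ((hUmem m).1 (hS hm)).1; omega)
    have h4 : ∑ n ∈ Finset.Icc 1 x, (cnt R G S n : ℝ) ≤
        ∑ b ∈ S.filter (fun b => b * R ≤ x), ((x / b : ℕ) : ℝ) := by exact_mod_cast h3
    refine h4.trans (le_of_eq ?_)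
    rw [← Finset.sum_filter]
  rw [Ex_sum_mem] at h2
  -- split into primes and the others
  have h6 : ∑ b ∈ U, pw w b * (if b * R ≤ x then ((x / b : ℕ) : ℝ) else 0) ≤
      (x : ℝ) * (∑ b ∈ (Finset.Ioc (a0 ε x - 1) (x / R)).filter Nat.Prime, 1 / (b : ℝ)) +
      (x : ℝ) * ∑ b ∈ Finset.Icc (Nat.sqrt x) (2 * x), w b / b := by
    rw [← Finset.sum_filter_add_sum_filter_not U Nat.Prime]
    refine add_le_add ?_ ?_
    · rw [Finset.mul_sum]
      rw [← Finset.sum_filter_add_sum_filter_not (U.filter Nat.Prime) (fun b => b * R ≤ x)]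
      have h7 : ∑ b ∈ (U.filter Nat.Prime).filter (fun b => ¬ b * R ≤ x),
          pw w b * (if b * R ≤ x then ((x / b : ℕ) : ℝ) else 0) = 0 := by
        refine Finset.sum_eq_zero fun b hb => ?_
        rw [if_neg (Finset.mem_filter.1 hb).2, mul_zero]
      rw [h7, add_zero]
      have h8 : ∀ b ∈ (U.filter Nat.Prime).filter (fun b => b * R ≤ x),
          pw w b * (if b * R ≤ x then ((x / b : ℕ) : ℝ) else 0) ≤ (x : ℝ) * (1 / (b : ℝ)) := by
        intro b hb
        rw [Finset.mem_filter, Finset.mem_filter] at hb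
        rw [if_pos hb.2, pw_prime hb.1.2, one_mul, mul_one_div]
        exact Nat.cast_div_le
      refine (Finset.sum_le_sum h8).trans ?_
      refine Finset.sum_le_sum_of_subset_of_nonneg ?_ ?_
      · intro b hb
        rw [Finset.mem_filter, Finset.mem_filter, hUmem] at hb
        rw [Finset.mem_filter, Finset.mem_Ioc]
        exact ⟨⟨by omega, (Nat.le_div_iff_mul_le (by omega)).2 hb.2⟩, hb.1.2⟩
      · intro b _ _
        positivity
    · rw [Finset.mul_sum]
      have h8 : ∀ b ∈ U.filter (fun b => ¬ b.Prime),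
          pw w b * (if b * R ≤ x then ((x / b : ℕ) : ℝ) else 0) ≤ (x : ℝ) * (w b / (b : ℝ)) := by
        intro b hb
        rw [Finset.mem_filter] at hb
        have hwb := (hw.pos b).le
        rw [pw_not_prime hb.2]
        have h9 : (if b * R ≤ x then ((x / b : ℕ) : ℝ) else 0) ≤ (x : ℝ) / b := by
          split_ifs
          · exact Nat.cast_div_le
          · positivity
        calc w b * (if b * R ≤ x then ((x / b : ℕ) : ℝ) else 0) ≤ w b * ((x : ℝ) / b) :=
              mul_le_mul_of_nonneg_left h9 hwb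
          _ = (x : ℝ) * (w b / (b : ℝ)) := by ring
      refine (Finset.sum_le_sum h8).trans ?_
      refine Finset.sum_le_sum_of_subset_of_nonneg ?_ ?_
      · intro b hb
        rw [Finset.mem_filter, hUmem] at hb
        rw [Finset.mem_Icc]
        omega
      · intro b _ _
        have hwb := (hw.pos b).le
        positivity
  have h10 : ∑ b ∈ (Finset.Ioc (a0 ε x - 1) (x / R)).filter Nat.Prime, 1 / (b : ℝ) ≤
      lam ε + η / 2 := by
    by_cases hle : a0 ε x ≤ x / R
    · have h11 := hC (a0 ε x - 1) (x / R) (by omega) (by omega)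
      have h12 := (abs_le.1 h11).2
      have h13 := hasym hle
      have h14 : C / Real.log ((a0 ε x - 1 : ℕ) : ℝ) ≤ η / 4 := by
        have h15 : 4 * C / η ≤ Real.log ((a0 ε x - 1 : ℕ) : ℝ) := by linarith
        have h16 : 0 < 4 * C / η := by positivity
        rw [div_le_iff₀ (by linarith)]
        have h17 := mul_le_mul_of_nonneg_left h15 (show 0 ≤ η / 4 by linarith)
        have h18 : η / 4 * (4 * C / η) = C := by field_simp
        linarith
      linarith
    · have hlam : 0 < lam ε := by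
        unfold lam
        apply Real.log_pos
        rw [one_lt_div (by linarith)]
        linarith
      rw [Finset.Ioc_eq_empty (by omega), Finset.filter_empty, Finset.sum_empty]
      linarith
  calc ∑ n ∈ Finset.Icc 1 x, HH (pw w) U R G n ≤ (x : ℝ) *
        (∑ b ∈ (Finset.Ioc (a0 ε x - 1) (x / R)).filter Nat.Prime, 1 / (b : ℝ)) +
      (x : ℝ) * ∑ b ∈ Finset.Icc (Nat.sqrt x) (2 * x), w b / b := by
          rw [h1]; exact h2.trans h6
    _ ≤ (x : ℝ) * (lam ε + η / 2) + x * (η / 2) :=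
        add_le_add (mul_le_mul_of_nonneg_left h10 hxpos.le)
          (mul_le_mul_of_nonneg_left hws hxpos.le)
    _ = (lam ε + η) * x := by ring

end Pool.Agent.Work.MP_7d0410_sp
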