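import Pool.Agent.Work.MP_7d0410_sv.Interface

set_option autoImplicit false

namespace Pool.Agent.Work.MP_7d0410_sp

open Finset Filter MeasureTheory ProbabilityTheory
open Pool.Agent.Work.MP_7d0410_cr
open scoped Classical Topology

theorem p_VWL : Stmt_VWL := by
  intro w hw κ hκ
  obtain ⟨ρ, hρ⟩ : ∃ ρ : ℝ, ρ = (2 : ℝ) ^ (-(κ / 2)) := ⟨_, rfl⟩
  have hρ0 : 0 < ρ := by rw [hρ]; exact Real.rpow_pos_of_pos (by norm_num) _
  have hρ1 : ρ < 1 := by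
    rw [hρ]
    exact Real.rpow_lt_one_of_one_lt_of_neg (by norm_num) (by linarith)
  have h1 : ∀ᶠ m : ℕ in atTop, ρ < w (2 * m) / w m := hw.sv.eventually (lt_mem_nhds hρ1)
  obtain ⟨m1, hm1⟩ := eventually_atTop.mp h1
  obtain ⟨m0, hm0⟩ : ∃ m0 : ℕ, m0 = max m1 1 := ⟨_, rfl⟩
  have hm01 : 1 ≤ m0 := by rw [hm0]; exact le_max_right _ _
  have hstep : ∀ m : ℕ, m0 ≤ m → ρ * w m ≤ w (2 * m) := by
    intro m hm
    have h2 := hm1 m (le_trans (by rw [hm0]; exact le_max_left _ _) hm)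
    rw [lt_div_iff₀ (hw.pos m)] at h2
    exact h2.le
  have hit : ∀ i : ℕ, ρ ^ i * w m0 ≤ w (2 ^ i * m0) := by
    intro i
    induction i with
    | zero => simp
    | succ i ih =>
      have h2 := hstep (2 ^ i * m0) (Nat.le_mul_of_pos_left _ (by positivity))
      have h3 : 2 ^ (i + 1) * m0 = 2 * (2 ^ i * m0) := by ring
      rw [h3]
      calc ρ ^ (i + 1) * w m0 = ρ * (ρ ^ i * w m0) := by ring
        _ ≤ ρ * w (2 ^ i * m0) := mul_le_mul_of_nonneg_left ih hρ0.le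
        _ ≤ _ := h2
  have hlim : Tendsto (fun m : ℕ => (m : ℝ) ^ (-(κ / 2))) atTop (𝓝 0) :=
    (tendsto_rpow_neg_atTop (by linarith : 0 < κ / 2)).comp tendsto_natCast_atTop_atTop
  have hpos : 0 < ρ * w m0 := mul_pos hρ0 (hw.pos m0)
  filter_upwards [hlim.eventually (gt_mem_nhds hpos), eventually_ge_atTop m0,
    eventually_ge_atTop 1] with m h4 hm hm1'
  have hmpos : (0 : ℝ) < m := by exact_mod_cast hm1'
  -- the index `i`
  obtain ⟨i, hi⟩ : ∃ i : ℕ, i = Nat.log 2 (m / m0) := ⟨_, rfl⟩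
  have hq : m / m0 ≠ 0 := by
    have : 0 < m / m0 := Nat.div_pos hm hm01
    omega
  have hle : 2 ^ i ≤ m / m0 := by rw [hi]; exact Nat.pow_log_le_self 2 hq
  have hlt : m / m0 < 2 ^ (i + 1) := by rw [hi]; exact Nat.lt_pow_succ_log_self (by norm_num) _
  have hle2 : 2 ^ i ≤ m := le_trans hle (Nat.div_le_self _ _)
  have hlt2 : m ≤ 2 ^ (i + 1) * m0 := by
    have := (Nat.div_lt_iff_lt_mul hm01).mp hlt
    exact this.le
  have h5 : ρ ^ (i + 1) * w m0 ≤ w m := le_trans (hit (i + 1)) (hw.anti hlt2)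
  have h6 : (m : ℝ) ^ (-(κ / 2)) ≤ ρ ^ i := by
    have h7 : ρ ^ i = ((2 : ℝ) ^ i) ^ (-(κ / 2)) := by
      rw [hρ, ← Real.rpow_natCast ((2 : ℝ) ^ (-(κ / 2))), ← Real.rpow_natCast (2 : ℝ) i,
        ← Real.rpow_mul (by norm_num), ← Real.rpow_mul (by norm_num), mul_comm]
    rw [h7]
    apply Real.rpow_le_rpow_of_nonpos (by positivity) _ (by linarith)
    exact_mod_cast hle2
  have h8 : (m : ℝ) ^ (-κ) = (m : ℝ) ^ (-(κ / 2)) * (m : ℝ) ^ (-(κ / 2)) := by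
    rw [← Real.rpow_add hmpos]
    congr 1
    ring
  have h9 : 0 ≤ (m : ℝ) ^ (-(κ / 2)) := Real.rpow_nonneg hmpos.le _
  rw [h8]
  calc (m : ℝ) ^ (-(κ / 2)) * (m : ℝ) ^ (-(κ / 2))
      ≤ (ρ * w m0) * (m : ℝ) ^ (-(κ / 2)) := mul_le_mul_of_nonneg_right h4.le h9
    _ ≤ (ρ * w m0) * ρ ^ i := mul_le_mul_of_nonneg_left h6 hpos.le
    _ = ρ ^ (i + 1) * w m0 := by ring
    _ ≤ w m := h5

end Pool.Agent.Work.MP_7d0410_sp
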