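import Pool.Agent.Work.MP_7d0410_sv.Interface

/-! # MP_7d0410_nt, slowly varying weights: block VWR -/

set_option autoImplicit false

namespace Pool.Agent.Work.MP_7d0410_sp

open Finset Filter MeasureTheory ProbabilityTheory
open Pool.Agent.Work.MP_7d0410_cr
open scoped Classical Topology

/-- Block VWR. -/
theorem p_VWR : Stmt_VWR := by
  intro w hw η hη
  have h1 : Tendsto (fun m : ℕ => w (2 * (2 * m)) / w (2 * m)) atTop (𝓝 1) := by
    have h2 : Tendsto (fun m : ℕ => 2 * m) atTop atTop :=
      tendsto_atTop_mono (fun m => by show m ≤ 2 * m; omega) tendsto_id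
    exact hw.sv.comp h2
  have h3 := h1.mul hw.sv
  rw [mul_one] at h3
  have h4 : ∀ᶠ m : ℕ in atTop, 1 - η < w (2 * (2 * m)) / w (2 * m) * (w (2 * m) / w m) :=
    h3.eventually (lt_mem_nhds (by linarith))
  filter_upwards [h4] with m hm
  have p1 := hw.pos m
  have p2 := hw.pos (2 * m)
  have e : w (2 * (2 * m)) / w (2 * m) * (w (2 * m) / w m) = w (4 * m) / w m := by
    have e4 : 2 * (2 * m) = 4 * m := by ring
    rw [e4]
    field_simp
  rw [e, lt_div_iff₀ p1] at hm
  exact hm.le

end Pool.Agent.Work.MP_7d0410_sp
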