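import Pool.Agent.Work.MP_7d0410_sv.Interface

set_option autoImplicit false

namespace Pool.Agent.Work.MP_7d0410_sp

open Finset Filter MeasureTheory ProbabilityTheory
open Pool.Agent.Work.MP_7d0410_cr
open scoped Classical Topology

theorem VWS_harm (n : ℕ) : ∑ m ∈ Finset.Icc 1 n, (1 : ℝ) / m ≤ 1 + Real.log n := by
  have h := harmonic_le_one_add_log n
  rw [harmonic_eq_sum_Icc] at h
  push_cast at h
  calc ∑ m ∈ Finset.Icc 1 n, (1 : ℝ) / m = ∑ m ∈ Finset.Icc 1 n, ((m : ℝ))⁻¹ := by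
        apply Finset.sum_congr rfl
        intro m _
        rw [one_div]
    _ ≤ _ := h

theorem p_VWS : Stmt_VWS := by
  intro w hw η hη
  have h1 : ∀ᶠ m : ℕ in atTop, w m * Real.log m < η / 8 :=
    hw.small.eventually (gt_mem_nhds (by linarith : (0 : ℝ) < η / 8))
  obtain ⟨M, hM⟩ := eventually_atTop.mp h1
  filter_upwards [eventually_ge_atTop (M * M), eventually_ge_atTop 16] with x hx1 hx16
  have hsM : M ≤ Nat.sqrt x := Nat.le_sqrt.mpr hx1
  have hs4 : 4 ≤ Nat.sqrt x := Nat.le_sqrt.mpr (by omega)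
  have hx0 : (0 : ℝ) < x := by
    have : 0 < x := by omega
    exact_mod_cast this
  have hlog2 : (0.69 : ℝ) < Real.log 2 := by
    have := Real.log_two_gt_d9
    linarith
  have hlog2' : Real.log 2 < (0.7 : ℝ) := by
    have := Real.log_two_lt_d9
    linarith
  have hlogx : 4 * Real.log 2 ≤ Real.log x := by
    have h2 : Real.log ((2 : ℝ) ^ 4) ≤ Real.log x := by
      apply Real.log_le_log (by norm_num)
      have : ((16 : ℕ) : ℝ) ≤ x := by exact_mod_cast hx16
      push_cast at this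
      linarith
    rw [Real.log_pow] at h2
    push_cast at h2
    exact h2
  have hlogx0 : 0 < Real.log x := by linarith
  have hw1 : ∀ m : ℕ, Nat.sqrt x ≤ m → w m ≤ η / (2 * Real.log x) := by
    intro m hm
    have h2 := hM m (le_trans hsM hm)
    have h3 : x ≤ m ^ 4 := by
      have h4 : x < (Nat.sqrt x + 1) ^ 2 := by
        have := Nat.lt_succ_sqrt' x
        exact this
      have h5 : (Nat.sqrt x + 1) ^ 2 ≤ (Nat.sqrt x) ^ 4 := by
        obtain ⟨s, hs⟩ : ∃ s, Nat.sqrt x = s := ⟨_, rfl⟩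
        rw [hs]
        rw [hs] at hs4
        have h6 : s + 1 ≤ s ^ 2 := by nlinarith
        calc (s + 1) ^ 2 ≤ (s ^ 2) ^ 2 := Nat.pow_le_pow_left h6 2
          _ = s ^ 4 := by ring
      have h6 : (Nat.sqrt x) ^ 4 ≤ m ^ 4 := Nat.pow_le_pow_left hm 4
      omega
    have h7 : Real.log x ≤ 4 * Real.log m := by
      have h8 : Real.log x ≤ Real.log ((m : ℝ) ^ 4) := by
        apply Real.log_le_log hx0
        exact_mod_cast h3
      rw [Real.log_pow] at h8
      push_cast at h8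
      exact h8
    have h9 : w m * (Real.log x / 4) ≤ w m * Real.log m :=
      mul_le_mul_of_nonneg_left (by linarith) (hw.pos m).le
    rw [le_div_iff₀ (by linarith)]
    linarith
  have hsub : ∑ m ∈ Finset.Icc (Nat.sqrt x) (2 * x), w m / m ≤
      ∑ m ∈ Finset.Icc (Nat.sqrt x) (2 * x), η / (2 * Real.log x) * (1 / m) := by
    apply Finset.sum_le_sum
    intro m hm
    rw [Finset.mem_Icc] at hm
    have h2 := hw1 m hm.1
    have h3 : (0 : ℝ) ≤ 1 / m := by positivity
    rw [div_eq_mul_one_div]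
    exact mul_le_mul_of_nonneg_right h2 h3
  have hC : 0 ≤ η / (2 * Real.log x) := div_nonneg hη.le (by linarith)
  have hsub2 : ∑ m ∈ Finset.Icc (Nat.sqrt x) (2 * x), (1 : ℝ) / m ≤
      ∑ m ∈ Finset.Icc 1 (2 * x), (1 : ℝ) / m := by
    apply Finset.sum_le_sum_of_subset_of_nonneg
    · intro m hm
      rw [Finset.mem_Icc] at hm ⊢
      exact ⟨by omega, hm.2⟩
    · intro m _ _
      positivity
  have hh := VWS_harm (2 * x)
  have hl2 : Real.log ((2 * x : ℕ) : ℝ) = Real.log 2 + Real.log x := by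
    push_cast
    rw [Real.log_mul (by norm_num) (ne_of_gt hx0)]
  rw [hl2] at hh
  have hfin : ∑ m ∈ Finset.Icc (Nat.sqrt x) (2 * x), (1 : ℝ) / m ≤ 2 * Real.log x := by
    linarith
  calc ∑ m ∈ Finset.Icc (Nat.sqrt x) (2 * x), w m / m ≤ _ := hsub
    _ = η / (2 * Real.log x) * ∑ m ∈ Finset.Icc (Nat.sqrt x) (2 * x), (1 : ℝ) / m := by
        rw [Finset.mul_sum]
    _ ≤ η / (2 * Real.log x) * (2 * Real.log x) := mul_le_mul_of_nonneg_left hfin hC
    _ = η := div_mul_cancel₀ _ (by linarith)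

end Pool.Agent.Work.MP_7d0410_sp
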