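import Pool.Agent.Work.MP_7d0410_sv.Defs
import Pool.Agent.Work.MP_7d0410_sp.B_SFT
import Pool.Agent.Work.MP_7d0410_sp.B_MCU

/-!
# The primes with a random set of slowly varying density added: basic facts
-/

set_option autoImplicit false

namespace Pool.Agent.Work.MP_7d0410_sp

open Finset Filter MeasureTheory ProbabilityTheory
open Pool.Agent.Work.MP_7d0410_cr
open scoped Classical Topology

lemma pw_prime {w : ℕ → ℝ} {m : ℕ} (h : m.Prime) : pw w m = 1 := by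
  unfold pw
  rw [if_pos h]

lemma pw_not_prime {w : ℕ → ℝ} {m : ℕ} (h : ¬ m.Prime) : pw w m = w m := by
  unfold pw
  rw [if_neg h]

lemma pw_pos {w : ℕ → ℝ} (hw : SVW w) (m : ℕ) : 0 < pw w m := by
  unfold pw
  split_ifs
  · norm_num
  · exact hw.pos m

lemma pw_le_one {w : ℕ → ℝ} (hw : SVW w) (m : ℕ) : pw w m ≤ 1 := by
  unfold pw
  split_ifs
  · exact le_rfl
  · exact (hw.lt_one m).le

lemma prob_pw {w : ℕ → ℝ} (hw : SVW w) : Prob (pw w) := fun m => ⟨(pw_pos hw m).le, pw_le_one hw m⟩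

lemma pw_lt_one {w : ℕ → ℝ} (hw : SVW w) {m : ℕ} (h : ¬ m.Prime) : pw w m < 1 := by
  rw [pw_not_prime h]
  exact hw.lt_one m

/-- sets which do not contain all primes of `U` have weight `0` -/
lemma wt_pw_eq_zero {w : ℕ → ℝ} {U S : Finset ℕ} {q : ℕ} (hq : q.Prime) (hU : q ∈ U) (hS : q ∉ S) :
    wt (pw w) U S = 0 := by
  unfold wt
  rw [Finset.prod_eq_zero (i := q) (s := U \ S) (Finset.mem_sdiff.2 ⟨hU, hS⟩)]
  · ring
  · rw [pw_prime hq]
    ring

/-- expectations only depend on the sets which contain all primes of `U` -/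
lemma Ex_mono_pw {w : ℕ → ℝ} (hw : SVW w) {U : Finset ℕ} {F K : Finset ℕ → ℝ}
    (h : ∀ S ⊆ U, (∀ q ∈ U, q.Prime → q ∈ S) → F S ≤ K S) : Ex (pw w) U F ≤ Ex (pw w) U K := by
  unfold Ex
  refine Finset.sum_le_sum fun S hS => ?_
  by_cases hq : ∀ q ∈ U, q.Prime → q ∈ S
  · exact mul_le_mul_of_nonneg_left (h S (Finset.mem_powerset.1 hS) hq) (wt_nonneg (prob_pw hw) U S)
  · push Not at hq
    obtain ⟨q, h1, h2, h3⟩ := hq
    rw [wt_pw_eq_zero h2 h1 h3, zero_mul, zero_mul]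

lemma mem_FS {S : Finset ℕ} {r n z : ℕ} {q : ℕ × ℕ} : q ∈ FS S r n z ↔
    q ∈ runs S ∧ q.1 < z ∧ z < q.2 ∧ len S q + 1 = r ∧ sm S q + z = n := by
  unfold FS
  rw [Finset.mem_filter]

lemma mem_PTS {S : Finset ℕ} {r n : ℕ} {q : ℕ × ℕ} : q ∈ PTS S r n ↔
    q ∈ runs S ∧ len S q + 1 = r ∧ q.1 + sm S q < n ∧ n < sm S q + q.2 ∧ n - sm S q ∉ S := by
  unfold PTS
  rw [Finset.mem_filter]

lemma PT_iff (S : Finset ℕ) (r n : ℕ) : PT S r n ↔ (PTS S r n).Nonempty := by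
  unfold PT Finset.Nonempty
  simp only [mem_PTS]

/-- the end points of a run with room for one more element are different -/
lemma PTS_lt {S : Finset ℕ} {r n : ℕ} {q : ℕ × ℕ} (h : q ∈ PTS S r n) : q.1 < q.2 := by
  obtain ⟨_, _, h1, h2, _⟩ := mem_PTS.1 h
  omega

/-- at most one run becomes a run of length `r` with the sum `n` when one element is added -/
lemma PTS_card_le_one (S : Finset ℕ) (r n : ℕ) : (PTS S r n).card ≤ 1 := by
  refine le_trans (Finset.card_le_card ?_) (MCU_one p_SFT S r n)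
  intro q hq
  obtain ⟨h1, h2, h3, h4, _⟩ := mem_PTS.1 hq
  exact Finset.mem_filter.2 ⟨h1, h2, h3, h4⟩

lemma gR_eq {S : Finset ℕ} {r n : ℕ} {q : ℕ × ℕ} (h : q ∈ PTS S r n) :
    gR S r n = 1 / ((q.2 : ℝ) - q.1) := by
  have h1 : PTS S r n = {q} := by
    refine Finset.eq_singleton_iff_unique_mem.2 ⟨h, fun q' hq' => ?_⟩
    exact Finset.card_le_one.1 (PTS_card_le_one S r n) q' hq' q h
  unfold gR
  rw [h1, Finset.sum_singleton]

lemma gR_eq_zero {S : Finset ℕ} {r n : ℕ} (h : ¬ PT S r n) : gR S r n = 0 := by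
  rw [PT_iff, Finset.not_nonempty_iff_eq_empty] at h
  unfold gR
  rw [h, Finset.sum_empty]

/-- a run of length `l` has at most `l` elements in its hull -/
lemma len_le_sub (S : Finset ℕ) (q : ℕ × ℕ) (h : q.1 ≤ q.2) : len S q ≤ q.2 - q.1 + 1 := by
  unfold len
  have h1 : seg S q ⊆ Finset.Icc q.1 q.2 := by
    intro m hm
    rw [mem_seg] at hm
    exact Finset.mem_Icc.2 hm.2
  have h2 := Finset.card_le_card h1
  rw [Nat.card_Icc] at h2
  omega

lemma gR_nonneg (S : Finset ℕ) (r n : ℕ) : 0 ≤ gR S r n := by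
  unfold gR
  refine Finset.sum_nonneg fun q hq => ?_
  have h := PTS_lt hq
  have : (q.1 : ℝ) < q.2 := by exact_mod_cast h
  have h2 : 0 < (q.2 : ℝ) - q.1 := by linarith
  positivity

lemma HS_nonneg (S : Finset ℕ) (r : ℕ) (y : ℝ) : 0 ≤ HS S r y := gR_nonneg S r _

lemma HS_measurable (S : Finset ℕ) (r : ℕ) : Measurable (HS S r) := by
  unfold HS
  have h1 : Measurable (fun n : ℕ => gR S r n) := measurable_from_nat
  have h2 : Measurable (fun y : ℝ => ⌊(r : ℝ) * y⌋₊) := Nat.measurable_floor.comp (by fun_prop)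
  exact h1.comp h2

lemma fj_measurable (w : ℕ → ℝ) (η ε : ℝ) (x r : ℕ) : Measurable (fj w η ε x r) := by
  unfold fj Ex
  refine Finset.measurable_sum _ fun S _ => ?_
  by_cases h : TY w η ε x S
  · simp only [if_pos h]
    exact (HS_measurable S r).const_mul _
  · simp only [if_neg h, mul_zero]
    exact measurable_const

lemma fj_nonneg {w : ℕ → ℝ} (hw : SVW w) (η ε : ℝ) (x r : ℕ) (y : ℝ) : 0 ≤ fj w η ε x r y :=
  Ex_nonneg (prob_pw hw) fun S _ => by
    split_ifs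
    · exact HS_nonneg S r y
    · exact le_rfl

lemma EP_nonneg {w : ℕ → ℝ} (hw : SVW w) (η ε : ℝ) (x r n : ℕ) : 0 ≤ EP w η ε x r n :=
  Pb_nonneg (prob_pw hw) _ _

lemma NG_nonneg {p : ℕ → ℝ} (hp : Prob p) (U : Finset ℕ) (G n : ℕ) : 0 ≤ NG p U G n :=
  Ex_nonneg hp fun S _ => Nat.cast_nonneg _

lemma PW_nonneg (x : ℕ) (α β : ℝ) : 0 ≤ PW x α β := by
  unfold PW
  exact Finset.sum_nonneg fun s _ => by positivity

lemma norm_ee (x : ℝ) : ‖ee x‖ = 1 := by
  unfold ee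
  exact Complex.norm_exp_ofReal_mul_I _

lemma ee_add (x y : ℝ) : ee (x + y) = ee x * ee y := by
  unfold ee
  rw [← Complex.exp_add]
  congr 1
  push_cast
  ring

lemma continuous_ee : Continuous ee := by
  unfold ee
  fun_prop

end Pool.Agent.Work.MP_7d0410_sp
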