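import Pool.Agent.Work.MP_7d0410_sp.Interface

/-!
# The primes with a random set of slowly varying density added: definitions for the proof

Everything is in the namespace `Pool.Agent.Work.MP_7d0410_sp`; the expectations `Ex`, `Pb`, `hh`,
`HH`, `T1`, `T2`, `PT`, `KK`, `FF`, `pin` are those of `Pool.Agent.Work.MP_7d0410_sp.Defs`, the runs
and the parameters `a0`, `R0`, `GG`, `UU`, `lam`, `SS`, `AA` those of `Pool.Agent.Work.MP_7d0410_cr`.
-/

set_option autoImplicit false

namespace Pool.Agent.Work.MP_7d0410_sp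

open Finset Filter MeasureTheory ProbabilityTheory
open Pool.Agent.Work.MP_7d0410_cr
open scoped Classical Topology

/-! ## The probabilities -/

/-- The hypotheses on the probabilities: positive, smaller than `1`, decreasing, slowly varying, and
`w m = o(1 / log m)`. -/
structure SVW (w : ℕ → ℝ) : Prop where
  pos : ∀ m, 0 < w m
  lt_one : ∀ m, w m < 1
  anti : Antitone w
  sv : Tendsto (fun m : ℕ => w (2 * m) / w m) atTop (𝓝 1)
  small : Tendsto (fun m : ℕ => w m * Real.log m) atTop (𝓝 0)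

/-- The probabilities: `1` for the primes, `w m` for the other `m`. -/
noncomputable def pw (w : ℕ → ℝ) (m : ℕ) : ℝ := if m.Prime then 1 else w m

/-- The hypotheses on the events: independent, with `μ (E m) = w m`. -/
structure SpV {Ω : Type*} [MeasurableSpace Ω] (μ : Measure Ω) (E : ℕ → Set Ω) (w : ℕ → ℝ) :
    Prop where
  meas : ∀ m, MeasurableSet (E m)
  indep : iIndepSet E μ
  prob : ∀ m : ℕ, 2 ≤ m → μ (E m) = ENNReal.ofReal (w m)

/-! ## Insertion -/

/-- The runs of `S` which become runs of length `r` with the sum `n` when `z` is added. -/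
def FS (S : Finset ℕ) (r n z : ℕ) : Finset (ℕ × ℕ) :=
  (runs S).filter (fun q => q.1 < z ∧ z < q.2 ∧ len S q + 1 = r ∧ sm S q + z = n)

/-- The runs of `S` which become runs of length `r` with the sum `n` when one element is added. -/
def PTS (S : Finset ℕ) (r n : ℕ) : Finset (ℕ × ℕ) :=
  (runs S).filter (fun q => len S q + 1 = r ∧ q.1 + sm S q < n ∧ n < sm S q + q.2 ∧
    n - sm S q ∉ S)

/-- The reciprocal length of this run (there is at most one), and `0` if there is none. -/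
noncomputable def gR (S : Finset ℕ) (r n : ℕ) : ℝ := ∑ q ∈ PTS S r n, 1 / ((q.2 : ℝ) - q.1)

/-- The same for the sum `r y`. -/
noncomputable def HS (S : Finset ℕ) (r : ℕ) (y : ℝ) : ℝ := gR S r ⌊(r : ℝ) * y⌋₊

/-- Typical sets: they contain all primes of `UU ε x`, and not too many other elements. -/
structure TY (w : ℕ → ℝ) (η ε : ℝ) (x : ℕ) (S : Finset ℕ) : Prop where
  sub : S ⊆ UU ε x
  pr : ∀ p ∈ UU ε x, p.Prime → p ∈ S
  few : ∀ u v : ℕ, u ∈ UU ε x → v ∈ UU ε x → (x : ℝ) ^ (ε / 2) ≤ (v : ℝ) - u →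
    ((S.filter (fun z => ¬ z.Prime ∧ u < z ∧ z < v)).card : ℝ) ≤ (1 + η) * w u * ((v : ℝ) - u)

/-! ## Fourier transforms -/

/-- `exp (2 π i x)` -/
noncomputable def ee (x : ℝ) : ℂ := Complex.exp ((2 * Real.pi * x : ℝ) * Complex.I)

/-- The Fourier transform. -/
noncomputable def FT (F : ℝ → ℂ) (t : ℝ) : ℂ := ∫ y : ℝ, F y * ee (-(t * y))

/-- The difference of the sum over `(R, R']` and the integral. -/
noncomputable def ES (R R' : ℕ) (t : ℝ) : ℂ :=
  ∑ r ∈ Finset.Ioc R R', ee (-(t * Real.log r)) - ∫ u in (R : ℝ)..R', ee (-(t * Real.log u))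

/-- The mean value of `g` over `[y - 1/N, y]`. -/
noncomputable def BS (N : ℝ) (g : ℝ → ℝ) (y : ℝ) : ℝ := N * ∫ s in (0 : ℝ)..(1 / N), g (y - s)

/-- The difference of the sum over `(R, R']` and the integral, for the function `h`. -/
noncomputable def GC (h : ℝ → ℝ) (R R' : ℕ) (t : ℝ) : ℝ :=
  ∑ r ∈ Finset.Ioc R R', h (t - Real.log r) - ∫ u in (R : ℝ)..R', h (t - Real.log u)

/-- Multiplicative smoothing on the scale `1/(8x)`. -/
noncomputable def SM (x : ℕ) (f : ℝ → ℝ) (y : ℝ) : ℝ :=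
  8 * x * ∫ s in (0 : ℝ)..(1 / (8 * x)), f (y * Real.exp (-s))

/-! ## The lengths -/

/-- The largest length which is used. -/
noncomputable def RM (ε : ℝ) (x : ℕ) : ℕ := ⌊(x : ℝ) ^ (1 / 2 - ε) / Real.log x ^ 3⌋₊

/-- The ends of the blocks of lengths: `(RB j, RB (j + 1)]`. -/
noncomputable def RB (ε δ : ℝ) (x j : ℕ) : ℕ := ⌊(x : ℝ) ^ ε * (1 + δ) ^ j⌋₊ + 1

/-- The number of blocks of lengths. -/
noncomputable def JB (ε δ : ℝ) (x : ℕ) : ℕ :=
  ⌊Real.log ((x : ℝ) ^ (1 / 2 - 2 * ε) / Real.log x ^ 4) / Real.log (1 + δ)⌋₊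

/-- The sum of `1/s` over the primes `s` between `α` and `β`. -/
noncomputable def PW (x : ℕ) (α β : ℝ) : ℝ :=
  ∑ s ∈ (Finset.Icc 1 (2 * x)).filter (fun s : ℕ => s.Prime ∧ α < (s : ℝ) ∧ (s : ℝ) < β), 1 / (s : ℝ)

/-! ## Mean values -/

/-- The expected number of runs with the sum `n` and large mean gap. -/
noncomputable def NG (p : ℕ → ℝ) (U : Finset ℕ) (G n : ℕ) : ℝ :=
  Ex p U (fun S => (((runs S).filter (fun q => sm S q = n ∧ q.1 + G * len S q < q.2)).card : ℝ))

/-- The probability that the set is typical and no run becomes a run of length `r` with sum `n`. -/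
noncomputable def EP (w : ℕ → ℝ) (η ε : ℝ) (x r n : ℕ) : ℝ :=
  Pb (pw w) (UU ε x) (fun S => TY w η ε x S ∧ ¬ PT S r n)

/-- The mean value of `HS` over typical sets. -/
noncomputable def fj (w : ℕ → ℝ) (η ε : ℝ) (x r : ℕ) (y : ℝ) : ℝ :=
  Ex (pw w) (UU ε x) (fun S => if TY w η ε x S then HS S r y else 0)

/-- The difference of the sum over `(R, R']` and the integral of `SM (fj R')`. -/
noncomputable def FJ (w : ℕ → ℝ) (η ε : ℝ) (x R R' : ℕ) (ν : ℝ) : ℝ :=
  ∑ r ∈ Finset.Ioc R R', SM x (fj w η ε x R') (ν / r) -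
    ∫ u in (R : ℝ)..R', SM x (fj w η ε x R') (ν / u)

end Pool.Agent.Work.MP_7d0410_sp
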