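import Pool.Agent.Work.MP_7d0410_sv.B_VWR
import Pool.Agent.Work.MP_7d0410_sv.B_VWL
import Pool.Agent.Work.MP_7d0410_sv.B_VWS
import Pool.Agent.Work.MP_7d0410_sv.B_VEX
import Pool.Agent.Work.MP_7d0410_sv.B_VPL
import Pool.Agent.Work.MP_7d0410_sv.B_VG1
import Pool.Agent.Work.MP_7d0410_sv.B_VG2
import Pool.Agent.Work.MP_7d0410_sv.B_VG3
import Pool.Agent.Work.MP_7d0410_sv.B_VAN
import Pool.Agent.Work.MP_7d0410_sv.B_VSW
import Pool.Agent.Work.MP_7d0410_sv.B_VFL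
import Pool.Agent.Work.MP_7d0410_sv.B_VNE
import Pool.Agent.Work.MP_7d0410_sv.B_VNG
import Pool.Agent.Work.MP_7d0410_sv.B_VIN
import Pool.Agent.Work.MP_7d0410_sv.B_VMU
import Pool.Agent.Work.MP_7d0410_sv.B_VCD
import Pool.Agent.Work.MP_7d0410_sv.B_VTY
import Pool.Agent.Work.MP_7d0410_sv.B_VGE
import Pool.Agent.Work.MP_7d0410_sv.B_VHB
import Pool.Agent.Work.MP_7d0410_sv.B_VHL
import Pool.Agent.Work.MP_7d0410_sv.B_VNS
import Pool.Agent.Work.MP_7d0410_sv.B_VPT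
import Pool.Agent.Work.MP_7d0410_sv.B_VMW
import Pool.Agent.Work.MP_7d0410_sv.B_VRB
import Pool.Agent.Work.MP_7d0410_sv.B_VMS
import Pool.Agent.Work.MP_7d0410_sv.B_VNC
import Pool.Agent.Work.MP_7d0410_sv.B_VLS
import Pool.Agent.Work.MP_7d0410_sv.B_VLI
import Pool.Agent.Work.MP_7d0410_sv.B_VLR
import Pool.Agent.Work.MP_7d0410_sv.B_VLA
import Pool.Agent.Work.MP_7d0410_sv.B_VEB
import Pool.Agent.Work.MP_7d0410_sv.B_VFB
import Pool.Agent.Work.MP_7d0410_sv.B_VLO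
import Pool.Agent.Work.MP_7d0410_sv.B_VUP
import Pool.Agent.Work.MP_7d0410_sv.B_VHM
import Pool.Agent.Work.MP_7d0410_sv.B_VCR
import Pool.Agent.Work.MP_7d0410_sv.B_VCO
import Pool.Agent.Work.MP_7d0410_sv.B_VLM
import Pool.Agent.Work.MP_7d0410_sv.B_VLW
import Pool.Agent.Work.MP_7d0410_sv.B_VBC
import Pool.Agent.Work.MP_7d0410_sv.B_VCG
import Pool.Agent.Work.MP_7d0410_sv.B_VBA
import Pool.Agent.Work.MP_7d0410_sv.B_VFI
import Pool.Agent.Work.MP_7d0410_sp.B_BTT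
import Pool.Agent.Work.MP_7d0410_sp.B_CHB
import Pool.Agent.Work.MP_7d0410_sp.B_NCR
import Pool.Agent.Work.MP_7d0410_sp.B_CHE
import Pool.Agent.Work.MP_7d0410_sp.B_C1L
import Pool.Agent.Work.MP_7d0410_sp.B_C1S
import Pool.Agent.Work.MP_7d0410_sp.B_C2A
import Pool.Agent.Work.MP_7d0410_sp.B_MEC
import Pool.Agent.Work.MP_7d0410_sp.B_TEN
import Pool.Agent.Work.MP_7d0410_sp.B_VAR
import Pool.Agent.Work.MP_7d0410_cr.B_INF
import Pool.Agent.Work.MP_7d0410_cr.B_POI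
import Pool.Agent.Work.MP_7d0410_cr.B_INT

/-!
# The primes with a random set of slowly varying density added: the theorem
-/

set_option autoImplicit false

namespace Pool.Agent.Work.MP_7d0410_sp

open Pool.Agent.Work.MP_7d0410_cr

theorem v_NCR : Stmt_NCR := p_NCR p_SFT

theorem v_TY : Stmt_VTY := p_VTY p_VWL p_VCD

theorem v_GE : Stmt_VGE := p_VGE p_CHB

theorem v_HB : Stmt_VHB := p_VHB p_BTT

theorem v_HL : Stmt_VHL := p_VHL p_VIN v_GE p_VWR p_VWL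

theorem v_NS : Stmt_VNS := p_VNS p_VNE v_HB

theorem v_PT : Stmt_VPT := p_VPT (p_VNG p_SFT) p_CHB p_BTT

theorem v_MW : Stmt_VMW := p_VMW v_HB p_CHB p_VFL

theorem v_MS : Stmt_VMS := p_VMS p_VRB

theorem v_LI : Stmt_VLI := p_VLI v_MW v_TY p_VFL

theorem v_LR : Stmt_VLR := p_VLR v_NS v_HL

theorem v_LA : Stmt_VLA := p_VLA v_LR p_VLS v_LI p_VSW v_MS p_VRB

theorem v_G3 : Stmt_VG3 := p_VG3 p_VEX p_VPL p_VG1 p_VG2

theorem v_AN : Stmt_VAN := p_VAN v_G3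

theorem v_EB : Stmt_VEB := p_VEB v_PT p_VRB

theorem v_FB : Stmt_VFB := p_VFB v_AN v_HB p_VRB

theorem v_LO : Stmt_VLO := p_VLO v_LA (p_VNC v_NCR) v_EB v_FB

theorem v_UP : Stmt_VUP := p_VUP p_VWS

theorem v_HM : Stmt_VHM := p_VHM v_UP v_LO

theorem v_CR : Stmt_VCR := p_VCR p_VMU p_CHL p_VWL

theorem v_CO : Stmt_VCO := p_VCO v_CR (p_C1S p_C1L) p_C2A

theorem v_LM : Stmt_VLM := p_VLM v_HM v_CO p_MEC p_POI v_UP

theorem v_final.{u} : Stmt_VFI.{u} :=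
  p_VFI v_LM (p_VBC p_VLW (p_VAR p_TEN Pool.Agent.Work.MP_7d0410_cr.p_INF))
    (p_VCG p_VLW p_CHU) (p_VBA v_NCR) p_INT

end Pool.Agent.Work.MP_7d0410_sp
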