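import Pool.Agent.Work.MP_7d0410_sv.Basic

/-!
# The primes with a random set of slowly varying density added: statements of the blocks

The docstrings are the proofs on paper. `p = pw w` is `1` for primes and `w m` for the other `m`;
`UU ε x = [a0, 2x]`, `a0 = x^(1/2+ε)`, `R0 = x^ε`, `RM = x^(1/2-ε)/(log x)^3`,
`RB j = x^ε (1+δ)^j`, `GG = 40 (log x)^2` (all rounded). A statement with `∀ᶠ x` means: for all
large `x`, depending only on the quantities quantified before. `Stmt_BTT`, `Stmt_CHB`, `Stmt_SFT`,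
`Stmt_NCR`, `Stmt_CHL`, `Stmt_CHU`, `Stmt_C1S`, `Stmt_C2A`, `Stmt_MEC`, `Stmt_VAR` are those of
`MP_7d0410_sp` (proved there). Mertens' theorem is `mertens2` in
`Pool.Agent.Work.MP_b0c12c_nt_helper41.Mert`.
-/

set_option autoImplicit false

namespace Pool.Agent.Work.MP_7d0410_sp

open Finset Filter MeasureTheory ProbabilityTheory
open Pool.Agent.Work.MP_7d0410_cr
open scoped Classical Topology

/-! ## The probabilities `w m` -/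

/-- VWR. `w (4m) / w m = (w (4m) / w (2m)) (w (2m) / w m) → 1`. -/
def Stmt_VWR : Prop := ∀ w : ℕ → ℝ, SVW w → ∀ η : ℝ, 0 < η → ∀ᶠ m : ℕ in atTop,
  (1 - η) * w m ≤ w (4 * m)

/-- VWL. Let `ρ = 2^(-κ/2) < 1` and `m0 ≥ 1` with `ρ w m ≤ w (2m)` for `m ≥ m0`. By induction
`ρ^i w m0 ≤ w (2^i m0)`. If `2^i m0 ≤ m < 2^(i+1) m0` then
`w m ≥ w (2^(i+1) m0) ≥ ρ^(i+1) w m0` and `ρ^i = (2^i)^(-κ/2) ≥ m^(-κ/2)`, so
`w m ≥ ρ w m0 m^(-κ/2) ≥ m^(-κ)` for large `m`. -/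
def Stmt_VWL : Prop := ∀ w : ℕ → ℝ, SVW w → ∀ κ : ℝ, 0 < κ → ∀ᶠ m : ℕ in atTop,
  (m : ℝ) ^ (-κ) ≤ w m

/-- VWS. For `m ≥ √x`, `log m ≥ (log x)/4` and `w m log m ≤ η/8`, so `w m ≤ η/(2 log x)`; the sum
of `1/m` over `m ≤ 2x` is at most `1 + log (2x) ≤ 2 log x`. -/
def Stmt_VWS : Prop := ∀ w : ℕ → ℝ, SVW w → ∀ η : ℝ, 0 < η → ∀ᶠ x : ℕ in atTop,
  ∑ m ∈ Finset.Icc (Nat.sqrt x) (2 * x), w m / m ≤ η

/-! ## Fourier analysis -/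

/-- VEX: exponential sums. `R ≥ x^ε` is large, `|t| ≤ x^4 ≤ R^(4/ε)`; by conjugation let `t ≥ 0`.
Case `t ≤ R^(7/10)`: `ES = ∑_r ∫_(r-1)^r (ee (-(t log r)) - ee (-(t log u))) du`, and the integrand
is at most `2π t (log r - log u) ≤ 2π t/R`, so `‖ES‖ ≤ 2π t ≤ R^(8/10)`. Case `t > R^(7/10)`: the
integral is `(R'^(1-2πit) - R^(1-2πit))/(1-2πit)`, so at most `3R/(2πt) ≤ R^(3/10)`. The sum: let
`t = R^τ`, `7/10 ≤ τ ≤ 4/ε`, and `q = ⌊τ + 7/5⌋ ≥ 2`, so `R^(-7/5) ≤ t/R^q ≤ R^(-2/5)` and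
`q ≤ 4/ε + 2`. Use the derivative test `stmt_D` in `Pool.Agent.Work.MP_852da8_m6.B_D` (with
`stmt_SD` in `B_SD`; `Pool.M6.e = ee` by `rfl`) with `K = R`, `h = 2^q`, `a = R + 1`,
`b = R' + 1` (or `a = R + 1`, `b = R'` and one more term), `F 0 u = -t log u`,
`F i u = (-1)^i t (i-1)! / u^i` for `i ≥ 1`, `l = t (q-1)!/(2R)^q` which is in
`[R^(-3/2), R^(-1/4)]` (there are finitely many `q`; on `[R, 2R]` `|F q|` is between `l` and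
`2^q l`). Take the minimum of the finitely many exponents `η` (and of `1/5`), halved. -/
def Stmt_VEX : Prop := ∀ ε : ℝ, 0 < ε → ∃ κ : ℝ, 0 < κ ∧ ∀ᶠ x : ℕ in atTop,
  ∀ (R R' : ℕ) (t : ℝ), (x : ℝ) ^ ε ≤ R → R < R' → R' ≤ 2 * R → |t| ≤ (x : ℝ) ^ 4 →
  ‖ES R R' t‖ ≤ (R : ℝ) ^ (1 - κ)

/-- VPL: Plancherel's theorem for continuous functions with compact support. Way 1: let `f` be the
class of `F` in `Lp ℂ 2` and `g = 𝓕 f` (`MeasureTheory.Lp.norm_fourier_eq`: `‖g‖ = ‖f‖`). By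
`MeasureTheory.Lp.fourier_toTemperedDistribution_eq`, for all Schwartz functions `φ`,
`∫ g φ = ∫ F (𝓕 φ) = ∫ (𝓕 F) φ` (the last step is
`VectorFourier.integral_fourierIntegral_smul_eq_flip` or a similar name), so `g = 𝓕 F` almost
everywhere (`ae_eq_of_integral_contDiff_smul_eq`), and `𝓕 F = FT F`. Way 2: by Fubini
`∫ ‖FT F t‖² exp (-π t²/Y²) dt = ∫∫ F(y) conj (F(y')) Y exp (-π Y² (y-y')²) dy dy'` (compare
`Pool.Agent.Work.MP_852da8_m6.Planch`), let `Y → ∞` (monotone convergence on the left, approximate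
identity on the right). -/
def Stmt_VPL : Prop := ∀ F : ℝ → ℂ, Continuous F → HasCompactSupport F →
  Integrable (fun t => ‖FT F t‖ ^ 2) ∧ ∫ t, ‖FT F t‖ ^ 2 = ∫ y, ‖F y‖ ^ 2

/-- VG1: box smoothing. `BS N g y = N ∫_(y-1/N)^y g`, so it is Lipschitz and between `0` and `1`.
Fubini: `FT (BS N g) t = N (∫_0^(1/N) ee (-(t s)) ds) (FT g t)`, and the first integral is
`(1 - ee (-(t/N)))/(2π i t)`, at most `1/|t|` in absolute value; `‖FT g t‖ ≤ ∫ g ≤ V`. -/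
def Stmt_VG1 : Prop := ∀ (g : ℝ → ℝ) (N V : ℝ), 1 ≤ N → 0 ≤ V → Measurable g →
  (∀ y, 0 ≤ g y ∧ g y ≤ 1) → (∀ y, y < 0 ∨ V < y → g y = 0) →
  Continuous (BS N g) ∧ (∀ y, 0 ≤ BS N g y ∧ BS N g y ≤ 1) ∧
  (∀ y, y < 0 ∨ V + 1 < y → BS N g y = 0) ∧
  ∀ t : ℝ, t ≠ 0 → ‖FT (fun y => (BS N g y : ℂ)) t‖ ≤ N * V / |t|

/-- VG2. The sum is a finite sum of translates; the integral over `u` is a continuous function of
`t` (`intervalIntegral.continuous_parametric_intervalIntegral_of_continuous` or similar). The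
support is contained in `[0, V + log R']` (`log R ≥ 0`). `FT (h (· - c)) t = ee (-(t c)) FT h t`,
and Fubini for the integral over `u`. -/
def Stmt_VG2 : Prop := ∀ (h : ℝ → ℝ) (V : ℝ) (R R' : ℕ), Continuous h →
  (∀ y, y < 0 ∨ V < y → h y = 0) → 1 ≤ R → R < R' →
  Continuous (GC h R R') ∧ HasCompactSupport (GC h R R') ∧
  ∀ t : ℝ, FT (fun y => (GC h R R' y : ℂ)) t = FT (fun y => (h y : ℂ)) t * ES R R' t

/-- VG3. Let `h = BS (8x) g`, `V = log (4x)`, `κ` the exponent of `VEX`. By `VPL` and `VG2` the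
integral is `∫ ‖FT h‖² ‖ES‖²`. For `|t| ≤ x^4` use `VEX`, and `∫ ‖FT h‖² = ∫ h² ≤ V + 1`. For
`|t| > x^4` use `‖ES‖ ≤ 2R`, `‖FT h t‖ ≤ 8 x V/|t|` (`VG1`):
`∫_(|t| > x^4) (2R)² (8 x V)²/t² dt ≤ 4 x · 64 x² V² · 2/x^4 ≤ 1`. Total at most
`R^(2-2κ) (log (4x) + 1) + 1 ≤ R^(2-κ)` as `R^κ ≥ x^(εκ)`. -/
def Stmt_VG3 : Prop := ∀ ε : ℝ, 0 < ε → ∃ κ : ℝ, 0 < κ ∧ ∀ᶠ x : ℕ in atTop,
  ∀ (R R' : ℕ) (g : ℝ → ℝ), (x : ℝ) ^ ε ≤ R → R < R' → R' ≤ 2 * R → R' ^ 2 ≤ x →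
  Measurable g → (∀ y, 0 ≤ g y ∧ g y ≤ 1) → (∀ y, y < 0 ∨ Real.log (4 * x) < y → g y = 0) →
  Continuous (GC (BS (8 * x) g) R R') ∧ Integrable (fun t => (GC (BS (8 * x) g) R R' t) ^ 2) ∧
  ∫ t, (GC (BS (8 * x) g) R R' t) ^ 2 ≤ (R : ℝ) ^ (2 - κ)

/-- VAN. Let `g t = f (exp t)`, `h = BS (8x) g`; then `SM x f (exp t) = h t`, so for `ν ≥ 1` the
function in the integral is `|GC h R R' (log ν)|`, a continuous function of `ν`. Substitute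
`ν = exp t`: the integral is `∫_0^(log (4x)) |G(t)| e^t dt`, `G = GC h R R'`. With
`2 |G| e^t ≤ λ G² + e^(2t)/λ`, `λ = x R^(κ/2-1)`, `VG3` and `∫_0^(log (4x)) e^(2t) dt ≤ 8 x²` it is at
most `5 x R^(1-κ/2) ≤ x R^(1-κ/3)`. -/
def Stmt_VAN : Prop := ∀ ε : ℝ, 0 < ε → ∃ κ : ℝ, 0 < κ ∧ ∀ᶠ x : ℕ in atTop,
  ∀ (R R' : ℕ) (f : ℝ → ℝ), (x : ℝ) ^ ε ≤ R → R < R' → R' ≤ 2 * R → R' ^ 2 ≤ x →
  Measurable f → (∀ y, 0 ≤ f y ∧ f y ≤ 1) → (∀ y : ℝ, y < 1 ∨ 4 * x < y → f y = 0) →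
  IntervalIntegrable (fun ν : ℝ => |∑ r ∈ Finset.Ioc R R', SM x f (ν / r) -
    ∫ u in (R : ℝ)..R', SM x f (ν / u)|) volume 1 (4 * x) ∧
  ∫ ν in (1 : ℝ)..(4 * x), |∑ r ∈ Finset.Ioc R R', SM x f (ν / r) -
    ∫ u in (R : ℝ)..R', SM x f (ν / u)| ≤ x * (R : ℝ) ^ (1 - κ)

/-- VSW: Fubini for the bounded measurable function `(u, s) ↦ f (ν exp(-s) / u)`. -/
def Stmt_VSW : Prop := ∀ (x R R' : ℕ) (f : ℝ → ℝ) (B ν : ℝ), 1 ≤ x → 1 ≤ R → R ≤ R' →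
  Measurable f → (∀ y, 0 ≤ f y ∧ f y ≤ B) →
  IntervalIntegrable (fun s : ℝ => ∫ u in (R : ℝ)..R', f (ν * Real.exp (-s) / u)) volume 0
    (1 / (8 * x)) ∧
  ∫ u in (R : ℝ)..R', SM x f (ν / u) =
    8 * x * ∫ s in (0 : ℝ)..(1 / (8 * x)), ∫ u in (R : ℝ)..R', f (ν * Real.exp (-s) / u)

/-- VFL: for `u` in the open interval `(A/(m+1), A/m)` we have `⌊A/u⌋ = m`; these intervals are
disjoint and contained in `[R, R']` for `m ∈ M`, and the function is bounded (finitely many values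
of the floor) and measurable. -/
def Stmt_VFL : Prop := ∀ (A : ℝ) (R R' : ℕ) (M : Finset ℕ) (G : ℕ → ℝ), 0 < A → 1 ≤ R → R ≤ R' →
  (∀ m, 0 ≤ G m) → (∀ m ∈ M, 1 ≤ m ∧ A ≤ R' * m ∧ R * ((m : ℝ) + 1) ≤ A) →
  IntervalIntegrable (fun u : ℝ => G ⌊A / u⌋₊) volume R R' ∧
  ∑ m ∈ M, G m * (A / (m * ((m : ℝ) + 1))) ≤ ∫ u in (R : ℝ)..R', G ⌊A / u⌋₊

/-! ## Runs -/

/-- VNE: nested runs. Let `r = len S q + 1 ≤ r' = len S q' + 1`, `n = sm S q + z`,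
`n' = sm S q' + z'`. (1) Suppose `q.1 < q'.1`. Then `q.2 < q'.2` (otherwise `seg S q'` is contained
in `seg S q` without `q.1`). Let `A = seg S q \ seg S q'` (all elements `≤ q.2` and `< q'.1`, one
of them is `q.1`), `B = seg S q' \ seg S q` (all elements `> q.2` and `≥ q'.1`), `α = |A|`,
`β = |B|`, `d = β - α = r' - r ≥ 0`. Split `B = B1 ∪ B2`, `|B1| = α`, `|B2| = d`. Then
`r n' - r' n = r (∑ B1 - ∑ A + z' - z) + ∑_(b ∈ B2) (r b - n)`. As `n ≤ r q.2`,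
`r b ≥ r (q.2 + 1) ≥ n`. And `D = ∑ B1 - ∑ A + z' - z ≥ 4`: `z' - z ≥ q'.1 - q.2 + 2`. If
`q'.1 ≤ q.2` every `b - a` (`b ∈ B1`, `a ∈ A`) is at least `(q.2 + 1) - (q'.1 - 1) ≥ 2`, so
`D ≥ (q.2 - q'.1 + 2) + (q'.1 - q.2 + 2) = 4`. If `q'.1 > q.2` then `z' - z ≥ 3` and every
`b - a ≥ 1`. So `r n' ≥ r' n + 4 r`, a contradiction. (2) Suppose `q'.2 < q.2`. Then `q'.1 < q.1`
(otherwise `seg S q'` is contained in `seg S q` without `q.2`). Now `A` consists of elements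
`> q'.2` and `≥ q.1`, `B` of elements `≤ q'.2` and `< q.1`;
`r' n - r n' = r (∑ A - ∑ B1 + z - z') + ∑_(b ∈ B2) (n - r b)`, `r b ≤ r (q.1 - 1) ≤ n`, and as
before `∑ A - ∑ B1 + z - z' ≥ 4`. So `r' n ≥ r n' + 4 r`, a contradiction. -/
def Stmt_VNE : Prop := ∀ (S : Finset ℕ) (q q' : ℕ × ℕ) (z z' : ℕ), q ∈ runs S → q' ∈ runs S →
  q.1 < z → z < q.2 → q'.1 < z' → z' < q'.2 → len S q ≤ len S q' →
  (sm S q' + z') * (len S q + 1) < (len S q' + 1) * (sm S q + z) + 4 * (len S q + 1) →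
  (len S q' + 1) * (sm S q + z) < (sm S q' + z') * (len S q + 1) + 4 * (len S q + 1) →
  q'.1 ≤ q.1 ∧ q.2 ≤ q'.2

/-- VNG: for most `n` there is a run of length `r - 1` with room for one more element (edit of
`MP_7d0410_sp/B_NPD.lean`, simpler). Call a run short if it has `r - 1` elements; write
`σ = sm S q`. For `n` in the set on the left let `q` be the short run with the largest `q.1` for
which `σ + q.1 ≤ n`. Either `n ≤ σ + q.2`: then `n - σ ∈ S` (as `PT` fails, or `n - σ` is an end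
point) and `q.1 ≤ n - σ ≤ q.2`; as `(r-1) q.1 ≤ σ ≤ x` there are at most
`(r - 1) · #{m ∈ S | (r-1) m ≤ x}` such `n`. Or `n > σ + q.2`; then there is a next short run `q'`
(the short runs below `q` have smaller `σ + q.2`, see `SFT`), `n < sm S q' + q'.1`, and
`sm S q' = σ + q'.2 - q.1`: at most `(q'.2 - q.2) + (q'.1 - q.1)` values of `n`. Summed over all
short runs `q` which are not the last: at most `2 b`. -/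
def Stmt_VNG : Prop := ∀ (a b r x : ℕ) (S : Finset ℕ), S ⊆ Finset.Icc a b → 1 ≤ a → 3 ≤ r →
  ((Finset.Icc 1 x).filter (fun n => (∃ q ∈ runs S, len S q + 1 = r ∧ sm S q + q.1 ≤ n) ∧
    (∃ q ∈ runs S, len S q + 1 = r ∧ n ≤ sm S q + q.2) ∧ ¬ PT S r n)).card ≤
    3 * b + r * (S.filter (fun m => (r - 1) * m ≤ x)).card

/-! ## Insertion -/

/-- VIN: the exact insertion formula (edit of `MP_7d0410_sp/B_MCK.lean`). For `S ⊆ V` and `q` with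
`1 ≤ KK S q`, `1` is the sum of `1 / KK S q` over the non-primes `z ∈ S` between `q.1` and `q.2`.
Exchange the sums. For `z ∈ S` the runs `q ∈ rr S r n` with `q.1 < z < q.2` are the elements of
`FS (S.erase z) r n z`, and `KK S q = KK (S.erase z) q + 1`. Now `Ex_insert`. -/
def Stmt_VIN : Prop := ∀ w : ℕ → ℝ, SVW w → ∀ (V : Finset ℕ) (r n : ℕ),
  Ex (pw w) V (fun S => (((rr S r n).filter (fun q => 1 ≤ KK S q)).card : ℝ)) =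
    ∑ z ∈ V.filter (fun z => ¬ z.Prime), w z / (1 - w z) *
      Ex (pw w) V (fun S => if z ∈ S then 0 else ∑ q ∈ FS S r n z, 1 / ((KK S q : ℝ) + 1))

/-- VMU: upper bound (edit of `MP_7d0410_sp/B_MCK.lean` and `B_MCU.lean`: there `pp c` and
`a^(-c)`, now `pw w` and `w a`). -/
def Stmt_VMU : Prop := ∀ w : ℕ → ℝ, SVW w → ∀ a b r n : ℕ, w a ≤ 1 / 2 →
  Ex (pw w) (Finset.Icc a b) (fun S => ∑ q ∈ rr S r n, (KK S q : ℝ)) ≤ 2 * w a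

/-- VCD: Chernoff, upper tail (edit of `MP_7d0410_sp/B_CHE.lean`). With `λ = 1 + δ`, by `Ex_prod`,
`Ex λ^|S ∩ I| = ∏_(m ∈ I) (1 + δ p m) ≤ exp (δ M)`, so the probability is at most
`exp (δ M - (1+δ) M log (1+δ))`, and `log (1+δ) ≥ 2δ/(2+δ)`
(`Real.le_log_one_add_of_nonneg`), so `(1+δ) log (1+δ) - δ ≥ δ²/(2+δ) ≥ δ²/4`. -/
def Stmt_VCD : Prop := ∀ p : ℕ → ℝ, Prob p → ∀ (U I : Finset ℕ) (M δ : ℝ), I ⊆ U → 0 < δ →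
  δ ≤ 1 → ∑ m ∈ I, p m ≤ M →
  Pb p U (fun S => (1 + δ) * M ≤ ((S ∩ I).card : ℝ)) ≤ Real.exp (-(δ ^ 2 * M / 4))

/-- VTY: most sets are typical. All primes are in `S` (`Ex_mono_pw`). For `u, v` as in `few` let `I`
be the set of the non-primes `z` with `u < z < v` and `M = w u (v - u) ≥ ∑_(z ∈ I) w z`. By `VWL`
`M ≥ w (2x) x^(ε/2) ≥ x^(ε/4)`. By `VCD` and the union bound the probability is at most
`(2x+1)² exp (-η² x^(ε/4)/4) ≤ 1/x³`. -/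
def Stmt_VTY : Prop := ∀ w : ℕ → ℝ, SVW w → ∀ ε η : ℝ, 0 < ε → ε < 1 / 4 → 0 < η → η ≤ 1 →
  ∀ᶠ x : ℕ in atTop, Pb (pw w) (UU ε x) (fun S => ¬ TY w η ε x S) ≤ 1 / (x : ℝ) ^ 3

/-- VGE. Otherwise `S` contains all primes in `(q.1, 4 q.1]`, at least `c0 q.1/log q.1` of them
(`CHB`), more than `x^(1/2)` as `x^(1/2+ε) ≤ q.1 ≤ 2x`. -/
def Stmt_VGE : Prop := ∀ (w : ℕ → ℝ) (ε η : ℝ), 0 < ε → ε < 1 / 4 → ∀ᶠ x : ℕ in atTop,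
  ∀ S : Finset ℕ, TY w η ε x S → ∀ q ∈ runs S, (len S q : ℝ) ≤ (x : ℝ) ^ (1 / 2 : ℝ) →
  q.2 ≤ 4 * q.1

/-- VHB. Let `h = q.2 - q.1 + 1 ≥ len S q ≥ x^ε/4`. The number of primes in `[q.1, q.2]` is at most
`C h/log h ≤ (2C/ε) h/log x` (`BTT`), the number of other elements of `S` at most
`2 + (1+η) w q.1 (q.2 - q.1)` by `few`, and `w q.1 ≤ 1/log q.1 ≤ 2/log x` (`SVW.small`). -/
def Stmt_VHB : Prop := ∀ w : ℕ → ℝ, SVW w → ∀ ε η : ℝ, 0 < ε → ε < 1 / 4 → 0 < η → η ≤ 1 →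
  ∃ C : ℝ, 0 < C ∧ ∀ᶠ x : ℕ in atTop, ∀ S : Finset ℕ, TY w η ε x S → ∀ q ∈ runs S,
  (x : ℝ) ^ ε ≤ 4 * len S q → (len S q : ℝ) * Real.log x ≤ C * ((q.2 : ℝ) - q.1)

/-- VHL: lower bound for the expected number of `r`-runs with the sum `n`. Let `TY w η ε x S` and
`q ∈ PTS S r n`, `z = n - sm S q`. Then `z ∈ UU ε x`, `z ∉ S`, so `z` is not a prime, and
`q ∈ FS S r n z`. `q.2 - q.1 ≥ r - 2 ≥ x^ε - 2 ≥ x^(ε/2)`, so by `few`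
`KK S q ≤ (1+η) w q.1 (q.2 - q.1)`; by `VWL` (`κ = ε/4`) `1 ≤ (η/4) w q.1 (q.2 - q.1)`, so
`KK S q + 1 ≤ (1 + 5η/4) w q.1 (q.2 - q.1)`. By `VGE` and `VWR`
`w z ≥ w q.2 ≥ w (4 q.1) ≥ (1 - η/4) w q.1`. So `w z/(1 - w z) · 1/(KK S q + 1) ≥
(1 - 3η)/(q.2 - q.1)`. Sum over `q ∈ PTS S r n` (at most one `q`), take the expectation, and use
`VIN`: `Ex #rr ≥ Ex #{q ∈ rr | 1 ≤ KK S q}`. -/
def Stmt_VHL : Prop := ∀ w : ℕ → ℝ, SVW w → ∀ ε η : ℝ, 0 < ε → ε < 1 / 4 → 0 < η → η ≤ 1 →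
  ∀ᶠ x : ℕ in atTop, ∀ r n : ℕ, R0 ε x ≤ r → (r : ℝ) ≤ (x : ℝ) ^ (1 / 2 : ℝ) →
  (1 - 3 * η) * Ex (pw w) (UU ε x) (fun S => if TY w η ε x S then gR S r n else 0) ≤
    Ex (pw w) (UU ε x) (fun S => ((rr S r n).card : ℝ))

/-- VNS: comparison of the lengths `r` and `R'`. Let `n' = ⌊R' (ν/r) exp(-s)⌋`. If `PTS S R' n'` is
empty then `HS = 0`. Let `q' ∈ PTS S R' n'` (`gR_eq`). By `VHB`
`HS = 1/(q'.2 - q'.1) ≤ C/((R'-1) log x) ≤ C/(R log x)`. If `q ∈ PTS S r n` then `VNE` applies (with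
`r' = R'`): `n' r ≤ R' ν ≤ R' n + R'/4 < R' n + 4 r` (`R' ≤ 2 r`), and
`n' r > R' ν (1 - s) - r ≥ R' n - R'/8 - r > R' n - 4 r` (`n ≤ x`; if `1 - s` is used, `ν ≥ n`).
So `q'.1 ≤ q.1` and `q.2 ≤ q'.2`, `1/(q'.2 - q'.1) ≤ 1/(q.2 - q.1) = gR S r n`. -/
def Stmt_VNS : Prop := ∀ w : ℕ → ℝ, SVW w → ∀ ε η : ℝ, 0 < ε → ε < 1 / 4 → 0 < η → η ≤ 1 →
  ∃ C : ℝ, 0 < C ∧ ∀ᶠ x : ℕ in atTop, ∀ (S : Finset ℕ) (R R' r n : ℕ) (ν s : ℝ),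
  TY w η ε x S → R0 ε x ≤ R → R < r → r ≤ R' → R' ≤ 2 * R → n ≤ x → (n : ℝ) ≤ ν →
  ν ≤ n + 1 / 4 → 0 ≤ s → s ≤ 1 / (8 * x) →
  HS S R' (ν / r * Real.exp (-s)) ≤ gR S r n + (if PT S r n then 0 else C / (R * Real.log x))

/-- VPT: few exceptions. Let `b = 16 x / r` (division in `ℕ`) and `S' = S ∩ [a0, b]`; for `q` with end
points in `S'` we have `seg S' q = seg S q`, so `PT S' r n → PT S r n`. For `n` with
`x ≤ n log x`, `n/r ≥ x^(1/2+ε) (log x)²`. With `Y = ⌊n/(4r)⌋ ≥ a0` the primes in `(Y, 4Y]`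
(at least `c0 Y/log Y ≥ r`, `CHB`) are in `S'` and at most `n/r`: there is a run of `S'` of length
`r - 1` below `n/r`, it has `sm + q.1 ≤ n`. With `Y = ⌈n/r⌉`, `4Y ≤ 8n/r ≤ b`, the primes in
`(Y, 4Y]` give a run of length `r - 1` with `sm + q.2 ≥ n`. So `VNG` applies to `S'`. The bound is
`3 b + r #{m ∈ S | (r-1) m ≤ x}`; `b ≤ 16 x^(1-ε)`; with `y = x/(r-1) ≥ x^(1/2)` there are at most
`2 C y/log x` primes `≤ y` (`BTT`) and at most `x^(ε/2) + 2 + 4 y/log x` other elements of `S`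
(`few` with `u = a0`, `w a0 ≤ 1/log a0`). -/
def Stmt_VPT : Prop := ∀ w : ℕ → ℝ, SVW w → ∀ ε η : ℝ, 0 < ε → ε < 1 / 4 → 0 < η → η ≤ 1 →
  ∃ C : ℝ, 0 < C ∧ ∀ᶠ x : ℕ in atTop, ∀ S : Finset ℕ, TY w η ε x S → ∀ r : ℕ, R0 ε x ≤ r →
  r ≤ RM ε x → (((Finset.Icc 1 x).filter (fun n : ℕ => (x : ℝ) ≤ n * Real.log x ∧
    ¬ PT S r n)).card : ℝ) ≤ C * (x / Real.log x)

/-- VMW: the mean value over a block of lengths. `P` = the primes `s` with `ν/R' < s < ν/R` (so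
`s > x^(1/2+ε)(log x)²/2`, `s ≤ 2x`, `s ∈ S`). Every `s ∈ P` is the last element of a run
`q = (a, s)` of length `R' - 1` (with `Y = ⌊s/4⌋ ≥ a0` there are at least `R'` primes in
`(Y, 4Y]`, `CHB`). At most `R'` of the `s ∈ P` have `a < ν/R'` (they are among the first `R' - 1`
elements of `S` above `ν/R'`); they contribute at most `R' (R'/ν)` to `PW`. For the others let `M_s`
be the set of the `m` with `sm + a < m < sm + s`, `m - sm ∉ S`. Then `q ∈ PTS S R' m`,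
`gR S R' m = 1/(s - a)`; the `M_s` are disjoint (`PTS_card_le_one`); `ν ≤ R' a ≤ m`,
`m + 1 ≤ R' s`, so `R (m+1) ≤ R' ν`: `VFL` applies with `A = R' ν`, `G = gR S R'` and the union of
the `M_s` (`R' (ν/u) = A/u`). `|M_s| = (s - a - 1) - (R' - 3) ≥ (1-δ)(s-a)` as by `VHB`
`(R'-1) log x ≤ C (s-a)`. Each `m ∈ M_s` contributes at least
`1/(s-a) · R' ν/(R' s)² ≥ 1/(s-a) · (R/R')(1/s)` (`ν ≥ R s`). -/
def Stmt_VMW : Prop := ∀ w : ℕ → ℝ, SVW w → ∀ ε η δ : ℝ, 0 < ε → ε < 1 / 4 → 0 < η → η ≤ 1 →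
  0 < δ → δ ≤ 1 → ∀ᶠ x : ℕ in atTop, ∀ (S : Finset ℕ) (R R' : ℕ) (ν : ℝ), TY w η ε x S →
  R0 ε x ≤ R →
  R < R' → R' ≤ 2 * R → R' ≤ RM ε x → (x : ℝ) ≤ 2 * ν * Real.log x → ν ≤ 2 * x →
  (1 - δ) * ((R : ℝ) / R') * PW x (ν / R') (ν / R) - 2 * (R' : ℝ) ^ 2 / ν ≤
    ∫ u in (R : ℝ)..R', HS S R' (ν / u)

/-! ## The blocks of lengths -/

/-- VRB: elementary facts. `x^ε (1+δ)^j ≤ RB j ≤ x^ε (1+δ)^j + 1`. `RB (j+1) ≤ (1+δ) RB j + 1 ≤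
(1+2δ) RB j` as `δ x^ε ≥ 1`; `x^ε (1+δ)^j δ ≥ 1` gives `RB j < RB (j+1)`. For
`j ≤ JB`: `x^ε (1+δ)^j ≤ x^(1/2-ε)/(log x)^4`. `x^ε (1+δ)^(JB+1) ≥ x^(1/2-ε)/(log x)^4`.
`JB ≤ (log x/2)/log (1+δ)` and `log (1+δ) ≥ δ/2`. -/
def Stmt_VRB : Prop := ∀ ε δ : ℝ, 0 < ε → ε < 1 / 4 → 0 < δ → δ ≤ 1 → ∀ᶠ x : ℕ in atTop,
  R0 ε x ≤ RB ε δ x 0 ∧ (RB ε δ x 0 : ℝ) ≤ 2 * (x : ℝ) ^ ε ∧
  (∀ j : ℕ, (x : ℝ) ^ ε ≤ RB ε δ x j ∧ RB ε δ x j < RB ε δ x (j + 1) ∧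
    (RB ε δ x (j + 1) : ℝ) ≤ (1 + 2 * δ) * RB ε δ x j) ∧
  (∀ j : ℕ, j ≤ JB ε δ x → RB ε δ x j ≤ RM ε x) ∧
  (JB ε δ x : ℝ) ≤ 2 / δ * Real.log x ∧
  (x : ℝ) ^ (1 / 2 - ε) / (2 * Real.log x ^ 4) ≤ RB ε δ x (JB ε δ x) ∧
  (RM ε x : ℝ) ^ 2 ≤ (x : ℝ) ^ (1 - 2 * ε)

/-- VMS: the sum over the blocks. The primes `s` with `ν/RB JB < s < ν/RB 0` belong to exactly one
block or are equal to some `ν/RB j`; the latter contribute at most `(JB + 1) RM/ν → 0`. By `mertens2`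
the sum of `1/s` over these primes is at least
`log (log (ν/RB 0) / log (ν/RB JB)) - o(1)`, and `ν/RB 0 ≥ x^(1-ε)/(4 log x)`,
`ν/RB JB ≤ 4 x^(1/2+ε) (log x)^4`. -/
def Stmt_VMS : Prop := ∀ ε δ η : ℝ, 0 < ε → ε < 1 / 4 → 0 < δ → δ ≤ 1 → 0 < η →
  ∀ᶠ x : ℕ in atTop, ∀ ν : ℝ, (x : ℝ) ≤ 2 * ν * Real.log x → ν ≤ 2 * x →
  lam ε - η ≤ ∑ j ∈ Finset.range (JB ε δ x), PW x (ν / RB ε δ x (j + 1)) (ν / RB ε δ x j)

/-! ## Lower bound for the mean value -/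

/-- VNC: for fixed `S` and `r` there are at most `x / (G r)` runs of length `r` with
`sm ≤ x` and `q.2 - q.1 > G r` (`NCR`), and `len ≤ sm ≤ x`. Sum over `r`
(`harmonic_le_one_add_log`; compare `MP_7d0410_sp/B_XXB.lean`). -/
def Stmt_VNC : Prop := ∀ p : ℕ → ℝ, Prob p → ∀ (U : Finset ℕ) (G x : ℕ), (∀ m ∈ U, 1 ≤ m) →
  1 ≤ G → 1 ≤ x → ∑ n ∈ Finset.Icc 1 x, NG p U G n ≤ x * (1 + Real.log x) / G

/-- VLS: for every `S`, `∑_(r ∈ I) #rr S r n ≤ #gr R G S n + #{q | sm = n, q.1 + G len < q.2}`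
(the runs in `rr S r n` for different `r` are different). -/
def Stmt_VLS : Prop := ∀ p : ℕ → ℝ, Prob p → ∀ (U : Finset ℕ) (R G n : ℕ) (I : Finset ℕ),
  (∀ r ∈ I, R ≤ r) →
  ∑ r ∈ I, Ex p U (fun S => ((rr S r n).card : ℝ)) ≤ HH p U R G n + NG p U G n

/-- VLI. `fj` is a finite sum over `S` of `wt · HS S R'`; exchange with the integral (each
`u ↦ HS S R' (ν/u)` is measurable and bounded on `[R, R']`, see `VFL`); use `VMW` for typical `S`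
(with `η = δ`), `Pb (TY) ≥ 1 - 1/x³ ≥ 1 - δ` (`VTY`), and `PW ≥ 0`. -/
def Stmt_VLI : Prop := ∀ w : ℕ → ℝ, SVW w → ∀ ε δ : ℝ, 0 < ε → ε < 1 / 4 → 0 < δ → δ ≤ 1 / 10 →
  ∀ᶠ x : ℕ in atTop, ∀ (R R' : ℕ) (ν : ℝ), R0 ε x ≤ R → R < R' → R' ≤ 2 * R → R' ≤ RM ε x →
  (x : ℝ) ≤ 2 * ν * Real.log x → ν ≤ 2 * x →
  (1 - δ) ^ 2 * ((R : ℝ) / R') * PW x (ν / R') (ν / R) - 2 * (R' : ℝ) ^ 2 / ν ≤
    ∫ u in (R : ℝ)..R', fj w δ ε x R' (ν / u)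

/-- VLR. Integrate `VNS` (`ν = n + θ`, `η = δ`) over `s ∈ [0, 1/(8x)]` and multiply by `8x`: for
typical `S`, `SM x (HS S R') (ν/r) ≤ gR S r n + 1[not PT] C/(R log x)`. Take the expectation:
`SM x (fj ..) (ν/r) ≤ Ex (1_TY gR S r n) + C/(R log x) EP`. Multiply by `1 - 3δ ≥ 0` and use
`VHL`. -/
def Stmt_VLR : Prop := ∀ w : ℕ → ℝ, SVW w → ∀ ε δ : ℝ, 0 < ε → ε < 1 / 4 → 0 < δ → δ ≤ 1 / 10 →
  ∃ C : ℝ, 0 < C ∧ ∀ᶠ x : ℕ in atTop, ∀ (R R' r n : ℕ) (θ : ℝ), R0 ε x ≤ R → R < r → r ≤ R' →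
  R' ≤ 2 * R → (R' : ℝ) ≤ (x : ℝ) ^ (1 / 2 : ℝ) → n ≤ x → 0 ≤ θ → θ ≤ 1 / 4 →
  (1 - 3 * δ) * (SM x (fj w δ ε x R') ((n + θ) / r) -
      C / (R * Real.log x) * EP w δ ε x r n) ≤
    Ex (pw w) (UU ε x) (fun S => ((rr S r n).card : ℝ))

/-- VLA: the pointwise lower bound. Write `R_j = RB j`, `J = JB`, `ν = n + θ`. By `VLS` with
`I = (R_0, R_J]` (the disjoint union of the `(R_j, R_(j+1)]`, `j < J`), `VLR` (`R_(j+1) ≤ 2 R_j`,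
`R_J ≤ RM ≤ x^(1/2)`, see `VRB`) and the definition of `FJ`,
`HH + NG ≥ (1-3δ) ∑_j (FJ_j ν + ∫ SM x fj (ν/u) du) - ∑∑ C/(R_j log x) EP
 ≥ (1-3δ) ∑_j ∫ SM x fj (ν/u) du - ∑ |FJ_j ν| - ∑∑ C/(R_j log x) EP`. By `VSW` (`fj` is measurable
and bounded: finitely many values of `HS S R'` at most `1`, as `q.1 < q.2`) and `VLI` for
`ν' = ν exp(-s)` (`ν' ≥ ν/2`, `ν' ≤ 2x`), `∑_j ∫ SM x fj (ν/u) du` is at least the minimum over `s`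
of `(1-δ)² (1-2δ) ∑_j PW x (ν'/R_(j+1)) (ν'/R_j) - J · 2 RM² · 2 log x/x` (`R_j/R_(j+1) ≥ 1 - 2δ`)
`≥ (1-4δ)(lam ε - δ) - δ` by `VMS` and `VRB` (if `lam ε < δ` the claim is trivial as all terms are
`≥ 0`). `lam ε ≤ log 2 ≤ 7/10`. -/
def Stmt_VLA : Prop := ∀ w : ℕ → ℝ, SVW w → ∀ ε δ : ℝ, 0 < ε → ε < 1 / 4 → 0 < δ → δ ≤ 1 / 10 →
  ∃ C : ℝ, 0 < C ∧ ∀ᶠ x : ℕ in atTop, ∀ (n : ℕ) (θ : ℝ), (x : ℝ) ≤ n * Real.log x → n ≤ x →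
  0 ≤ θ → θ ≤ 1 / 4 →
  lam ε - 10 * δ ≤ HH (pw w) (UU ε x) (R0 ε x) (GG x) n + NG (pw w) (UU ε x) (GG x) n +
    ∑ j ∈ Finset.range (JB ε δ x), ∑ r ∈ Finset.Ioc (RB ε δ x j) (RB ε δ x (j + 1)),
      C / (RB ε δ x j * Real.log x) * EP w δ ε x r n +
    ∑ j ∈ Finset.range (JB ε δ x), |FJ w δ ε x (RB ε δ x j) (RB ε δ x (j + 1)) (n + θ)|

/-- VEB. For each `r` (`R0 ≤ r ≤ RM` by `VRB`) the sum of `EP w δ ε x r n` over these `n` is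
`Ex (1_TY #{n | ¬PT S r n}) ≤ C' x/log x` (`VPT`). There are `RB (j+1) - RB j ≤ 2δ RB j` values of
`r` for every `j`: the sum is at most `JB · 2δ C C' x/(log x)² ≤ 4 C C' x/log x`. -/
def Stmt_VEB : Prop := ∀ w : ℕ → ℝ, SVW w → ∀ ε δ C η : ℝ, 0 < ε → ε < 1 / 4 → 0 < δ →
  δ ≤ 1 / 10 → 0 < C → 0 < η → ∀ᶠ x : ℕ in atTop,
  ∑ n ∈ (Finset.Icc 1 x).filter (fun n : ℕ => (x : ℝ) ≤ n * Real.log x),
    ∑ j ∈ Finset.range (JB ε δ x), ∑ r ∈ Finset.Ioc (RB ε δ x j) (RB ε δ x (j + 1)),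
      C / (RB ε δ x j * Real.log x) * EP w δ ε x r n ≤ η * x

/-- VFB. `R = RB j`, `R' = RB (j+1)`. If `HS S R' y ≠ 0` and `S` is typical let
`q ∈ PTS S R' ⌊R' y⌋`: `R' q.1 ≤ ⌊R' y⌋ < R' q.2`, so `1 ≤ a0 ≤ q.1 ≤ y` and
`y ≤ q.2 ≤ 2x ≤ 4x`, and `HS S R' y ≤ C/(R log x)` (`VHB`). So the function `f = R · fj R'`
satisfies the hypotheses of `VAN` for large `x` (`R'² ≤ RM² ≤ x`), and `FJ` for `f` is `R · FJ`. The
sum is at most `∑_j x R^(-κ) ≤ (2/δ) log x · x^(1-εκ)`. -/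
def Stmt_VFB : Prop := ∀ w : ℕ → ℝ, SVW w → ∀ ε δ η : ℝ, 0 < ε → ε < 1 / 4 → 0 < δ →
  δ ≤ 1 / 10 → 0 < η → ∀ᶠ x : ℕ in atTop,
  (∀ j ∈ Finset.range (JB ε δ x), IntervalIntegrable
    (fun ν : ℝ => |FJ w δ ε x (RB ε δ x j) (RB ε δ x (j + 1)) ν|) volume 1 (4 * x)) ∧
  ∑ j ∈ Finset.range (JB ε δ x),
    ∫ ν in (1 : ℝ)..(4 * x), |FJ w δ ε x (RB ε δ x j) (RB ε δ x (j + 1)) ν| ≤ η * x

/-- VLO: lower bound on average. `δ = min (η/100) (1/10)`. For `n` with `x ≤ n log x`,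
`max (lam - HH) 0 ≤ 10 δ + NG + ∑∑ EP-terms + ∑ |FJ_j (n+θ)|` for every `θ ∈ [0, 1/4]` (`VLA`); take
four times the integral over `θ`. Sum over `n`: `VNC` (`GG ≥ 40 (log x)²`), `VEB`, `VFB` (the
intervals `[n, n + 1/4]` are disjoint and contained in `[1, 4x]`). The `n` with `n log x < x` are at
most `x/log x` in number and contribute at most `1` each. -/
def Stmt_VLO : Prop := ∀ w : ℕ → ℝ, SVW w → ∀ ε η : ℝ, 0 < ε → ε < 1 / 4 → 0 < η →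
  ∀ᶠ x : ℕ in atTop,
  ∑ n ∈ Finset.Icc 1 x, max (lam ε - HH (pw w) (UU ε x) (R0 ε x) (GG x) n) 0 ≤ η * x

/-- VUP: upper bound on average (edit of `MP_7d0410_cr/B_UPP.lean`, `UPP_count` there). For fixed
`S`, `∑_(n ≤ x) cnt ≤ ∑_(b ∈ S, b R0 ≤ x) x/b`; by `Ex_sum_mem` the expectation is at most
`x (∑_(a0 ≤ p ≤ x/R0) 1/p + ∑_(a0 ≤ m ≤ 2x) w m/m)`. The first sum is at most
`log (log (x/R0)/log (a0 - 1)) + o(1) ≤ lam ε + η/2` by `mertens2`, the second at most `η/2` by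
`VWS`. -/
def Stmt_VUP : Prop := ∀ w : ℕ → ℝ, SVW w → ∀ ε η : ℝ, 0 < ε → ε < 1 / 4 → 0 < η →
  ∀ᶠ x : ℕ in atTop,
  ∑ n ∈ Finset.Icc 1 x, HH (pw w) (UU ε x) (R0 ε x) (GG x) n ≤ (lam ε + η) * x

/-- VHM. `|HH - lam| = (HH - lam) + 2 max (lam - HH) 0`; `VUP` and `VLO` with `η/3`. -/
def Stmt_VHM : Prop := ∀ w : ℕ → ℝ, SVW w → ∀ ε η : ℝ, 0 < ε → ε < 1 / 4 → 0 < η →
  ∀ᶠ x : ℕ in atTop,
  ∑ n ∈ Finset.Icc 1 x, |HH (pw w) (UU ε x) (R0 ε x) (GG x) n - lam ε| ≤ η * x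

/-! ## Collisions and the Poisson law -/

/-- VCR: the crude bound (edit of `MP_7d0410_sp/B_CRB.lean`). If `l > 2x` then `hh = 0`. Let
`x^(ε/4) ≤ l ≤ 2x`, `ω = w (2x) ≥ (2x)^(-ε/16)` (`VWL`) and `s = ⌈l ω/8⌉`. For `u, v ∈ UU` with
`u + l ≤ v + 1` let `I` be the set of the non-primes `z` with `u < z < v`: `|I| ≥ l/4` (even
numbers), so `∑_(z ∈ I) w z ≥ l ω/4 ≥ (3/2) s`. By `CHL` with `δ = 1/2` the probability that `S`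
has fewer than `s` elements in `I` is at most `exp (-s/16)`; there are at most `4x²` pairs, so
outside an event of probability at most `4x² exp (-x^(ε/8)/128) ≤ 1/(2x) ≤ 1/l` every
`q ∈ rr S l m` has `KK S q ≥ s`. As `#rr S l m ≤ 1` (`p_ONE` of `MP_7d0410_cr`),
`#rr ≤ (8/(l ω)) ∑_(q ∈ rr) KK S q + 1[bad event]`, and by `VMU` (`w a0 ≤ 1/2`)
`hh ≤ (16/(l ω)) w a0 + 1/l ≤ x^(ε/2)/l`. -/
def Stmt_VCR : Prop := ∀ w : ℕ → ℝ, SVW w → ∀ ε : ℝ, 0 < ε → ε < 1 / 4 → ∀ᶠ x : ℕ in atTop,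
  ∀ l m : ℕ, (x : ℝ) ^ (ε / 4) ≤ l → hh (pw w) (UU ε x) l m ≤ (x : ℝ) ^ (ε / 2) / l

/-- VCO: collisions are rare (edit of `MP_7d0410_sp/B_C1B.lean` and `B_CO.lean`). `p_C1A` of
`MP_7d0410_cr` and `C1S` with `L = ⌈x^(ε/4)⌉`, `B = x^(ε/2)` (`VCR`), `G = GG`, `a = a0`:
`∑ T1 ≤ 2 (2 G x L²/a + 4 B G x²/a²) ≤ x^(1-ε)`. `C2A` with `B = x^(ε/2)`, `R = R0`:
`∑ T2 ≤ x^(ε/2) (2 x^(1-ε) (1 + log x) + 48 G x^(1-2ε)) ≤ x^(1-ε/4)`; `8 G x ≤ a0²`. -/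
def Stmt_VCO : Prop := ∀ w : ℕ → ℝ, SVW w → ∀ ε η : ℝ, 0 < ε → ε < 1 / 4 → 0 < η →
  ∀ᶠ x : ℕ in atTop,
  ∑ n ∈ Finset.Icc 1 x, (T1 (pw w) (UU ε x) (R0 ε x) (GG x) n +
    T2 (pw w) (UU ε x) (R0 ε x) (GG x) n) ≤ η * x

/-- VLM: the expected density (edit of `MP_7d0410_cr/B_LIM.lean`, with `VHM`, `VCO`, `Stmt_MEC` of
`MP_7d0410_sp` and `Stmt_POI` of `MP_7d0410_cr`, both proved). -/
def Stmt_VLM : Prop := ∀ w : ℕ → ℝ, SVW w → ∀ ε : ℝ, 0 < ε → ε < 1 / 4 → ∀ k : ℕ,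
  Tendsto (fun x : ℕ => (∑ n ∈ Finset.Icc 1 x,
      Pb (pw w) (UU ε x) (fun S => cnt (R0 ε x) (GG x) S n = k)) / x)
    atTop (𝓝 (Real.exp (-lam ε) * lam ε ^ k / (k.factorial : ℝ)))

/-! ## Almost sure statements -/

/-- VLW: the law of `primesPlus E ω` in `U` (edit of `MP_7d0410_sp/B_LAW.lean`). -/
def Stmt_VLW.{u} : Prop := ∀ {Ω : Type u} [MeasurableSpace Ω] (μ : Measure Ω)
  [IsProbabilityMeasure μ] (E : ℕ → Set Ω) (w : ℕ → ℝ), SVW w → SpV μ E w →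
  ∀ U : Finset ℕ, (∀ m ∈ U, 2 ≤ m) → ∀ A : Finset ℕ → Prop,
  MeasurableSet {ω | A (U.filter (fun m => m ∈ primesPlus E ω))} ∧
    μ.real {ω | A (U.filter (fun m => m ∈ primesPlus E ω))} = Pb (pw w) U A

/-- VBC: concentration along the subsequence `j ^ AA ε` (edit of `MP_7d0410_sp/B_BCL.lean` or
`MP_7d0410_cr/B_BCL.lean`, with `VLW` and `Stmt_VAR` of `MP_7d0410_sp`, proved there). -/
def Stmt_VBC.{u} : Prop := ∀ {Ω : Type u} [MeasurableSpace Ω] (μ : Measure Ω)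
  [IsProbabilityMeasure μ] (E : ℕ → Set Ω) (w : ℕ → ℝ), SVW w → SpV μ E w →
  ∀ ε : ℝ, 0 < ε → ε < 1 / 4 → ∀ k : ℕ,
  ∀ᵐ ω ∂μ, Tendsto (fun j : ℕ => ((DD (R0 ε (j ^ AA ε)) (GG (j ^ AA ε))
      (SS ε (j ^ AA ε) (primesPlus E ω)) (j ^ AA ε) k : ℝ) -
    Ex (pw w) (UU ε (j ^ AA ε))
      (fun S => (DD (R0 ε (j ^ AA ε)) (GG (j ^ AA ε)) S (j ^ AA ε) k : ℝ))) /
    ((j ^ AA ε : ℕ) : ℝ)) atTop (𝓝 0)

/-- VCG: the counting function (edit of `MP_7d0410_sp/B_CRG.lean`). The number of primes `≤ y` is at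
most `3 y/log y` for large `y`, the number `N` of the other elements of `primesPlus E ω` in `[2, y]`
has the mean at most `∑_(m ≤ y) w m ≤ y/(4 log y)` for large `y` (`SVW.small`: `√y` terms are at
most `1`, the others at most `(1/10)/log m ≤ 1/(5 log y)`), and by `VLW` and `CHU` (applied to the
non-primes in `[2, y]`, `Pb_inter`) `μ (N ≥ y/log y) ≤ exp (-y/(2 log y))`, which is summable over
`y`; Borel and Cantelli. -/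
def Stmt_VCG.{u} : Prop := ∀ {Ω : Type u} [MeasurableSpace Ω] (μ : Measure Ω)
  [IsProbabilityMeasure μ] (E : ℕ → Set Ω) (w : ℕ → ℝ), SVW w → SpV μ E w →
  ∀ᵐ ω ∂μ, CountReg (primesPlus E ω)

/-- VBA: few bad values (edit of `MP_7d0410_cr/B_BAD.lean`). `Stmt_BD1`, `Stmt_BD2`, `Stmt_BD3` of
`MP_7d0410_cr` are proved (`p_BD1`, `p_BD2`, `p_BD3`): the number of `n` is at most
`100 ε x + 200 ε x` plus the number of `q ∈ runs (PP P x)` with `sm ≤ x` and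
`q.1 + GG x * len < q.2`, and this number is at most `x (1 + log x)/GG x ≤ ε x` by `Stmt_NCR` of
`MP_7d0410_sp` (see `VNC`). -/
def Stmt_VBA : Prop := ∀ P : Set ℕ, (∀ m ∈ P, 1 ≤ m) → CountReg P → ∀ ε : ℝ, 0 < ε →
  ε < 1 / 4 → ∀ᶠ x : ℕ in atTop,
  (((Finset.Icc 1 x).filter (fun n => repCount P n ≠ cnt (R0 ε x) (GG x) (SS ε x P) n)).card : ℝ) ≤
    400 * ε * x

/-- VFI: the theorem (edit of `MP_7d0410_cr/B_FIN.lean`, with `VLM`, `VBC`, `VCG`, `VBA` and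
`Stmt_INT` of `MP_7d0410_cr`, proved there). -/
def Stmt_VFI.{u} : Prop := ∀ {Ω : Type u} [MeasurableSpace Ω] (μ : Measure Ω)
  [IsProbabilityMeasure μ] (E : ℕ → Set Ω) (w : ℕ → ℝ), SVW w → SpV μ E w → ∀ᵐ ω ∂μ, ∀ k : ℕ,
  Tendsto (fun x : ℕ =>
    (((Finset.Icc 1 x).filter (fun n => repCount (primesPlus E ω) n = k)).card : ℝ) / x)
    atTop (𝓝 (Real.log 2 ^ k / (2 * (k.factorial : ℝ))))

end Pool.Agent.Work.MP_7d0410_sp
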